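import Pool.Agent.H79.GDNP
import Pool.Agent.H78.GDk
import Pool.Agent.TM.CookLevin

/-!
# From the combinatorial reduction to NP-completeness of `GD_k`
-/

namespace Pool.Agent.H79.GD

open TMLib Polynomial N487b59b3 N68a2faeb N793a5b8e
open Pool.Agent.H78.GD (nB0 nN nB blk1 blk2 tri lit occ first piece1 path1 lv lu pieceC pieceU
  path2 sh piece3 path3 paths nV bound SatBy Dom EDisj)

/-- The list of literals of a formula. -/
def flat (φ : List Cl) : List (ℕ × Bool) := φ.flatMap fun c => [c.1, c.2.1, c.2.2]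

lemma length_flat (φ : List Cl) : (flat φ).length = 3 * φ.length := by
  induction φ with
  | nil => rfl
  | cons c φ ih =>
    have : flat (c :: φ) = c.1 :: c.2.1 :: c.2.2 :: flat φ := rfl
    rw [this]
    simp [ih]
    omega

lemma satBy_flat (φ : List Cl) (σ : ℕ → Bool) : SatBy (flat φ) σ ↔ ∀ c ∈ φ, Cl.holds σ c := by
  unfold SatBy
  rw [length_flat, Nat.mul_div_cancel_left _ (by norm_num)]
  induction φ with
  | nil => simp
  | cons c φ ih =>
    have e : flat (c :: φ) = c.1 :: c.2.1 :: c.2.2 :: flat φ := rfl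
    have e0 : ∀ n, lit (flat (c :: φ)) (n + 3) = lit (flat φ) n := fun n => by
      rw [e]; rfl
    rw [List.forall_mem_cons, ← ih, List.length_cons]
    constructor
    · intro h
      refine ⟨h 0 (by omega), fun i hi => ?_⟩
      have := h (i + 1) (by omega)
      rw [show 3 * (i + 1) = 3 * i + 3 by ring, show 3 * i + 3 + 1 = 3 * i + 1 + 3 by ring,
        show 3 * i + 3 + 2 = 3 * i + 2 + 3 by ring, e0, e0, e0] at this
      exact this
    · rintro ⟨h0, h⟩ i hi
      cases i with
      | zero => exact h0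
      | succ i =>
        have := h i (by omega)
        rw [show 3 * (i + 1) = 3 * i + 3 by ring, show 3 * i + 3 + 1 = 3 * i + 1 + 3 by ring,
          show 3 * i + 3 + 2 = 3 * i + 2 + 3 by ring, e0, e0, e0]
        exact this

/-! ### The reduction is computable in polynomial time -/

section ptime

variable {α : Type} [Enc α]

@[fun_prop] lemma ptime_flat {f : α → List Cl} (hf : PTime f) : PTime (fun x => flat (f x)) := by
  unfold flat; fun_prop

@[fun_prop] lemma ptime_nB0 (k : ℕ) {T : α → ℕ} (hT : PTime T) : PTime (fun x => nB0 k (T x)) := by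
  unfold nB0; fun_prop

@[fun_prop] lemma ptime_nN (k : ℕ) {T : α → ℕ} (hT : PTime T) : PTime (fun x => nN k (T x)) := by
  unfold nN; fun_prop

@[fun_prop] lemma ptime_nB (k : ℕ) {T : α → ℕ} (hT : PTime T) : PTime (fun x => nB k (T x)) := by
  unfold nB; fun_prop

@[fun_prop] lemma ptime_blk1 {T b : α → ℕ} (hT : PTime T) (hb : PTime b) :
    PTime (fun x => blk1 (T x) (b x)) := by
  unfold blk1; fun_prop

@[fun_prop] lemma ptime_blk2 {T b : α → ℕ} (hT : PTime T) (hb : PTime b) :
    PTime (fun x => blk2 (T x) (b x)) := by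
  unfold blk2; fun_prop

@[fun_prop] lemma ptime_tri {o : α → ℕ} (ho : PTime o) : PTime (fun x => tri (o x)) := by
  unfold tri; fun_prop

@[fun_prop] lemma ptime_lit1 {ls : α → List (ℕ × Bool)} {o : α → ℕ} (hl : PTime ls) (ho : PTime o) :
    PTime (fun x => (lit (ls x) (o x)).1) := by
  unfold lit; fun_prop

@[fun_prop] lemma ptime_lit2 {ls : α → List (ℕ × Bool)} {o : α → ℕ} (hl : PTime ls) (ho : PTime o) :
    PTime (fun x => (lit (ls x) (o x)).2) := by
  unfold lit; fun_prop

@[fun_prop] lemma ptime_lit {ls : α → List (ℕ × Bool)} {o : α → ℕ} (hl : PTime ls) (ho : PTime o) :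
    PTime (fun x => lit (ls x) (o x)) := by
  unfold lit; fun_prop

@[fun_prop] lemma ptime_occ {ls : α → List (ℕ × Bool)} {y : α → ℕ} (hl : PTime ls) (hy : PTime y) :
    PTime (fun x => occ (ls x) (y x)) := by
  unfold occ; fun_prop

@[fun_prop] lemma ptime_first {ls : α → List (ℕ × Bool)} {o : α → ℕ} (hl : PTime ls) (ho : PTime o) :
    PTime (fun x => first (ls x) (o x)) := by
  unfold first; fun_prop

@[fun_prop] lemma ptime_piece1 {ls : α → List (ℕ × Bool)} {o : α → ℕ} (hl : PTime ls)
    (ho : PTime o) : PTime (fun x => piece1 (ls x) (o x)) := by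
  unfold piece1; fun_prop

@[fun_prop] lemma ptime_path1 (k : ℕ) {ls : α → List (ℕ × Bool)} (hl : PTime ls) :
    PTime (fun x => path1 k (ls x)) := by
  unfold path1; fun_prop

@[fun_prop] lemma ptime_lv {ls : α → List (ℕ × Bool)} {o : α → ℕ} (hl : PTime ls)
    (ho : PTime o) : PTime (fun x => lv (ls x) (o x)) := by
  unfold lv; fun_prop

@[fun_prop] lemma ptime_lu {ls : α → List (ℕ × Bool)} {o : α → ℕ} (hl : PTime ls)
    (ho : PTime o) : PTime (fun x => lu (ls x) (o x)) := by
  unfold lu; fun_prop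

@[fun_prop] lemma ptime_pieceC {ls : α → List (ℕ × Bool)} {o : α → ℕ} (hl : PTime ls)
    (ho : PTime o) : PTime (fun x => pieceC (ls x) (o x)) := by
  unfold pieceC; fun_prop

@[fun_prop] lemma ptime_pieceU {ls : α → List (ℕ × Bool)} {o : α → ℕ} (hl : PTime ls)
    (ho : PTime o) : PTime (fun x => pieceU (ls x) (o x)) := by
  unfold pieceU; fun_prop

@[fun_prop] lemma ptime_path2 (k : ℕ) {ls : α → List (ℕ × Bool)} (hl : PTime ls) :
    PTime (fun x => path2 k (ls x)) := by
  unfold path2; fun_prop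

@[fun_prop] lemma ptime_sh {N t j : α → ℕ} (hN : PTime N) (ht : PTime t) (hj : PTime j) :
    PTime (fun x => sh (N x) (t x) (j x)) := by
  unfold sh; fun_prop

@[fun_prop] lemma ptime_piece3 {N t j : α → ℕ} (hN : PTime N) (hj : PTime j) (ht : PTime t) :
    PTime (fun x => piece3 (N x) (j x) (t x)) := by
  unfold piece3; fun_prop

@[fun_prop] lemma ptime_path3 {N j : α → ℕ} (hN : PTime N) (hj : PTime j) :
    PTime (fun x => path3 (N x) (j x)) := by
  unfold path3; fun_prop

@[fun_prop] lemma ptime_paths (k : ℕ) {ls : α → List (ℕ × Bool)} (hl : PTime ls) :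
    PTime (fun x => paths k (ls x)) := by
  unfold paths; fun_prop

@[fun_prop] lemma ptime_nV (k : ℕ) {ls : α → List (ℕ × Bool)} (hl : PTime ls) :
    PTime (fun x => nV k (ls x)) := by
  unfold nV; fun_prop

@[fun_prop] lemma ptime_bound (k : ℕ) {ls : α → List (ℕ × Bool)} (hl : PTime ls) :
    PTime (fun x => bound k (ls x)) := by
  unfold bound; fun_prop

end ptime

/-! ### The statement on graphs -/

lemma valid_paths (k : ℕ) (hk : 2 ≤ k) (ls : List (ℕ × Bool)) (h3 : 3 ∣ ls.length) :
    Valid k (nV k ls) (paths k ls) := by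
  have hperm := Pool.Agent.H78.GD.paths_perm k hk ls h3
  refine ⟨Pool.Agent.H78.GD.paths_length k hk ls, hperm, ?_⟩
  have h := Pool.Agent.H78.GD.paths_edisj k hk ls h3
  rw [List.pairwise_iff_getElem] at h ⊢
  intro i j hi hj hij
  have h1 := h i j hi hj hij
  rw [disjoint_iff_disj (hperm _ (List.getElem_mem _)) (hperm _ (List.getElem_mem _))]
  rintro ⟨u, v⟩ huv
  have h2 := h1 u v (mem_edges.1 huv)
  exact ⟨fun h => h2.1 (mem_edges.1 h), fun h => h2.2 (mem_edges.1 h)⟩

lemma globalDomLE_iff {n : ℕ} {ps : List (List ℕ)} (hperm : ∀ p ∈ ps, p.Perm (List.range n))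
    (M : ℕ) : GlobalDomLE n ps M ↔
      ∃ D : Finset ℕ, (∀ v ∈ D, v < n) ∧ D.card ≤ M ∧ ∀ p ∈ ps, Dom D p := by
  classical
  constructor
  · rintro ⟨D, hD, h⟩
    refine ⟨D.image Fin.val, ?_, ?_, fun p hp v hv => ?_⟩
    · intro v hv
      obtain ⟨w, -, rfl⟩ := Finset.mem_image.1 hv
      exact w.isLt
    · exact Finset.card_image_le.trans hD
    · have hvn : v < n := by simpa using (hperm p hp).mem_iff.1 hv
      by_cases hvD : (⟨v, hvn⟩ : Fin n) ∈ D
      · exact Or.inl (Finset.mem_image.2 ⟨_, hvD, rfl⟩)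
      · obtain ⟨u, hu, huv⟩ := h p hp _ hvD
        rw [factor_adj ((hperm p hp).nodup_iff.2 List.nodup_range)] at huv
        refine Or.inr ⟨u.val, Finset.mem_image.2 ⟨u, hu, rfl⟩, ?_⟩
        rcases huv with huv | huv
        · exact Or.inr (mem_edges.1 huv)
        · exact Or.inl (mem_edges.1 huv)
  · rintro ⟨D, hlt, hD, h⟩
    refine ⟨Finset.univ.filter fun v : Fin n => v.val ∈ D, ?_, fun p hp v hv => ?_⟩
    · refine (Finset.card_le_card_of_injOn (fun v => v.val) (fun v hv => ?_)
        (fun a _ b _ h => Fin.ext h)).trans hD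
      simpa using hv
    · have hv' : v.val ∉ D := by simpa using hv
      have hvp : v.val ∈ p := (hperm p hp).mem_iff.2 (by simp)
      rcases h p hp v.val hvp with h | ⟨u, hu, huv⟩
      · exact absurd h hv'
      · refine ⟨⟨u, hlt u hu⟩, by simpa using hu, ?_⟩
        rw [factor_adj ((hperm p hp).nodup_iff.2 List.nodup_range)]
        rcases huv with huv | huv
        · exact Or.inr (mem_edges.2 huv)
        · exact Or.inl (mem_edges.2 huv)

/-- The prelude encoding of instances is injective. -/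
lemma encode_injective : Function.Injective
    (fun q : ℕ × List (List ℕ) × ℕ => bitEncode q) := bitEncode_injective

/-- **`GD_k` is NP-complete for every `k ≥ 2`.** -/
theorem isCompleteFor_problem (k : ℕ) (hk : 2 ≤ k) : IsCompleteFor NP (problem k) := by
  classical
  refine ⟨problem_mem_NP k (by omega), hard_of_sat
    (g := fun φ => bitEncode (nV k (flat φ), paths k (flat φ), bound k (flat φ))) ?_ fun φ => ?_⟩
  · fun_prop
  · have h3 : 3 ∣ (flat φ).length := ⟨φ.length, length_flat φ⟩
    have hperm := Pool.Agent.H78.GD.paths_perm k hk (flat φ) h3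
    have key : Sat φ ↔ GlobalDomLE (nV k (flat φ)) (paths k (flat φ)) (bound k (flat φ)) := by
      rw [globalDomLE_iff hperm, Pool.Agent.H78.GD.gd_iff_sat k hk (flat φ) h3]
      exact exists_congr fun σ => (satBy_flat φ σ).symm
    rw [key]
    simp only [problem, decide_eq_true_eq]
    constructor
    · intro h
      exact ⟨_, _, _, rfl, valid_paths k hk _ h3, h⟩
    · rintro ⟨n, ps, M, he, -, h⟩
      have := encode_injective he
      simp only [Prod.mk.injEq] at this
      obtain ⟨rfl, rfl, rfl⟩ := this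
      exact h

end Pool.Agent.H79.GD
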