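import Mathlib

/-!
# The distillation lemma of Fortnow and Santhanam (combinatorial part)
-/

namespace FS

open Finset

variable {α Y : Type} [DecidableEq α] [DecidableEq Y]

/-- One step: some value `z` is hit by tuples covering at least half of `B`. -/
lemma step {t : ℕ} (ht : 0 < t) (F : (Fin t → α) → Y) (Ys : Finset Y) (hY : Ys.card ≤ 2 ^ t)
    (B : Finset α) (hB : B.Nonempty)
    (hF : ∀ x : Fin t → α, (∀ i, x i ∈ B) → F x ∈ Ys) :
    ∃ C ⊆ B, B.card ≤ 2 * C.card ∧ ∃ z, (∃ x : Fin t → α, (∀ i, x i ∈ B) ∧ F x = z) ∧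
      ∀ c ∈ C, ∃ x : Fin t → α, (∀ i, x i ∈ B) ∧ (∃ i, x i = c) ∧ F x = z := by
  classical
  let P := Fintype.piFinset (fun _ : Fin t => B)
  have hP : P.card = B.card ^ t := by simp [P, Fintype.card_piFinset]
  have hPne : P.Nonempty := by
    obtain ⟨b, hb⟩ := hB
    exact ⟨fun _ => b, by simp [P, Fintype.mem_piFinset, hb]⟩
  have hmap : ∀ x ∈ P, F x ∈ Ys := fun x hx => hF x (fun i => by
    simpa using (Fintype.mem_piFinset.1 hx) i)
  have hYne : Ys.Nonempty := ⟨_, hmap _ hPne.choose_spec⟩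
  obtain ⟨z, hz, hz'⟩ : ∃ z ∈ Ys, P.card ≤ 2 ^ t * (P.filter fun x => F x = z).card := by
    by_contra hcon
    push Not at hcon
    have h1 : P.card = ∑ z ∈ Ys, (P.filter fun x => F x = z).card :=
      Finset.card_eq_sum_card_fiberwise hmap
    have h2 : 2 ^ t * P.card < Ys.card * P.card := by
      calc 2 ^ t * P.card = ∑ z ∈ Ys, 2 ^ t * (P.filter fun x => F x = z).card := by
            rw [h1, Finset.mul_sum]
        _ < ∑ z ∈ Ys, P.card := Finset.sum_lt_sum_of_nonempty hYne hcon
        _ = Ys.card * P.card := by simp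
    have h3 := Nat.mul_le_mul_right P.card hY
    omega
  let C := B.filter fun c => ∃ x : Fin t → α, (∀ i, x i ∈ B) ∧ (∃ i, x i = c) ∧ F x = z
  have hsub : (P.filter fun x => F x = z) ⊆ Fintype.piFinset (fun _ : Fin t => C) := by
    intro x hx
    rw [Finset.mem_filter] at hx
    have hxB : ∀ i, x i ∈ B := fun i => by simpa using (Fintype.mem_piFinset.1 hx.1) i
    rw [Fintype.mem_piFinset]
    intro i
    exact Finset.mem_filter.2 ⟨hxB i, x, hxB, ⟨i, rfl⟩, hx.2⟩
  have hcard := Finset.card_le_card hsub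
  rw [Fintype.card_piFinset] at hcard
  simp only [Finset.prod_const, Finset.card_univ, Fintype.card_fin] at hcard
  refine ⟨C, Finset.filter_subset _ _, ?_, z, ?_, fun c hc => (Finset.mem_filter.1 hc).2⟩
  · have h1 : B.card ^ t ≤ (2 * C.card) ^ t := by
      rw [← hP, Nat.mul_pow]
      exact hz'.trans (Nat.mul_le_mul_left _ hcard)
    exact (Nat.pow_le_pow_iff_left ht.ne').1 h1
  · have hpos : 0 < (P.filter fun x => F x = z).card := by
      rcases Nat.eq_zero_or_pos (P.filter fun x => F x = z).card with h | h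
      · rw [h, Nat.mul_zero] at hz'
        have := hPne.card_pos
        omega
      · exact h
    obtain ⟨x, hx⟩ := Finset.card_pos.1 hpos
    rw [Finset.mem_filter] at hx
    exact ⟨x, fun i => by simpa using (Fintype.mem_piFinset.1 hx.1) i, hx.2⟩

/-- **Distillation lemma.** If all `t`-tuples from `A` are mapped to at most `2 ^ t` values, then
`k` values suffice to cover all elements of `A`, where `A.card < 2 ^ k`. -/
theorem cover {t : ℕ} (ht : 0 < t) (F : (Fin t → α) → Y) (Ys : Finset Y) (hY : Ys.card ≤ 2 ^ t)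
    (A : Finset α) (hF : ∀ x : Fin t → α, (∀ i, x i ∈ A) → F x ∈ Ys) :
    ∀ (k : ℕ) (B : Finset α), B ⊆ A → B.card < 2 ^ k → ∃ S : Finset Y, S.card ≤ k ∧
      (∀ z ∈ S, ∃ x : Fin t → α, (∀ i, x i ∈ A) ∧ F x = z) ∧
      ∀ b ∈ B, ∃ x : Fin t → α, (∀ i, x i ∈ A) ∧ (∃ i, x i = b) ∧ F x ∈ S := by
  intro k
  induction k with
  | zero =>
    intro B _ hB
    have : B = ∅ := by
      rw [← Finset.card_eq_zero]
      simpa using hB
    subst this
    exact ⟨∅, by simp, by simp, by simp⟩
  | succ k ih =>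
    intro B hBA hB
    rcases B.eq_empty_or_nonempty with rfl | hne
    · exact ⟨∅, by simp, by simp, by simp⟩
    obtain ⟨C, hCB, hC, z, ⟨x0, hx0, hx0'⟩, hz⟩ := step ht F Ys hY B hne
      (fun x hx => hF x fun i => hBA (hx i))
    have h1 : (B \ C).card < 2 ^ k := by
      have := Finset.card_sdiff_add_card_eq_card hCB
      rw [pow_succ] at hB
      omega
    obtain ⟨S, hS1, hS2, hS3⟩ := ih (B \ C) (Finset.sdiff_subset.trans hBA) h1
    refine ⟨insert z S, ?_, ?_, ?_⟩
    · exact (Finset.card_insert_le _ _).trans (by omega)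
    · intro y hy
      rcases Finset.mem_insert.1 hy with rfl | hy
      · exact ⟨x0, fun i => hBA (hx0 i), hx0'⟩
      · exact hS2 y hy
    · intro b hb
      by_cases hbC : b ∈ C
      · obtain ⟨x, h1, h2, h3⟩ := hz b hbC
        exact ⟨x, fun i => hBA (h1 i), h2, by rw [h3]; exact Finset.mem_insert_self _ _⟩
      · obtain ⟨x, h1, h2, h3⟩ := hS3 b (Finset.mem_sdiff.2 ⟨hb, hbC⟩)
        exact ⟨x, h1, h2, Finset.mem_insert_of_mem h3⟩

/-- The bit strings of length `n`. -/
def strs (n : ℕ) : Finset (List Bool) :=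
  (Finset.univ : Finset (Fin n → Bool)).image List.ofFn

lemma mem_strs {n : ℕ} {x : List Bool} : x ∈ strs n ↔ x.length = n := by
  constructor
  · intro h
    obtain ⟨f, -, rfl⟩ := Finset.mem_image.1 h
    simp
  · rintro rfl
    exact Finset.mem_image.2 ⟨fun i => x[i], Finset.mem_univ _, by simp⟩

lemma card_strs_le (n : ℕ) : (strs n).card ≤ 2 ^ n :=
  Finset.card_image_le.trans (by simp)

/-- The bit strings of length less than `t`. -/
def strsLt (t : ℕ) : Finset (List Bool) := (Finset.range t).biUnion strs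

lemma mem_strsLt {t : ℕ} {x : List Bool} : x ∈ strsLt t ↔ x.length < t := by
  simp [strsLt, mem_strs]

lemma card_strsLt_le (t : ℕ) : (strsLt t).card ≤ 2 ^ t := by
  refine Finset.card_biUnion_le.trans ((Finset.sum_le_sum fun i _ => card_strs_le i).trans ?_)
  have := Nat.geomSum_lt (m := 2) (n := t) (s := Finset.range t) le_rfl (by simp)
  omega

end FS
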