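import Pool.Prelude.Def_F_458e953d

/-!
# The decision problem `GD_k`: global domination of `k` Hamiltonian path factors

An instance is a number `n` of vertices (the vertex set is `Fin n`), a list of `k` paths, each
given by the list of its vertices in the order in which the path visits them, and a bound `M`.
-/

namespace Pool.Agent.H79.GD

/-- The factor given by a list `p` of vertices: `u` and `v` are adjacent when they are consecutive
in `p`, in one order or the other. -/
def factor (n : ℕ) (p : List ℕ) : SimpleGraph (Fin n) :=
  SimpleGraph.fromRel fun u v : Fin n => [u.val, v.val] <:+: p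

/-- `ps` is a list of `k` pairwise edge-disjoint Hamiltonian paths on the vertex set `Fin n`:
each list visits every vertex exactly once, and no two of the paths share an edge. -/
def Valid (k n : ℕ) (ps : List (List ℕ)) : Prop :=
  ps.length = k ∧ (∀ p ∈ ps, p.Perm (List.range n)) ∧
    ps.Pairwise fun p q => Disjoint (factor n p) (factor n q)

/-- The global domination number of the factors is at most `M`: some set of at most `M` vertices
dominates every factor. -/
def GlobalDomLE (n : ℕ) (ps : List (List ℕ)) (M : ℕ) : Prop :=
  ∃ D : Finset (Fin n), D.card ≤ M ∧ ∀ p ∈ ps, ∀ v, v ∉ D → ∃ u ∈ D, (factor n p).Adj v u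

open Classical in
/-- The decision problem `GD_k`, as a set of bit strings: the codes `(n, ps, M)` of instances
whose global domination number is at most `M` (standard binary code of the prelude). -/
noncomputable def problem (k : ℕ) : N68a2faeb.DecisionProblem := fun x =>
  decide (∃ (n : ℕ) (ps : List (List ℕ)) (M : ℕ), x = N487b59b3.bitEncode (n, ps, M) ∧
    Valid k n ps ∧ GlobalDomLE n ps M)

end Pool.Agent.H79.GD
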