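import Pool.Agent.TM.BitEnc
import Pool.Agent.TM.Cert
import Pool.Agent.H79.GDDefs

/-!
# `GD_k` is in `NP`
-/

namespace Pool.Agent.H79.GD

open TMLib Polynomial N487b59b3 N68a2faeb

/-- Consecutive pairs of a list. -/
def edges (p : List ℕ) : List (ℕ × ℕ) := p.zip p.tail

lemma mem_edges {p : List ℕ} {u v : ℕ} : (u, v) ∈ edges p ↔ [u, v] <:+: p := by
  unfold edges
  induction p with
  | nil => simp
  | cons a p ih =>
    cases p with
    | nil =>
      simp only [List.tail_cons, List.zip_nil_right, List.not_mem_nil, false_iff]
      intro h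
      have := h.length_le
      simp at this
    | cons b p =>
      rw [List.tail_cons, List.zip_cons_cons, List.mem_cons, List.infix_cons_iff]
      rw [List.tail_cons] at ih
      rw [ih]
      refine or_congr ?_ Iff.rfl
      constructor
      · intro h
        simp only [Prod.mk.injEq] at h
        obtain ⟨rfl, rfl⟩ := h
        exact ⟨p, rfl⟩
      · rintro ⟨t, ht⟩
        simp only [List.cons_append, List.nil_append, List.cons.injEq] at ht
        rw [ht.1, ht.2.1]

@[fun_prop] lemma ptime_edges {α : Type} [Enc α] {f : α → List ℕ} (hf : PTime f) :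
    PTime (fun x => edges (f x)) := by
  unfold edges; fun_prop

/-- Value of a binary number, lowest bit first. -/
def bval (l : List Bool) : ℕ := l.foldr (fun b v => 2 * v + if b = true then 1 else 0) 0

/-- Value of a binary number (lowest bit first), capped at `c`. -/
def capVal (c : ℕ) (l : List Bool) : ℕ :=
  l.reverse.foldl (fun v b => min c (2 * v + if b = true then 1 else 0)) 0

/-- No leading zero. -/
def canon (l : List Bool) : Prop := l.reverse.headD true = true

instance : DecidablePred canon := fun l => inferInstanceAs (Decidable (l.reverse.headD true = true))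

lemma capVal_eq (c : ℕ) (l : List Bool) : capVal c l = min c (bval l) := by
  unfold capVal bval
  rw [List.foldl_reverse]
  induction l with
  | nil => simp
  | cons b l ih =>
    simp only [List.foldr_cons, ih]
    split_ifs <;> omega

lemma bits_even {m : ℕ} (hm : m ≠ 0) : (2 * m).bits = false :: m.bits := Nat.bit0_bits m hm
lemma bits_odd (m : ℕ) : (2 * m + 1).bits = true :: m.bits := Nat.bit1_bits m

lemma bval_bits (n : ℕ) : bval n.bits = n := by
  induction n using Nat.strong_induction_on with
  | _ n ih =>
    rcases Nat.eq_zero_or_pos n with rfl | hn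
    · simp [bval]
    · rcases Nat.even_or_odd' n with ⟨m, rfl | rfl⟩
      · have hm : m ≠ 0 := by omega
        rw [bits_even hm]
        have := ih m (by omega)
        unfold bval at this ⊢
        simp [this]
      · rw [bits_odd]
        have := ih m (by omega)
        unfold bval at this ⊢
        simp [this]

lemma canon_cons {b : Bool} {l : List Bool} (hl : l ≠ []) : canon (b :: l) ↔ canon l := by
  unfold canon
  have : l.reverse ≠ [] := by simpa using hl
  obtain ⟨a, t, ht⟩ := List.exists_cons_of_ne_nil this
  simp [ht]

lemma bits_ne_nil {m : ℕ} (hm : m ≠ 0) : m.bits ≠ [] := by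
  intro h
  have := bval_bits m
  rw [h] at this
  exact hm this.symm

lemma canon_bits (n : ℕ) : canon n.bits := by
  induction n using Nat.strong_induction_on with
  | _ n ih =>
    rcases Nat.eq_zero_or_pos n with rfl | hn
    · simp [canon]
    · rcases Nat.even_or_odd' n with ⟨m, rfl | rfl⟩
      · have hm : m ≠ 0 := by omega
        rw [bits_even hm, canon_cons (bits_ne_nil hm)]
        exact ih m (by omega)
      · rw [bits_odd]
        by_cases hm : m = 0
        · subst hm; simp [canon]
        · rw [canon_cons (bits_ne_nil hm)]
          exact ih m (by omega)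

lemma bits_bval {l : List Bool} (h : canon l) : (bval l).bits = l := by
  induction l with
  | nil => simp [bval]
  | cons b l ih =>
    by_cases hl : l = []
    · subst hl
      simp only [canon, List.reverse_cons, List.reverse_nil, List.nil_append, List.headD_cons] at h
      subst h
      simp [bval]
    · rw [canon_cons hl] at h
      have h1 := ih h
      have h2 : bval l ≠ 0 := by
        intro h0
        rw [h0] at h1
        exact hl (by simpa using h1.symm)
      cases b with
      | false =>
        have : bval (false :: l) = 2 * bval l := by simp [bval]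
        rw [this, bits_even h2, h1]
      | true =>
        have : bval (true :: l) = 2 * bval l + 1 := by simp [bval]
        rw [this, bits_odd, h1]

@[fun_prop] lemma ptime_capVal {α : Type} [Enc α] {c : α → ℕ} {l : α → List Bool} (hc : PTime c)
    (hl : PTime l) : PTime (fun x => capVal (c x) (l x)) := by
  have h := PTime.foldl (f := fun (p : ℕ × List Bool) v b => min p.1 (2 * v + if b = true then 1 else 0))
    (init := fun _ => 0) (l := fun p : ℕ × List Bool => p.2.reverse) (by fun_prop) (by fun_prop)
    (by fun_prop) (h := fun p => sz p) PB.sz_self (fun p l' _ => by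
      rcases List.eq_nil_or_concat l' with rfl | ⟨l'', b, rfl⟩
      · simp
        omega
      · rw [List.concat_eq_append, List.foldl_append]
        simp only [List.foldl_cons, List.foldl_nil, sz_nat, sz_pair]
        omega)
  exact h.comp (f := fun x => (c x, l x)) (by fun_prop)

@[fun_prop] lemma ptime_canon {α : Type} [Enc α] {l : α → List Bool} (hl : PTime l) :
    PTime (fun x => decide (canon (l x))) := by
  have h : PTime (fun x => decide (((l x).reverse.head?).getD true = true)) := by fun_prop
  refine h.congr fun x => ?_
  rw [decide_eq_decide, canon]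
  generalize (l x).reverse = l
  cases l <;> rfl

/-- Certificate: vertices, paths, bits of the bound, dominating set. -/
abbrev Cert := (ℕ × List (List ℕ)) × List Bool × List ℕ

/-- The encoding is right. -/
def check1 (x : List Bool) (b : Cert) : Prop :=
  x = delimit (bitEncode b.1.1) ++ (delimit (bitEncode b.1.2) ++ b.2.1) ∧ canon b.2.1 ∧
  b.2.2.length ≤ capVal b.2.2.length b.2.1

/-- All lists are Hamiltonian paths. -/
def check2 (k : ℕ) (b : Cert) : Prop :=
  b.1.2.length = k ∧ (∀ p ∈ b.1.2, p.length = b.1.1 ∧ ∀ v ∈ List.range b.1.1, v ∈ p)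

/-- The paths `p`, `q` are edge-disjoint. -/
def disj (p q : List ℕ) : Prop := ∀ e ∈ edges p, e ∉ edges q ∧ (e.2, e.1) ∉ edges q

/-- The paths are edge-disjoint. -/
def check3 (b : Cert) : Prop :=
  ∀ i ∈ List.range b.1.2.length, ∀ j ∈ List.range b.1.2.length, ¬ (i < j) ∨
    disj (b.1.2[i]?.getD []) (b.1.2[j]?.getD [])

/-- `v` is dominated in `p`. -/
def dmt (D p : List ℕ) (v : ℕ) : Prop := v ∈ D ∨ ∃ u ∈ D, (u, v) ∈ edges p ∨ (v, u) ∈ edges p

/-- The set dominates. -/
def check4 (b : Cert) : Prop :=
  (∀ v ∈ b.2.2, v < b.1.1) ∧ ∀ p ∈ b.1.2, ∀ v ∈ List.range b.1.1, dmt b.2.2 p v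

instance (x : List Bool) (b : Cert) : Decidable (check1 x b) := by
  unfold check1; infer_instance
instance (k : ℕ) (b : Cert) : Decidable (check2 k b) := by unfold check2; infer_instance
instance (p q : List ℕ) : Decidable (disj p q) := by unfold disj; infer_instance
instance (b : Cert) : Decidable (check3 b) := by unfold check3; infer_instance
instance (D p : List ℕ) (v : ℕ) : Decidable (dmt D p v) := by unfold dmt; infer_instance
instance (b : Cert) : Decidable (check4 b) := by unfold check4; infer_instance

@[fun_prop] lemma ptime_disj {α : Type} [Enc α] {p q : α → List ℕ} (hp : PTime p) (hq : PTime q) :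
    PTime (fun x => decide (disj (p x) (q x))) := by
  unfold disj; fun_prop

@[fun_prop] lemma ptime_dmt {α : Type} [Enc α] {D p : α → List ℕ} {v : α → ℕ} (hD : PTime D)
    (hp : PTime p) (hv : PTime v) : PTime (fun x => decide (dmt (D x) (p x) (v x))) := by
  unfold dmt; fun_prop

lemma ptime_check1 : PTime (fun p : List Bool × Cert => decide (check1 p.1 p.2)) := by
  unfold check1; fun_prop

lemma ptime_check2 (k : ℕ) : PTime (fun p : List Bool × Cert => decide (check2 k p.2)) := by
  unfold check2; fun_prop

lemma ptime_check3 : PTime (fun p : List Bool × Cert => decide (check3 p.2)) := by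
  unfold check3
  refine PTime.decide_forall_mem (by fun_prop) (PTime.decide_forall_mem (by fun_prop)
    (PTime.decide_or (by fun_prop) ?_))
  refine ptime_disj ?_ ?_
  · refine PTime.getD ?_ (by fun_prop)
    refine PTime.getElem? ?_ (by fun_prop)
    fun_prop
  · refine PTime.getD ?_ (by fun_prop)
    refine PTime.getElem? ?_ (by fun_prop)
    fun_prop

lemma ptime_check4 : PTime (fun p : List Bool × Cert => decide (check4 p.2)) := by
  unfold check4; fun_prop

/-! ### Correctness of the check -/

lemma factor_adj {n : ℕ} {p : List ℕ} (hp : p.Nodup) {u v : Fin n} :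
    (factor n p).Adj u v ↔ ((u.val, v.val) ∈ edges p ∨ (v.val, u.val) ∈ edges p) := by
  unfold factor
  rw [SimpleGraph.fromRel_adj, mem_edges, mem_edges]
  refine ⟨fun h => h.2, fun h => ⟨?_, h⟩⟩
  rintro rfl
  have h1 : [u.val, u.val] <:+: p := by
    rcases h with h | h <;> exact h
  have := hp.sublist h1.sublist
  simp at this

lemma perm_range_iff {p : List ℕ} {n : ℕ} :
    (p.length = n ∧ ∀ v ∈ List.range n, v ∈ p) ↔ p.Perm (List.range n) := by
  constructor
  · rintro ⟨h1, h2⟩
    have h3 : (List.range n).Subperm p := List.nodup_range.subperm h2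
    exact (h3.perm_of_length_le (by simp [h1])).symm
  · intro h
    exact ⟨by simpa using h.length_eq, fun v hv => h.mem_iff.2 hv⟩

lemma edge_lt {p : List ℕ} {n : ℕ} (hp : p.Perm (List.range n)) {e : ℕ × ℕ} (he : e ∈ edges p) :
    e.1 < n ∧ e.2 < n := by
  obtain ⟨u, v⟩ := e
  have h := (mem_edges.1 he).subset
  constructor
  · have := hp.mem_iff.1 (h (show u ∈ [u, v] by simp))
    simpa using this
  · have := hp.mem_iff.1 (h (show v ∈ [u, v] by simp))
    simpa using this

lemma disjoint_iff_disj {n : ℕ} {p q : List ℕ} (hp : p.Perm (List.range n))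
    (hq : q.Perm (List.range n)) : Disjoint (factor n p) (factor n q) ↔ disj p q := by
  have hp' : p.Nodup := hp.nodup_iff.2 List.nodup_range
  have hq' : q.Nodup := hq.nodup_iff.2 List.nodup_range
  rw [SimpleGraph.disjoint_left]
  constructor
  · intro h e he
    obtain ⟨h1, h2⟩ := edge_lt hp he
    have := h ⟨e.1, h1⟩ ⟨e.2, h2⟩ ((factor_adj hp').2 (Or.inl he))
    rw [factor_adj hq', not_or] at this
    exact this
  · intro h u v huv
    rw [factor_adj hp'] at huv
    rw [factor_adj hq', not_or]
    rcases huv with huv | huv
    · exact h _ huv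
    · exact (h _ huv).symm

lemma encode_eq (n : ℕ) (ps : List (List ℕ)) (M : ℕ) :
    bitEncode (n, ps, M) = delimit (bitEncode n) ++ (delimit (bitEncode ps) ++ M.bits) := by
  rw [← encodeNat_eq]; rfl

lemma length_le_bitEncode {α : Type} [N487b59b3 α] (l : List α) : l.length ≤ (bitEncode l).length := by
  have := length_le_length_flatten_delimit (l.map bitEncode)
  rw [List.length_map] at this
  exact this

lemma bitEncode_le_of_mem {α : Type} [N487b59b3 α] {a : α} {l : List α} (h : a ∈ l) :
    (bitEncode a).length ≤ (bitEncode l).length := by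
  have h1 : (delimit (bitEncode a)).Sublist (((l.map bitEncode).map delimit).flatten) :=
    List.sublist_flatten_of_mem (List.mem_map.2 ⟨_, List.mem_map.2 ⟨a, h, rfl⟩, rfl⟩)
  have h2 := h1.length_le
  rw [length_delimit] at h2
  change (bitEncode a).length ≤ (((l.map bitEncode).map delimit).flatten).length
  omega

/-- **`GD_k` is in `NP`.** -/
theorem problem_mem_NP (k : ℕ) (hk : 1 ≤ k) : problem k ∈ NP := by
  classical
  have hV : PTime (fun p : List Bool × Cert => decide (check1 p.1 p.2) && (decide (check2 k p.2) &&
      (decide (check3 p.2) && decide (check4 p.2)))) :=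
    PTime.and ptime_check1 (PTime.and (ptime_check2 k) (PTime.and ptime_check3 ptime_check4))
  refine mem_NP_cert (V := fun x b => decide (check1 x b) && (decide (check2 k b) &&
      (decide (check3 b) && decide (check4 b)))) hV
    (3 + (2 * X + 1) + (1 + C k * (1 + (1 + X * (1 + (2 * X + 1))))) + (1 + 4 * X) +
      (1 + X * (1 + (2 * X + 1)))) ?_ ?_
  · intro x b hb
    simp only [Bool.and_eq_true, decide_eq_true_eq] at hb
    obtain ⟨⟨e1, e2, e3⟩, ⟨e4, e5⟩, e6, e7, e8⟩ := hb
    obtain ⟨⟨n, ps⟩, mb, Dl⟩ := b
    simp only at e1 e2 e3 e4 e5 e6 e7 e8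
    have hperm : ∀ p ∈ ps, p.Perm (List.range n) := fun p hp => perm_range_iff.1 (e5 p hp)
    simp only [problem, decide_eq_true_eq]
    refine ⟨n, ps, bval mb, ?_, ⟨e4, hperm, ?_⟩, ?_⟩
    · rw [encode_eq, bits_bval e2, e1]
    · rw [List.pairwise_iff_getElem]
      intro i j hi hj hij
      have := (e6 i (List.mem_range.2 hi) j (List.mem_range.2 hj)).resolve_left (by simpa using hij)
      rw [disjoint_iff_disj (hperm _ (List.getElem_mem _)) (hperm _ (List.getElem_mem _))]
      simpa [List.getElem?_eq_getElem hi, List.getElem?_eq_getElem hj] using this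
    · refine ⟨Finset.univ.filter fun v : Fin n => v.val ∈ Dl, ?_, ?_⟩
      · have h1 : (Finset.univ.filter fun v : Fin n => v.val ∈ Dl).card ≤ Dl.toFinset.card :=
          Finset.card_le_card_of_injOn (fun v => v.val) (fun v hv => by simpa using hv)
            (fun a _ b _ h => Fin.ext h)
        have h2 := Dl.toFinset_card_le
        rw [capVal_eq] at e3
        omega
      · intro p hp v hv
        simp only [Finset.mem_filter, Finset.mem_univ, true_and] at hv
        rcases e8 p hp v.val (by simp) with h | ⟨u, hu, h⟩
        · exact absurd h hv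
        · refine ⟨⟨u, e7 u hu⟩, by simpa using hu, ?_⟩
          rw [factor_adj ((hperm p hp).nodup_iff.2 List.nodup_range)]
          exact h.symm
  · intro x hx
    simp only [problem, decide_eq_true_eq] at hx
    obtain ⟨n, ps, M, rfl, ⟨h1, h2, h3⟩, D, hD, hdom⟩ := hx
    set Dl : List ℕ := D.toList.map Fin.val with hDl
    have hDlen : Dl.length = D.card := by simp [hDl]
    have hDlt : ∀ v ∈ Dl, v < n := by
      intro v hv
      obtain ⟨w, -, rfl⟩ := List.mem_map.1 hv
      exact w.isLt
    refine ⟨((n, ps), M.bits, Dl), ?_, ?_⟩
    · obtain ⟨p, hp⟩ : ∃ p, p ∈ ps := List.exists_mem_of_length_pos (by omega)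
      have hN : n ≤ (bitEncode (n, ps, M)).length := by
        have a1 := length_le_bitEncode p
        have a2 := bitEncode_le_of_mem hp
        have a3 : p.length = n := by simpa using (h2 p hp).length_eq
        rw [encode_eq, List.length_append, List.length_append, length_delimit, length_delimit]
        omega
      have hMb : M.bits.length ≤ (bitEncode (n, ps, M)).length := by
        rw [encode_eq, List.length_append, List.length_append]
        omega
      generalize (bitEncode (n, ps, M)).length = N at hN hMb ⊢
      have s1 : sz ps ≤ 1 + k * (1 + (1 + N * (1 + (2 * N + 1)))) := by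
        refine sz_list_le _ _ _ h1.le fun q hq => ?_
        refine sz_list_le _ _ _ ?_ fun v hv => ?_
        · have : q.length = n := by simpa using (h2 q hq).length_eq
          omega
        · have := (h2 q hq).mem_iff.1 hv
          simp at this
          simp
          omega
      have s2 : sz M.bits ≤ 1 + 4 * N := (sz_bits_le _).trans (by omega)
      have s3 : sz Dl ≤ 1 + N * (1 + (2 * N + 1)) := by
        refine sz_list_le _ _ _ ?_ fun v hv => ?_
        · rw [hDlen]
          exact (Finset.card_le_univ D).trans (by simpa using hN)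
        · have := hDlt v hv
          simp
          omega
      have e3 : eval N (3 : ℕ[X]) = 3 := by simp
      have e2 : eval N (2 : ℕ[X]) = 2 := by simp
      have e4 : eval N (4 : ℕ[X]) = 4 := by simp
      have e1 : eval N (1 : ℕ[X]) = 1 := by simp
      simp only [sz_pair, sz_nat, eval_add, eval_mul, eval_X, eval_C, e1, e2, e3, e4]
      omega
    · simp only [Bool.and_eq_true, decide_eq_true_eq]
      refine ⟨⟨?_, canon_bits M, ?_⟩, ⟨h1, fun p hp => perm_range_iff.2 (h2 p hp)⟩, ?_, hDlt, ?_⟩
      · exact encode_eq n ps M
      · simp only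
        rw [capVal_eq, bval_bits, hDlen]
        omega
      · intro i hi j hj
        simp only [List.mem_range] at hi hj
        by_cases hij : i < j
        · right
          rw [List.pairwise_iff_getElem] at h3
          have := h3 i j hi hj hij
          rw [disjoint_iff_disj (h2 _ (List.getElem_mem _)) (h2 _ (List.getElem_mem _))] at this
          simpa [List.getElem?_eq_getElem hi, List.getElem?_eq_getElem hj] using this
        · exact Or.inl hij
      · intro p hp v hv
        simp only [List.mem_range] at hv
        by_cases hvD : (⟨v, hv⟩ : Fin n) ∈ D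
        · exact Or.inl (List.mem_map.2 ⟨⟨v, hv⟩, by simpa using hvD, rfl⟩)
        · obtain ⟨u, hu, huv⟩ := hdom p hp ⟨v, hv⟩ hvD
          refine Or.inr ⟨u.val, List.mem_map.2 ⟨u, by simpa using hu, rfl⟩, ?_⟩
          rw [factor_adj ((h2 p hp).nodup_iff.2 List.nodup_range)] at huv
          exact huv.symm

end Pool.Agent.H79.GD
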