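import Pool.Agent.H79.KerMix

/-!
# Joining many groups without triangles
-/

namespace KerJoin

open Finset KerCurve

variable {G τ : ℕ} {Q W : Type} [Fintype Q] [DecidableEq Q] [Fintype W] [DecidableEq W]

/-- Vertices of the joined graph. -/
abbrev JV (G : ℕ) (Q W : Type) := Fin G × ((Fin 3 × Q) ⊕ W)

/-- Colour of a vertex. -/
def jcol (κ : W → Fin 3) : (Fin 3 × Q) ⊕ W → Fin 3
  | .inl a => a.1
  | .inr w => κ w

/-- Position of a vertex. -/
def jpos (ps : W → Q) : (Fin 3 × Q) ⊕ W → Q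
  | .inl a => a.2
  | .inr w => ps w

/-- Adjacency in the joined graph. -/
def jadj (mx : Mix G Q τ) (κ : W → Fin 3) (ps : W → Q) (A : Fin G → W → W → Prop)
    (u v : JV G Q W) : Prop :=
  (u.1 = v.1 ∧ ∃ w w', u.2 = .inr w ∧ v.2 = .inr w' ∧ A u.1 w w') ∨
  (mx.rel (u.1, jpos ps u.2) (v.1, jpos ps v.2) ∧
    (jcol κ u.2 = jcol κ v.2 ∨ (u.2.isLeft = true ∧ v.2.isLeft = true)))

variable (mx : Mix G Q τ) (κ : W → Fin 3) (ps : W → Q) (A : Fin G → W → W → Prop)

omit [DecidableEq Q] [Fintype W] [DecidableEq W] in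
lemma jadj_symm (hs : ∀ g w w', A g w w' → A g w' w) {u v : JV G Q W}
    (h : jadj mx κ ps A u v) : jadj mx κ ps A v u := by
  rcases h with ⟨h1, w, w', h2, h3, h4⟩ | ⟨h1, h2⟩
  · exact Or.inl ⟨h1.symm, w', w, h3, h2, by rw [← h1]; exact hs _ _ _ h4⟩
  · exact Or.inr ⟨mx.symm _ _ h1, h2.imp Eq.symm fun h => ⟨h.2, h.1⟩⟩

omit [Fintype Q] [DecidableEq Q] [Fintype W] [DecidableEq W] in
lemma one_inner (hκ : ∀ g w w', A g w w' → κ w ≠ κ w') {u v x : JV G Q W}
    (h1 : u.1 = v.1 ∧ ∃ w w', u.2 = .inr w ∧ v.2 = .inr w' ∧ A u.1 w w')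
    (h2 : jcol κ v.2 = jcol κ x.2 ∨ (v.2.isLeft = true ∧ x.2.isLeft = true))
    (h3 : jcol κ u.2 = jcol κ x.2 ∨ (u.2.isLeft = true ∧ x.2.isLeft = true)) : False := by
  obtain ⟨-, w, w', e1, e2, h4⟩ := h1
  rw [e2] at h2
  rw [e1] at h3
  simp only [Sum.isLeft_inr, Bool.false_eq_true, false_and, or_false] at h2 h3
  exact hκ _ _ _ h4 (h3.trans h2.symm)

omit [DecidableEq Q] [Fintype W] [DecidableEq W] in
/-- The joined graph is triangle free. -/
theorem no_tri (hκ : ∀ g w w', A g w w' → κ w ≠ κ w') (hs : ∀ g w w', A g w w' → A g w' w)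
    (hA : ∀ g u v w, A g u v → A g v w → A g u w → False) {u v x : JV G Q W}
    (h1 : jadj mx κ ps A u v) (h2 : jadj mx κ ps A v x) (h3 : jadj mx κ ps A u x) : False := by
  have h1' := jadj_symm mx κ ps A hs h1
  have h2' := jadj_symm mx κ ps A hs h2
  have h3' := jadj_symm mx κ ps A hs h3
  rcases h1 with a1 | b1 <;> rcases h2 with a2 | b2 <;> rcases h3 with a3 | b3
  · obtain ⟨g1, w1, w2, e1, e2, q1⟩ := a1
    obtain ⟨g2, w3, w4, e3, e4, q2⟩ := a2
    obtain ⟨g3, w5, w6, e5, e6, q3⟩ := a3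
    rw [e2] at e3
    rw [e1] at e5
    rw [e4] at e6
    simp only [Sum.inr.injEq] at e3 e5 e6
    subst e3 e5 e6
    rw [← g1] at q2
    exact hA _ _ _ _ q1 q2 q3
  · exact mx.ne _ _ b3.1 (a1.1.trans a2.1)
  · exact mx.ne _ _ b2.1 (a1.1.symm.trans a3.1)
  · exact one_inner κ A hκ a1 b2.2 b3.2
  · exact mx.ne _ _ b1.1 (a3.1.trans a2.1.symm)
  · rcases h1' with c1 | d1
    · exact mx.ne _ _ b1.1 c1.1.symm
    · rcases h3' with c3 | d3
      · exact mx.ne _ _ b3.1 c3.1.symm
      · exact one_inner κ A hκ a2 d3.2 d1.2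
  · rcases h2' with c2 | d2
    · exact mx.ne _ _ b2.1 c2.1.symm
    · rcases h3' with c3 | d3
      · rcases h1' with c1 | d1
        · exact mx.ne _ _ b1.1 c1.1.symm
        · exact one_inner κ A hκ a3 d2.2 b1.2
      · exact mx.ne _ _ d3.1 a3.1.symm
  · exact mx.tri _ _ _ b1.1 b2.1 b3.1

/-- One large part at most. -/
lemma sum_le_of_one (τ B : ℕ) (f : Fin G → ℕ) (h : ∀ g g', g ≠ g' → f g ≤ τ ∨ f g' ≤ τ)
    (hB : ∀ g, f g ≤ B) : ∑ g, f g ≤ B + G * τ := by
  by_cases hex : ∃ g, τ < f g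
  · obtain ⟨g, hg⟩ := hex
    rw [← add_sum_erase _ _ (mem_univ g)]
    refine Nat.add_le_add (hB g) ?_
    refine (sum_le_sum (g := fun _ => τ) fun g' hg' => ?_).trans ?_
    · rcases h g g' (ne_of_mem_erase hg').symm with h | h
      · omega
      · exact h
    · rw [sum_const, card_erase_of_mem (mem_univ _), card_univ, Fintype.card_fin, smul_eq_mul]
      exact Nat.mul_le_mul_right _ (by omega)
  · push Not at hex
    refine (sum_le_sum fun g _ => hex g).trans ?_
    simp

/-- **Selection.** A large independent set contains a large independent set of a group. -/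
theorem select (hps : Function.Injective ps) (hW : (6 * G + 1) * τ + Fintype.card W ≤ Fintype.card Q)
    (I : Finset (JV G Q W)) (hI : ∀ u ∈ I, ∀ v ∈ I, ¬ jadj mx κ ps A u v) (k : ℕ) (hk : 0 < k)
    (hc : 3 * Fintype.card Q + k ≤ I.card) :
    ∃ g, ∃ J : Finset W, (∀ u ∈ J, ∀ v ∈ J, ¬ A g u v) ∧ k ≤ J.card := by
  classical
  let Z : Fin G → Fin 3 → Finset Q := fun g i => univ.filter fun q => (g, .inl (i, q)) ∈ I
  let H : Fin G → Fin 3 → Finset W := fun g i => univ.filter fun w => κ w = i ∧ (g, .inr w) ∈ I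
  let J : Fin G → Finset W := fun g => univ.filter fun w => (g, .inr w) ∈ I
  have hZmem : ∀ {g i q}, q ∈ Z g i → (g, Sum.inl (i, q)) ∈ I := fun h => (mem_filter.1 h).2
  have hHmem : ∀ {g i w}, w ∈ H g i → κ w = i ∧ (g, Sum.inr w) ∈ I := fun h => (mem_filter.1 h).2
  have hJ : ∀ g, (J g).card = ∑ i, (H g i).card := by
    intro g
    rw [card_eq_sum_card_fiberwise (f := κ) (t := univ) fun _ _ => mem_univ _]
    refine sum_congr rfl fun i _ => ?_
    congr 1
    ext w
    simp only [J, H, mem_filter, mem_univ, true_and]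
    tauto
  have hcard : I.card = ∑ g, ∑ i, (Z g i).card + ∑ g, (J g).card := by
    have e1 : I.card = (I.filter fun u => u.2.isLeft = true).card +
        (I.filter fun u => ¬ u.2.isLeft = true).card :=
      (card_filter_add_card_filter_not _).symm
    have e2 : (I.filter fun u => u.2.isLeft = true).card = ∑ g, ∑ i, (Z g i).card := by
      have : (I.filter fun u => u.2.isLeft = true) =
          ((univ : Finset (Fin G × Fin 3)).sigma fun a => Z a.1 a.2).image
            fun a => ((a.1.1, .inl (a.1.2, a.2)) : JV G Q W) := by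
        ext ⟨g, u⟩
        simp only [mem_filter, mem_image, mem_sigma, mem_univ, true_and]
        constructor
        · rintro ⟨h1, h2⟩
          cases u with
          | inl a => exact ⟨⟨(g, a.1), a.2⟩, mem_filter.2 ⟨mem_univ _, h1⟩, rfl⟩
          | inr w => simp at h2
        · rintro ⟨⟨⟨g', i⟩, q⟩, h1, h2⟩
          simp only [Prod.mk.injEq] at h2
          obtain ⟨rfl, rfl⟩ := h2
          exact ⟨hZmem h1, rfl⟩
      rw [this, card_image_of_injective, card_sigma]
      · rw [Fintype.sum_prod_type]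
      · rintro ⟨⟨g, i⟩, q⟩ ⟨⟨g', i'⟩, q'⟩ h
        simp only [Prod.mk.injEq, Sum.inl.injEq] at h
        obtain ⟨rfl, rfl, rfl⟩ := h
        rfl
    have e3 : (I.filter fun u => ¬ u.2.isLeft = true).card = ∑ g, (J g).card := by
      have : (I.filter fun u => ¬ u.2.isLeft = true) =
          ((univ : Finset (Fin G)).sigma fun a => J a).image
            fun a => ((a.1, .inr a.2) : JV G Q W) := by
        ext ⟨g, u⟩
        simp only [mem_filter, mem_image, mem_sigma, mem_univ, true_and]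
        constructor
        · rintro ⟨h1, h2⟩
          cases u with
          | inl a => simp at h2
          | inr w => exact ⟨⟨g, w⟩, mem_filter.2 ⟨mem_univ _, h1⟩, rfl⟩
        · rintro ⟨⟨g', w⟩, h1, h2⟩
          simp only [Prod.mk.injEq] at h2
          obtain ⟨rfl, rfl⟩ := h2
          exact ⟨(mem_filter.1 h1).2, by simp⟩
      rw [this, card_image_of_injective, card_sigma]
      rintro ⟨g, w⟩ ⟨g', w'⟩ h
      simp only [Prod.mk.injEq, Sum.inr.injEq] at h
      obtain ⟨rfl, rfl⟩ := h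
      rfl
    rw [e1, e2, e3]
  have cimg : ∀ g i, ((H g i).image ps).card = (H g i).card := fun g i =>
    card_image_of_injective _ hps
  have mZZ : ∀ g g' i i', g ≠ g' → (Z g i).card ≤ τ ∨ (Z g' i').card ≤ τ := by
    intro g g' i i' hg
    refine mx.mix g g' hg _ _ fun x hx y hy h => ?_
    exact hI _ (hZmem hx) _ (hZmem hy) (Or.inr ⟨h, Or.inr ⟨rfl, rfl⟩⟩)
  have mZH : ∀ g g' i, g ≠ g' → (Z g i).card ≤ τ ∨ (H g' i).card ≤ τ := by
    intro g g' i hg
    rw [← cimg]
    refine mx.mix g g' hg _ _ fun x hx y hy h => ?_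
    obtain ⟨w, hw, rfl⟩ := mem_image.1 hy
    exact hI _ (hZmem hx) _ (hHmem hw).2 (Or.inr ⟨h, Or.inl (hHmem hw).1.symm⟩)
  have mHH : ∀ g g' i, g ≠ g' → (H g i).card ≤ τ ∨ (H g' i).card ≤ τ := by
    intro g g' i hg
    rw [← cimg, ← cimg]
    refine mx.mix g g' hg _ _ fun x hx y hy h => ?_
    obtain ⟨w, hw, rfl⟩ := mem_image.1 hy
    obtain ⟨w', hw', rfl⟩ := mem_image.1 hx
    exact hI _ (hHmem hw').2 _ (hHmem hw).2
      (Or.inr ⟨h, Or.inl ((hHmem hw').1.trans (hHmem hw).1.symm)⟩)
  have hJind : ∀ g, ∀ u ∈ J g, ∀ v ∈ J g, ¬ A g u v := by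
    intro g u hu v hv h
    exact hI _ (mem_filter.1 hu).2 _ (mem_filter.1 hv).2 (Or.inl ⟨rfl, u, v, rfl, rfl, h⟩)
  by_cases hB : ∃ g0, ∀ i, τ < (Z g0 i).card
  · obtain ⟨g0, hg0⟩ := hB
    refine ⟨g0, J g0, hJind g0, ?_⟩
    have hZ' : ∀ g, g ≠ g0 → ∀ i, (Z g i).card ≤ τ := by
      intro g hg i
      rcases mZZ g g0 i i hg with h | h
      · exact h
      · have := hg0 i; omega
    have hH' : ∀ g, g ≠ g0 → ∀ i, (H g i).card ≤ τ := by
      intro g hg i
      rcases mZH g0 g i hg.symm with h | h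
      · have := hg0 i; omega
      · exact h
    have hcomp : ∀ i, (univ \ Z g0 i).card + (Z g0 i).card = Fintype.card Q := by
      intro i
      rw [card_sdiff_add_card_eq_card (subset_univ _), card_univ]
    have exZ : ∀ g, g ≠ g0 → ∀ i, 6 * G * (Z g i).card ≤ (univ \ Z g0 i).card := by
      intro g hg i
      refine mx.exp g0 g hg.symm (Z g i) _ (hZ' g hg i) fun x y hy h => ?_
      rw [mem_sdiff]
      refine ⟨mem_univ _, fun hx => ?_⟩
      exact hI _ (hZmem hx) _ (hZmem hy) (Or.inr ⟨h, Or.inr ⟨rfl, rfl⟩⟩)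
    have exH : ∀ g, g ≠ g0 → ∀ i, 6 * G * (H g i).card ≤ (univ \ Z g0 i).card := by
      intro g hg i
      rw [← cimg]
      refine mx.exp g0 g hg.symm _ _ (by rw [cimg]; exact hH' g hg i) fun x y hy h => ?_
      obtain ⟨w, hw, rfl⟩ := mem_image.1 hy
      rw [mem_sdiff]
      refine ⟨mem_univ _, fun hx => ?_⟩
      exact hI _ (hZmem hx) _ (hHmem hw).2 (Or.inr ⟨h, Or.inl (hHmem hw).1.symm⟩)
    have hrow : ∀ i, ∑ g ∈ univ.erase g0, ((Z g i).card + (H g i).card) ≤ (univ \ Z g0 i).card := by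
      intro i
      have hGpos : 0 < 6 * G := by have := g0.pos; omega
      refine Nat.le_of_mul_le_mul_left ?_ hGpos
      rw [mul_sum]
      calc ∑ g ∈ univ.erase g0, 6 * G * ((Z g i).card + (H g i).card)
          ≤ ∑ g ∈ univ.erase g0, 2 * (univ \ Z g0 i).card := by
            refine sum_le_sum fun g hg => ?_
            have h1 := exZ g (ne_of_mem_erase hg) i
            have h2 := exH g (ne_of_mem_erase hg) i
            rw [Nat.mul_add]
            omega
        _ = (G - 1) * (2 * (univ \ Z g0 i).card) := by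
            rw [sum_const, card_erase_of_mem (mem_univ _), card_univ, Fintype.card_fin, smul_eq_mul]
        _ ≤ (3 * G) * (2 * (univ \ Z g0 i).card) := Nat.mul_le_mul_right _ (by omega)
        _ = 6 * G * (univ \ Z g0 i).card := by ring
    have htot : I.card = ∑ i, (Z g0 i).card + (J g0).card +
        ∑ i, ∑ g ∈ univ.erase g0, ((Z g i).card + (H g i).card) := by
      rw [hcard, ← add_sum_erase _ _ (mem_univ g0), ← add_sum_erase (univ : Finset (Fin G))
        (fun g => (J g).card) (mem_univ g0)]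
      rw [sum_comm (s := (univ : Finset (Fin 3)))]
      simp_rw [sum_add_distrib]
      have : ∑ g ∈ univ.erase g0, (J g).card = ∑ g ∈ univ.erase g0, ∑ i, (H g i).card :=
        sum_congr rfl fun g _ => hJ g
      rw [this]
      ring
    have hsum : ∑ i, (Z g0 i).card +
        ∑ i, ∑ g ∈ univ.erase g0, ((Z g i).card + (H g i).card) ≤ 3 * Fintype.card Q := by
      rw [← sum_add_distrib]
      calc ∑ i, ((Z g0 i).card + ∑ g ∈ univ.erase g0, ((Z g i).card + (H g i).card))
          ≤ ∑ i : Fin 3, Fintype.card Q := by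
            refine sum_le_sum fun i _ => ?_
            have h1 := hrow i
            have h2 := hcomp i
            omega
        _ = 3 * Fintype.card Q := by simp
    omega
  · exfalso
    push Not at hB
    have h1 : ∑ g, ∑ i, (Z g i).card ≤ (2 * Fintype.card Q + τ) + G * (3 * τ) := by
      refine sum_le_of_one _ _ _ ?_ ?_
      · intro g g' hg
        by_cases hbig : ∃ i, τ < (Z g i).card
        · obtain ⟨i, hi⟩ := hbig
          right
          calc ∑ i', (Z g' i').card ≤ ∑ _i' : Fin 3, τ := sum_le_sum fun i' _ => by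
                rcases mZZ g g' i i' hg with h | h
                · omega
                · exact h
            _ = 3 * τ := by simp
        · push Not at hbig
          left
          calc ∑ i', (Z g i').card ≤ ∑ _i' : Fin 3, τ := sum_le_sum fun i' _ => hbig i'
            _ = 3 * τ := by simp
      · intro g
        obtain ⟨i, hi⟩ := hB g
        rw [← add_sum_erase _ _ (mem_univ i)]
        have : ∑ i' ∈ univ.erase i, (Z g i').card ≤ 2 * Fintype.card Q := by
          refine (sum_le_sum (g := fun _ => Fintype.card Q) fun i' _ => card_le_univ _).trans ?_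
          rw [sum_const, card_erase_of_mem (mem_univ _), card_univ, Fintype.card_fin, smul_eq_mul]
        omega
    have h2 : ∑ g, (J g).card ≤ Fintype.card W + 3 * (G * τ) := by
      simp_rw [hJ]
      rw [sum_comm]
      have : ∀ i, ∑ g, (H g i).card ≤ (univ.filter fun w => κ w = i).card + G * τ := by
        intro i
        refine sum_le_of_one _ _ _ (fun g g' hg => mHH g g' i hg) fun g => ?_
        refine card_le_card fun w hw => ?_
        exact mem_filter.2 ⟨mem_univ _, (hHmem hw).1⟩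
      refine (sum_le_sum fun i _ => this i).trans ?_
      rw [sum_add_distrib]
      have h3 : ∑ i, (univ.filter fun w => κ w = i).card = Fintype.card W := by
        rw [← card_univ]
        exact (card_eq_sum_card_fiberwise fun _ _ => mem_univ _).symm
      rw [h3]
      simp
    have h3 : (6 * G + 1) * τ = τ + G * (3 * τ) + 3 * (G * τ) := by ring
    omega

omit [DecidableEq Q] [Fintype W] [DecidableEq W] in
/-- Independent sets of a group extend. -/
theorem extend (g : Fin G) (J : Finset W) (hJ : ∀ u ∈ J, ∀ v ∈ J, ¬ A g u v) :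
    ∃ I : Finset (JV G Q W), (∀ u ∈ I, ∀ v ∈ I, ¬ jadj mx κ ps A u v) ∧
      I.card = 3 * Fintype.card Q + J.card := by
  classical
  refine ⟨((univ : Finset (Fin 3 × Q)).disjSum J).image fun u => (g, u), ?_, ?_⟩
  · intro u hu v hv h
    obtain ⟨u', hu', rfl⟩ := mem_image.1 hu
    obtain ⟨v', hv', rfl⟩ := mem_image.1 hv
    rcases h with ⟨-, w, w', h2, h3, h4⟩ | ⟨h1, -⟩
    · simp only at h2 h3 h4
      subst h2 h3
      exact hJ w (inr_mem_disjSum.1 hu') w' (inr_mem_disjSum.1 hv') h4
    · exact mx.ne _ _ h1 rfl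
  · rw [card_image_of_injective, card_disjSum, card_univ, Fintype.card_prod, Fintype.card_fin]
    intro u v h
    exact (Prod.ext_iff.1 h).2

end KerJoin
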