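import Pool.Agent.H79.KerGrp2

/-!
# Choice of the parameters
-/

namespace KerParam

open Polynomial KerGrp

/-- Polynomially bounded functions. -/
def PolyB (g : ℕ → ℕ) : Prop := ∃ q : ℕ[X], ∀ n, g n ≤ q.eval n

lemma peval_mono (T : ℕ[X]) {a b : ℕ} (h : a ≤ b) : T.eval a ≤ T.eval b := by
  rw [eval_eq_sum_range, eval_eq_sum_range]
  exact Finset.sum_le_sum fun i _ => Nat.mul_le_mul_left _ (Nat.pow_le_pow_left h i)

namespace PolyB

lemma mono {g h : ℕ → ℕ} (hh : PolyB h) (hg : ∀ n, g n ≤ h n) : PolyB g := by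
  obtain ⟨q, hq⟩ := hh
  exact ⟨q, fun n => (hg n).trans (hq n)⟩

lemma const (c : ℕ) : PolyB fun _ => c := ⟨C c, fun n => by simp⟩

lemma id : PolyB fun n => n := ⟨X, fun n => by simp⟩

lemma add {g h : ℕ → ℕ} (hg : PolyB g) (hh : PolyB h) : PolyB fun n => g n + h n := by
  obtain ⟨q, hq⟩ := hg
  obtain ⟨r, hr⟩ := hh
  exact ⟨q + r, fun n => by simpa using Nat.add_le_add (hq n) (hr n)⟩

lemma mul {g h : ℕ → ℕ} (hg : PolyB g) (hh : PolyB h) : PolyB fun n => g n * h n := by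
  obtain ⟨q, hq⟩ := hg
  obtain ⟨r, hr⟩ := hh
  exact ⟨q * r, fun n => by simpa using Nat.mul_le_mul (hq n) (hr n)⟩

lemma pow {g : ℕ → ℕ} (hg : PolyB g) (k : ℕ) : PolyB fun n => g n ^ k := by
  obtain ⟨q, hq⟩ := hg
  exact ⟨q ^ k, fun n => by simpa using Nat.pow_le_pow_left (hq n) k⟩

lemma eval (P : ℕ[X]) {g : ℕ → ℕ} (hg : PolyB g) : PolyB fun n => P.eval (g n) := by
  obtain ⟨q, hq⟩ := hg
  exact ⟨P.comp q, fun n => by simpa using peval_mono P (hq n)⟩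

end PolyB

lemma exists_j (s : ℕ) : ∃ D, ∀ A, ∃ j, A * (10 * j + 40) ^ s < 2 ^ j ∧ 2 ^ j ≤ D * (A + 1) ^ 2 := by
  obtain ⟨s', hs'⟩ : ∃ s', s' = s + 1 := ⟨_, rfl⟩
  obtain ⟨D0, hD0'⟩ : ∃ D0, D0 = (20 * (s' + 2)) ^ s' := ⟨_, rfl⟩
  have hD0 : ∀ i, (20 * i + 40) ^ s ≤ D0 * 2 ^ i := by
    intro i
    have h1 : i + 2 ≤ (s' + 2) * 2 ^ (i / s') := by
      have h2 : i / s' + 1 ≤ 2 ^ (i / s') := Nat.lt_two_pow_self
      have h3 : i < s' * (i / s' + 1) := Nat.lt_mul_div_succ i (by omega)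
      have h4 : (s' + 2) * (i / s' + 1) ≤ (s' + 2) * 2 ^ (i / s') := Nat.mul_le_mul_left _ h2
      refine le_trans ?_ h4
      generalize i / s' + 1 = q at h3
      have h6 : 1 ≤ q := by
        rcases Nat.eq_zero_or_pos q with h | h
        · subst h; simp at h3
        · exact h
      nlinarith
    calc (20 * i + 40) ^ s ≤ (20 * i + 40) ^ s' := Nat.pow_le_pow_right (by omega) (by omega)
      _ = (20 * (i + 2)) ^ s' := by ring_nf
      _ ≤ (20 * ((s' + 2) * 2 ^ (i / s'))) ^ s' :=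
          Nat.pow_le_pow_left (Nat.mul_le_mul_left _ h1) _
      _ = D0 * 2 ^ (i / s' * s') := by
          rw [← mul_assoc, mul_pow, ← pow_mul, ← hD0']
      _ ≤ D0 * 2 ^ i := Nat.mul_le_mul_left _ (Nat.pow_le_pow_right (by norm_num)
          (Nat.div_mul_le_self _ _))
  refine ⟨4 * (D0 + 1) ^ 2, fun A => ?_⟩
  let i := Nat.log 2 (A * D0) + 1
  have hi1 : A * D0 < 2 ^ i := Nat.lt_pow_succ_log_self (by norm_num) _
  have hi2 : 2 ^ i ≤ 2 * (A * D0 + 1) := by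
    rcases Nat.eq_zero_or_pos (A * D0) with h | h
    · simp [i, h]
    · have := Nat.pow_log_le_self 2 h.ne'
      simp only [i, pow_succ]
      omega
  refine ⟨2 * i, ?_, ?_⟩
  · calc A * (10 * (2 * i) + 40) ^ s = A * (20 * i + 40) ^ s := by ring_nf
      _ ≤ A * (D0 * 2 ^ i) := Nat.mul_le_mul_left _ (hD0 i)
      _ = (A * D0) * 2 ^ i := by ring
      _ < 2 ^ i * 2 ^ i := Nat.mul_lt_mul_of_pos_right hi1 (by positivity)
      _ = 2 ^ (2 * i) := by ring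
  · calc 2 ^ (2 * i) = 2 ^ i * 2 ^ i := by ring
      _ ≤ (2 * (A * D0 + 1)) * (2 * (A * D0 + 1)) := Nat.mul_le_mul hi2 hi2
      _ ≤ (2 * ((A + 1) * (D0 + 1))) * (2 * ((A + 1) * (D0 + 1))) := by
          have : A * D0 + 1 ≤ (A + 1) * (D0 + 1) := by nlinarith
          exact Nat.mul_le_mul (Nat.mul_le_mul_left _ this) (Nat.mul_le_mul_left _ this)
      _ = 4 * (D0 + 1) ^ 2 * (A + 1) ^ 2 := by ring

lemma card_U (m : ℕ) : Fintype.card (U m) = 3 * m := by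
  simp [Fintype.card_prod]; ring

lemma card_E (m : ℕ) : Fintype.card (E m) = 9 * m ^ 2 := by
  rw [Fintype.card_prod, card_U]; ring

lemma card_Gd (m : ℕ) : Fintype.card (Gd m) = m + 9 * m ^ 2 := by
  rw [Fintype.card_sum, card_E, Fintype.card_fin]

lemma rest_le (ℓ m : ℕ) (hm : 1 ≤ m) (hℓ : 7 ≤ ℓ) : rest ℓ m ≤ 19 * 2 ^ ℓ * m ^ 2 := by
  unfold rest
  rw [card_U, card_E, card_Gd]
  have h1 : 128 ≤ 2 ^ ℓ := by
    calc 128 = 2 ^ 7 := by norm_num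
      _ ≤ 2 ^ ℓ := Nat.pow_le_pow_right (by norm_num) hℓ
  have h2 : m ≤ m ^ 2 := by nlinarith
  have h3 : 128 * m ^ 2 ≤ 2 ^ ℓ * m ^ 2 := Nat.mul_le_mul_right _ h1
  nlinarith

/-- **Parameters.** -/
theorem exists_params (a b c : ℕ) (hab : 10 * a < 21 * b) (m : ℕ → ℕ) (hm : PolyB m)
    (hm1 : ∀ n, 1 ≤ m n) : ∃ f : ℕ → ℕ, PolyB f ∧ ∀ n, ∃ j p : ℕ, p.Prime ∧
      144 * (2 ^ j) ^ 2 ≤ p ∧ p ≤ f n ∧ 2 ^ j ≤ f n ∧
      (6 * 2 ^ j + 1) * (p ^ 5 / (12 * 2 ^ j)) +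
        (4 * (10 * j + 40) * (rest (10 * j + 40) (m n) + 1) + rest (10 * j + 40) (m n)) ≤ p ^ 5 ∧
      c * (3 * p ^ 5 + goal (10 * j + 40) (rest (10 * j + 40) (m n) + 1) (m n)) ^ a <
        (2 ^ j * (2 ^ (10 * j + 40)) ^ 2) ^ b := by
  obtain ⟨D, hD⟩ := exists_j (5 * a)
  let A : ℕ → ℕ := fun n => c * 2 ^ (47 * a) * (400 * m n ^ 2) ^ (5 * a)
  have hA : PolyB A :=
    ((PolyB.const _).mul (((PolyB.const 400).mul (hm.pow 2)).pow _))
  let B : ℕ → ℕ := fun n => D * (A n + 1) ^ 2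
  have hB : PolyB B := (PolyB.const D).mul ((hA.add (PolyB.const 1)).pow 2)
  let f : ℕ → ℕ := fun n => B n + 2 * (2 ^ 8 * B n ^ 2 * (400 * (10 * B n + 40) * m n ^ 2))
  have hf : PolyB f := hB.add ((PolyB.const 2).mul (((PolyB.const _).mul (hB.pow 2)).mul
    (((PolyB.const 400).mul (((PolyB.const 10).mul hB).add (PolyB.const 40))).mul (hm.pow 2))))
  refine ⟨f, hf, fun n => ?_⟩
  obtain ⟨j, hj1, hj2⟩ := hD (A n)
  have hj2 : 2 ^ j ≤ B n := hj2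
  set m' := m n with hm'
  have hm1' : 1 ≤ m' := hm1 n
  set ℓ := 10 * j + 40 with hℓ
  set Y := 400 * ℓ * m' ^ 2 with hY
  have hYpos : 0 < Y := by positivity
  set X := 2 ^ (2 * j + 8) * Y with hX
  have hXpos : 0 < X := by positivity
  obtain ⟨p, hp, hp1, hp2⟩ := Nat.exists_prime_lt_and_le_two_mul X hXpos.ne'
  have hjB : j ≤ B n := Nat.lt_two_pow_self.le.trans hj2
  have hpf : p ≤ f n := by
    refine hp2.trans ?_
    have h1 : X ≤ 2 ^ 8 * B n ^ 2 * (400 * (10 * B n + 40) * m' ^ 2) := by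
      rw [hX, hY, hℓ]
      refine Nat.mul_le_mul ?_ ?_
      · calc 2 ^ (2 * j + 8) = 2 ^ 8 * (2 ^ j) ^ 2 := by ring
          _ ≤ 2 ^ 8 * B n ^ 2 := Nat.mul_le_mul_left _ (Nat.pow_le_pow_left hj2 2)
      · refine Nat.mul_le_mul_right _ (Nat.mul_le_mul_left _ ?_)
        omega
    change 2 * X ≤ B n + 2 * (2 ^ 8 * B n ^ 2 * (400 * (10 * B n + 40) * m n ^ 2))
    rw [← hm']
    omega
  have h144 : 144 * (2 ^ j) ^ 2 ≤ p := by
    refine le_trans ?_ hp1.le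
    calc 144 * (2 ^ j) ^ 2 ≤ 2 ^ 8 * (2 ^ j) ^ 2 * 1 := by
          rw [mul_one]
          exact Nat.mul_le_mul_right _ (by norm_num)
      _ ≤ 2 ^ 8 * (2 ^ j) ^ 2 * Y := Nat.mul_le_mul_left _ hYpos
      _ = X := by rw [hX]; ring
  have hR := rest_le ℓ m' hm1' (by omega)
  set R := rest ℓ m' with hRdef
  have hX5 : 2 ^ ℓ * Y ≤ X ^ 5 := by
    calc 2 ^ ℓ * Y ≤ 2 ^ ℓ * Y ^ 5 := Nat.mul_le_mul_left _ (Nat.le_self_pow (by norm_num) _)
      _ = X ^ 5 := by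
          have e : 2 ^ ℓ = (2 ^ (2 * j + 8)) ^ 5 := by rw [← pow_mul, hℓ]; ring_nf
          rw [hX, e, ← mul_pow]
  have hp5 : X ^ 5 ≤ p ^ 5 := Nat.pow_le_pow_left hp1.le 5
  have hW : 4 * (4 * ℓ * (R + 1) + R) ≤ p ^ 5 := by
    have h1 : R + 1 ≤ 20 * 2 ^ ℓ * m' ^ 2 := by
      have : 1 ≤ 2 ^ ℓ * m' ^ 2 := Nat.mul_pos (by positivity) (by positivity)
      nlinarith
    have h2 : 4 * ℓ * (R + 1) + R ≤ 5 * ℓ * (R + 1) := by
      have : 1 * (R + 1) ≤ ℓ * (R + 1) := Nat.mul_le_mul_right _ (by omega)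
      nlinarith
    calc 4 * (4 * ℓ * (R + 1) + R) ≤ 4 * (5 * ℓ * (R + 1)) := Nat.mul_le_mul_left _ h2
      _ ≤ 4 * (5 * ℓ * (20 * 2 ^ ℓ * m' ^ 2)) :=
          Nat.mul_le_mul_left _ (Nat.mul_le_mul_left _ h1)
      _ = 2 ^ ℓ * Y := by rw [hY]; ring
      _ ≤ X ^ 5 := hX5
      _ ≤ p ^ 5 := hp5
  have hjf : 2 ^ j ≤ f n := hj2.trans (Nat.le_add_right _ _)
  refine ⟨j, p, hp, h144, hpf, hjf, ?_, ?_⟩
  · rw [← hℓ, ← hRdef]
    set T := p ^ 5 / (12 * 2 ^ j) with hT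
    have h1 : 12 * 2 ^ j * T ≤ p ^ 5 := Nat.mul_div_le _ _
    have h2 : T ≤ 2 ^ j * T := Nat.le_mul_of_pos_left _ (by positivity)
    have h3 : (6 * 2 ^ j + 1) * T = 6 * (2 ^ j * T) + T := by ring
    have h4 : 12 * 2 ^ j * T = 12 * (2 ^ j * T) := by ring
    omega
  · rw [← hℓ, ← hRdef]
    have hgoal : goal ℓ (R + 1) m' ≤ p ^ 5 := by
      have h1 : goal ℓ (R + 1) m' ≤ 4 * ℓ * (R + 1) + R := by
        have h2 : Fintype.card (E m') + Fintype.card (E m') + Fintype.card (U m') +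
            4 * Fintype.card (Gd m') ≤ R := by
          rw [hRdef]
          unfold rest
          have : Fintype.card (E m') ≤ 2 ^ ℓ * Fintype.card (E m') :=
            Nat.le_mul_of_pos_left _ (by positivity)
          have h5 : 2 * 2 ^ ℓ * Fintype.card (E m') = 2 * (2 ^ ℓ * Fintype.card (E m')) := by ring
          omega
        unfold goal
        have h3 : 2 * ℓ * (R + 1) ≤ 4 * ℓ * (R + 1) := Nat.mul_le_mul_right _ (by omega)
        omega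
      omega
    have hk : 3 * p ^ 5 + goal ℓ (R + 1) m' ≤ 128 * X ^ 5 := by
      have h1 : p ^ 5 ≤ (2 * X) ^ 5 := Nat.pow_le_pow_left hp2 5
      have h2 : (2 * X) ^ 5 = 32 * X ^ 5 := by ring
      omega
    calc c * (3 * p ^ 5 + goal ℓ (R + 1) m') ^ a ≤ c * (128 * X ^ 5) ^ a :=
          Nat.mul_le_mul_left _ (Nat.pow_le_pow_left hk a)
      _ = (A n * ℓ ^ (5 * a)) * 2 ^ (10 * j * a) := by
          have e1 : X ^ 5 = 2 ^ (10 * j + 40) * Y ^ 5 := by rw [hX]; ring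
          have e2 : (Y ^ 5) ^ a = (400 * m' ^ 2) ^ (5 * a) * ℓ ^ (5 * a) := by
            rw [← pow_mul, ← mul_pow, hY]; ring
          have e3 : (128 : ℕ) ^ a = 2 ^ (7 * a) := by
            rw [show (128 : ℕ) = 2 ^ 7 by norm_num, ← pow_mul]
          have e4 : (2 ^ (10 * j + 40)) ^ a = 2 ^ (40 * a) * 2 ^ (10 * j * a) := by
            rw [← pow_mul, ← pow_add]; ring_nf
          have e5 : 2 ^ (47 * a) = 2 ^ (7 * a) * 2 ^ (40 * a) := by rw [← pow_add]; ring_nf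
          simp only [A]
          rw [mul_pow, e1, mul_pow, e2, e3, e4, e5]
          ring
      _ < 2 ^ j * 2 ^ (10 * j * a) := Nat.mul_lt_mul_of_pos_right hj1 (by positivity)
      _ = 2 ^ (j + 10 * j * a) := by rw [pow_add]
      _ ≤ 2 ^ ((21 * j + 80) * b) := by
          refine Nat.pow_le_pow_right (by norm_num) ?_
          have : j * (10 * a + 1) ≤ j * (21 * b) := Nat.mul_le_mul_left _ hab
          nlinarith
      _ = (2 ^ j * (2 ^ ℓ) ^ 2) ^ b := by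
          rw [← pow_mul, ← pow_add, ← pow_mul, hℓ]
          ring_nf

end KerParam
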