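import Pool.Agent.H79.KerGrp
import Pool.Agent.TM.Cert
import Pool.Agent.TM.Sat

/-!
# Satisfiability through conflicting literal positions
-/

namespace KerSat

open TMLib KerGrp

/-- The literals of a formula in order. -/
def lits (φ : List Cl) : List Lit := φ.flatMap fun c => [c.1, c.2.1, c.2.2]

/-- Do the literals at positions `u` and `v` contradict each other? -/
def conf (φ : List Cl) (u v : ℕ) : Bool :=
  (((lits φ).drop u).take 1).any fun a => (((lits φ).drop v).take 1).any fun b =>
    decide (a.1 = b.1) && (a.2 != b.2)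

@[fun_prop] lemma ptime_conf {α : Type} [Enc α] {φ : α → List Cl} {u v : α → ℕ} (h1 : PTime φ)
    (h2 : PTime u) (h3 : PTime v) : PTime (fun x => conf (φ x) (u x) (v x)) := by
  unfold conf lits
  fun_prop

/-- The number of a position. -/
def num {m : ℕ} (u : U m) : ℕ := 3 * u.1.val + u.2.val

lemma drop_take_one {α : Type} (l : List α) (n : ℕ) : (l.drop n).take 1 = l[n]?.toList := by
  induction l generalizing n with
  | nil => simp
  | cons a l ih =>
    cases n with
    | zero => simp
    | succ n => simpa using ih n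

lemma conf_iff (φ : List Cl) (u v : ℕ) : conf φ u v = true ↔
    ∃ x s t, (lits φ)[u]? = some (x, s) ∧ (lits φ)[v]? = some (x, t) ∧ s ≠ t := by
  unfold conf
  rw [drop_take_one, drop_take_one]
  cases h1 : (lits φ)[u]? with
  | none => simp
  | some a =>
    cases h2 : (lits φ)[v]? with
    | none => simp
    | some b =>
      obtain ⟨x, s⟩ := a
      obtain ⟨y, t⟩ := b
      simp only [Option.toList_some, List.any_cons, List.any_nil, Bool.or_false, Bool.and_eq_true,
        decide_eq_true_eq, bne_iff_ne, ne_eq, Option.some.injEq, Prod.mk.injEq]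
      constructor
      · rintro ⟨rfl, h⟩
        exact ⟨x, s, t, ⟨rfl, rfl⟩, ⟨rfl, rfl⟩, h⟩
      · rintro ⟨z, s', t', ⟨rfl, rfl⟩, ⟨rfl, rfl⟩, h⟩
        exact ⟨rfl, h⟩

lemma lits_getElem? (φ : List Cl) (c : ℕ) (j : Fin 3) : (lits φ)[3 * c + j.val]? =
    φ[c]?.map fun cl => if j = 0 then cl.1 else if j = 1 then cl.2.1 else cl.2.2 := by
  induction φ generalizing c with
  | nil => simp [lits]
  | cons cl φ ih =>
    have e : lits (cl :: φ) = cl.1 :: cl.2.1 :: cl.2.2 :: lits φ := rfl
    cases c with
    | zero =>
      rw [e]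
      fin_cases j <;> simp
    | succ c =>
      rw [e, show 3 * (c + 1) + j.val = 3 * c + j.val + 1 + 1 + 1 by ring]
      simpa using ih c

/-- Satisfiability as a choice of compatible literals. -/
theorem sat_iff (φ : List Cl) {m : ℕ} (hm : φ.length ≤ m) : Sat φ ↔
    ∃ y : U m → Bool, (∀ c, ∃ j, y (c, j) = true) ∧
      ∀ e : E m, conf φ (num e.1) (num e.2) = true → ¬ (y e.1 = true ∧ y e.2 = true) := by
  classical
  constructor
  · rintro ⟨v, hv⟩
    refine ⟨fun u => ((lits φ)[num u]?).all fun l => v l.1 == l.2, fun c => ?_, fun e he => ?_⟩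
    · by_cases hc : c.val < φ.length
      · have h1 := hv φ[c.val] (List.getElem_mem hc)
        have h2 : φ[c.val]? = some φ[c.val] := List.getElem?_eq_getElem hc
        rcases h1 with h | h | h
        · refine ⟨0, ?_⟩
          simp only [num]
          rw [lits_getElem?, h2]
          simpa using h
        · refine ⟨1, ?_⟩
          simp only [num]
          rw [lits_getElem?, h2]
          simpa using h
        · refine ⟨2, ?_⟩
          simp only [num]
          rw [lits_getElem?, h2]
          simpa using h
      · refine ⟨0, ?_⟩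
        simp only [num]
        rw [lits_getElem?, List.getElem?_eq_none (by omega)]
        simp
    · obtain ⟨x, s, t, h1, h2, h3⟩ := (conf_iff _ _ _).1 he
      simp only [h1, h2, Option.all_some, beq_iff_eq]
      rintro ⟨rfl, rfl⟩
      exact h3 rfl
  · rintro ⟨y, hy1, hy2⟩
    refine ⟨fun x => decide (∃ u : U m, y u = true ∧ (lits φ)[num u]? = some (x, true)),
      fun cl hcl => ?_⟩
    obtain ⟨c, hc, rfl⟩ := List.getElem_of_mem hcl
    obtain ⟨j, hj⟩ := hy1 ⟨c, by omega⟩
    have h1 : (lits φ)[num ((⟨c, by omega⟩, j) : U m)]? =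
        some (if j = 0 then φ[c].1 else if j = 1 then φ[c].2.1 else φ[c].2.2) := by
      simp only [num]
      rw [lits_getElem?, List.getElem?_eq_getElem hc]
      rfl
    have key : ∀ l : Lit, (lits φ)[num ((⟨c, by omega⟩, j) : U m)]? = some l →
        decide (∃ u : U m, y u = true ∧ (lits φ)[num u]? = some (l.1, true)) = l.2 := by
      rintro ⟨x, s⟩ hl
      cases s with
      | true => exact decide_eq_true ⟨_, hj, hl⟩
      | false =>
        refine decide_eq_false ?_
        rintro ⟨u, hu1, hu2⟩
        exact hy2 (u, (⟨c, by omega⟩, j)) ((conf_iff _ _ _).2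
          ⟨x, true, false, hu2, hl, by simp⟩) ⟨hu1, hj⟩
    have h2 := key _ h1
    fin_cases j
    · exact Or.inl (by simpa using h2)
    · exact Or.inr (Or.inl (by simpa using h2))
    · exact Or.inr (Or.inr (by simpa using h2))

end KerSat
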