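import Pool.Agent.H79.KerDefs
import Pool.Agent.H79.KerJoin
import Pool.Agent.H79.KerParam
import Pool.Agent.H79.KerSat
import Pool.Agent.H79.FS
import Pool.Agent.TM.Sim

/-!
# The composition for inputs of a fixed length
-/

namespace KerMain

open ISTF TMLib KerGrp KerJoin KerCurve KerSat KerParam N68a2faeb

/-- Entry of the matrix: a fixed bit and conditions on the data. -/
abbrev Ent := Bool × List (ℕ × ℕ × ℕ)

/-- Value of an entry. -/
def evalE (φ : List Bool → List Cl) (xs : List (List Bool)) (en : Ent) : Bool :=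
  en.1 || en.2.any fun d => conf (φ (xs.getD d.1 [])) d.2.1 d.2.2

/-- The bit string of an instance. -/
def codeStr (N : ℕ) (bits : List Bool) (k : ℕ) : List Bool :=
  List.replicate N true ++ false :: (bits ++ List.replicate k true)

/-- Advice: number of instances, order, parameter, matrix, set of outputs. -/
abbrev Adv := ℕ × ℕ × ℕ × List (List Ent) × List (List Bool)

/-- The composed instance. -/
def buildStr (φ : List Bool → List Cl) (A : Adv) (xs : List (List Bool)) : List Bool :=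
  codeStr A.2.1 (A.2.2.2.1.flatMap fun row => row.map fun en => evalE φ xs en) A.2.2.1

/-- The verifier. -/
def check (φ : List Bool → List Cl) (F : List Bool → List Bool) (x : List Bool) (A : Adv)
    (xs : List (List Bool)) : Bool :=
  decide (x ∈ xs) && (xs.all (fun y => decide (y.length = x.length)) &&
    (decide (xs.length = A.1) && decide (F (buildStr φ A xs) ∈ A.2.2.2.2)))

lemma ptime_evalE {φ : List Bool → List Cl} (hφ : PTime φ) :
    PTime (fun p : List (List Bool) × Ent => evalE φ p.1 p.2) := by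
  unfold evalE
  refine PTime.or (by fun_prop) (PTime.any (by fun_prop) ?_)
  refine ptime_conf (hφ.comp ?_) (by fun_prop) (by fun_prop)
  fun_prop

lemma ptime_buildStr {φ : List Bool → List Cl} (hφ : PTime φ) :
    PTime (fun p : Adv × List (List Bool) => buildStr φ p.1 p.2) := by
  unfold buildStr codeStr
  refine PTime.append (by fun_prop) (PTime.cons (by fun_prop) (PTime.append ?_ (by fun_prop)))
  refine PTime.flatMap (by fun_prop) (PTime.map (by fun_prop) ?_)
  exact (ptime_evalE hφ).comp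
    (f := fun q : ((Adv × List (List Bool)) × List Ent) × Ent => (q.1.1.2, q.2)) (by fun_prop)

lemma ptime_check {φ : List Bool → List Cl} (hφ : PTime φ) {F : List Bool → List Bool}
    (hF : PTime F) : PTime (fun p : List Bool × Adv × List (List Bool) =>
      check φ F p.1 p.2.1 p.2.2) := by
  unfold check
  refine PTime.and (by fun_prop) (PTime.and (by fun_prop) (PTime.and (by fun_prop) ?_))
  refine PTime.mem (hF.comp ?_) (by fun_prop)
  exact (ptime_buildStr hφ).comp
    (f := fun p : List Bool × Adv × List (List Bool) => (p.2.1, p.2.2)) (by fun_prop)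

section datasec

variable {G ℓ M m τ : ℕ} {Q : Type} [Fintype Q]

/-- Adjacency in the composed graph. -/
def Jd (mx : Mix G Q τ) (ps : HV ℓ M m → Q) (χ : Fin G → Dat ℓ m) :
    JV G Q (HV ℓ M m) → JV G Q (HV ℓ M m) → Prop :=
  jadj mx col ps fun g => adj (χ g)

/-- The data condition between two vertices. -/
def datOf : JV G Q (HV ℓ M m) → JV G Q (HV ℓ M m) →
    List ((Fin G × (Fin ℓ → Bool) × (Fin ℓ → Bool)) × E m)
  | (g, .inr (.ab s a e)), (g', .inr (.ab s' b e')) =>
    if g = g' ∧ s = false ∧ s' = true ∧ e = e' then [((g, a, b), e)]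
    else if g = g' ∧ s = true ∧ s' = false ∧ e = e' then [((g, b, a), e)] else []
  | _, _ => []

omit [Fintype Q] in
lemma length_datOf (u v : JV G Q (HV ℓ M m)) : (datOf u v).length ≤ 1 := by
  unfold datOf
  split
  · split_ifs <;> simp
  · simp

lemma rel_mono (χ : Dat ℓ m) {u v : HV ℓ M m} (h : rel (fun _ _ _ => false) u v) :
    rel χ u v := by
  cases u <;> cases v <;> simp [rel] at h ⊢ <;> exact h

lemma rel_cases (χ : Dat ℓ m) {u v : HV ℓ M m} (h : rel χ u v) :
    rel (fun _ _ _ => false) u v ∨ ∃ a b e, u = .ab false a e ∧ v = .ab true b e ∧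
      χ a b e = true := by
  cases u with
  | ab s a e =>
    cases v with
    | ab s' b e' =>
      obtain ⟨rfl, rfl, rfl, h⟩ := h
      exact Or.inr ⟨a, b, e, rfl, rfl, h⟩
    | _ => exact Or.inl h
  | _ => exact Or.inl (by cases v <;> exact h)

lemma Jd_iff (mx : Mix G Q τ) (ps : HV ℓ M m → Q) (χ : Fin G → Dat ℓ m)
    (u v : JV G Q (HV ℓ M m)) : Jd mx ps χ u v ↔
      (Jd mx ps (fun _ _ _ _ => false) u v ∨
        ∃ d ∈ datOf u v, χ d.1.1 d.1.2.1 d.1.2.2 d.2 = true) := by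
  constructor
  · rintro (⟨h1, w, w', h2, h3, h4⟩ | h)
    · obtain ⟨g, u⟩ := u
      obtain ⟨g', v⟩ := v
      simp only at h1 h2 h3 h4
      subst h1 h2 h3
      rcases h4 with h4 | h4
      · rcases rel_cases _ h4 with h5 | ⟨a, b, e, rfl, rfl, h5⟩
        · exact Or.inl (Or.inl ⟨rfl, w, w', rfl, rfl, Or.inl h5⟩)
        · refine Or.inr ⟨((g, a, b), e), ?_, h5⟩
          simp [datOf]
      · rcases rel_cases _ h4 with h5 | ⟨a, b, e, rfl, rfl, h5⟩
        · exact Or.inl (Or.inl ⟨rfl, w, w', rfl, rfl, Or.inr h5⟩)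
        · refine Or.inr ⟨((g, a, b), e), ?_, h5⟩
          simp [datOf]
    · exact Or.inl (Or.inr h)
  · rintro (h | ⟨d, hd, hχ⟩)
    · rcases h with ⟨h1, w, w', h2, h3, h4⟩ | h
      · refine Or.inl ⟨h1, w, w', h2, h3, ?_⟩
        rcases h4 with h4 | h4
        · exact Or.inl (rel_mono _ h4)
        · exact Or.inr (rel_mono _ h4)
      · exact Or.inr h
    · obtain ⟨g, u⟩ := u
      obtain ⟨g', v⟩ := v
      unfold datOf at hd
      split at hd
      · rename_i g1 s a e g2 s' b e' heq1 heq2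
        simp only [Prod.mk.injEq] at heq1 heq2
        obtain ⟨rfl, rfl⟩ := heq1
        obtain ⟨rfl, rfl⟩ := heq2
        split_ifs at hd with h1 h2
        · obtain ⟨rfl, rfl, rfl, rfl⟩ := h1
          simp only [List.mem_singleton] at hd
          subst hd
          exact Or.inl ⟨rfl, _, _, rfl, rfl, Or.inl ⟨rfl, rfl, rfl, hχ⟩⟩
        · obtain ⟨rfl, rfl, rfl, rfl⟩ := h2
          simp only [List.mem_singleton] at hd
          subst hd
          exact Or.inl ⟨rfl, _, _, rfl, rfl, Or.inr ⟨rfl, rfl, rfl, hχ⟩⟩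
        · simp at hd
      · simp at hd

end datasec

/-- Size bound for one entry. -/
def entBound (t m : ℕ) : ℕ :=
  1 + 3 + (1 + 1 * (1 + (1 + (1 + 2 * t) + (1 + (1 + 2 * (3 * m + 3)) + (1 + 2 * (3 * m + 3))))))

/-- Size bound for the advice. -/
def advBound (t N k m n : ℕ) : ℕ :=
  1 + (1 + 2 * t) + (1 + (1 + 2 * N) + (1 + (1 + 2 * k) +
    (1 + (1 + N * (1 + (1 + N * (1 + entBound t m)))) + (1 + (n + 1) * (1 + (1 + t * (1 + 3)))))))

section coresec

variable {G ℓ M m τ t N k0 : ℕ} {Q : Type} [Fintype Q]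

/-- The data of a tuple of inputs. -/
def chi (φ : List Bool → List Cl) (eI : (Fin G × (Fin ℓ → Bool) × (Fin ℓ → Bool)) ≃ Fin t)
    (xs : Fin t → List Bool) (g : Fin G) : Dat ℓ m := fun a b e =>
  conf (φ (xs (eI (g, a, b)))) (num e.1) (num e.2)

lemma Jd_irrefl (mx : Mix G Q τ) (ps : HV ℓ M m → Q) (χ : Fin G → Dat ℓ m)
    (u : JV G Q (HV ℓ M m)) : ¬ Jd mx ps χ u u := fun hu =>
  KerJoin.no_tri mx col ps (fun g => adj (χ g)) (fun _ _ _ h => col_adj _ h)
    (fun _ _ _ h => adj_symm _ h) (fun _ _ _ _ h1 h2 h3 => KerGrp.no_tri _ h1 h2 h3) hu hu hu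

lemma Jd_symm (mx : Mix G Q τ) (ps : HV ℓ M m → Q) (χ : Fin G → Dat ℓ m)
    {u v : JV G Q (HV ℓ M m)} (h : Jd mx ps χ u v) : Jd mx ps χ v u :=
  jadj_symm mx col ps (fun g => adj (χ g)) (fun _ _ _ h => adj_symm _ h) h

/-- The composed graph. -/
def gOf (φ : List Bool → List Cl) (mx : Mix G Q τ) (ps : HV ℓ M m → Q)
    (eI : (Fin G × (Fin ℓ → Bool) × (Fin ℓ → Bool)) ≃ Fin t)
    (e : JV G Q (HV ℓ M m) ≃ Fin N) (xs : Fin t → List Bool) : SimpleGraph (Fin N) where
  Adj := fun i k => Jd mx ps (chi φ eI xs) (e.symm i) (e.symm k)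
  symm := ⟨fun _ _ h => Jd_symm mx ps _ h⟩
  loopless := ⟨fun _ h => Jd_irrefl mx ps _ _ h⟩

/-- The composed instance. -/
def instOf (φ : List Bool → List Cl) (mx : Mix G Q τ) (ps : HV ℓ M m → Q)
    (eI : (Fin G × (Fin ℓ → Bool) × (Fin ℓ → Bool)) ≃ Fin t)
    (e : JV G Q (HV ℓ M m) ≃ Fin N) (k0 : ℕ) (xs : Fin t → List Bool) : Inst :=
  ⟨N, gOf φ mx ps eI e xs, k0⟩

lemma valid_instOf (φ : List Bool → List Cl) (mx : Mix G Q τ) (ps : HV ℓ M m → Q)
    (eI : (Fin G × (Fin ℓ → Bool) × (Fin ℓ → Bool)) ≃ Fin t)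
    (e : JV G Q (HV ℓ M m) ≃ Fin N) (hk0 : 1 ≤ k0) (xs : Fin t → List Bool) :
    (instOf φ mx ps eI e k0 xs).Valid := by
  refine ⟨?_, hk0⟩
  intro s hs
  obtain ⟨x, y, z, h1, h2, h3, -⟩ := SimpleGraph.is3Clique_iff.1 hs
  exact KerJoin.no_tri mx col ps (fun g => adj (chi φ eI xs g)) (fun _ _ _ h => col_adj _ h)
    (fun _ _ _ h => adj_symm _ h) (fun _ _ _ _ h1 h2 h3 => KerGrp.no_tri _ h1 h2 h3) h1 h3 h2

lemma yes_instOf [DecidableEq Q] {L : DecisionProblem} {φ : List Bool → List Cl}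
    (hφ : ∀ x, L x = true ↔ Sat (φ x)) (mx : Mix G Q τ) (ps : HV ℓ M m → Q)
    (eI : (Fin G × (Fin ℓ → Bool) × (Fin ℓ → Bool)) ≃ Fin t)
    (e : JV G Q (HV ℓ M m) ≃ Fin N) (hps : Function.Injective ps) (hM : rest ℓ m < M)
    (hW : (6 * G + 1) * τ + Fintype.card (HV ℓ M m) ≤ Fintype.card Q) (hg : 0 < goal ℓ M m)
    (hk0 : k0 = 3 * Fintype.card Q + goal ℓ M m) (xs : Fin t → List Bool)
    (hxs : ∀ i, (φ (xs i)).length ≤ m) :
    (instOf φ mx ps eI e k0 xs).Yes ↔ ∃ i, L (xs i) = true := by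
  change (∃ S : Finset (Fin N), (gOf φ mx ps eI e xs).IsIndepSet S ∧ k0 ≤ S.card) ↔ _
  constructor
  · rintro ⟨S, hS1, hS2⟩
    have hind : ∀ u ∈ S.map e.symm.toEmbedding, ∀ v ∈ S.map e.symm.toEmbedding,
        ¬ jadj mx col ps (fun g => adj (chi φ eI xs g)) u v := by
      intro u hu v hv huv
      obtain ⟨i, hi, rfl⟩ := Finset.mem_map.1 hu
      obtain ⟨k, hk, rfl⟩ := Finset.mem_map.1 hv
      by_cases hik : i = k
      · subst hik
        exact Jd_irrefl mx ps _ _ huv
      · exact hS1 (Finset.mem_coe.2 hi) (Finset.mem_coe.2 hk) hik huv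
    obtain ⟨g, J, hJ1, hJ2⟩ := select mx col ps (fun g => adj (chi φ eI xs g)) hps hW _ hind
      (goal ℓ M m) hg (by
        rw [Finset.card_map, ← hk0]
        exact hS2)
    obtain ⟨a', b', hsat⟩ := sound (chi φ eI xs g) hM J hJ1 hJ2
    exact ⟨eI (g, a', b'), (hφ _).2 ((sat_iff _ (hxs _)).2 hsat)⟩
  · rintro ⟨i, hi⟩
    obtain ⟨⟨g, a', b'⟩, rfl⟩ := eI.surjective i
    have hsat : SatAt (chi φ eI xs g) a' b' := (sat_iff _ (hxs _)).1 ((hφ _).1 hi)
    obtain ⟨J, hJ1, hJ2⟩ := complete (M := M) (chi φ eI xs g) a' b' hsat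
    obtain ⟨I, hI1, hI2⟩ := extend mx col ps (fun g => adj (chi φ eI xs g)) g J hJ1
    refine ⟨I.map e.toEmbedding, ?_, ?_⟩
    · intro i hi k hk _ hik
      obtain ⟨u, hu, rfl⟩ := Finset.mem_map.1 (Finset.mem_coe.1 hi)
      obtain ⟨v, hv, rfl⟩ := Finset.mem_map.1 (Finset.mem_coe.1 hk)
      refine hI1 u hu v hv ?_
      have : Jd mx ps (chi φ eI xs) (e.symm (e u)) (e.symm (e v)) := hik
      rwa [e.symm_apply_apply, e.symm_apply_apply] at this
    · rw [Finset.card_map, hI2]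
      omega

open Classical in
/-- Entries of the matrix. -/
noncomputable def entry (mx : Mix G Q τ) (ps : HV ℓ M m → Q)
    (eI : (Fin G × (Fin ℓ → Bool) × (Fin ℓ → Bool)) ≃ Fin t)
    (e : JV G Q (HV ℓ M m) ≃ Fin N) (i k : Fin N) : Ent :=
  (decide (Jd mx ps (fun _ _ _ _ => false) (e.symm i) (e.symm k)),
    (datOf (e.symm i) (e.symm k)).map fun d => ((eI d.1).val, num d.2.1, num d.2.2))

/-- The matrix. -/
noncomputable def mat (mx : Mix G Q τ) (ps : HV ℓ M m → Q)
    (eI : (Fin G × (Fin ℓ → Bool) × (Fin ℓ → Bool)) ≃ Fin t)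
    (e : JV G Q (HV ℓ M m) ≃ Fin N) : List (List Ent) :=
  (List.finRange N).map fun i => (List.finRange N).map fun k => entry mx ps eI e i k

open Classical in
lemma eval_entry (φ : List Bool → List Cl) (mx : Mix G Q τ) (ps : HV ℓ M m → Q)
    (eI : (Fin G × (Fin ℓ → Bool) × (Fin ℓ → Bool)) ≃ Fin t)
    (e : JV G Q (HV ℓ M m) ≃ Fin N) (xs : Fin t → List Bool) (i k : Fin N) :
    evalE φ (List.ofFn xs) (entry mx ps eI e i k) =
      decide (Jd mx ps (chi φ eI xs) (e.symm i) (e.symm k)) := by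
  rw [Bool.eq_iff_iff, decide_eq_true_iff, Jd_iff]
  simp only [evalE, entry, Bool.or_eq_true, decide_eq_true_eq, List.any_eq_true, List.mem_map]
  refine or_congr Iff.rfl ?_
  constructor
  · rintro ⟨d, ⟨d', hd', rfl⟩, hd⟩
    refine ⟨d', hd', ?_⟩
    simpa [chi, List.getD] using hd
  · rintro ⟨d', hd', hd⟩
    refine ⟨_, ⟨d', hd', rfl⟩, ?_⟩
    simpa [chi, List.getD] using hd

lemma buildStr_eq (φ : List Bool → List Cl) (mx : Mix G Q τ) (ps : HV ℓ M m → Q)
    (eI : (Fin G × (Fin ℓ → Bool) × (Fin ℓ → Bool)) ≃ Fin t)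
    (e : JV G Q (HV ℓ M m) ≃ Fin N) (k0 : ℕ) (T : List (List Bool)) (xs : Fin t → List Bool) :
    buildStr φ (t, N, k0, mat mx ps eI e, T) (List.ofFn xs) =
      (instOf φ mx ps eI e k0 xs).code := by
  classical
  have h : (mat mx ps eI e).flatMap (fun row => row.map fun en => evalE φ (List.ofFn xs) en) =
      (List.finRange N).flatMap fun i => (List.finRange N).map fun k =>
        decide ((gOf φ mx ps eI e xs).Adj i k) := by
    rw [mat, List.flatMap_map]
    refine List.flatMap_congr fun i _ => ?_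
    rw [List.map_map]
    refine List.map_congr_left fun k _ => ?_
    exact eval_entry φ mx ps eI e xs i k
  change codeStr N ((mat mx ps eI e).flatMap
    (fun row => row.map fun en => evalE φ (List.ofFn xs) en)) k0 = _
  rw [h]
  rfl

lemma sz_mat_le (mx : Mix G Q τ) (ps : HV ℓ M m → Q)
    (eI : (Fin G × (Fin ℓ → Bool) × (Fin ℓ → Bool)) ≃ Fin t)
    (e : JV G Q (HV ℓ M m) ≃ Fin N) :
    sz (mat mx ps eI e) ≤ 1 + N * (1 + (1 + N * (1 + entBound t m))) := by
  refine sz_list_le _ _ _ (by simp [mat]) ?_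
  intro row hrow
  simp only [mat, List.mem_map] at hrow
  obtain ⟨i, -, rfl⟩ := hrow
  refine sz_list_le _ _ _ (by simp) ?_
  intro en hen
  simp only [List.mem_map] at hen
  obtain ⟨k, -, rfl⟩ := hen
  rw [sz_pair, entBound]
  have h1 := sz_bool_le (entry mx ps eI e i k).1
  have h2 : sz (entry mx ps eI e i k).2 ≤ 1 + 1 * (1 + (1 + (1 + 2 * t) +
    (1 + (1 + 2 * (3 * m + 3)) + (1 + 2 * (3 * m + 3))))) := by
    refine sz_list_le _ _ _ (by simpa [entry] using length_datOf _ _) ?_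
    intro d hd
    simp only [entry, List.mem_map] at hd
    obtain ⟨d', -, rfl⟩ := hd
    have h3 := (eI d'.1).2
    have h4 : num d'.2.1 ≤ 3 * m + 3 := by
      have h5 := d'.2.1.1.2
      have h6 := d'.2.1.2.2
      unfold num
      omega
    have h5 : num d'.2.2 ≤ 3 * m + 3 := by
      have h5 := d'.2.2.1.2
      have h6 := d'.2.2.2.2
      unfold num
      omega
    simp only [sz_pair, sz_nat]
    omega
  omega

/-- The advice works. -/
theorem advice_works {L : DecisionProblem} {φ : List Bool → List Cl}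
    (hφ : ∀ x, L x = true ↔ Sat (φ x)) (mx : Mix G Q τ) (ps : HV ℓ M m → Q)
    (eI : (Fin G × (Fin ℓ → Bool) × (Fin ℓ → Bool)) ≃ Fin t)
    (e : JV G Q (HV ℓ M m) ≃ Fin N) (hps : Function.Injective ps) (hM : rest ℓ m < M)
    (hW : (6 * G + 1) * τ + Fintype.card (HV ℓ M m) ≤ Fintype.card Q) (hg : 0 < goal ℓ M m)
    (hk0 : k0 = 3 * Fintype.card Q + goal ℓ M m) (htpos : 0 < t) {n : ℕ}
    (hm : ∀ x : List Bool, x.length = n → (φ x).length ≤ m)
    (F : List Bool → List Bool) (B : Set (List Bool))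
    (h : ∀ I : Inst, I.Valid → (F I.code ∈ B ↔ I.Yes))
    (hlen : ∀ I : Inst, I.Valid → I.k = k0 → (F I.code).length < t) :
    ∃ A : Adv, sz A ≤ advBound t N k0 m n ∧
      ∀ x : List Bool, x.length = n → (L x = false ↔ ∃ xs, check φ F x A xs = true) := by
  classical
  have hk1 : 1 ≤ k0 := by omega
  have hvalid := valid_instOf φ mx ps eI e hk1
  have hyes := fun (xs : Fin t → List Bool) (hxs : ∀ i, (xs i).length = n) =>
    yes_instOf hφ mx ps eI e hps hM hW hg hk0 xs fun i => hm _ (hxs i)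
  let An := (FS.strs n).filter fun x => L x = false
  have hAn : ∀ {x}, x ∈ An ↔ x.length = n ∧ L x = false := by
    intro x
    simp only [An, Finset.mem_filter, FS.mem_strs]
  have hlen' : ∀ xs : Fin t → List Bool, (F (instOf φ mx ps eI e k0 xs).code).length < t :=
    fun xs => hlen _ (hvalid xs) rfl
  obtain ⟨S, hS1, hS2, hS3⟩ := FS.cover htpos
    (fun xs : Fin t → List Bool => F (instOf φ mx ps eI e k0 xs).code)
    (FS.strsLt t) (FS.card_strsLt_le t) An (fun xs _ => FS.mem_strsLt.2 (hlen' xs)) (n + 1) An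
    subset_rfl (by
      have h1 : An.card ≤ 2 ^ n := (Finset.card_filter_le _ _).trans (FS.card_strs_le n)
      have h2 : 2 ^ n < 2 ^ (n + 1) := Nat.pow_lt_pow_right (by norm_num) (by omega)
      omega)
  have hbuild := buildStr_eq φ mx ps eI e k0 S.toList
  refine ⟨(t, N, k0, mat mx ps eI e, S.toList), ?_, ?_⟩
  · have hSs : sz S.toList ≤ 1 + (n + 1) * (1 + (1 + t * (1 + 3))) := by
      refine sz_list_le _ _ _ (by simpa using hS1) ?_
      intro y hy
      obtain ⟨xs, -, rfl⟩ := hS2 y (Finset.mem_toList.1 hy)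
      exact sz_list_le _ _ _ (hlen' xs).le fun b _ => sz_bool_le b
    have hmat := sz_mat_le mx ps eI e
    simp only [sz_pair, sz_nat, advBound]
    omega
  · intro x hx
    constructor
    · intro hLx
      obtain ⟨xs, h1, ⟨i, hi⟩, h3⟩ := hS3 x (hAn.2 ⟨hx, hLx⟩)
      refine ⟨List.ofFn xs, ?_⟩
      simp only [check, Bool.and_eq_true, decide_eq_true_eq, List.all_eq_true]
      refine ⟨?_, ?_, ?_, ?_⟩
      · rw [List.mem_ofFn]
        exact ⟨i, hi⟩
      · intro y hy
        rw [List.mem_ofFn] at hy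
        obtain ⟨i', rfl⟩ := hy
        rw [hx]
        exact (hAn.1 (h1 i')).1
      · simp
      · rw [hbuild]
        exact Finset.mem_toList.2 h3
    · rintro ⟨xl, hxl⟩
      simp only [check, Bool.and_eq_true, decide_eq_true_eq, List.all_eq_true] at hxl
      obtain ⟨h1, h2, h3, h4⟩ := hxl
      have h3' : xl.length = t := h3
      let xs : Fin t → List Bool := fun i => xl[i.val]'(by rw [h3']; exact i.2)
      have hofn : List.ofFn xs = xl := by
        apply List.ext_getElem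
        · simp [h3']
        · intro i hi hi'
          simp [xs]
      have hxslen : ∀ i, (xs i).length = n := by
        intro i
        rw [← hx]
        exact h2 _ (List.getElem_mem _)
      rw [← hofn, hbuild] at h4
      have h5 := Finset.mem_toList.1 h4
      obtain ⟨z, hz1, hz2⟩ := hS2 _ h5
      have hzno : ¬ (instOf φ mx ps eI e k0 z).Yes := by
        rw [hyes z fun i => (hAn.1 (hz1 i)).1]
        rintro ⟨i, hi⟩
        rw [(hAn.1 (hz1 i)).2] at hi
        exact absurd hi (by simp)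
      have hxno : ¬ (instOf φ mx ps eI e k0 xs).Yes := by
        rw [← h (instOf φ mx ps eI e k0 xs) (hvalid xs), ← hz2,
          h (instOf φ mx ps eI e k0 z) (hvalid z)]
        exact hzno
      rw [hyes xs hxslen] at hxno
      push Not at hxno
      rw [← hofn, List.mem_ofFn] at h1
      obtain ⟨i, rfl⟩ := h1
      simpa using hxno i

end coresec

lemma goal_le (ℓ m : ℕ) : goal ℓ (rest ℓ m + 1) m ≤ 4 * ℓ * (rest ℓ m + 1) + rest ℓ m := by
  have h2 : Fintype.card (E m) + Fintype.card (E m) + Fintype.card (U m) +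
      4 * Fintype.card (Gd m) ≤ rest ℓ m := by
    unfold rest
    have : Fintype.card (E m) ≤ 2 ^ ℓ * Fintype.card (E m) :=
      Nat.le_mul_of_pos_left _ (by positivity)
    have h5 : 2 * 2 ^ ℓ * Fintype.card (E m) = 2 * (2 ^ ℓ * Fintype.card (E m)) := by ring
    omega
  unfold goal
  have h3 : 2 * ℓ * (rest ℓ m + 1) ≤ 4 * ℓ * (rest ℓ m + 1) := Nat.mul_le_mul_right _ (by omega)
  omega

/-- **Composition for inputs of length `n`.** -/
theorem core (L : DecisionProblem) (φ : List Bool → List Cl) (hφ : ∀ x, L x = true ↔ Sat (φ x))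
    (F : List Bool → List Bool) (B : Set (List Bool)) (a b c : ℕ)
    (h : ∀ I : Inst, I.Valid → (F I.code ∈ B ↔ I.Yes) ∧ (F I.code).length ^ b ≤ c * I.k ^ a)
    (n m j p G ℓ : ℕ) (hG : G = 2 ^ j) (hℓ : ℓ = 10 * j + 40)
    (hm : ∀ x : List Bool, x.length = n → (φ x).length ≤ m) (hp : p.Prime)
    (h144 : 144 * G ^ 2 ≤ p)
    (hW : (6 * G + 1) * (p ^ 5 / (12 * G)) + (4 * ℓ * (rest ℓ m + 1) + rest ℓ m) ≤ p ^ 5)
    (hc : c * (3 * p ^ 5 + goal ℓ (rest ℓ m + 1) m) ^ a < (G * (2 ^ ℓ) ^ 2) ^ b) :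
    ∃ (A : Adv) (N k0 : ℕ), N ≤ G * (4 * p ^ 5) ∧ k0 ≤ 4 * p ^ 5 ∧
      sz A ≤ advBound (G * (2 ^ ℓ) ^ 2) N k0 m n ∧
      ∀ x : List Bool, x.length = n → (L x = false ↔ ∃ xs, check φ F x A xs = true) := by
  classical
  have hGpos : 0 < G := by rw [hG]; positivity
  have hℓpos : 0 < ℓ := by omega
  obtain ⟨Q, _, hQ, ⟨mx⟩⟩ := exists_mix p G hp hGpos h144
  have hWc : Fintype.card (HV ℓ (rest ℓ m + 1) m) ≤ 4 * ℓ * (rest ℓ m + 1) + rest ℓ m :=
    card_HV_le
  have hgl := goal_le ℓ m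
  have hgoal : 0 < goal ℓ (rest ℓ m + 1) m := by
    unfold goal
    have : 0 < 2 * ℓ * (rest ℓ m + 1) := by positivity
    omega
  obtain ⟨pse⟩ : Nonempty (HV ℓ (rest ℓ m + 1) m ↪ Q) :=
    Function.Embedding.nonempty_of_card_le (by omega)
  have hIdx : Fintype.card (Fin G × (Fin ℓ → Bool) × (Fin ℓ → Bool)) = G * (2 ^ ℓ) ^ 2 := by
    simp only [Fintype.card_prod, Fintype.card_fin, Fintype.card_pi, Fintype.card_bool,
      Finset.prod_const, Finset.card_univ]
    ring
  have hN : Fintype.card (JV G Q (HV ℓ (rest ℓ m + 1) m)) ≤ G * (4 * p ^ 5) := by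
    have h1 : Fintype.card (JV G Q (HV ℓ (rest ℓ m + 1) m)) =
        G * (3 * Fintype.card Q + Fintype.card (HV ℓ (rest ℓ m + 1) m)) := by
      simp only [Fintype.card_prod, Fintype.card_sum, Fintype.card_fin]
    rw [h1, hQ]
    exact Nat.mul_le_mul_left _ (by omega)
  obtain ⟨A, hA1, hA2⟩ := advice_works (t := G * (2 ^ ℓ) ^ 2)
    (k0 := 3 * Fintype.card Q + goal ℓ (rest ℓ m + 1) m) hφ mx pse
    (Fintype.equivFinOfCardEq hIdx) (Fintype.equivFin _) pse.injective (Nat.lt_succ_self _)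
    (by rw [hQ]; omega) hgoal rfl (by positivity) hm F B (fun I hI => (h I hI).1)
    (fun I hI hk => by
      have h1 := (h I hI).2
      rw [hk, hQ] at h1
      exact lt_of_pow_lt_pow_left₀ b (Nat.zero_le _) (lt_of_le_of_lt h1 hc))
  exact ⟨A, _, _, hN, by rw [hQ]; omega, hA1, hA2⟩

end KerMain
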