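import Mathlib

/-!
# Parabolas over a finite field: mixing
-/

namespace KerCurve

open Finset

variable {K : Type} [Field K] [Fintype K] [DecidableEq K]

/-- The point `x` lies on the parabola of `y`. -/
def inc (ε w : K) (x y : K × K) : Prop := x.2 = y.2 + ε * ((x.1 - y.1) ^ 2 + w)

instance (ε w : K) (x y : K × K) : Decidable (inc ε w x y) := by unfold inc; infer_instance

/-- Number of parabolas of `Y` through `x`. -/
def deg (ε w : K) (Y : Finset (K × K)) (x : K × K) : ℕ := (Y.filter fun y => inc ε w x y).card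

lemma card_curve (ε w : K) (y : K × K) :
    (univ.filter fun x : K × K => inc ε w x y).card = Fintype.card K := by
  have : (univ.filter fun x : K × K => inc ε w x y) =
      univ.image fun a : K => (a, y.2 + ε * ((a - y.1) ^ 2 + w)) := by
    ext x
    simp only [mem_filter, mem_univ, true_and, mem_image]
    constructor
    · intro h
      exact ⟨x.1, Prod.ext rfl h.symm⟩
    · rintro ⟨a, rfl⟩
      rfl
  rw [this, card_image_of_injective, card_univ]
  intro a b h
  exact (Prod.ext_iff.1 h).1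

lemma card_inter {ε : K} (w : K) (hε : ε ≠ 0) (h2 : (2 : K) ≠ 0) {y y' : K × K} (h : y ≠ y') :
    (univ.filter fun x : K × K => inc ε w x y ∧ inc ε w x y').card ≤ 1 := by
  rw [card_le_one]
  intro a ha b hb
  obtain ⟨ha1, ha2⟩ := (mem_filter.1 ha).2
  obtain ⟨hb1, hb2⟩ := (mem_filter.1 hb).2
  simp only [inc] at ha1 ha2 hb1 hb2
  have e1 : ε * ((y.1 - y'.1) * (2 * (a.1 - b.1))) = 0 := by
    linear_combination ha1 - ha2 - hb1 + hb2
  have hne : y.1 ≠ y'.1 := by
    intro h1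
    apply h
    refine Prod.ext h1 ?_
    rw [h1] at ha1
    have := ha1.symm.trans ha2
    simpa using this
  have h3 : a.1 = b.1 := by
    rcases mul_eq_zero.1 e1 with h | h
    · exact absurd h hε
    · rcases mul_eq_zero.1 h with h | h
      · exact absurd (sub_eq_zero.1 h) hne
      · rcases mul_eq_zero.1 h with h | h
        · exact absurd h h2
        · exact sub_eq_zero.1 h
  refine Prod.ext h3 ?_
  rw [ha1, hb1, h3]

lemma sum_deg (ε w : K) (Y : Finset (K × K)) :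
    ∑ x, deg ε w Y x = Fintype.card K * Y.card := by
  unfold deg
  simp_rw [card_filter]
  rw [sum_comm]
  simp_rw [← card_filter, card_curve]
  simp [mul_comm]

lemma sum_deg_sq {ε : K} (w : K) (hε : ε ≠ 0) (h2 : (2 : K) ≠ 0) (Y : Finset (K × K)) :
    ∑ x, (deg ε w Y x) ^ 2 ≤ Fintype.card K * Y.card + Y.card ^ 2 := by
  have h1 : ∀ x, (deg ε w Y x) ^ 2 =
      ∑ y ∈ Y, ∑ y' ∈ Y, if inc ε w x y ∧ inc ε w x y' then 1 else 0 := by
    intro x
    unfold deg
    rw [card_filter, sq, sum_mul_sum]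
    refine sum_congr rfl fun y _ => sum_congr rfl fun y' _ => ?_
    by_cases h : inc ε w x y <;> by_cases h' : inc ε w x y' <;> simp [h, h']
  simp_rw [h1]
  rw [sum_comm]
  have h3 : ∀ y ∈ Y, ∑ x : K × K, ∑ y' ∈ Y, (if inc ε w x y ∧ inc ε w x y' then 1 else 0) ≤
      Fintype.card K + Y.card := by
    intro y hy
    rw [sum_comm]
    calc ∑ y' ∈ Y, ∑ x : K × K, (if inc ε w x y ∧ inc ε w x y' then 1 else 0)
        ≤ ∑ y' ∈ Y, ((if y' = y then Fintype.card K else 0) + 1) := by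
          refine sum_le_sum fun y' _ => ?_
          rw [← card_filter]
          by_cases h : y' = y
          · subst h
            simp only [and_self, if_true]
            rw [card_curve]
            omega
          · rw [if_neg h, Nat.zero_add]
            exact card_inter w hε h2 (Ne.symm h)
      _ = Fintype.card K + Y.card := by
          rw [sum_add_distrib, sum_ite_eq' Y y, if_pos hy]
          simp
  refine (sum_le_sum h3).trans ?_
  simp only [sum_const, smul_eq_mul]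
  nlinarith

/-- Variance bound. -/
lemma variance {ε : K} (w : K) (hε : ε ≠ 0) (h2 : (2 : K) ≠ 0) (Y : Finset (K × K))
    (N : Finset (K × K)) :
    ∑ x ∈ N, ((Fintype.card K : ℤ) * deg ε w Y x - Y.card) ^ 2 ≤
      (Fintype.card K : ℤ) ^ 3 * Y.card := by
  have h0 : ∑ x ∈ N, ((Fintype.card K : ℤ) * deg ε w Y x - Y.card) ^ 2 ≤
      ∑ x, ((Fintype.card K : ℤ) * deg ε w Y x - Y.card) ^ 2 :=
    sum_le_sum_of_subset_of_nonneg (subset_univ _) fun _ _ _ => sq_nonneg _
  refine h0.trans ?_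
  have h1 : ∑ x, ((Fintype.card K : ℤ) * deg ε w Y x - Y.card) ^ 2 =
      (Fintype.card K : ℤ) ^ 2 * ∑ x, ((deg ε w Y x : ℤ)) ^ 2 -
        2 * (Fintype.card K : ℤ) * Y.card * ∑ x, (deg ε w Y x : ℤ) +
        (Fintype.card K : ℤ) ^ 2 * (Y.card : ℤ) ^ 2 := by
    have : ∀ x : K × K, ((Fintype.card K : ℤ) * deg ε w Y x - Y.card) ^ 2 =
        (Fintype.card K : ℤ) ^ 2 * (deg ε w Y x : ℤ) ^ 2 -
        2 * (Fintype.card K : ℤ) * Y.card * (deg ε w Y x : ℤ) + (Y.card : ℤ) ^ 2 := by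
      intro x; ring
    simp_rw [this]
    rw [sum_add_distrib, sum_sub_distrib, ← mul_sum, ← mul_sum]
    simp only [sum_const, card_univ, Fintype.card_prod, nsmul_eq_mul, Nat.cast_mul]
    ring
  have h3 : (∑ x, (deg ε w Y x : ℤ)) = (Fintype.card K : ℤ) * Y.card := by
    exact_mod_cast sum_deg ε w Y
  have h4 : (∑ x, (deg ε w Y x : ℤ) ^ 2) ≤ (Fintype.card K : ℤ) * Y.card + (Y.card : ℤ) ^ 2 := by
    exact_mod_cast sum_deg_sq w hε h2 Y
  rw [h1, h3]
  have h5 := mul_le_mul_of_nonneg_left h4 (sq_nonneg (Fintype.card K : ℤ))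
  nlinarith

/-- Sets without incidences are small. -/
lemma no_inc {ε : K} (w : K) (hε : ε ≠ 0) (h2 : (2 : K) ≠ 0) (X Y : Finset (K × K))
    (h : ∀ x ∈ X, ∀ y ∈ Y, ¬ inc ε w x y) : X.card * Y.card ≤ Fintype.card K ^ 3 := by
  rcases Nat.eq_zero_or_pos Y.card with h0 | h0
  · rw [h0]; simp
  have h1 := variance w hε h2 Y X
  have h3 : ∑ x ∈ X, ((Fintype.card K : ℤ) * deg ε w Y x - Y.card) ^ 2 =
      (X.card : ℤ) * (Y.card : ℤ) ^ 2 := by
    have : ∀ x ∈ X, ((Fintype.card K : ℤ) * deg ε w Y x - Y.card) ^ 2 = (Y.card : ℤ) ^ 2 := by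
      intro x hx
      have : deg ε w Y x = 0 := by
        unfold deg
        rw [card_eq_zero, filter_eq_empty_iff]
        exact fun y hy => h x hx y hy
      rw [this]
      ring
    rw [sum_congr rfl this]
    simp
  rw [h3] at h1
  have h4 : (X.card * Y.card) * Y.card ≤ Fintype.card K ^ 3 * Y.card := by
    have : ((X.card * Y.card * Y.card : ℕ) : ℤ) ≤ ((Fintype.card K ^ 3 * Y.card : ℕ) : ℤ) := by
      push_cast
      nlinarith
    exact_mod_cast this
  exact Nat.le_of_mul_le_mul_right h4 h0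

/-- Expansion. -/
lemma expand {ε : K} (w : K) (hε : ε ≠ 0) (h2 : (2 : K) ≠ 0) (Y N : Finset (K × K)) (c : ℕ)
    (hN : c * Y.card ≤ ∑ x ∈ N, deg ε w Y x) (hs : 2 * N.card ≤ Fintype.card K * c) :
    c ^ 2 * Y.card ≤ 4 * Fintype.card K * N.card := by
  rcases Nat.eq_zero_or_pos Y.card with h0 | h0
  · rw [h0]; simp
  have h1 := variance w hε h2 Y N
  have h3 : (∑ x ∈ N, ((Fintype.card K : ℤ) * deg ε w Y x - Y.card)) ^ 2 ≤
      (N.card : ℤ) * ∑ x ∈ N, ((Fintype.card K : ℤ) * deg ε w Y x - Y.card) ^ 2 :=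
    sq_sum_le_card_mul_sum_sq
  have h4 : ∑ x ∈ N, ((Fintype.card K : ℤ) * deg ε w Y x - Y.card) =
      (Fintype.card K : ℤ) * (∑ x ∈ N, (deg ε w Y x : ℤ)) - N.card * Y.card := by
    rw [sum_sub_distrib, ← mul_sum]
    simp
  have h5 : (c : ℤ) * Y.card ≤ ∑ x ∈ N, (deg ε w Y x : ℤ) := by exact_mod_cast hN
  have h6 : 2 * (N.card : ℤ) ≤ (Fintype.card K : ℤ) * c := by exact_mod_cast hs
  have hq : (0 : ℤ) < Fintype.card K := by exact_mod_cast Fintype.card_pos
  have hY : (0 : ℤ) < Y.card := by exact_mod_cast h0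
  set q : ℤ := (Fintype.card K : ℤ) with hqdef
  set y : ℤ := (Y.card : ℤ) with hydef
  set S : ℤ := ∑ x ∈ N, (q * (deg ε w Y x : ℤ) - y) with hS
  have h7 : q * (c * y) ≤ q * ∑ x ∈ N, (deg ε w Y x : ℤ) := mul_le_mul_of_nonneg_left h5 hq.le
  have h8 : q * c * y ≤ 2 * S := by
    have : 2 * (N.card : ℤ) * y ≤ q * c * y := mul_le_mul_of_nonneg_right h6 hY.le
    nlinarith
  have hc : (0 : ℤ) ≤ q * c * y := by positivity
  have h9 : (q * c * y) ^ 2 ≤ 4 * S ^ 2 := by nlinarith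
  have h10 : (N.card : ℤ) * ∑ x ∈ N, (q * (deg ε w Y x : ℤ) - y) ^ 2 ≤ N.card * (q ^ 3 * y) :=
    mul_le_mul_of_nonneg_left h1 (by positivity)
  have h11 : (q ^ 2 * y) * (c ^ 2 * y) ≤ (q ^ 2 * y) * (4 * q * N.card) := by nlinarith
  have h12 : (c : ℤ) ^ 2 * y ≤ 4 * q * N.card := le_of_mul_le_mul_left h11 (by positivity)
  rw [hqdef, hydef] at h12
  exact_mod_cast h12

end KerCurve
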