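import Mathlib
import Pool.Prelude.Def_H_3587d628

/-!
# Independent set in triangle-free graphs: instances, kernelizations, advice classes
-/

namespace ISTF

open N68a2faeb

/-- An instance: a graph on `n` vertices and a number `k`. -/
structure Inst where
  /-- the order of the graph -/
  n : ℕ
  /-- the graph -/
  G : SimpleGraph (Fin n)
  /-- the parameter -/
  k : ℕ

/-- The graph is triangle-free and `k` is positive. -/
def Inst.Valid (I : Inst) : Prop := I.G.CliqueFree 3 ∧ 1 ≤ I.k

/-- There is an independent set with at least `k` vertices. -/
def Inst.Yes (I : Inst) : Prop := ∃ S : Finset (Fin I.n), I.G.IsIndepSet S ∧ I.k ≤ S.card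

open Classical in
/-- The bit string of an instance: `n` in unary, a `0`, the adjacency matrix row by row, `k` in
unary. -/
noncomputable def Inst.code (I : Inst) : List Bool :=
  List.replicate I.n true ++ false ::
    (((List.finRange I.n).flatMap fun i => (List.finRange I.n).map fun j =>
      decide (I.G.Adj i j)) ++ List.replicate I.k true)

/-- Kernelizations of the problem (the values of `K` outside the valid instances are
irrelevant). -/
structure IsKernelization (K : Inst → Inst) : Prop where
  /-- the output is an instance of the same problem -/
  valid : ∀ I : Inst, I.Valid → (K I).Valid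
  /-- the output is equivalent to the input -/
  equiv : ∀ I : Inst, I.Valid → ((K I).Yes ↔ I.Yes)
  /-- the output is computed in polynomial time -/
  polyTime : ∃ f : List Bool → List Bool, IsPolyTime f ∧ ∀ I : Inst, I.Valid →
    f I.code = (K I).code
  /-- the new parameter is bounded by a computable function of the old one -/
  param : ∃ h : ℕ → ℕ, Computable h ∧ ∀ I : Inst, I.Valid → (K I).k ≤ h I.k
  /-- the size of the output is bounded by a function of the parameter -/
  size : ∃ g : ℕ → ℕ, ∀ I : Inst, I.Valid → (K I).code.length ≤ g I.k

/-- The pair of two bit strings, as a bit string. -/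
def pairS (x a : List Bool) : List Bool := (x.flatMap fun b => [true, b]) ++ false :: a

/-- Languages of `C` with advice of polynomial length: `C/poly`. -/
def Poly (C : DecisionComplexityClass) : DecisionComplexityClass :=
  {L | ∃ L' ∈ C, ∃ (a : ℕ → List Bool) (q : Polynomial ℕ), (∀ n, (a n).length ≤ q.eval n) ∧
    ∀ x : List Bool, L x = L' (pairS x (a x.length))}

end ISTF
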