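import Pool.Agent.H79.KerMain

/-!
# Independent set on triangle-free graphs has no linear vertex kernel unless `NP ⊆ coNP/poly`
-/

namespace ISTF

open N68a2faeb TMLib KerMain

/-- The number of leading ones. -/
def nOf (y : List Bool) : ℕ :=
  ((List.range y.length).filter fun i => (y.take (i + 1)).all fun b => b).length

/-- Cut off the superfluous part of the parameter. -/
def normS (y : List Bool) : List Bool := y.take (nOf y + 1 + nOf y * nOf y + (nOf y + 1))

lemma ptime_normS : PTime normS := by
  unfold normS nOf
  fun_prop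

lemma nOf_code (n : ℕ) (l : List Bool) : nOf (List.replicate n true ++ false :: l) = n := by
  unfold nOf
  have e : (fun i => ((List.replicate n true ++ false :: l).take (i + 1)).all fun b => b) =
      fun i => decide (i < n) := by
    funext i
    rw [Bool.eq_iff_iff, List.all_eq_true, decide_eq_true_iff]
    constructor
    · intro h
      by_contra hi
      have : false ∈ (List.replicate n true ++ false :: l).take (i + 1) := by
        rw [List.mem_take_iff_getElem]
        exact ⟨n, by simp; omega, by simp⟩
      exact absurd (h false this) (by simp)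
    · intro hi b hb
      rw [List.take_append_of_le_length (by simp; omega)] at hb
      exact (List.mem_replicate.1 (List.mem_of_mem_take hb)).2
  rw [e, PTime.length_filter_range_lt]
  simp

open Classical in
/-- The adjacency matrix, row by row. -/
noncomputable def bits {n : ℕ} (G : SimpleGraph (Fin n)) : List Bool :=
  (List.finRange n).flatMap fun i => (List.finRange n).map fun j => decide (G.Adj i j)

lemma length_bits {n : ℕ} (G : SimpleGraph (Fin n)) : (bits G).length = n * n := by
  simp [bits, List.length_flatMap]

lemma flatMap_inj {α β : Type} (l : List α) (f g : α → List β)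
    (hlen : ∀ a, (f a).length = (g a).length) (h : l.flatMap f = l.flatMap g) :
    ∀ a ∈ l, f a = g a := by
  induction l with
  | nil => simp
  | cons a l ih =>
    rw [List.flatMap_cons, List.flatMap_cons] at h
    obtain ⟨h1, h2⟩ := List.append_inj h (hlen a)
    intro b hb
    rcases List.mem_cons.1 hb with rfl | hb
    · exact h1
    · exact ih h2 b hb

lemma bits_injective {n : ℕ} {G G' : SimpleGraph (Fin n)} (h : bits G = bits G') : G = G' := by
  classical
  ext i j
  have h1 := flatMap_inj _ _ _ (fun a => by simp) h i (List.mem_finRange i)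
  have h2 := List.map_inj_left.1 h1 j (List.mem_finRange j)
  simpa using h2

lemma code_eq (I : Inst) : I.code =
    List.replicate I.n true ++ false :: (bits I.G ++ List.replicate I.k true) := rfl

lemma code_injective {I I' : Inst} (h : I.code = I'.code) : I = I' := by
  obtain ⟨n, G, k⟩ := I
  obtain ⟨n', G', k'⟩ := I'
  have h1 : n = n' := by
    have := congrArg nOf h
    rw [code_eq, code_eq, nOf_code, nOf_code] at this
    exact this
  subst h1
  rw [code_eq, code_eq] at h
  have h2 := List.append_cancel_left h
  simp only [List.cons.injEq, true_and] at h2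
  obtain ⟨h3, h4⟩ := List.append_inj h2 (by rw [length_bits, length_bits])
  have h5 := bits_injective h3
  subst h5
  have h6 := congrArg List.length h4
  simp only [List.length_replicate] at h6
  subst h6
  rfl

/-- The parameter capped at the order plus one. -/
def Inst.capped (I : Inst) : Inst := ⟨I.n, I.G, min I.k (I.n + 1)⟩

lemma yes_capped (I : Inst) : I.capped.Yes ↔ I.Yes := by
  constructor
  · rintro ⟨S, h1, h2⟩
    refine ⟨S, h1, ?_⟩
    have h3 : S.card ≤ I.n := (Finset.card_le_univ S).trans_eq (Fintype.card_fin _)
    have h4 : min I.k (I.n + 1) ≤ S.card := h2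
    rcases min_le_iff.1 h4 with h5 | h5
    · exact h5
    · exact absurd (h5.trans h3) (by omega)
  · rintro ⟨S, h1, h2⟩
    exact ⟨S, h1, (min_le_left _ _).trans h2⟩

lemma normS_code (I : Inst) : normS I.code = I.capped.code := by
  unfold normS
  rw [code_eq, nOf_code, code_eq]
  have hb := length_bits I.G
  have e : I.n + 1 + I.n * I.n + (I.n + 1) = (List.replicate I.n true).length +
      ((bits I.G).length + (I.n + 1) + 1) := by
    rw [hb, List.length_replicate]
    ring
  rw [e, List.take_length_add_append, List.take_succ_cons, List.take_length_add_append,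
    List.take_replicate]
  have : min (I.n + 1) I.k = min I.k (I.n + 1) := min_comm _ _
  rw [this]
  rfl

/-- No kernel of order `O(k ^ (a / b))` with `a / b < 21 / 20`. -/
lemma kernel_imp (a b c : ℕ) (hab : 20 * a < 21 * b) (K : Inst → Inst) (hK : IsKernelization K)
    (h : ∀ I : Inst, I.Valid → (K I).n ^ b ≤ c * I.k ^ a) : NP ⊆ Poly coNP := by
  obtain ⟨f, hf, hf'⟩ := hK.polyTime
  have hfP := ptime_of_isPolyTime hf
  refine compress_imp (fun x => normS (f x)) (ptime_normS.comp hfP)
    {y | ∃ I : Inst, I.code = y ∧ I.Yes} (2 * a) b (8 ^ b * (c + 1) ^ 2) (by omega) ?_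
  intro I hI
  have e : normS (f I.code) = (K I).capped.code := by rw [hf' I hI, normS_code]
  constructor
  · change (∃ I' : Inst, I'.code = normS (f I.code) ∧ I'.Yes) ↔ I.Yes
    rw [e, ← hK.equiv I hI, ← yes_capped]
    constructor
    · rintro ⟨I', h1, h2⟩
      rwa [code_injective h1] at h2
    · intro h2
      exact ⟨_, rfl, h2⟩
  · rw [e, code_eq]
    simp only [List.length_append, List.length_cons, List.length_replicate, length_bits]
    set n := (K I).n with hn
    have h1 : n + (n * n + min (K I).k (n + 1) + 1) ≤ 2 * (n + 1) ^ 2 := by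
      have : min (K I).k (n + 1) ≤ n + 1 := min_le_right _ _
      nlinarith
    have h2 : (n + 1) ^ b ≤ 2 ^ b * (c + 1) * I.k ^ a := by
      have hk : 1 ≤ I.k ^ a := Nat.one_le_pow _ _ hI.2
      rcases Nat.eq_zero_or_pos n with h0 | h0
      · rw [h0]
        have : 1 ≤ 2 ^ b * (c + 1) * I.k ^ a :=
          Nat.mul_pos (Nat.mul_pos (by positivity) (by omega)) hk
        simpa using this
      · calc (n + 1) ^ b ≤ (2 * n) ^ b := Nat.pow_le_pow_left (by omega) _
          _ = 2 ^ b * n ^ b := by rw [mul_pow]
          _ ≤ 2 ^ b * (c * I.k ^ a) := Nat.mul_le_mul_left _ (h I hI)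
          _ ≤ 2 ^ b * ((c + 1) * I.k ^ a) :=
              Nat.mul_le_mul_left _ (Nat.mul_le_mul_right _ (by omega))
          _ = 2 ^ b * (c + 1) * I.k ^ a := by ring
    calc (n + (n * n + min (K I).k (n + 1) + 1)) ^ b ≤ (2 * (n + 1) ^ 2) ^ b :=
          Nat.pow_le_pow_left h1 _
      _ = 2 ^ b * ((n + 1) ^ b) ^ 2 := by rw [mul_pow, ← pow_mul, ← pow_mul, mul_comm 2 b]
      _ ≤ 2 ^ b * (2 ^ b * (c + 1) * I.k ^ a) ^ 2 :=
          Nat.mul_le_mul_left _ (Nat.pow_le_pow_left h2 2)
      _ = 8 ^ b * (c + 1) ^ 2 * I.k ^ (2 * a) := by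
          have h8 : (8 : ℕ) ^ b = 2 ^ b * 2 ^ b * 2 ^ b := by
            rw [← mul_pow, ← mul_pow]
            norm_num
          rw [h8, mul_comm 2 a, pow_mul]
          ring

end ISTF
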