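import Mathlib

/-!
# The graph of one group: independent sets select one of `4 ^ ℓ` instances
-/

namespace KerGrp

open Finset

/-- Literal positions. -/
abbrev U (m : ℕ) := Fin m × Fin 3
/-- Pairs of literal positions. -/
abbrev E (m : ℕ) := U m × U m
/-- Gadgets: one for each clause, one for each pair. -/
abbrev Gd (m : ℕ) := Fin m ⊕ E m

/-- Vertices of a group. -/
inductive HV (ℓ M m : ℕ)
  | sel (s : Bool) (j : Fin ℓ) (β : Bool) (w : Fin M)
  | ab (s : Bool) (a : Fin ℓ → Bool) (e : E m)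
  | d (e : E m)
  | x (u : U m) (β : Bool)
  | c (γ : Gd m) (i : Fin 9)
deriving DecidableEq, Fintype

variable {ℓ M m : ℕ}

/-- The vertex attached to position `3 * j` of a gadget. -/
def kill : Gd m → Fin 3 → HV ℓ M m
  | .inl c, j => .x (c, j) false
  | .inr e, j => if j = 0 then .x e.1 true else if j = 1 then .x e.2 true else .d e

/-- Data. -/
abbrev Dat (ℓ m : ℕ) := (Fin ℓ → Bool) → (Fin ℓ → Bool) → E m → Bool

/-- Directed adjacency. -/
def rel (χ : Dat ℓ m) : HV ℓ M m → HV ℓ M m → Prop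
  | .sel s j β _, .sel s' j' β' _ => s = s' ∧ j = j' ∧ β = false ∧ β' = true
  | .sel s j β _, .ab s' a _ => s = s' ∧ a j ≠ β
  | .ab s a e, .ab s' b e' => s = false ∧ s' = true ∧ e = e' ∧ χ a b e = true
  | .ab s _ e, .d e' => s = false ∧ e = e'
  | .x u β, .x u' β' => u = u' ∧ β = false ∧ β' = true
  | .c γ i, .c γ' i' => γ = γ' ∧ i' = i + 1
  | .c γ i, .x u β => ∃ j : Fin 3, i.val = 3 * j.val ∧ kill (ℓ := ℓ) (M := M) γ j = .x u β
  | .c γ i, .d e => ∃ j : Fin 3, i.val = 3 * j.val ∧ kill (ℓ := ℓ) (M := M) γ j = .d e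
  | _, _ => False

/-- Adjacency. -/
def adj (χ : Dat ℓ m) (u v : HV ℓ M m) : Prop := rel χ u v ∨ rel χ v u

/-- Satisfiability of the instance `(a, b)`. -/
def SatAt (χ : Dat ℓ m) (a b : Fin ℓ → Bool) : Prop :=
  ∃ y : U m → Bool, (∀ c, ∃ j, y (c, j) = true) ∧
    ∀ e : E m, χ a b e = true → ¬ (y e.1 = true ∧ y e.2 = true)

/-- Colours. -/
def col : HV ℓ M m → Fin 3
  | .sel s _ β _ => if β then 2 else if s then 0 else 1
  | .ab s _ _ => if s then 1 else 0
  | .d _ => 1
  | .x _ β => if β then 1 else 0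
  | .c _ i => if i.val % 3 = 0 then 2 else if i.val % 3 = 1 then 0 else 1

lemma col_kill (γ : Gd m) (j : Fin 3) : col (kill γ j : HV ℓ M m) ≠ 2 := by
  cases γ with
  | inl c => simp [kill, col]
  | inr e =>
    simp only [kill]
    split_ifs <;> simp [col]

lemma col_succ : ∀ i : Fin 9, (if i.val % 3 = 0 then (2 : Fin 3) else if i.val % 3 = 1 then 0 else 1) ≠
    (if (i + 1).val % 3 = 0 then (2 : Fin 3) else if (i + 1).val % 3 = 1 then 0 else 1) := by
  decide

lemma col_rel (χ : Dat ℓ m) {u v : HV ℓ M m} (h : rel χ u v) : col u ≠ col v := by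
  cases u with
  | sel s j β w =>
    cases v with
    | sel s' j' β' w' =>
      obtain ⟨rfl, rfl, rfl, rfl⟩ := h
      cases s <;> simp [col]
    | ab s' a e =>
      obtain ⟨rfl, h⟩ := h
      cases s <;> cases β <;> simp [col]
    | _ => exact absurd h (by simp [rel])
  | ab s a e =>
    cases v with
    | ab s' b e' =>
      obtain ⟨rfl, rfl, -, -⟩ := h
      simp [col]
    | d e' =>
      obtain ⟨rfl, -⟩ := h
      simp [col]
    | _ => exact absurd h (by simp [rel])
  | d e => cases v <;> exact absurd h (by simp [rel])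
  | x u β =>
    cases v with
    | x u' β' =>
      obtain ⟨rfl, rfl, rfl⟩ := h
      simp [col]
    | _ => exact absurd h (by simp [rel])
  | c γ i =>
    cases v with
    | c γ' i' =>
      obtain ⟨rfl, rfl⟩ := h
      exact col_succ i
    | x u β =>
      obtain ⟨j, hj, hk⟩ := h
      have := col_kill (ℓ := ℓ) (M := M) γ j
      rw [hk] at this
      have h3 : i.val % 3 = 0 := by omega
      simp only [col, h3, if_true] at this ⊢
      exact this.symm
    | d e =>
      obtain ⟨j, hj, hk⟩ := h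
      have h3 : i.val % 3 = 0 := by omega
      simp [col, h3]
    | _ => exact absurd h (by simp [rel])

lemma col_adj (χ : Dat ℓ m) {u v : HV ℓ M m} (h : adj χ u v) : col u ≠ col v := by
  rcases h with h | h
  · exact col_rel χ h
  · exact (col_rel χ h).symm

lemma adj_symm (χ : Dat ℓ m) {u v : HV ℓ M m} (h : adj χ u v) : adj χ v u := Or.symm h

lemma adj_irrefl (χ : Dat ℓ m) (u : HV ℓ M m) : ¬ adj χ u u := fun h => col_adj χ h rfl

/-- Neighbours of a selector vertex of colour 2. -/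
lemma nb_sel (χ : Dat ℓ m) {s : Bool} {j : Fin ℓ} {w : Fin M} {v : HV ℓ M m}
    (h : adj χ (.sel s j true w) v) :
    (∃ w', v = .sel s j false w') ∨ ∃ a e, v = .ab s a e ∧ a j = false := by
  rcases h with h | h
  · cases v with
    | sel s' j' β' w' => exact absurd h (by simp [rel])
    | ab s' a e =>
      obtain ⟨rfl, h⟩ := h
      exact Or.inr ⟨a, e, rfl, by simpa using h⟩
    | _ => exact absurd h (by simp [rel])
  · cases v with
    | sel s' j' β' w' =>
      obtain ⟨rfl, rfl, rfl, -⟩ := h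
      exact Or.inl ⟨w', rfl⟩
    | _ => exact absurd h (by simp [rel])

/-- Neighbours of a gadget vertex. -/
lemma nb_c (χ : Dat ℓ m) {γ : Gd m} {i : Fin 9} {v : HV ℓ M m} (h : adj χ (.c γ i) v) :
    v = .c γ (i + 1) ∨ v = .c γ (i - 1) ∨ ∃ j : Fin 3, i.val = 3 * j.val ∧ v = kill γ j := by
  rcases h with h | h
  · cases v with
    | c γ' i' =>
      obtain ⟨rfl, rfl⟩ := h
      exact Or.inl rfl
    | x u β =>
      obtain ⟨j, hj, hk⟩ := h
      exact Or.inr (Or.inr ⟨j, hj, hk.symm⟩)
    | d e =>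
      obtain ⟨j, hj, hk⟩ := h
      exact Or.inr (Or.inr ⟨j, hj, hk.symm⟩)
    | _ => exact absurd h (by simp [rel])
  · cases v with
    | c γ' i' =>
      obtain ⟨rfl, rfl⟩ := h
      exact Or.inr (Or.inl (by simp))
    | _ => exact absurd h (by simp [rel])

lemma kill_ne_c (γ : Gd m) (j : Fin 3) (γ' : Gd m) (i : Fin 9) :
    (kill γ j : HV ℓ M m) ≠ .c γ' i := by
  cases γ with
  | inl c => simp [kill]
  | inr e =>
    simp only [kill]
    split_ifs <;> simp

lemma adj_c_kill (χ : Dat ℓ m) (γ : Gd m) (i : Fin 9) (γ' : Gd m) (j' : Fin 3)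
    (h : adj χ (.c γ i) (kill γ' j' : HV ℓ M m)) : i.val % 3 = 0 := by
  rcases nb_c χ h with h | h | ⟨j, hj, -⟩
  · exact absurd h (kill_ne_c _ _ _ _)
  · exact absurd h (kill_ne_c _ _ _ _)
  · omega

lemma no_tri2 (χ : Dat ℓ m) {u v w : HV ℓ M m} (hu : col u = 2) (h1 : adj χ u v) (h2 : adj χ u w)
    (h3 : adj χ v w) : False := by
  cases u with
  | sel s j β w0 =>
    have hβ : β = true := by
      cases β with
      | true => rfl
      | false => cases s <;> simp [col] at hu
    subst hβ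
    rcases nb_sel χ h1 with ⟨w1, rfl⟩ | ⟨a, e, rfl, ha⟩ <;>
    rcases nb_sel χ h2 with ⟨w2, rfl⟩ | ⟨a', e', rfl, ha'⟩
    · rcases h3 with h | h <;> simp [rel] at h
    · rcases h3 with h | h <;> simp [rel] at h
      rw [ha'] at h
      exact absurd h (by simp)
    · rcases h3 with h | h <;> simp [rel] at h
      rw [ha] at h
      exact absurd h (by simp)
    · rcases h3 with h | h
      · obtain ⟨r1, r2, -⟩ := h
        rw [r1] at r2
        exact absurd r2 (by simp)
      · obtain ⟨r1, r2, -⟩ := h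
        rw [r1] at r2
        exact absurd r2 (by simp)
  | c γ i =>
    have hi : i.val % 3 = 0 := by
      by_contra hne
      simp only [col, hne, if_false] at hu
      split_ifs at hu <;> exact absurd hu (by decide)
    have key : ∀ i : Fin 9, i.val % 3 = 0 → (i + 1).val % 3 ≠ 0 ∧ (i - 1).val % 3 ≠ 0 ∧
        i + 1 ≠ i - 1 + 1 ∧ i - 1 ≠ i + 1 + 1 := by decide
    obtain ⟨k1, k2, k3, k4⟩ := key i hi
    have hcc : ¬ adj χ (.c γ (i + 1) : HV ℓ M m) (.c γ (i - 1)) := by
      rintro (h | h)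
      · exact k4 h.2
      · exact k3 h.2
    rcases nb_c χ h1 with rfl | rfl | ⟨j, hj, rfl⟩ <;>
    rcases nb_c χ h2 with rfl | rfl | ⟨j', hj', rfl⟩
    · exact adj_irrefl χ _ h3
    · exact hcc h3
    · exact k1 (adj_c_kill χ _ _ _ _ h3)
    · exact hcc (adj_symm χ h3)
    · exact adj_irrefl χ _ h3
    · exact k2 (adj_c_kill χ _ _ _ _ h3)
    · exact k1 (adj_c_kill χ _ _ _ _ (adj_symm χ h3))
    · exact k2 (adj_c_kill χ _ _ _ _ (adj_symm χ h3))
    · have : j = j' := Fin.ext (by omega)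
      subst this
      exact adj_irrefl χ _ h3
  | ab s a e => cases s <;> simp [col] at hu
  | d e => simp [col] at hu
  | x u β => cases β <;> simp [col] at hu

/-- The group graph is triangle free. -/
theorem no_tri (χ : Dat ℓ m) {u v w : HV ℓ M m} (h1 : adj χ u v) (h2 : adj χ v w)
    (h3 : adj χ u w) : False := by
  have c1 := col_adj χ h1
  have c2 := col_adj χ h2
  have c3 := col_adj χ h3
  have key : ∀ a b c : Fin 3, a ≠ b → b ≠ c → a ≠ c → a = 2 ∨ b = 2 ∨ c = 2 := by decide
  rcases key _ _ _ c1 c2 c3 with h | h | h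
  · exact no_tri2 χ h h1 h3 h2
  · exact no_tri2 χ h (adj_symm χ h1) h2 h3
  · exact no_tri2 χ h (adj_symm χ h3) (adj_symm χ h2) h1

/-- Number of vertices that are not selectors. -/
def rest (ℓ m : ℕ) : ℕ :=
  2 * 2 ^ ℓ * Fintype.card (E m) + Fintype.card (E m) + 2 * Fintype.card (U m) +
    9 * Fintype.card (Gd m)

/-- The target. -/
def goal (ℓ M m : ℕ) : ℕ :=
  2 * ℓ * M + Fintype.card (E m) + Fintype.card (E m) + Fintype.card (U m) +
    4 * Fintype.card (Gd m)

/-- Equivalence with a sum type. -/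
def toSum : HV ℓ M m → (Bool × Fin ℓ × Bool × Fin M) ⊕ (Bool × (Fin ℓ → Bool) × E m) ⊕ E m ⊕
    (U m × Bool) ⊕ (Gd m × Fin 9)
  | .sel s j β w => .inl (s, j, β, w)
  | .ab s a e => .inr (.inl (s, a, e))
  | .d e => .inr (.inr (.inl e))
  | .x u β => .inr (.inr (.inr (.inl (u, β))))
  | .c γ i => .inr (.inr (.inr (.inr (γ, i))))

lemma toSum_injective : Function.Injective (toSum : HV ℓ M m → _) := by
  intro u v h
  cases u <;> cases v <;> simp [toSum] at h ⊢ <;> exact h

lemma card_HV_le : Fintype.card (HV ℓ M m) ≤ 4 * ℓ * M + rest ℓ m := by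
  refine (Fintype.card_le_of_injective _ toSum_injective).trans ?_
  simp only [Fintype.card_sum, Fintype.card_prod, Fintype.card_bool, Fintype.card_fin,
    Fintype.card_pi, Finset.prod_const, Finset.card_univ, rest]
  ring_nf
  omega

end KerGrp
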