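import Pool.Agent.H79.KerGrp

/-!
# Independent sets of the group graph
-/

namespace KerGrp

open Finset

variable {ℓ M m : ℕ}

/-- Independent sets of the 9-cycle. -/
lemma nine (S : Finset (Fin 9)) (h : ∀ i ∈ S, i + 1 ∉ S) :
    S.card ≤ 4 ∧ ((∀ j : Fin 3, ∀ i : Fin 9, i.val = 3 * j.val → i ∉ S) → S.card ≤ 3) := by
  have hc : S.card = ∑ i : Fin 9, if i ∈ S then 1 else 0 := by simp
  have h' : ∀ i : Fin 9, (if i ∈ S then 1 else 0) + (if i + 1 ∈ S then 1 else 0) ≤ 1 := by
    intro i
    by_cases h1 : i ∈ S
    · simp [h1, h i h1]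
    · simp only [h1, if_false]
      split_ifs <;> omega
  simp only [Fin.sum_univ_succ, Fin.sum_univ_zero] at hc
  have h0 := h' 0
  have h1 := h' 1
  have h2 := h' 2
  have h3 := h' 3
  have h4 := h' 4
  have h5 := h' 5
  have h6 := h' 6
  have h7 := h' 7
  have h8 := h' 8
  simp only [show (0 : Fin 9) + 1 = 1 from rfl, show (1 : Fin 9) + 1 = 2 from rfl,
    show (2 : Fin 9) + 1 = 3 from rfl, show (3 : Fin 9) + 1 = 4 from rfl,
    show (4 : Fin 9) + 1 = 5 from rfl, show (5 : Fin 9) + 1 = 6 from rfl,
    show (6 : Fin 9) + 1 = 7 from rfl, show (7 : Fin 9) + 1 = 8 from rfl,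
    show (8 : Fin 9) + 1 = 0 from rfl] at h0 h1 h2 h3 h4 h5 h6 h7 h8
  have e : S.card = (if (0 : Fin 9) ∈ S then 1 else 0) + ((if (1 : Fin 9) ∈ S then 1 else 0) +
    ((if (2 : Fin 9) ∈ S then 1 else 0) + ((if (3 : Fin 9) ∈ S then 1 else 0) +
    ((if (4 : Fin 9) ∈ S then 1 else 0) + ((if (5 : Fin 9) ∈ S then 1 else 0) +
    ((if (6 : Fin 9) ∈ S then 1 else 0) + ((if (7 : Fin 9) ∈ S then 1 else 0) +
    ((if (8 : Fin 9) ∈ S then 1 else 0) + 0)))))))) := hc
  refine ⟨by omega, fun hk => ?_⟩
  have k0 : (0 : Fin 9) ∉ S := hk 0 0 rfl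
  have k3 : (3 : Fin 9) ∉ S := hk 1 3 rfl
  have k6 : (6 : Fin 9) ∉ S := hk 2 6 rfl
  simp only [k0, k3, k6, if_false] at e h0 h1 h2 h3 h4 h5 h6 h7 h8
  omega

/-- Block types. -/
abbrev Bl (ℓ m : ℕ) := (Bool × Fin ℓ) ⊕ (E m ⊕ (E m ⊕ (U m ⊕ Gd m)))

/-- The block of a vertex. -/
def blk : HV ℓ M m → Bl ℓ m
  | .sel s j _ _ => .inl (s, j)
  | .ab s _ e => if s then .inr (.inl e) else .inr (.inr (.inl e))
  | .d e => .inr (.inr (.inl e))
  | .x u _ => .inr (.inr (.inr (.inl u)))
  | .c γ _ => .inr (.inr (.inr (.inr γ)))

/-- The capacity of a block. -/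
def cap (M : ℕ) : Bl ℓ m → ℕ
  | .inl _ => M
  | .inr (.inl _) => 1
  | .inr (.inr (.inl _)) => 1
  | .inr (.inr (.inr (.inl _))) => 1
  | .inr (.inr (.inr (.inr _))) => 4

lemma sum_cap : ∑ τ : Bl ℓ m, cap M τ = goal ℓ M m := by
  simp only [Fintype.sum_sum_type, cap, sum_const, card_univ, smul_eq_mul, Fintype.card_prod,
    Fintype.card_bool, Fintype.card_fin, Fintype.card_sum, goal]
  ring

/-- **Soundness.** A large independent set selects a satisfiable instance. -/
theorem sound (χ : Dat ℓ m) (hM : rest ℓ m < M) (I : Finset (HV ℓ M m))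
    (hI : ∀ u ∈ I, ∀ v ∈ I, ¬ adj χ u v) (hcard : goal ℓ M m ≤ I.card) :
    ∃ a b, SatAt χ a b := by
  classical
  have hsel : ∀ (s : Bool) (j : Fin ℓ) (β β' : Bool) (w w' : Fin M), .sel s j β w ∈ I →
      .sel s j β' w' ∈ I → β = β' := by
    intro s j β β' w w' h h'
    by_contra hne
    apply hI _ h _ h'
    cases β <;> cases β' <;> simp at hne
    · exact Or.inl ⟨rfl, rfl, rfl, rfl⟩
    · exact Or.inr ⟨rfl, rfl, rfl, rfl⟩
  have hfib : I.card = ∑ τ : Bl ℓ m, (I.filter fun v => blk v = τ).card :=
    card_eq_sum_card_fiberwise (fun _ _ => mem_univ _)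
  have hselcap : ∀ s j, (I.filter fun v => blk v = .inl (s, j)).card ≤ M := by
    intro s j
    have hmem : ∀ v, v ∈ (I.filter fun v => blk v = .inl (s, j)) →
        ∃ β w, v = .sel s j β w ∧ .sel s j β w ∈ I := by
      intro v hv
      obtain ⟨h1, h2⟩ := mem_filter.1 hv
      cases v with
      | sel s' j' β w =>
        simp only [blk, Sum.inl.injEq, Prod.mk.injEq] at h2
        obtain ⟨rfl, rfl⟩ := h2
        exact ⟨β, w, rfl, h1⟩
      | ab s' a e =>
        simp only [blk] at h2
        split_ifs at h2
      | d e => simp [blk] at h2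
      | x u β => simp [blk] at h2
      | c γ i => simp [blk] at h2
    rcases Nat.eq_zero_or_pos M with h0 | h0
    · have : (I.filter fun v => blk v = (.inl (s, j) : Bl ℓ m)).card = 0 := by
        rw [card_eq_zero, Finset.eq_empty_iff_forall_notMem]
        intro v hv
        obtain ⟨β, w, -, -⟩ := hmem v hv
        exact absurd w.2 (by omega)
      omega
    let g : HV ℓ M m → Fin M := fun v => match v with
      | .sel _ _ _ w => w
      | _ => ⟨0, h0⟩
    have := card_le_card_of_injOn (s := I.filter fun v => blk v = .inl (s, j))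
      (t := (univ : Finset (Fin M))) g (fun _ _ => mem_coe.2 (mem_univ _)) (by
        intro v hv v' hv' hg
        obtain ⟨β, w, rfl, h1⟩ := hmem v (mem_coe.1 hv)
        obtain ⟨β', w', rfl, h2⟩ := hmem v' (mem_coe.1 hv')
        have hw : w = w' := hg
        rw [hw, hsel s j β β' w w' h1 h2])
    simpa using this
  -- all selector blocks are used
  have hne : ∀ s j, ∃ β w, .sel s j β w ∈ I := by
    by_contra hcon
    push Not at hcon
    obtain ⟨s, j, hsj⟩ := hcon
    have h1 : I.card ≤ (2 * ℓ - 1) * M + rest ℓ m := by
      have hsplit : I.card = (I.filter fun v => ∃ t, blk v = .inl t).card +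
          (I.filter fun v => ¬ ∃ t, blk v = .inl t).card :=
        (card_filter_add_card_filter_not _).symm
      have hA : (I.filter fun v => ∃ t, blk v = .inl t).card ≤ (2 * ℓ - 1) * M := by
        have hfib' : (I.filter fun v => ∃ t, blk v = .inl t) ⊆
            ((univ : Finset (Bool × Fin ℓ)).erase (s, j)).biUnion
              (fun t => I.filter fun v => blk v = .inl t) := by
          intro v hv
          obtain ⟨h1, t, ht⟩ := mem_filter.1 hv
          rw [mem_biUnion]
          refine ⟨t, mem_erase.2 ⟨?_, mem_univ _⟩, mem_filter.2 ⟨h1, ht⟩⟩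
          rintro rfl
          cases v with
          | sel s' j' β w =>
            simp only [blk, Sum.inl.injEq, Prod.mk.injEq] at ht
            obtain ⟨rfl, rfl⟩ := ht
            exact hsj β w h1
          | ab s' a e =>
            simp only [blk] at ht
            split_ifs at ht
          | d e => simp [blk] at ht
          | x u β => simp [blk] at ht
          | c γ i => simp [blk] at ht
        refine (card_le_card hfib').trans (card_biUnion_le.trans ?_)
        refine (sum_le_sum fun t _ => hselcap t.1 t.2).trans ?_
        rw [sum_const, card_erase_of_mem (mem_univ _), card_univ, smul_eq_mul, Fintype.card_prod,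
          Fintype.card_bool, Fintype.card_fin]
      have hB : (I.filter fun v => ¬ ∃ t, blk v = .inl t).card ≤ rest ℓ m := by
        let R := (Bool × (Fin ℓ → Bool) × E m) ⊕ E m ⊕ (U m × Bool) ⊕ (Gd m × Fin 9)
        have hR : Fintype.card R = rest ℓ m := by
          simp only [R, Fintype.card_sum, Fintype.card_prod, Fintype.card_bool, Fintype.card_fin,
            Fintype.card_pi, Finset.prod_const, Finset.card_univ, rest]
          ring
        rw [← hR]
        let g : R → HV ℓ M m := fun r => match r with
          | .inl (s, a, e) => .ab s a e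
          | .inr (.inl e) => .d e
          | .inr (.inr (.inl (u, β))) => .x u β
          | .inr (.inr (.inr (γ, i))) => .c γ i
        have hsub : (I.filter fun v => ¬ ∃ t, blk v = .inl t) ⊆ (univ : Finset R).image g := by
          intro v hv
          obtain ⟨-, h1⟩ := mem_filter.1 hv
          rw [mem_image]
          cases v with
          | sel s' j' β w => exact absurd ⟨_, rfl⟩ h1
          | ab s' a e => exact ⟨.inl (s', a, e), mem_univ _, rfl⟩
          | d e => exact ⟨.inr (.inl e), mem_univ _, rfl⟩
          | x u β => exact ⟨.inr (.inr (.inl (u, β))), mem_univ _, rfl⟩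
          | c γ i => exact ⟨.inr (.inr (.inr (γ, i))), mem_univ _, rfl⟩
        exact (card_le_card hsub).trans (card_image_le.trans (by simp))
      omega
    have hℓ : 0 < ℓ := j.pos
    have h2 : (2 * ℓ - 1) * M + M = 2 * ℓ * M := by
      obtain ⟨k, hk⟩ : ∃ k, 2 * ℓ = k + 1 := ⟨2 * ℓ - 1, by omega⟩
      rw [hk]
      simp
      ring
    have h3 : 2 * ℓ * M ≤ goal ℓ M m := by
      unfold goal; omega
    omega
  choose β hβ using hne
  have hab : ∀ s a e, .ab s a e ∈ I → a = β s := by
    intro s a e h
    funext j
    obtain ⟨w, hw⟩ := hβ s j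
    by_contra hne
    exact hI _ hw _ h (Or.inl ⟨rfl, hne⟩)
  have hcap : ∀ τ : Bl ℓ m, (I.filter fun v => blk v = τ).card ≤ cap M τ := by
    rintro (⟨s, j⟩ | e | e | u | γ)
    · exact hselcap s j
    · change _ ≤ 1
      rw [card_le_one]
      intro v hv v' hv'
      obtain ⟨h1, h2⟩ := mem_filter.1 hv
      obtain ⟨h1', h2'⟩ := mem_filter.1 hv'
      have key : ∀ v ∈ I, blk v = (.inr (.inl e) : Bl ℓ m) → v = .ab true (β true) e := by
        intro v h1 h2
        cases v with
        | ab s a e' =>
          cases s with
          | true =>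
            have h3 : e' = e := by simpa [blk] using h2
            subst h3
            rw [hab _ _ _ h1]
          | false => simp [blk] at h2
        | _ => simp [blk] at h2
      rw [key v h1 h2, key v' h1' h2']
    · change _ ≤ 1
      rw [card_le_one]
      intro v hv v' hv'
      obtain ⟨h1, h2⟩ := mem_filter.1 hv
      obtain ⟨h1', h2'⟩ := mem_filter.1 hv'
      have key : ∀ v ∈ I, blk v = (.inr (.inr (.inl e)) : Bl ℓ m) →
          v = .ab false (β false) e ∨ v = .d e := by
        intro v h1 h2
        cases v with
        | ab s a e' =>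
          cases s with
          | false =>
            have h3 : e' = e := by simpa [blk] using h2
            subst h3
            rw [hab _ _ _ h1]
            exact Or.inl rfl
          | true => simp [blk] at h2
        | d e' =>
          have h3 : e' = e := by simpa [blk] using h2
          subst h3
          exact Or.inr rfl
        | _ => simp [blk] at h2
      rcases key v h1 h2 with rfl | rfl <;> rcases key v' h1' h2' with rfl | rfl
      · rfl
      · exact absurd (Or.inl ⟨rfl, rfl⟩) (hI _ h1 _ h1')
      · exact absurd (Or.inr ⟨rfl, rfl⟩) (hI _ h1 _ h1')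
      · rfl
    · change _ ≤ 1
      rw [card_le_one]
      intro v hv v' hv'
      obtain ⟨h1, h2⟩ := mem_filter.1 hv
      obtain ⟨h1', h2'⟩ := mem_filter.1 hv'
      have key : ∀ v ∈ I, blk v = (.inr (.inr (.inr (.inl u))) : Bl ℓ m) →
          v = .x u false ∨ v = .x u true := by
        intro v h1 h2
        cases v with
        | x u' β =>
          have h3 : u' = u := by simpa [blk] using h2
          subst h3
          cases β
          · exact Or.inl rfl
          · exact Or.inr rfl
        | ab s a e' => cases s <;> simp [blk] at h2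
        | _ => simp [blk] at h2
      rcases key v h1 h2 with rfl | rfl <;> rcases key v' h1' h2' with rfl | rfl
      · rfl
      · exact absurd (Or.inl ⟨rfl, rfl, rfl⟩) (hI _ h1 _ h1')
      · exact absurd (Or.inr ⟨rfl, rfl, rfl⟩) (hI _ h1 _ h1')
      · rfl
    · change _ ≤ 4
      have hsub : (I.filter fun v => blk v = (.inr (.inr (.inr (.inr γ))) : Bl ℓ m)) ⊆
          ((univ : Finset (Fin 9)).filter fun i => HV.c γ i ∈ I).image fun i => HV.c γ i := by
        intro v hv
        obtain ⟨h1, h2⟩ := mem_filter.1 hv
        cases v with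
        | c γ' i =>
          have h3 : γ' = γ := by simpa [blk] using h2
          subst h3
          exact mem_image.2 ⟨i, mem_filter.2 ⟨mem_univ _, h1⟩, rfl⟩
        | ab s a e' => cases s <;> simp [blk] at h2
        | _ => simp [blk] at h2
      refine (card_le_card hsub).trans (card_image_le.trans ?_)
      refine (nine _ ?_).1
      intro i hi hi'
      exact hI _ (mem_filter.1 hi).2 _ (mem_filter.1 hi').2 (Or.inl ⟨rfl, rfl⟩)
  have heq : ∀ τ : Bl ℓ m, (I.filter fun v => blk v = τ).card = cap M τ := by
    have h1 : ∑ τ : Bl ℓ m, (I.filter fun v => blk v = τ).card = ∑ τ : Bl ℓ m, cap M τ := by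
      refine le_antisymm (sum_le_sum fun τ _ => hcap τ) ?_
      rw [sum_cap, ← hfib]
      exact hcard
    intro τ
    exact (sum_eq_sum_iff_of_le fun τ _ => hcap τ).1 h1 τ (mem_univ _)
  -- read off the instance
  have hB : ∀ e, .ab true (β true) e ∈ I := by
    intro e
    have h1 := heq (.inr (.inl e))
    have h2 : 0 < (I.filter fun v => blk v = (.inr (.inl e) : Bl ℓ m)).card := by
      rw [h1]; exact Nat.one_pos
    obtain ⟨v, hv⟩ := card_pos.1 h2
    obtain ⟨h3, h4⟩ := mem_filter.1 hv
    cases v with
    | ab s a e' =>
      cases s with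
      | true =>
        have h5 : e' = e := by simpa [blk] using h4
        subst h5
        have := hab _ _ _ h3
        subst this
        exact h3
      | false => simp [blk] at h4
    | _ => simp [blk] at h4
  have hD : ∀ e, χ (β false) (β true) e = true → .d e ∈ I := by
    intro e he
    have h1 := heq (.inr (.inr (.inl e)))
    have h2 : 0 < (I.filter fun v => blk v = (.inr (.inr (.inl e)) : Bl ℓ m)).card := by
      rw [h1]; exact Nat.one_pos
    obtain ⟨v, hv⟩ := card_pos.1 h2
    obtain ⟨h3, h4⟩ := mem_filter.1 hv
    cases v with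
    | ab s a e' =>
      cases s with
      | false =>
        have h5 : e' = e := by simpa [blk] using h4
        subst h5
        have := hab _ _ _ h3
        subst this
        exact absurd (Or.inl ⟨rfl, rfl, rfl, he⟩) (hI _ h3 _ (hB e'))
      | true => simp [blk] at h4
    | d e' =>
      have h5 : e' = e := by simpa [blk] using h4
      subst h5
      exact h3
    | _ => simp [blk] at h4
  have hX : ∀ u, .x u true ∉ I → .x u false ∈ I := by
    intro u hu
    have h1 := heq (.inr (.inr (.inr (.inl u))))
    have h2 : 0 < (I.filter fun v => blk v = (.inr (.inr (.inr (.inl u))) : Bl ℓ m)).card := by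
      rw [h1]; exact Nat.one_pos
    obtain ⟨v, hv⟩ := card_pos.1 h2
    obtain ⟨h3, h4⟩ := mem_filter.1 hv
    cases v with
    | x u' β =>
      have h5 : u' = u := by simpa [blk] using h4
      subst h5
      cases β with
      | true => exact absurd h3 hu
      | false => exact h3
    | ab s a e' => cases s <;> simp [blk] at h4
    | _ => simp [blk] at h4
  have hC : ∀ γ : Gd m, ∃ j : Fin 3, kill γ j ∉ I := by
    intro γ
    by_contra hcon
    push Not at hcon
    have h1 := heq (.inr (.inr (.inr (.inr γ))))
    have hsub : (I.filter fun v => blk v = (.inr (.inr (.inr (.inr γ))) : Bl ℓ m)) ⊆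
        ((univ : Finset (Fin 9)).filter fun i => HV.c γ i ∈ I).image fun i => HV.c γ i := by
      intro v hv
      obtain ⟨g1, h2⟩ := mem_filter.1 hv
      cases v with
      | c γ' i =>
        have h3 : γ' = γ := by simpa [blk] using h2
        subst h3
        exact mem_image.2 ⟨i, mem_filter.2 ⟨mem_univ _, g1⟩, rfl⟩
      | ab s a e' => cases s <;> simp [blk] at h2
      | _ => simp [blk] at h2
    have h2 := (card_le_card hsub).trans card_image_le
    have h3 := (nine ((univ : Finset (Fin 9)).filter fun i => HV.c γ i ∈ I) (by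
      intro i hi hi'
      exact hI _ (mem_filter.1 hi).2 _ (mem_filter.1 hi').2 (Or.inl ⟨rfl, rfl⟩))).2 (by
      intro j i hij hi
      have h4 := (mem_filter.1 hi).2
      refine hI _ h4 _ (hcon j) (Or.inl ?_)
      cases hk : (kill γ j : HV ℓ M m) with
      | x u β => exact ⟨j, hij, hk⟩
      | d e => exact ⟨j, hij, hk⟩
      | c γ' i' => exact absurd hk (kill_ne_c _ _ _ _)
      | sel s' j' β' w' =>
        cases γ with
        | inl c => simp [kill] at hk
        | inr e =>
          simp only [kill] at hk
          split_ifs at hk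
      | ab s' a' e' =>
        cases γ with
        | inl c => simp [kill] at hk
        | inr e =>
          simp only [kill] at hk
          split_ifs at hk)
    have h5 : cap M (.inr (.inr (.inr (.inr γ))) : Bl ℓ m) = 4 := rfl
    omega
  refine ⟨β false, β true, fun u => decide (.x u true ∈ I), fun c => ?_, fun e he => ?_⟩
  · obtain ⟨j, hj⟩ := hC (.inl c)
    refine ⟨j, ?_⟩
    by_contra hne
    exact hj (hX (c, j) (by simpa using hne))
  · rintro ⟨h1, h2⟩
    obtain ⟨j, hj⟩ := hC (.inr e)
    apply hj
    fin_cases j
    · simpa [kill] using h1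
    · simpa [kill] using h2
    · simpa [kill] using hD e he

/-- Index type of the independent set of a satisfying assignment. -/
abbrev Ix (ℓ M m : ℕ) := (Bool × Fin ℓ × Fin M) ⊕ (E m ⊕ (E m ⊕ (U m ⊕ (Gd m × Fin 4))))

/-- Positions used in a gadget whose position `3 * j` is alive. -/
def pos (j : Fin 3) (i : Fin 4) : Fin 9 :=
  (match i with
    | 0 => 0
    | 1 => 2
    | 2 => 4
    | 3 => 7) + (match j with
    | 0 => 0
    | 1 => 3
    | 2 => 6)

/-- The independent set of a satisfying assignment. -/
def put (χ : Dat ℓ m) (a b : Fin ℓ → Bool) (y : U m → Bool) (al : Gd m → Fin 3) :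
    Ix ℓ M m → HV ℓ M m
  | .inl (s, j, w) => .sel s j (if s then b j else a j) w
  | .inr (.inl e) => .ab true b e
  | .inr (.inr (.inl e)) => if χ a b e then .d e else .ab false a e
  | .inr (.inr (.inr (.inl u))) => .x u (y u)
  | .inr (.inr (.inr (.inr (γ, i)))) => .c γ (pos (al γ) i)

lemma pos_injective (j : Fin 3) : Function.Injective (pos j) := by
  fin_cases j <;> decide

lemma put_injective (χ : Dat ℓ m) (a b : Fin ℓ → Bool) (y : U m → Bool) (al : Gd m → Fin 3) :
    Function.Injective (put (M := M) χ a b y al) := by
  have hE : ∀ e : E m, (put (M := M) χ a b y al (.inr (.inr (.inl e))) = .d e ∧ χ a b e = true) ∨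
      (put (M := M) χ a b y al (.inr (.inr (.inl e))) = .ab false a e ∧ χ a b e = false) := by
    intro e
    cases h : χ a b e <;> simp [put, h]
  rintro (⟨s, j, w⟩ | e | e | u | ⟨γ, i⟩) (⟨s', j', w'⟩ | e' | e' | u' | ⟨γ', i'⟩) h
  · simp only [put, HV.sel.injEq] at h
    obtain ⟨rfl, rfl, -, rfl⟩ := h
    rfl
  · simp [put] at h
  · rcases hE e' with h' | h' <;> rw [h'.1] at h <;> simp [put] at h
  · simp [put] at h
  · simp [put] at h
  · simp [put] at h
  · simp only [put, HV.ab.injEq] at h
    rw [h.2.2]
  · rcases hE e' with h' | h' <;> rw [h'.1] at h <;> simp [put] at h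
  · simp [put] at h
  · simp [put] at h
  · rcases hE e with h' | h' <;> rw [h'.1] at h <;> simp [put] at h
  · rcases hE e with h' | h' <;> rw [h'.1] at h <;> simp [put] at h
  · rcases hE e with h1 | h1 <;> rcases hE e' with h2 | h2 <;> rw [h1.1, h2.1] at h
    · simp only [HV.d.injEq] at h
      rw [h]
    · simp at h
    · simp at h
    · simp only [HV.ab.injEq] at h
      rw [h.2.2]
  · rcases hE e with h' | h' <;> rw [h'.1] at h <;> simp [put] at h
  · rcases hE e with h' | h' <;> rw [h'.1] at h <;> simp [put] at h
  · simp [put] at h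
  · simp [put] at h
  · rcases hE e' with h' | h' <;> rw [h'.1] at h <;> simp [put] at h
  · simp only [put, HV.x.injEq] at h
    rw [h.1]
  · simp [put] at h
  · simp [put] at h
  · simp [put] at h
  · rcases hE e' with h' | h' <;> rw [h'.1] at h <;> simp [put] at h
  · simp [put] at h
  · simp only [put, HV.c.injEq] at h
    obtain ⟨rfl, h⟩ := h
    rw [pos_injective _ h]

/-- **Completeness.** -/
theorem complete (χ : Dat ℓ m) (a b : Fin ℓ → Bool) (h : SatAt χ a b) :
    ∃ I : Finset (HV ℓ M m), (∀ u ∈ I, ∀ v ∈ I, ¬ adj χ u v) ∧ goal ℓ M m ≤ I.card := by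
  classical
  obtain ⟨y, hy1, hy2⟩ := h
  choose f hf using hy1
  let al : Gd m → Fin 3 := fun γ => match γ with
    | .inl c => f c
    | .inr e => if y e.1 = false then 0 else if y e.2 = false then 1 else 2
  have hE : ∀ e : E m, (put (M := M) χ a b y al (.inr (.inr (.inl e))) = .d e ∧ χ a b e = true) ∨
      (put (M := M) χ a b y al (.inr (.inr (.inl e))) = .ab false a e ∧ χ a b e = false) := by
    intro e
    cases h : χ a b e <;> simp [put, h]
  have hx : ∀ (u : U m) (β : Bool) (t : Ix ℓ M m), y u ≠ β →
      (.x u β : HV ℓ M m) ≠ put χ a b y al t := by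
    rintro u β (⟨s, j, w⟩ | e' | e' | u' | ⟨γ, i⟩) hne hk
    · simp [put] at hk
    · simp [put] at hk
    · rcases hE e' with h' | h' <;> rw [h'.1] at hk <;> simp at hk
    · simp only [put, HV.x.injEq] at hk
      obtain ⟨rfl, h2⟩ := hk
      exact hne h2.symm
    · simp [put] at hk
  have hd : ∀ (e : E m) (t : Ix ℓ M m), χ a b e = false →
      (.d e : HV ℓ M m) ≠ put χ a b y al t := by
    rintro e (⟨s, j, w⟩ | e' | e' | u' | ⟨γ, i⟩) hne hk
    · simp [put] at hk
    · simp [put] at hk
    · rcases hE e' with h' | h' <;> rw [h'.1] at hk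
      · simp only [HV.d.injEq] at hk
        subst hk
        rw [h'.2] at hne
        exact absurd hne (by simp)
      · simp at hk
    · simp [put] at hk
    · simp [put] at hk
  have hal : ∀ (γ : Gd m) (t : Ix ℓ M m), kill γ (al γ) ≠ put χ a b y al t := by
    rintro (c | e) t
    · exact hx _ _ t (by simp [al, hf])
    · by_cases h1 : y e.1 = false
      · have : al (.inr e) = 0 := by simp [al, h1]
        rw [this]
        exact hx _ _ t (by simp [h1])
      · by_cases h2 : y e.2 = false
        · have : al (.inr e) = 1 := by simp [al, h1, h2]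
          rw [this]
          exact hx _ _ t (by simp [h2])
        · have : al (.inr e) = 2 := by simp [al, h1, h2]
          rw [this]
          refine hd e t ?_
          by_contra h3
          exact hy2 e (by simpa using h3) ⟨by simpa using h1, by simpa using h2⟩
  have hpos : ∀ (j : Fin 3) (i : Fin 4) (j' : Fin 3), (pos j i).val = 3 * j'.val → j' = j := by
    decide
  have hpos2 : ∀ (j : Fin 3) (i i' : Fin 4), pos j i' ≠ pos j i + 1 := by decide
  refine ⟨univ.image (put χ a b y al), ?_, ?_⟩
  · have key : ∀ t t' : Ix ℓ M m, ¬ rel χ (put χ a b y al t) (put χ a b y al t') := by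
      intro t t' h
      have hgad : ∀ γ i v, v = put χ a b y al t' → (∃ j : Fin 3, (pos (al γ) i).val = 3 * j.val ∧
          kill γ j = v) → False := by
        rintro γ i v rfl ⟨j, h1, h2⟩
        have := hpos _ _ _ h1
        subst this
        exact hal γ t' h2
      rcases t with ⟨s, j, w⟩ | e | e | u | ⟨γ, i⟩
      · rcases t' with ⟨s', j', w'⟩ | e' | e' | u' | ⟨γ', i'⟩
        · simp only [put, rel] at h
          obtain ⟨rfl, rfl, h1, h2⟩ := h
          rw [h1] at h2
          exact absurd h2 (by simp)
        · simp only [put, rel] at h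
          obtain ⟨rfl, h⟩ := h
          simp at h
        · rcases hE e' with h' | h' <;> rw [h'.1] at h
          · simp [put, rel] at h
          · simp only [put, rel] at h
            obtain ⟨rfl, h⟩ := h
            simp at h
        · simp [put, rel] at h
        · simp [put, rel] at h
      · rcases t' with ⟨s', j', w'⟩ | e' | e' | u' | ⟨γ', i'⟩
        · simp [put, rel] at h
        · simp [put, rel] at h
        · simp only [put] at h
          split_ifs at h <;> simp [rel] at h
        · simp [put, rel] at h
        · simp [put, rel] at h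
      · rcases t' with ⟨s', j', w'⟩ | e' | e' | u' | ⟨γ', i'⟩
        · simp only [put] at h
          split_ifs at h <;> simp [rel] at h
        · simp only [put] at h
          split_ifs at h with h1
          · simp [rel] at h
          · obtain ⟨-, -, rfl, h2⟩ := h
            exact h1 h2
        · simp only [put] at h
          split_ifs at h with h1 h2 h2
          · simp [rel] at h
          · simp [rel] at h
          · obtain ⟨-, rfl⟩ := h
            exact h1 h2
          · simp [rel] at h
        · simp only [put] at h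
          split_ifs at h <;> simp [rel] at h
        · simp only [put] at h
          split_ifs at h <;> simp [rel] at h
      · rcases t' with ⟨s', j', w'⟩ | e' | e' | u' | ⟨γ', i'⟩
        · simp [put, rel] at h
        · simp [put, rel] at h
        · simp only [put] at h
          split_ifs at h <;> simp [rel] at h
        · simp only [put, rel] at h
          obtain ⟨rfl, h1, h2⟩ := h
          rw [h1] at h2
          exact absurd h2 (by simp)
        · simp [put, rel] at h
      · cases hv : put χ a b y al t' with
        | c γ' i' =>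
          rcases t' with ⟨s', j', w'⟩ | e' | e' | u' | ⟨γ'', i''⟩
          · simp [put] at hv
          · simp [put] at hv
          · simp only [put] at hv
            split_ifs at hv
          · simp [put] at hv
          · simp only [put, rel] at h
            obtain ⟨rfl, h⟩ := h
            exact hpos2 _ _ _ h
        | x u β =>
          rw [hv] at h
          exact hgad γ i _ hv.symm h
        | d e =>
          rw [hv] at h
          exact hgad γ i _ hv.symm h
        | sel s j β w =>
          rw [hv] at h
          simp [put, rel] at h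
        | ab s a e =>
          rw [hv] at h
          simp [put, rel] at h
    intro u hu v hv
    obtain ⟨t, -, rfl⟩ := mem_image.1 hu
    obtain ⟨t', -, rfl⟩ := mem_image.1 hv
    rintro (h | h)
    · exact key _ _ h
    · exact key _ _ h
  · rw [card_image_of_injective _ (put_injective χ a b y al), card_univ]
    simp only [Fintype.card_sum, Fintype.card_prod, Fintype.card_bool, Fintype.card_fin, goal]
    apply le_of_eq
    ring

end KerGrp
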