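import Pool.Agent.H79.KerCore

/-!
# No small kernels unless `NP ⊆ coNP/poly`
-/

namespace KerMain

open ISTF TMLib KerGrp KerJoin KerCurve KerSat KerParam Polynomial N68a2faeb

lemma chunks_pairS (x a : List Bool) : chunks 2 1 (pairS x a) = (x, false :: a) := by
  have key : ∀ (x acc : List Bool) (n : ℕ), x.length ≤ n →
      (chunkStep 2 1)^[n] (acc, pairS x a) = (x.reverse ++ acc, false :: a) := by
    intro x
    induction x with
    | nil =>
      intro acc n _
      rw [chunkStep_fix _ _ _ _ rfl]
      rfl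
    | cons b l ih =>
      intro acc n hn
      cases n with
      | zero => simp at hn
      | succ n =>
        rw [Function.iterate_succ_apply]
        have : chunkStep 2 1 (acc, pairS (b :: l) a) = (b :: acc, pairS l a) := rfl
        rw [this, ih _ _ (by simpa using hn)]
        simp
  unfold chunks
  rw [key x [] _ (by
    simp only [pairS, List.length_append, List.length_flatMap]
    simp
    omega)]
  simp

/-- Decoding of an input with advice. -/
def dec (z : List Bool) : List Bool × Adv :=
  ((chunks 2 1 z).1, TMLib.Fix.fix (parse (chunks 2 1 z).2.tail))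

lemma ptime_dec : PTime dec := by
  unfold dec
  fun_prop

lemma dec_pairS (x : List Bool) (A : Adv) : dec (pairS x (enc A).code) = (x, A) := by
  unfold dec
  rw [chunks_pairS]
  simp

open Classical in
/-- The `NP` language. -/
noncomputable def NL (φ : List Bool → List Cl) (F : List Bool → List Bool) : DecisionProblem :=
  fun z => decide (∃ xs, check φ F (dec z).1 (dec z).2 xs = true)

lemma NL_mem_NP {φ : List Bool → List Cl} (hφ : PTime φ) {F : List Bool → List Bool}
    (hF : PTime F) : NL φ F ∈ NP := by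
  classical
  have h1 : PTime (fun z => (dec z).2.1) := PTime.fst (PTime.snd ptime_dec)
  have h2 : PTime (fun z => (dec z).1) := PTime.fst ptime_dec
  obtain ⟨B1, hB1⟩ := h1.exists_size_le
  obtain ⟨B2, hB2⟩ := h2.exists_size_le
  refine mem_NP_cert (β := List (List Bool))
    (V := fun z xs => check φ F (dec z).1 (dec z).2 xs) ?_
    ((1 + X * (1 + (1 + X * 4))).comp ((B1 + B2).comp (1 + X * C 4))) ?_ ?_
  · refine (ptime_check hφ hF).comp
      (f := fun q : List Bool × List (List Bool) => ((dec q.1).1, (dec q.1).2, q.2)) ?_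
    have h3 : PTime (fun q : List Bool × List (List Bool) => dec q.1) :=
      ptime_dec.comp (PTime.fst PTime.id)
    exact PTime.pair (PTime.fst h3) (PTime.pair (PTime.snd h3) (PTime.snd PTime.id))
  · intro z xs h
    exact decide_eq_true ⟨xs, h⟩
  · intro z hz
    obtain ⟨xs, hxs⟩ := of_decide_eq_true hz
    refine ⟨xs, ?_, hxs⟩
    simp only [check, Bool.and_eq_true, decide_eq_true_eq, List.all_eq_true] at hxs
    obtain ⟨-, g1, g2, -⟩ := hxs
    have hz' : sz z ≤ 1 + z.length * 4 := sz_list_le z _ 3 le_rfl fun b _ => sz_bool_le b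
    set T := (B1 + B2).eval (1 + z.length * 4) with hT
    have e1 : xs.length ≤ T := by
      have := (hB1 z).trans (TMLib.eval_mono B1 hz')
      rw [sz_nat] at this
      rw [g2, hT, eval_add]
      omega
    have e2 : (dec z).1.length ≤ T := by
      have := (hB2 z).trans (TMLib.eval_mono B2 hz')
      have h5 := length_lt_sz (dec z).1
      rw [hT, eval_add]
      omega
    have e3 : sz xs ≤ 1 + T * (1 + (1 + T * (1 + 3))) := by
      refine sz_list_le _ _ _ e1 fun y hy => ?_
      refine sz_list_le _ _ _ ?_ fun b _ => sz_bool_le b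
      rw [g1 y hy]
      exact e2
    have e4 : ((1 + X * (1 + (1 + X * 4))).comp ((B1 + B2).comp (1 + X * C 4)) : ℕ[X]).eval
        z.length = 1 + T * (1 + (1 + T * 4)) := by
      simp [hT]
    rw [e4]
    exact e3

lemma polyB_entBound {T m : ℕ → ℕ} (hT : PolyB T) (hm : PolyB m) :
    PolyB fun n => entBound (T n) (m n) := by
  have h3 : PolyB fun n => 3 * m n + 3 := ((PolyB.const 3).mul hm).add (PolyB.const 3)
  have h4 : PolyB fun n => 1 + 2 * (3 * m n + 3) := (PolyB.const 1).add ((PolyB.const 2).mul h3)
  have h5 : PolyB fun n => 1 + 2 * T n := (PolyB.const 1).add ((PolyB.const 2).mul hT)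
  exact ((PolyB.const 1).add (PolyB.const 3)).add ((PolyB.const 1).add ((PolyB.const 1).mul
    ((PolyB.const 1).add (((PolyB.const 1).add h5).add (((PolyB.const 1).add h4).add h4)))))

lemma polyB_advBound {T N K m : ℕ → ℕ} (hT : PolyB T) (hN : PolyB N) (hK : PolyB K)
    (hm : PolyB m) : PolyB fun n => advBound (T n) (N n) (K n) (m n) n := by
  have c1 := PolyB.const 1
  have d : ∀ {g : ℕ → ℕ}, PolyB g → PolyB fun n => 1 + 2 * g n := fun hg =>
    c1.add ((PolyB.const 2).mul hg)
  have hent := polyB_entBound hT hm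
  exact (c1.add (d hT)).add ((c1.add (d hN)).add ((c1.add (d hK)).add
    ((c1.add (c1.add (hN.mul (c1.add (c1.add (hN.mul (c1.add hent))))))).add
      (c1.add ((PolyB.id.add c1).mul (c1.add (c1.add (hT.mul (c1.add (PolyB.const 3))))))))))

/-- **Main theorem.** A polynomial time map which compresses instances of independent set in
triangle-free graphs below `k ^ (21 / 10)` bits puts `NP` into `coNP/poly`. -/
theorem compress_imp (F : List Bool → List Bool) (hF : PTime F) (B : Set (List Bool))
    (a b c : ℕ) (hab : 10 * a < 21 * b)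
    (h : ∀ I : Inst, I.Valid → (F I.code ∈ B ↔ I.Yes) ∧ (F I.code).length ^ b ≤ c * I.k ^ a) :
    NP ⊆ Poly coNP := by
  intro L hL
  obtain ⟨φ, hφP, hφ⟩ := cook_levin hL
  obtain ⟨Bp, hBp⟩ := hφP.exists_size_le
  let m : ℕ → ℕ := fun n => Bp.eval (1 + n * 4) + 1
  have hmP : PolyB m := (PolyB.eval Bp ((PolyB.const 1).add (PolyB.id.mul (PolyB.const 4)))).add
    (PolyB.const 1)
  have hm1 : ∀ n, 1 ≤ m n := fun n => Nat.le_add_left _ _
  have hm : ∀ n, ∀ x : List Bool, x.length = n → (φ x).length ≤ m n := by
    rintro n x rfl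
    have h1 := length_lt_sz (φ x)
    have h2 : sz x ≤ 1 + x.length * 4 := sz_list_le x _ 3 le_rfl fun b _ => sz_bool_le b
    have h3 := (hBp x).trans (TMLib.eval_mono Bp h2)
    change (φ x).length ≤ Bp.eval (1 + x.length * 4) + 1
    omega
  obtain ⟨f, hf, hpar⟩ := exists_params a b c hab m hmP hm1
  choose j p hp h144 hpf hjf hW hc using hpar
  have hcore := fun n => core L φ hφ F B a b c h n (m n) (j n) (p n) (2 ^ j n) (10 * j n + 40)
    rfl rfl (hm n) (hp n) (h144 n) (hW n) (hc n)
  choose A N k0 hN hk0 hA hA' using hcore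
  have hP5 : PolyB fun n => 4 * p n ^ 5 := by
    refine PolyB.mono ((PolyB.const 4).mul (hf.pow 5)) fun n => ?_
    exact Nat.mul_le_mul_left _ (Nat.pow_le_pow_left (hpf n) 5)
  have hG : PolyB fun n => 2 ^ j n := PolyB.mono hf hjf
  have hNP : PolyB N := PolyB.mono (hG.mul hP5) hN
  have hKP : PolyB k0 := PolyB.mono hP5 hk0
  have hTP : PolyB fun n => 2 ^ j n * (2 ^ (10 * j n + 40)) ^ 2 := by
    refine PolyB.mono ((PolyB.const (2 ^ 80)).mul (hG.pow 21)) fun n => le_of_eq ?_
    ring
  obtain ⟨q, hq⟩ := PolyB.mono (polyB_advBound hTP hNP hKP hmP) hA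
  refine ⟨(NL φ F)ᶜ, ?_, fun n => (enc (A n)).code, q, fun n => ?_, fun x => ?_⟩
  · change (NL φ F)ᶜᶜ ∈ NP
    rw [compl_compl]
    exact NL_mem_NP hφP hF
  · rw [D.length_code]
    exact hq n
  · have h1 := hA' x.length x rfl
    have h2 : NL φ F (pairS x (enc (A x.length)).code) = true ↔ L x = false := by
      rw [h1]
      classical
      simp only [NL, decide_eq_true_eq, dec_pairS]
    change L x = !(NL φ F (pairS x (enc (A x.length)).code))
    cases hx : L x with
    | true =>
      cases hz : NL φ F (pairS x (enc (A x.length)).code) with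
      | true =>
        rw [hx] at h2
        exact absurd (h2.1 hz) (by simp)
      | false => rfl
    | false =>
      rw [h2.2 hx]
      rfl

end KerMain
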