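import Pool.Agent.H79.KerCurve

/-!
# A triangle-free mixing graph between many groups
-/

namespace KerCurve

open Finset

/-- Cross graph between `G` groups indexed by `Q`. -/
structure Mix (G : ℕ) (Q : Type) [Fintype Q] (τ : ℕ) where
  /-- the relation -/
  rel : Fin G × Q → Fin G × Q → Prop
  symm : ∀ u v, rel u v → rel v u
  ne : ∀ u v, rel u v → u.1 ≠ v.1
  tri : ∀ u v w, rel u v → rel v w → rel u w → False
  mix : ∀ g g', g ≠ g' → ∀ X Y : Finset Q,
    (∀ x ∈ X, ∀ y ∈ Y, ¬ rel (g, x) (g', y)) → X.card ≤ τ ∨ Y.card ≤ τ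
  exp : ∀ g g', g ≠ g' → ∀ Y N : Finset Q, Y.card ≤ τ →
    (∀ x, ∀ y ∈ Y, rel (g, x) (g', y) → x ∈ N) → 6 * G * Y.card ≤ N.card

section

variable {F K : Type} [Field F] [Fintype F] [DecidableEq F] [Field K] [Fintype K] [DecidableEq K]
  [Algebra F K]

/-- The linear polynomials in `α`. -/
def lin (α : K) (c : F × F) : K := algebraMap F K c.1 + algebraMap F K c.2 * α

/-- The point of `K × K`. -/
def pt (α : K) (x : (F × F) × K) : K × K := (lin α x.1, x.2)

/-- Oriented relation. -/
def orel {G : ℕ} (α w : K) (u v : Fin G × ((F × F) × K)) : Prop :=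
  u.1 < v.1 ∧ v.2.2 - u.2.2 = (lin α v.2.1 - lin α u.2.1) ^ 2 + w

/-- The relation. -/
def crel {G : ℕ} (α w : K) (u v : Fin G × ((F × F) × K)) : Prop :=
  orel α w u v ∨ orel α w v u

/-- Linear independence of `1, α, α ^ 2`. -/
def Indep (F : Type) {K : Type} [Field F] [Field K] [Algebra F K] (α : K) : Prop :=
  ∀ a b c : F, algebraMap F K a + algebraMap F K b * α + algebraMap F K c * α ^ 2 = 0 →
    a = 0 ∧ b = 0 ∧ c = 0

omit [Fintype F] [DecidableEq F] [Fintype K] [DecidableEq K] in
lemma lin_injective {α : K} (hα : Indep F α) : Function.Injective (lin (F := F) α) := by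
  intro c c' h
  have := hα (c.1 - c'.1) (c.2 - c'.2) 0 (by
    simp only [lin] at h
    simp only [map_sub, map_zero]
    linear_combination h)
  exact Prod.ext (sub_eq_zero.1 this.1) (sub_eq_zero.1 this.2.1)

omit [Fintype F] [DecidableEq F] [Fintype K] [DecidableEq K] in
lemma pt_injective {α : K} (hα : Indep F α) : Function.Injective (pt (F := F) α) := by
  intro x y h
  have h1 := (Prod.ext_iff.1 h).1
  have h2 := (Prod.ext_iff.1 h).2
  exact Prod.ext (lin_injective hα h1) h2

omit [Fintype F] [DecidableEq F] [Fintype K] [DecidableEq K] in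
lemma no_orel_triangle {G : ℕ} {α : K} (hα : Indep F α) {ν : F} (hν : ¬ IsSquare ν)
    (h2 : (2 : K) ≠ 0) (u v x : Fin G × ((F × F) × K))
    (h1 : orel α (2 * (α ^ 2 - algebraMap F K ν)) u v)
    (h2' : orel α (2 * (α ^ 2 - algebraMap F K ν)) v x)
    (h3 : orel α (2 * (α ^ 2 - algebraMap F K ν)) u x) : False := by
  obtain ⟨-, h1⟩ := h1
  obtain ⟨-, h2'⟩ := h2'
  obtain ⟨-, h3⟩ := h3
  have e : 2 * ((α ^ 2 - algebraMap F K ν) -
      (lin α v.2.1 - lin α u.2.1) * (lin α x.2.1 - lin α v.2.1)) = 0 := by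
    linear_combination h3 - h1 - h2'
  have e' := (mul_eq_zero.1 e).resolve_left h2
  set a := v.2.1.1 - u.2.1.1 with ha
  set b := v.2.1.2 - u.2.1.2 with hb
  set a' := x.2.1.1 - v.2.1.1 with ha'
  set b' := x.2.1.2 - v.2.1.2 with hb'
  have h4 : lin α v.2.1 - lin α u.2.1 = algebraMap F K a + algebraMap F K b * α := by
    simp only [lin, ha, hb, map_sub]; ring
  have h5 : lin α x.2.1 - lin α v.2.1 = algebraMap F K a' + algebraMap F K b' * α := by
    simp only [lin, ha', hb', map_sub]; ring
  rw [h4, h5] at e'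
  obtain ⟨i1, i2, i3⟩ := hα (-ν - a * a') (-(a * b' + a' * b)) (1 - b * b') (by
    simp only [map_sub, map_neg, map_mul, map_add, map_one]
    linear_combination e')
  apply hν
  refine ⟨a * b', ?_⟩
  linear_combination (-1 : F) * i1 + a * b' * i2 - a * a' * i3

omit [Fintype F] [DecidableEq F] [Fintype K] [DecidableEq K] in
lemma crel_iff_inc {G : ℕ} {α w : K} {g g' : Fin G} (h : g ≠ g') (x y : (F × F) × K) :
    crel α w (g, x) (g', y) ↔ inc (if g < g' then -1 else 1) w (pt α x) (pt α y) := by
  unfold crel orel inc pt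
  rcases lt_or_gt_of_ne h with h1 | h1
  · rw [if_pos h1]
    have h2 : ¬ g' < g := not_lt.2 h1.le
    simp only [h1, h2, true_and, false_and, or_false]
    constructor
    · intro h; linear_combination -h
    · intro h; linear_combination -h
  · have h2 : ¬ g < g' := not_lt.2 h1.le
    rw [if_neg h2]
    simp only [h1, h2, true_and, false_and, false_or]
    constructor
    · intro h; linear_combination h
    · intro h; linear_combination h

end

/-- **Existence of the cross graph.** -/
theorem exists_mix (p G : ℕ) (hp : p.Prime) (hG : 0 < G) (hGp : 144 * G ^ 2 ≤ p) :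
    ∃ (Q : Type) (_ : Fintype Q), Fintype.card Q = p ^ 5 ∧
      Nonempty (Mix G Q (p ^ 5 / (12 * G))) := by
  classical
  have : Fact p.Prime := ⟨hp⟩
  have hp2 : 2 < p := by nlinarith
  let F := ZMod p
  let K := GaloisField p 3
  have : Fintype K := Fintype.ofFinite K
  have hK : Fintype.card K = p ^ 3 := by
    rw [← Nat.card_eq_fintype_card]
    exact GaloisField.card p 3 (by norm_num)
  have hfin : Module.finrank F K = 3 := GaloisField.finrank p (by norm_num)
  obtain ⟨α, hα⟩ : ∃ α : K, Indep F α := by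
    let B := Field.powerBasisOfFiniteOfSeparable F K
    have hdim : B.dim = 3 := by rw [← B.finrank, hfin]
    refine ⟨B.gen, fun a b c h => ?_⟩
    have hli := B.basis.linearIndependent
    rw [Fintype.linearIndependent_iff] at hli
    have hg := hli (fun i => if i.1 = 0 then a else if i.1 = 1 then b else c) (by
      have e : ∀ f : ℕ → K, ∑ i : Fin B.dim, f i.1 = f 0 + f 1 + f 2 := by
        intro f
        rw [Fin.sum_univ_eq_sum_range, hdim]
        simp [Finset.sum_range_succ]
      have := e (fun i => (if i = 0 then a else if i = 1 then b else c : F) • B.gen ^ i)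
      simp only [PowerBasis.basis_eq_pow]
      rw [this]
      simp only [Algebra.smul_def]
      simpa using h)
    have h0 := hg ⟨0, by omega⟩
    have h1 := hg ⟨1, by omega⟩
    have h2 := hg ⟨2, by omega⟩
    simp at h0 h1 h2
    exact ⟨h0, h1, h2⟩
  have hchar : ringChar F ≠ 2 := by
    rw [ZMod.ringChar_zmod_n]
    omega
  obtain ⟨ν, hν⟩ := FiniteField.exists_nonsquare hchar
  have : CharP K p := inferInstance
  have h2 : (2 : K) ≠ 0 := by
    intro h
    have h' : ((2 : ℕ) : K) = 0 := by exact_mod_cast h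
    rw [CharP.cast_eq_zero_iff K p] at h'
    have := Nat.le_of_dvd (by norm_num) h'
    omega
  let w : K := 2 * (α ^ 2 - algebraMap F K ν)
  have hε : ∀ g g' : Fin G, (if g < g' then (-1 : K) else 1) ≠ 0 := by
    intro g g'
    split_ifs <;> simp
  have hcardF : Fintype.card (F × F) = p ^ 2 := by
    rw [Fintype.card_prod, ZMod.card, sq]
  have htau : 12 * G * (p ^ 5 / (12 * G)) ≤ p ^ 5 := Nat.mul_div_le _ _
  refine ⟨(F × F) × K, inferInstance, ?_, ⟨{
    rel := crel α w
    symm := fun u v h => h.symm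
    ne := ?_
    tri := ?_
    mix := ?_
    exp := ?_ }⟩⟩
  · rw [Fintype.card_prod, hcardF, hK]; ring
  · rintro u v (h | h)
    · exact h.1.ne
    · exact h.1.ne'
  · intro u v x h1 h2' h3
    have T := fun u v x => no_orel_triangle (G := G) hα hν h2 u v x
    rcases h1 with h1 | h1 <;> rcases h2' with h2' | h2' <;> rcases h3 with h3 | h3
    · exact T u v x h1 h2' h3
    · exact absurd (h1.1.trans (h2'.1.trans h3.1)) (lt_irrefl _)
    · exact T u x v h3 h2' h1
    · exact T x u v h3 h1 h2'
    · exact T v u x h1 h3 h2'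
    · exact T v x u h2' h3 h1
    · exact absurd (h1.1.trans (h3.1.trans h2'.1)) (lt_irrefl _)
    · exact T x v u h2' h1 h3
  · intro g g' hg X Y hXY
    have h1 := no_inc w (hε g g') h2 (X.image (pt α)) (Y.image (pt α)) (by
      intro x' hx' y' hy'
      obtain ⟨x, hx, rfl⟩ := mem_image.1 hx'
      obtain ⟨y, hy, rfl⟩ := mem_image.1 hy'
      rw [← crel_iff_inc hg]
      exact hXY x hx y hy)
    rw [card_image_of_injective _ (pt_injective hα), card_image_of_injective _ (pt_injective hα),
      hK] at h1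
    by_contra hcon
    push Not at hcon
    have h3 : p ^ 5 / (12 * G) + 1 ≤ X.card := hcon.1
    have h4 : p ^ 5 / (12 * G) + 1 ≤ Y.card := hcon.2
    have h5 : p ^ 5 < 12 * G * (p ^ 5 / (12 * G) + 1) := by
      have := Nat.lt_mul_div_succ (p ^ 5) (show 0 < 12 * G by omega)
      exact this
    generalize p ^ 5 / (12 * G) + 1 = T at h3 h4 h5
    have h6 : T * T ≤ (p ^ 3) ^ 3 := (Nat.mul_le_mul h3 h4).trans h1
    have h7 : p ^ 5 * p ^ 5 < (12 * G * T) * (12 * G * T) := Nat.mul_lt_mul'' h5 h5
    have h8 : (12 * G * T) * (12 * G * T) = 144 * G ^ 2 * (T * T) := by ring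
    have h9 : 144 * G ^ 2 * (T * T) ≤ p * (p ^ 3) ^ 3 := Nat.mul_le_mul hGp h6
    have h10 : p * (p ^ 3) ^ 3 = p ^ 5 * p ^ 5 := by ring
    omega
  · intro g g' hg Y N hY hN
    let N' := N.image (pt (F := F) α)
    let Y' := Y.image (pt (F := F) α)
    have hN' : N'.card = N.card := card_image_of_injective _ (pt_injective hα)
    have hY' : Y'.card = Y.card := card_image_of_injective _ (pt_injective hα)
    have hsum : p ^ 2 * Y'.card ≤ ∑ x ∈ N', deg (if g < g' then (-1 : K) else 1) w Y' x := by
      unfold deg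
      simp_rw [card_filter]
      rw [sum_comm]
      simp_rw [← card_filter]
      rw [mul_comm, ← smul_eq_mul, ← sum_const]
      refine sum_le_sum fun y' hy' => ?_
      obtain ⟨y, hy, rfl⟩ := mem_image.1 hy'
      rw [← hcardF, ← card_univ]
      refine card_le_card_of_injOn (fun c => pt α (c, (pt α y).2 +
        (if g < g' then (-1 : K) else 1) * ((lin α c - (pt α y).1) ^ 2 + w))) ?_ ?_
      · intro c _
        have hinc : inc (if g < g' then (-1 : K) else 1) w (pt α (c, (pt α y).2 +
            (if g < g' then (-1 : K) else 1) * ((lin α c - (pt α y).1) ^ 2 + w))) (pt α y) := rfl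
        exact mem_coe.2 (mem_filter.2
          ⟨mem_image.2 ⟨_, hN _ y hy ((crel_iff_inc hg _ _).2 hinc), rfl⟩, hinc⟩)
      · intro c _ c' _ h
        exact (Prod.ext_iff.1 (pt_injective hα h)).1
    by_cases hs : 2 * N'.card ≤ Fintype.card K * p ^ 2
    · have h1 := expand w (hε g g') h2 Y' N' (p ^ 2) hsum hs
      rw [hK, hN', hY'] at h1
      have hp0 : 0 < p ^ 3 := by positivity
      have h3 : p ^ 3 * (p * Y.card) ≤ p ^ 3 * (4 * N.card) := by
        calc p ^ 3 * (p * Y.card) = (p ^ 2) ^ 2 * Y.card := by ring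
          _ ≤ 4 * p ^ 3 * N.card := h1
          _ = p ^ 3 * (4 * N.card) := by ring
      have h4 := Nat.le_of_mul_le_mul_left h3 hp0
      have h5 : 24 * G ≤ p := by nlinarith
      have h6 : 24 * G * Y.card ≤ p * Y.card := Nat.mul_le_mul_right _ h5
      have h7 : 24 * G * Y.card = 4 * (6 * G * Y.card) := by ring
      omega
    · rw [hK, hN'] at hs
      have h1 : p ^ 3 * p ^ 2 = p ^ 5 := by ring
      have h3 : 12 * G * Y.card ≤ 12 * G * (p ^ 5 / (12 * G)) := Nat.mul_le_mul_left _ hY
      have h4 : 12 * G * Y.card = 2 * (6 * G * Y.card) := by ring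
      omega

end KerCurve
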