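import Pool.Agent.H79.LogCost

/-!
# Weakly skew circuits of size `(c s d ^ (5 / 2)) ^ (log_3 d + 1)`
-/

set_option autoImplicit false
set_option linter.unusedSectionVars false
set_option linter.unusedVariables false

namespace Pool.Agent.H79.Log3

open MvPolynomial Pool.Agent.H80

universe u

variable {K : Type u} [CommSemiring K] {σ : Type}

lemma homComp_mul (n : ℕ) (p q : MvPolynomial σ K) :
    homogeneousComponent n (p * q) =
      ∑ j ∈ Finset.range (n + 1), homogeneousComponent j p * homogeneousComponent (n - j) q := by
  classical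
  ext m
  rw [coeff_homogeneousComponent, coeff_sum]
  simp only [coeff_mul, coeff_homogeneousComponent]
  rw [Finset.sum_comm]
  by_cases hm : m.degree = n
  · rw [if_pos hm]
    refine Finset.sum_congr rfl ?_
    rintro ⟨x, y⟩ hxy
    rw [Finset.HasAntidiagonal.mem_antidiagonal] at hxy
    simp only at hxy ⊢
    have hd : x.degree + y.degree = n := by
      rw [← hm, ← hxy, map_add]
    rw [Finset.sum_eq_single_of_mem x.degree (Finset.mem_range.2 (by omega))]
    · rw [if_pos rfl, if_pos (by omega)]
    · intro j _ hj
      rw [if_neg (Ne.symm hj), zero_mul]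
  · rw [if_neg hm]
    symm
    refine Finset.sum_eq_zero ?_
    rintro ⟨x, y⟩ hxy
    rw [Finset.HasAntidiagonal.mem_antidiagonal] at hxy
    simp only at hxy ⊢
    refine Finset.sum_eq_zero ?_
    intro j hj
    rw [Finset.mem_range] at hj
    by_cases h1 : x.degree = j
    · by_cases h2 : y.degree = n - j
      · exfalso
        apply hm
        rw [← hxy, map_add]
        omega
      · rw [if_neg h2, mul_zero]
    · rw [if_neg h1, zero_mul]

lemma homComp_sum {f : MvPolynomial σ K} {d : ℕ} (h : f.totalDegree ≤ d) :
    ∑ i : Fin (d + 1), homogeneousComponent (i : ℕ) f = f := by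
  rw [Fin.sum_univ_eq_sum_range (fun i => homogeneousComponent i f)]
  conv_rhs => rw [← sum_homogeneousComponent f]
  symm
  refine Finset.sum_subset ?_ ?_
  · intro i hi
    rw [Finset.mem_range] at hi ⊢
    omega
  · intro i _ hi
    rw [Finset.mem_range] at hi
    exact homogeneousComponent_eq_zero _ _ (by omega)

/-- The rules of the homogenized circuit. -/
def homRules {V : Type} (d : ℕ) (g : Gate K σ V) (i : Fin (d + 1)) :
    List (Rule K σ (V × Fin (d + 1))) :=
  match g with
  | .var x => if (i : ℕ) = 1 then [Rule.var x] else []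
  | .const c => if (i : ℕ) = 0 then [Rule.const c] else []
  | .add a b => [Rule.one (a, i), Rule.one (b, i)]
  | .mul a b => (List.finRange ((i : ℕ) + 1)).map fun j : Fin ((i : ℕ) + 1) =>
      Rule.two (a, ⟨(j : ℕ), by have := i.2; have := j.2; omega⟩)
        (b, ⟨(i : ℕ) - (j : ℕ), by have := i.2; omega⟩)

/-- The homogenized circuit as a rule system. -/
noncomputable def homSys (D : Circuit K σ) (d : ℕ) (rank : D.V → ℕ)
    (hr : ∀ (v : D.V) (j : Fin 2) (t : D.V), (D.gate v).tail j = some t → rank t < rank v) :
    Sys K σ where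
  V := D.V × Fin (d + 1)
  fin := by
    have := D.fin
    exact inferInstance
  dec := Classical.decEq _
  rules := fun x => homRules d (D.gate x.1) x.2
  rank := fun x => rank x.1
  deg := fun x => (x.2 : ℕ)
  rank_one := by
    rintro ⟨v, i⟩ w hw
    have h := hr v
    simp only at hw ⊢
    generalize hg : D.gate v = g at hw h
    cases g with
    | var x => simp only [homRules] at hw; split_ifs at hw <;> simp at hw
    | const c => simp only [homRules] at hw; split_ifs at hw <;> simp at hw
    | add a b =>
      simp only [homRules, List.mem_cons, Rule.one.injEq, List.not_mem_nil, or_false] at hw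
      rcases hw with rfl | rfl
      · exact h 0 a rfl
      · exact h 1 b rfl
    | mul a b => simp [homRules] at hw
  rank_two := by
    rintro ⟨v, i⟩ w w' hw
    have h := hr v
    simp only at hw ⊢
    generalize hg : D.gate v = g at hw h
    cases g with
    | var x => simp only [homRules] at hw; split_ifs at hw <;> simp at hw
    | const c => simp only [homRules] at hw; split_ifs at hw <;> simp at hw
    | add a b => simp [homRules] at hw
    | mul a b =>
      simp only [homRules, List.mem_map, Rule.two.injEq] at hw
      obtain ⟨j, _, rfl, rfl⟩ := hw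
      exact ⟨h 0 a rfl, h 1 b rfl⟩
  deg_const := by
    rintro ⟨v, i⟩ c hw
    simp only at hw ⊢
    generalize D.gate v = g at hw
    cases g with
    | var x => simp only [homRules] at hw; split_ifs at hw <;> simp at hw
    | const c =>
      simp only [homRules] at hw
      split_ifs at hw with h
      · rw [h]; rfl
      · simp at hw
    | add a b => simp [homRules] at hw
    | mul a b => simp [homRules] at hw
  deg_var := by
    rintro ⟨v, i⟩ c hw
    simp only at hw ⊢
    generalize D.gate v = g at hw
    cases g with
    | var x =>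
      simp only [homRules] at hw
      split_ifs at hw with h
      · rw [h]; rfl
      · simp at hw
    | const c => simp only [homRules] at hw; split_ifs at hw <;> simp at hw
    | add a b => simp [homRules] at hw
    | mul a b => simp [homRules] at hw
  deg_one := by
    rintro ⟨v, i⟩ w hw
    simp only at hw ⊢
    generalize D.gate v = g at hw
    cases g with
    | var x => simp only [homRules] at hw; split_ifs at hw <;> simp at hw
    | const c => simp only [homRules] at hw; split_ifs at hw <;> simp at hw
    | add a b =>
      simp only [homRules, List.mem_cons, Rule.one.injEq, List.not_mem_nil, or_false] at hw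
      rcases hw with rfl | rfl <;> rfl
    | mul a b => simp [homRules] at hw
  deg_two := by
    rintro ⟨v, i⟩ w w' hw
    simp only at hw ⊢
    generalize D.gate v = g at hw
    cases g with
    | var x => simp only [homRules] at hw; split_ifs at hw <;> simp at hw
    | const c => simp only [homRules] at hw; split_ifs at hw <;> simp at hw
    | add a b => simp [homRules] at hw
    | mul a b =>
      simp only [homRules, List.mem_map, Rule.two.injEq] at hw
      obtain ⟨j, _, rfl, rfl⟩ := hw
      have := j.2
      simp only
      omega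

lemma homRules_sum {V : Type} (d : ℕ) (g : Gate K σ V) (i : Fin (d + 1))
    (val : V → MvPolynomial σ K) :
    ((homRules d g i).map fun r => r.value fun x => homogeneousComponent (x.2 : ℕ) (val x.1)).sum =
      homogeneousComponent (i : ℕ) (g.value val) := by
  cases g with
  | var x =>
    simp only [homRules, Gate.value]
    rw [homogeneousComponent_of_mem (isHomogeneous_X K x)]
    split_ifs <;> simp [Rule.value]
  | const c =>
    simp only [homRules, Gate.value]
    rw [homogeneousComponent_of_mem (isHomogeneous_C σ c)]
    split_ifs <;> simp [Rule.value]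
  | add a b => simp [homRules, Rule.value, Gate.value]
  | mul a b =>
    simp only [homRules, Gate.value]
    rw [homComp_mul, List.map_map, ← Fin.sum_univ_eq_sum_range
      (fun j => homogeneousComponent j (val a) * homogeneousComponent ((i : ℕ) - j) (val b)),
      Fin.sum_univ_def]
    rfl

lemma homRules_length {V : Type} (d : ℕ) (g : Gate K σ V) (i : Fin (d + 1)) :
    (homRules d g i).length + 1 ≤ (i : ℕ) + 3 := by
  cases g with
  | var x =>
    simp only [homRules]
    split_ifs <;> simp
  | const c =>
    simp only [homRules]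
    split_ifs <;> simp
  | add a b => simp [homRules]
  | mul a b => simp [homRules]

lemma homSys_val (D : Circuit K σ) (d : ℕ) (rank : D.V → ℕ)
    (hr : ∀ (v : D.V) (j : Fin 2) (t : D.V), (D.gate v).tail j = some t → rank t < rank v)
    (val : D.V → MvPolynomial σ K) (hval : ∀ v, val v = (D.gate v).value val) (v : D.V)
    (i : Fin (d + 1)) :
    (homSys D d rank hr).val (v, i) = homogeneousComponent (i : ℕ) (val v) := by
  have h := (homSys D d rank hr).val_unique
    (fun x => homogeneousComponent (x.2 : ℕ) (val x.1)) (by
      rintro ⟨v, i⟩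
      have h1 := homRules_sum d (D.gate v) i val
      rw [← hval v] at h1
      exact h1.symm)
  exact (congrFun h (v, i)).symm

lemma homSys_size (D : Circuit K σ) (d : ℕ) (rank : D.V → ℕ)
    (hr : ∀ (v : D.V) (j : Fin 2) (t : D.V), (D.gate v).tail j = some t → rank t < rank v) :
    (homSys D d rank hr).size ≤ 3 * D.size * (d + 1) ^ 2 := by
  letI := D.fin
  have h1 : (homSys D d rank hr).size =
      ∑ x : D.V × Fin (d + 1), ((homRules d (D.gate x.1) x.2).length + 1) := rfl
  have h2 : D.size = Fintype.card D.V := rfl
  rw [h1, h2, Fintype.sum_prod_type]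
  have h3 : ∀ v : D.V, ∑ i : Fin (d + 1), ((homRules d (D.gate v) i).length + 1) ≤
      3 * (d + 1) ^ 2 := by
    intro v
    calc ∑ i : Fin (d + 1), ((homRules d (D.gate v) i).length + 1)
        ≤ ∑ i : Fin (d + 1), (d + 3) := by
          refine Finset.sum_le_sum ?_
          intro i _
          have := homRules_length d (D.gate v) i
          have := i.2
          omega
      _ = (d + 1) * (d + 3) := by simp
      _ ≤ 3 * (d + 1) ^ 2 := by nlinarith
  calc ∑ v : D.V, ∑ i : Fin (d + 1), ((homRules d (D.gate v) i).length + 1)
      ≤ ∑ v : D.V, 3 * (d + 1) ^ 2 := Finset.sum_le_sum fun v _ => h3 v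
    _ = 3 * Fintype.card D.V * (d + 1) ^ 2 := by
        rw [Finset.sum_const, Finset.card_univ, smul_eq_mul]
        ring

/-- Costs of sums over `Fin n`. -/
lemma costLE_sum {n : ℕ} (q : Fin n → MvPolynomial σ K) (k : ℕ) (h : ∀ i, CostLE (q i) k) :
    CostLE (∑ i, q i) (n * (k + 1) + 1) := by
  intro l c hc
  have h1 := Der1.sum (l := l) (List.finRange n) (fun i => c * q i) k hc (by
    intro i _
    have := (Der1.mem hc).mul (h i)
    rwa [zero_add] at this)
  rw [List.length_finRange] at h1
  obtain ⟨l', h2, h3⟩ := h1 l (List.Subset.refl _)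
  refine ⟨l', h2, ?_⟩
  rw [← Fin.sum_univ_def, ← Finset.mul_sum] at h3
  exact h3

/-- **Simulation.** A polynomial of degree at most `d < 3 ^ k` computed by a circuit with `s`
nodes is computed by a (weakly) skew circuit of the stated size. -/
theorem exists_skew (D : Circuit K σ) {f : MvPolynomial σ K} (hf : D.Computes f) {d k : ℕ}
    (hd : f.totalDegree ≤ d) (hk : d < 3 ^ k) :
    ∃ D' : Circuit K σ, D'.Skew ∧ D'.Computes f ∧
      D'.size ≤ 8 * (d + 1) * ((32 * D.size * (d + 1) ^ 2) ^ k * 3 ^ (k * (k - 1) / 2)) := by
  obtain ⟨val, hval, rfl⟩ := hf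
  obtain ⟨rank, hr⟩ := D.acyclic
  set S := homSys D d rank hr with hS
  have hpos : 1 ≤ D.size := by
    unfold Circuit.size
    letI := D.fin
    exact Fintype.card_pos_iff.2 ⟨D.out⟩
  have hcost : CostLE (val D.out) ((d + 1) * (Kf k (3 * D.size * (d + 1) ^ 2) + 1) + 1) := by
    rw [← homComp_sum hd]
    refine costLE_sum _ _ ?_
    intro i
    rw [← homSys_val D d rank hr val hval D.out i]
    refine cost_le k S _ (homSys_size D d rank hr) (D.out, i) ?_
    change ((i : ℕ) : ℤ) < 3 ^ k
    have h1 := i.2
    have h2 : (i : ℕ) < 3 ^ k := by omega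
    exact_mod_cast h2
  obtain ⟨l', h1, h2⟩ := hcost [1] 1 (by simp)
  rw [one_mul] at h2
  obtain ⟨D', h3, h4, h5⟩ := (h1.1 LSLP.one).exists_circuit h2
  refine ⟨D', h3, h4, ?_⟩
  have h6 := h1.2.2
  rw [List.length_singleton] at h6
  set B := (32 * D.size * (d + 1) ^ 2) ^ k * 3 ^ (k * (k - 1) / 2) with hB
  have h7 : Kf k (3 * D.size * (d + 1) ^ 2) ≤ B := by
    refine (Kf_le k _).trans (Nat.mul_le_mul_right _ (Nat.pow_le_pow_left ?_ k))
    have : 1 ≤ D.size * (d + 1) ^ 2 := Nat.mul_pos hpos (by positivity)
    nlinarith
  have h8 : 1 ≤ B := (one_le_Kf _ _).trans h7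
  have h9 : (d + 1) * (Kf k (3 * D.size * (d + 1) ^ 2) + 1) ≤ (d + 1) * (B + 1) :=
    Nat.mul_le_mul_left _ (by omega)
  have h10 : d + 1 ≤ (d + 1) * B := Nat.le_mul_of_pos_right _ h8
  have h11 : 1 ≤ (d + 1) * B := le_trans (by omega) h10
  have h12 : (d + 1) * (B + 1) = (d + 1) * B + (d + 1) := by ring
  have h13 : 8 * (d + 1) * B = 8 * ((d + 1) * B) := by ring
  rw [h13]
  omega

end Pool.Agent.H79.Log3
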