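import Pool.Agent.H79.LogSys

/-!
# Skew programs from homogeneous rule systems: cost `s ^ log_3 d`
-/

set_option autoImplicit false
set_option linter.unusedSectionVars false
set_option linter.unusedVariables false

namespace Pool.Agent.H79.Log3

open MvPolynomial Pool.Agent.H80

universe u

variable {K : Type u} [CommSemiring K] {σ : Type}

/-! ### Costs -/

/-- Multiplying by `p` costs at most `k` steps of a skew program. -/
def CostLE (p : MvPolynomial σ K) (k : ℕ) : Prop :=
  ∀ (l : List (MvPolynomial σ K)) (c : MvPolynomial σ K), c ∈ l →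
    ∃ l', LDer l k l' ∧ c * p ∈ l'

lemma CostLE.mono {p : MvPolynomial σ K} {k k' : ℕ} (h : CostLE p k) (hk : k ≤ k') :
    CostLE p k' := by
  intro l c hc
  obtain ⟨l', h1, h2⟩ := h l c hc
  exact ⟨l', h1.mono hk, h2⟩

lemma costLE_C (a : K) : CostLE (C a : MvPolynomial σ K) 1 := fun l c hc =>
  ⟨_, (LDer.refl l).step (LStep.mulConst hc a), List.mem_cons_self⟩

lemma costLE_X (i : σ) : CostLE (X i : MvPolynomial σ K) 1 := fun l c hc =>
  ⟨_, (LDer.refl l).step (LStep.mulVar hc i), List.mem_cons_self⟩

lemma costLE_zero : CostLE (0 : MvPolynomial σ K) 1 := by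
  have := costLE_C (σ := σ) (0 : K)
  rwa [C_0] at this

/-- Deriving `y` costs at most `k` steps from every list containing `l`. -/
def Der1 (l : List (MvPolynomial σ K)) (k : ℕ) (y : MvPolynomial σ K) : Prop :=
  ∀ l1 : List (MvPolynomial σ K), l ⊆ l1 → ∃ l', LDer l1 k l' ∧ y ∈ l'

lemma Der1.mem {l : List (MvPolynomial σ K)} {y : MvPolynomial σ K} (h : y ∈ l) : Der1 l 0 y :=
  fun l1 h1 => ⟨l1, LDer.refl l1, h1 h⟩

lemma Der1.mul {l : List (MvPolynomial σ K)} {y p : MvPolynomial σ K} {k k' : ℕ}
    (h : Der1 l k y) (hp : CostLE p k') : Der1 l (k + k') (y * p) := by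
  intro l1 h1
  obtain ⟨l2, h2, h3⟩ := h l1 h1
  obtain ⟨l3, h4, h5⟩ := hp l2 y h3
  exact ⟨l3, h2.trans h4, h5⟩

lemma Der1.mono {l : List (MvPolynomial σ K)} {y : MvPolynomial σ K} {k k' : ℕ}
    (h : Der1 l k y) (hk : k ≤ k') : Der1 l k' y := by
  intro l1 h1
  obtain ⟨l2, h2, h3⟩ := h l1 h1
  exact ⟨l2, h2.mono hk, h3⟩

lemma Der1.sub {l l' : List (MvPolynomial σ K)} {y : MvPolynomial σ K} {k : ℕ}
    (h : Der1 l k y) (hl : l ⊆ l') : Der1 l' k y := fun l1 h1 => h l1 (List.Subset.trans hl h1)

lemma Der1.zero {l : List (MvPolynomial σ K)} {c : MvPolynomial σ K} (h : c ∈ l) :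
    Der1 l 1 (0 : MvPolynomial σ K) := by
  have := (Der1.mem h).mul costLE_zero
  simpa using this

/-- Sums over lists. -/
lemma Der1.sum {α : Type*} (L : List α) (q : α → MvPolynomial σ K) (k : ℕ)
    {l : List (MvPolynomial σ K)} {c : MvPolynomial σ K} (hc : c ∈ l)
    (h : ∀ a ∈ L, Der1 l k (q a)) : Der1 l (L.length * (k + 1) + 1) (L.map q).sum := by
  induction L with
  | nil => simpa using Der1.zero hc
  | cons a L ih =>
    intro l1 hl1
    obtain ⟨l2, h2, h3⟩ := ih (fun b hb => h b (List.mem_cons_of_mem _ hb)) l1 hl1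
    obtain ⟨l3, h4, h5⟩ := h a List.mem_cons_self l2 (List.Subset.trans hl1 h2.2.1)
    refine ⟨_, ((h2.trans h4).step (LStep.add h5 (h4.2.1 h3))).mono ?_, ?_⟩
    · rw [List.length_cons, add_mul, one_mul]
      omega
    · rw [List.map_cons, List.sum_cons]
      exact List.mem_cons_self

section state

variable {V : Type} [DecidableEq V]

/-- The potential `acc + ∑ X u * val u`. -/
noncomputable def Pot (val : V → MvPolynomial σ K) (M : Finset V) (x : V → MvPolynomial σ K)
    (acc : MvPolynomial σ K) : MvPolynomial σ K := acc + ∑ u ∈ M, x u * val u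

/-- `q` can be added to the potential in at most `k` steps. -/
def CanAdd (val : V → MvPolynomial σ K) (M : Finset V) (l : List (MvPolynomial σ K)) (k : ℕ)
    (q : MvPolynomial σ K) : Prop :=
  ∀ (l1 : List (MvPolynomial σ K)) (x : V → MvPolynomial σ K) (acc : MvPolynomial σ K), l ⊆ l1 →
    (∀ u ∈ M, x u ∈ l1) → acc ∈ l1 → ∃ (l' : List (MvPolynomial σ K))
      (x' : V → MvPolynomial σ K) (acc' : MvPolynomial σ K), LDer l1 k l' ∧
      (∀ u ∈ M, x' u ∈ l') ∧ acc' ∈ l' ∧ Pot val M x' acc' = Pot val M x acc + q

variable {val : V → MvPolynomial σ K} {M : Finset V} {l : List (MvPolynomial σ K)}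

lemma CanAdd.mono {k k' : ℕ} {q : MvPolynomial σ K} (h : CanAdd val M l k q) (hk : k ≤ k') :
    CanAdd val M l k' q := by
  intro l1 x acc h1 h2 h3
  obtain ⟨l', x', acc', h4, h5⟩ := h l1 x acc h1 h2 h3
  exact ⟨l', x', acc', h4.mono hk, h5⟩

lemma canAdd_zero : CanAdd val M l 0 0 := by
  intro l1 x acc _ h2 h3
  exact ⟨l1, x, acc, LDer.refl l1, h2, h3, by rw [add_zero]⟩

lemma canAdd_acc {k : ℕ} {q : MvPolynomial σ K} (h : Der1 l k q) :
    CanAdd val M l (k + 1) q := by
  intro l1 x acc h1 h2 h3
  obtain ⟨l2, h4, h5⟩ := h l1 h1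
  refine ⟨_, x, acc + q, h4.step (LStep.add (h4.2.1 h3) h5), ?_, List.mem_cons_self, ?_⟩
  · intro u hu
    exact List.mem_cons_of_mem _ (h4.2.1 (h2 u hu))
  · unfold Pot
    rw [add_right_comm]

lemma canAdd_med {k : ℕ} {y : MvPolynomial σ K} (h : Der1 l k y) {v : V} (hv : v ∈ M) :
    CanAdd val M l (k + 1) (y * val v) := by
  intro l1 x acc h1 h2 h3
  obtain ⟨l2, h4, h5⟩ := h l1 h1
  refine ⟨_, Function.update x v (x v + y), acc,
    h4.step (LStep.add (h4.2.1 (h2 v hv)) h5), ?_, List.mem_cons_of_mem _ (h4.2.1 h3), ?_⟩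
  · intro u hu
    by_cases huv : u = v
    · subst huv
      rw [Function.update_self]
      exact List.mem_cons_self
    · rw [Function.update_of_ne huv]
      exact List.mem_cons_of_mem _ (h4.2.1 (h2 u hu))
  · unfold Pot
    rw [← Finset.add_sum_erase M _ hv, ← Finset.add_sum_erase M (fun u => x u * val u) hv,
      Function.update_self]
    have : ∑ u ∈ M.erase v, Function.update x v (x v + y) u * val u =
        ∑ u ∈ M.erase v, x u * val u := by
      refine Finset.sum_congr rfl ?_
      intro u hu
      rw [Function.update_of_ne (Finset.ne_of_mem_erase hu)]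
    rw [this]
    ring

lemma CanAdd.add {k k' : ℕ} {q q' : MvPolynomial σ K} (h : CanAdd val M l k q)
    (h' : CanAdd val M l k' q') : CanAdd val M l (k + k') (q + q') := by
  intro l1 x acc h1 h2 h3
  obtain ⟨l2, x2, acc2, h4, h5, h6, h7⟩ := h l1 x acc h1 h2 h3
  obtain ⟨l3, x3, acc3, h8, h9, h10, h11⟩ := h' l2 x2 acc2 (List.Subset.trans h1 h4.2.1) h5 h6
  exact ⟨l3, x3, acc3, h4.trans h8, h9, h10, by rw [h11, h7, add_assoc]⟩

lemma CanAdd.sum_list {α : Type*} (L : List α) (q : α → MvPolynomial σ K) (k : ℕ)
    (h : ∀ a ∈ L, CanAdd val M l k (q a)) : CanAdd val M l (L.length * k) (L.map q).sum := by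
  induction L with
  | nil => simpa using canAdd_zero
  | cons a L ih =>
    rw [List.map_cons, List.sum_cons, List.length_cons, add_mul, one_mul, add_comm (_ * _) k]
    exact (h a List.mem_cons_self).add (ih fun b hb => h b (List.mem_cons_of_mem _ hb))

lemma CanAdd.sum_finset {ι : Type*} (T : Finset ι) (q : ι → MvPolynomial σ K) (k : ι → ℕ)
    (h : ∀ a ∈ T, CanAdd val M l (k a) (q a)) :
    CanAdd val M l (∑ a ∈ T, k a) (∑ a ∈ T, q a) := by
  classical
  induction T using Finset.induction_on with
  | empty => simpa using canAdd_zero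
  | insert a T ha ih =>
    rw [Finset.sum_insert ha, Finset.sum_insert ha]
    exact (h a (Finset.mem_insert_self a T)).add
      (ih fun b hb => h b (Finset.mem_insert_of_mem hb))

end state

/-! ### The decomposition -/

namespace Sys

variable (S : Sys K σ)

/-- The part of a rule with both components of degree below `θ`. -/
noncomputable def term (θ : ℤ) : Rule K σ S.V → MvPolynomial σ K
  | .const c => C c
  | .var i => X i
  | .one _ => 0
  | .two v w => if S.deg v < θ ∧ S.deg w < θ then S.val v * S.val w else 0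

/-- Symbols of degree at least `θ`. -/
def big (θ : ℤ) : Finset S.V := Finset.univ.filter fun p => θ ≤ S.deg p

lemma sum_swap {α : Type*} (B : Finset S.V) (l : List α) (f : S.V → α → MvPolynomial σ K)
    (T : S.V → MvPolynomial σ K) :
    ∑ p ∈ B, (l.map (f p)).sum * T p = (l.map fun a => ∑ p ∈ B, f p a * T p).sum := by
  induction l with
  | nil => simp
  | cons a l ih =>
    simp only [List.map_cons, List.sum_cons, add_mul, Finset.sum_add_distrib]
    rw [ih]

lemma decomp_aux {θ : ℤ} (hθ : 0 < θ) : ∀ (k : ℕ) (r : S.V), S.rank r < k → θ ≤ S.deg r →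
    S.deg r < 2 * θ →
    S.val r = ∑ p ∈ S.big θ, S.D p r * ((S.rules p).map (S.term θ)).sum := by
  intro k
  induction k with
  | zero => intro r hr; omega
  | succ k ih =>
    intro r hr h1 h2
    set T : S.V → MvPolynomial σ K := fun p => ((S.rules p).map (S.term θ)).sum with hT
    have hD : ∀ p ∈ S.big θ, S.D p r * T p = (if r = p then 1 else 0) * T p +
        ((S.rules r).map (S.dval p)).sum * T p := by
      intro p _
      rw [S.D_eq p r, add_mul]
    rw [Finset.sum_congr rfl hD, Finset.sum_add_distrib, S.sum_swap]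
    have hr' : r ∈ S.big θ := Finset.mem_filter.2 ⟨Finset.mem_univ r, h1⟩
    have h3 : ∑ p ∈ S.big θ, (if r = p then 1 else 0) * T p = T r := by
      rw [Finset.sum_eq_single_of_mem r hr']
      · simp
      · intro p _ hp
        rw [if_neg (Ne.symm hp), zero_mul]
    rw [h3, S.val_eq r, hT]
    simp only
    rw [← List.sum_map_add]
    congr 1
    refine List.map_congr_left ?_
    intro ρ hρ
    have hneg : ∀ p ∈ S.big θ, ∀ u, S.deg u < θ → S.D p u = 0 := by
      intro p hp u hu
      exact S.D_neg (hu.trans_le (Finset.mem_filter.1 hp).2)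
    cases ρ with
    | const c => have := S.deg_const r c hρ; omega
    | var i =>
      simp [Rule.value, term, dval]
    | one v =>
      have h4 := S.deg_one r v hρ
      have h5 := ih v (by have := S.rank_one r v hρ; omega) (by omega) (by omega)
      simp only [Rule.value, term, dval, zero_add]
      exact h5
    | two v w =>
      have h4 := S.deg_two r v w hρ
      have h5 := S.rank_two r v w hρ
      simp only [Rule.value, term, dval]
      by_cases hv : S.deg v < θ
      · by_cases hw : S.deg w < θ
        · rw [if_pos ⟨hv, hw⟩]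
          have : ∑ p ∈ S.big θ, (S.D p v * S.val w + S.val v * S.D p w) *
              ((S.rules p).map (S.term θ)).sum = 0 := by
            refine Finset.sum_eq_zero ?_
            intro p hp
            rw [hneg p hp v hv, hneg p hp w hw]
            simp
          rw [this, add_zero]
        · rw [if_neg (by tauto), zero_add]
          have : ∀ p ∈ S.big θ, (S.D p v * S.val w + S.val v * S.D p w) *
              ((S.rules p).map (S.term θ)).sum =
              S.val v * (S.D p w * ((S.rules p).map (S.term θ)).sum) := by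
            intro p hp
            rw [hneg p hp v hv]
            ring
          rw [Finset.sum_congr rfl this, ← Finset.mul_sum]
          by_cases hw2 : S.deg w < 2 * θ
          · rw [← ih w (by omega) (by omega) hw2]
          · rw [S.val_neg (u := v) (by omega), zero_mul, zero_mul]
      · by_cases hw : S.deg w < θ
        · rw [if_neg (by tauto), zero_add]
          have : ∀ p ∈ S.big θ, (S.D p v * S.val w + S.val v * S.D p w) *
              ((S.rules p).map (S.term θ)).sum =
              S.val w * (S.D p v * ((S.rules p).map (S.term θ)).sum) := by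
            intro p hp
            rw [hneg p hp w hw]
            ring
          rw [Finset.sum_congr rfl this, ← Finset.mul_sum]
          by_cases hv2 : S.deg v < 2 * θ
          · rw [← ih v (by omega) (by omega) hv2, mul_comm]
          · rw [S.val_neg (u := w) (by omega), zero_mul, mul_zero]
        · omega

lemma decomp {θ : ℤ} (hθ : 0 < θ) {r : S.V} (h1 : θ ≤ S.deg r) (h2 : S.deg r < 2 * θ) :
    S.val r = ∑ p ∈ S.big θ, S.D p r * ((S.rules p).map (S.term θ)).sum :=
  S.decomp_aux hθ (S.rank r + 1) r (Nat.lt_succ_self _) h1 h2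

/-! ### Passes -/

variable {S} {μ θ : ℤ} {k : ℕ}

/-- Medium symbols. -/
def Med (S : Sys K σ) (μ θ : ℤ) (u : S.V) : Prop := μ < S.deg u ∧ S.deg u < θ

/-- Closed sets of medium symbols. -/
def Closed (S : Sys K σ) (μ θ : ℤ) (M : Finset S.V) : Prop :=
  (∀ u ∈ M, S.Med μ θ u) ∧ ∀ u ∈ M, ∀ v, S.Med μ θ v → S.rank v < S.rank u → v ∈ M

lemma Closed.erase {M : Finset S.V} (h : S.Closed μ θ M) {g : S.V}
    (hmax : ∀ v ∈ M, S.rank v ≤ S.rank g) : S.Closed μ θ (M.erase g) := by
  refine ⟨fun u hu => h.1 u (Finset.mem_of_mem_erase hu), ?_⟩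
  intro u hu v hv hr
  have hu' := Finset.mem_of_mem_erase hu
  have := hmax u hu'
  refine Finset.mem_erase.2 ⟨?_, h.2 u hu' v hv hr⟩
  rintro rfl
  omega

lemma left_pass (hμ : 0 ≤ μ) (hθ : θ ≤ 2 * μ + 2) (hk : 1 ≤ k)
    (hsmall : ∀ v, S.deg v ≤ μ → CostLE (S.val v) k) : ∀ (n : ℕ) (M : Finset S.V), M.card = n →
    S.Closed μ θ M → ∀ (l : List (MvPolynomial σ K)) (c : MvPolynomial σ K), c ∈ l →
    ∃ l', LDer l (∑ u ∈ M, ((S.rules u).length * (2 * k + 1) + 1)) l' ∧
      ∀ u ∈ M, c * S.val u ∈ l' := by
  intro n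
  induction n with
  | zero =>
    intro M hM _ l c _
    rw [Finset.card_eq_zero] at hM
    subst hM
    exact ⟨l, by simpa using LDer.refl l, by simp⟩
  | succ n ih =>
    intro M hM hcl l c hc
    obtain ⟨g, hg, hmax⟩ := Finset.exists_max_image M S.rank
      (Finset.card_pos.1 (by omega))
    have hcl' := hcl.erase hmax
    have hcard : (M.erase g).card = n := by
      have := Finset.card_erase_add_one hg
      omega
    obtain ⟨l1, h1, h2⟩ := ih (M.erase g) hcard hcl' l c hc
    have hgm := hcl.1 g hg
    have hc1 : c ∈ l1 := h1.2.1 hc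
    have key : Der1 l1 ((S.rules g).length * (2 * k + 1) + 1)
        ((S.rules g).map fun ρ => c * ρ.value S.val).sum := by
      refine Der1.sum (S.rules g) _ (2 * k) hc1 ?_
      intro ρ hρ
      have hin : ∀ v, S.Med μ θ v → S.rank v < S.rank g → c * S.val v ∈ l1 := by
        intro v hv hr
        refine h2 v (Finset.mem_erase.2 ⟨?_, hcl.2 g hg v hv hr⟩)
        rintro rfl
        omega
      cases ρ with
      | const a => exact ((Der1.mem hc1).mul (costLE_C a)).mono (by omega)
      | var i => exact ((Der1.mem hc1).mul (costLE_X i)).mono (by omega)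
      | one v =>
        have h3 := S.deg_one g v hρ
        exact (Der1.mem (hin v (by unfold Med at *; omega) (S.rank_one g v hρ))).mono (by omega)
      | two v w =>
        have h3 := S.deg_two g v w hρ
        have h4 := S.rank_two g v w hρ
        simp only [Rule.value]
        by_cases hv : S.deg v ≤ μ
        · by_cases hw : S.deg w ≤ μ
          · rw [← mul_assoc]
            exact (((Der1.mem hc1).mul (hsmall v hv)).mul (hsmall w hw)).mono (by omega)
          · by_cases hw2 : S.deg w < θ
            · rw [mul_comm (S.val v), ← mul_assoc]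
              exact ((Der1.mem (hin w ⟨by omega, hw2⟩ h4.2)).mul (hsmall v hv)).mono (by omega)
            · unfold Med at hgm
              rw [S.val_neg (u := v) (by omega), zero_mul, mul_zero]
              exact (Der1.zero hc1).mono (by omega)
        · by_cases hv2 : S.deg v < θ
          · rw [← mul_assoc]
            unfold Med at hgm
            exact ((Der1.mem (hin v ⟨by omega, hv2⟩ h4.1)).mul
              (hsmall w (by omega))).mono (by omega)
          · unfold Med at hgm
            rw [S.val_neg (u := w) (by omega), mul_zero, mul_zero]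
            exact (Der1.zero hc1).mono (by omega)
    obtain ⟨l2, h3, h4⟩ := key l1 (List.Subset.refl _)
    refine ⟨l2, (h1.trans h3).mono (le_of_eq ?_), ?_⟩
    · rw [← Finset.sum_erase_add M _ hg]
    · intro u hu
      by_cases hug : u = g
      · subst hug
        rw [S.val_eq u, ← List.sum_map_mul_left]
        exact h4
      · exact h3.2.1 (h2 u (Finset.mem_erase.2 ⟨hug, hu⟩))

lemma right_pass (hμ : 0 ≤ μ) (hθ : θ ≤ 2 * μ + 2)
    (hsmall : ∀ v, S.deg v ≤ μ → CostLE (S.val v) k) : ∀ (n : ℕ) (M : Finset S.V), M.card = n →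
    S.Closed μ θ M → ∀ (l : List (MvPolynomial σ K)) (x : S.V → MvPolynomial σ K)
    (acc : MvPolynomial σ K), (∀ u ∈ M, x u ∈ l) → acc ∈ l →
    ∃ l', LDer l (∑ u ∈ M, (S.rules u).length * (2 * k + 2)) l' ∧ Pot S.val M x acc ∈ l' := by
  intro n
  induction n with
  | zero =>
    intro M hM _ l x acc _ hacc
    rw [Finset.card_eq_zero] at hM
    subst hM
    exact ⟨l, by simpa using LDer.refl l, by simpa [Pot] using hacc⟩
  | succ n ih =>
    intro M hM hcl l x acc hx hacc
    obtain ⟨g, hg, hmax⟩ := Finset.exists_max_image M S.rank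
      (Finset.card_pos.1 (by omega))
    have hcl' := hcl.erase hmax
    have hcard : (M.erase g).card = n := by
      have := Finset.card_erase_add_one hg
      omega
    have hgm := hcl.1 g hg
    have hxg := hx g hg
    have key : CanAdd S.val (M.erase g) l ((S.rules g).length * (2 * k + 2))
        ((S.rules g).map fun ρ => x g * ρ.value S.val).sum := by
      refine CanAdd.sum_list (S.rules g) _ (2 * k + 2) ?_
      intro ρ hρ
      have hin : ∀ v, S.Med μ θ v → S.rank v < S.rank g → v ∈ M.erase g := by
        intro v hv hr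
        refine Finset.mem_erase.2 ⟨?_, hcl.2 g hg v hv hr⟩
        rintro rfl
        omega
      cases ρ with
      | const a => exact (canAdd_acc ((Der1.mem hxg).mul (costLE_C a))).mono (by omega)
      | var i => exact (canAdd_acc ((Der1.mem hxg).mul (costLE_X i))).mono (by omega)
      | one v =>
        have h3 := S.deg_one g v hρ
        exact (canAdd_med (Der1.mem hxg) (hin v (by unfold Med at *; omega)
          (S.rank_one g v hρ))).mono (by omega)
      | two v w =>
        have h3 := S.deg_two g v w hρ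
        have h4 := S.rank_two g v w hρ
        simp only [Rule.value]
        by_cases hv : S.deg v ≤ μ
        · by_cases hw : S.deg w ≤ μ
          · rw [← mul_assoc]
            exact (canAdd_acc (((Der1.mem hxg).mul (hsmall v hv)).mul (hsmall w hw))).mono
              (by omega)
          · by_cases hw2 : S.deg w < θ
            · rw [← mul_assoc]
              exact (canAdd_med ((Der1.mem hxg).mul (hsmall v hv))
                (hin w ⟨by omega, hw2⟩ h4.2)).mono (by omega)
            · unfold Med at hgm
              rw [S.val_neg (u := v) (by omega), zero_mul, mul_zero]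
              exact canAdd_zero.mono (by omega)
        · by_cases hv2 : S.deg v < θ
          · rw [mul_comm (S.val v), ← mul_assoc]
            unfold Med at hgm
            exact (canAdd_med ((Der1.mem hxg).mul (hsmall w (by omega)))
              (hin v ⟨by omega, hv2⟩ h4.1)).mono (by omega)
          · unfold Med at hgm
            rw [S.val_neg (u := w) (by omega), mul_zero, mul_zero]
            exact canAdd_zero.mono (by omega)
    obtain ⟨l1, x1, acc1, h1, h2, h3, h4⟩ := key l x acc (List.Subset.refl _)
      (fun u hu => hx u (Finset.mem_of_mem_erase hu)) hacc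
    obtain ⟨l2, h5, h6⟩ := ih (M.erase g) hcard hcl' l1 x1 acc1 h2 h3
    refine ⟨l2, (h1.trans h5).mono (le_of_eq ?_), ?_⟩
    · rw [← Finset.add_sum_erase M _ hg]
    · have h7 : Pot S.val M x acc = Pot S.val (M.erase g) x1 acc1 := by
        rw [h4, List.sum_map_mul_left, ← S.val_eq g]
        unfold Pot
        rw [← Finset.sum_erase_add M _ hg, add_assoc]
      rw [h7]
      exact h6

/-- One step of the recursion. -/
lemma cost_step {r : S.V} (hμ : 0 ≤ μ) (hθ0 : 0 < θ) (hμθ : μ ≤ θ)
    (hθ : θ ≤ 2 * μ + 2) (hr : S.deg r = θ + μ) (hrθ : S.deg r < 2 * θ)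
    (hk : 1 ≤ k) (hsmall : ∀ v, S.deg v ≤ μ → CostLE (S.val v) k)
    (hctx : ∀ p, θ ≤ S.deg p → CostLE (S.D p r) k) :
    CostLE (S.val r) (8 * (S.size + 1) * k) := by
  intro l c hc
  set M : Finset S.V := Finset.univ.filter fun u => μ < S.deg u ∧ S.deg u < θ with hMdef
  have hcl : S.Closed μ θ M := by
    refine ⟨fun u hu => (Finset.mem_filter.1 hu).2, ?_⟩
    intro u _ v hv _
    exact Finset.mem_filter.2 ⟨Finset.mem_univ v, hv⟩
  obtain ⟨l1, h1, h2⟩ := left_pass hμ hθ hk hsmall M.card M rfl hcl l c hc
  have hc1 : c ∈ l1 := h1.2.1 hc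
  obtain ⟨l2, h3, h4⟩ := Der1.zero hc1 l1 (List.Subset.refl _)
  have hmid : CanAdd S.val M l2 (∑ p ∈ S.big θ, (S.rules p).length * (3 * k + 1))
      (∑ p ∈ S.big θ, ((S.rules p).map fun ρ => c * (S.D p r * S.term θ ρ)).sum) := by
    refine CanAdd.sum_finset _ _ _ ?_
    intro p hp
    refine CanAdd.sum_list _ _ _ ?_
    intro ρ hρ
    have hF := hctx p (Finset.mem_filter.1 hp).2
    have hc2 : c ∈ l2 := h3.2.1 hc1
    have hin : ∀ v, S.Med μ θ v → c * S.val v ∈ l2 := fun v hv =>
      h3.2.1 (h2 v (Finset.mem_filter.2 ⟨Finset.mem_univ v, hv⟩))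
    have hcF : Der1 l2 k (c * S.D p r) := by
      have := (Der1.mem hc2).mul hF
      rwa [zero_add] at this
    cases ρ with
    | const a =>
      simp only [term]
      rw [← mul_assoc]
      exact (canAdd_acc (hcF.mul (costLE_C a))).mono (by omega)
    | var i =>
      simp only [term]
      rw [← mul_assoc]
      exact (canAdd_acc (hcF.mul (costLE_X i))).mono (by omega)
    | one v =>
      simp only [term, mul_zero]
      exact canAdd_zero.mono (by omega)
    | two v w =>
      simp only [term]
      split_ifs with hvw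
      · by_cases hv : S.deg v ≤ μ
        · by_cases hw : S.deg w ≤ μ
          · have : c * (S.D p r * (S.val v * S.val w)) = c * S.D p r * S.val v * S.val w := by
              ring
            rw [this]
            exact (canAdd_acc ((hcF.mul (hsmall v hv)).mul (hsmall w hw))).mono (by omega)
          · have : c * (S.D p r * (S.val v * S.val w)) = c * S.val w * S.D p r * S.val v := by
              ring
            rw [this]
            exact (canAdd_acc (((Der1.mem (hin w ⟨by omega, hvw.2⟩)).mul hF).mul
              (hsmall v hv))).mono (by omega)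
        · by_cases hw : S.deg w ≤ μ
          · have : c * (S.D p r * (S.val v * S.val w)) = c * S.val v * S.D p r * S.val w := by
              ring
            rw [this]
            exact (canAdd_acc (((Der1.mem (hin v ⟨by omega, hvw.1⟩)).mul hF).mul
              (hsmall w hw))).mono (by omega)
          · have : c * (S.D p r * (S.val v * S.val w)) = c * S.val v * S.D p r * S.val w := by
              ring
            rw [this]
            exact (canAdd_med ((Der1.mem (hin v ⟨by omega, hvw.1⟩)).mul hF)
              (Finset.mem_filter.2 ⟨Finset.mem_univ w, by omega, hvw.2⟩)).mono (by omega)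
      · rw [mul_zero, mul_zero]
        exact canAdd_zero.mono (by omega)
  obtain ⟨l3, x3, acc3, h5, h6, h7, h8⟩ := hmid l2 (fun _ => 0) 0 (List.Subset.refl _)
    (fun _ _ => h4) h4
  obtain ⟨l4, h9, h10⟩ := right_pass hμ hθ hsmall M.card M rfl hcl l3 x3 acc3 h6 h7
  refine ⟨l4, (((h1.trans h3).trans h5).trans h9).mono ?_, ?_⟩
  · have hdisj : Disjoint M (S.big θ) := by
      rw [Finset.disjoint_left]
      intro u hu hu'
      have h11 := (Finset.mem_filter.1 hu).2
      have h12 := (Finset.mem_filter.1 hu').2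
      omega
    have hsz : ∑ u ∈ M, ((S.rules u).length + 1) + ∑ p ∈ S.big θ, ((S.rules p).length + 1) ≤
        S.size := by
      rw [← Finset.sum_union hdisj]
      exact Finset.sum_le_sum_of_subset (Finset.subset_univ _)
    have e1 : ∑ u ∈ M, ((S.rules u).length * (2 * k + 1) + 1) +
        ∑ u ∈ M, (S.rules u).length * (2 * k + 2) ≤
        8 * k * ∑ u ∈ M, ((S.rules u).length + 1) := by
      rw [← Finset.sum_add_distrib, Finset.mul_sum]
      refine Finset.sum_le_sum ?_
      intro u _
      nlinarith [Nat.mul_le_mul_left (S.rules u).length hk]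
    have e2 : ∑ p ∈ S.big θ, (S.rules p).length * (3 * k + 1) ≤
        8 * k * ∑ p ∈ S.big θ, ((S.rules p).length + 1) := by
      rw [Finset.mul_sum]
      refine Finset.sum_le_sum ?_
      intro u _
      nlinarith [Nat.mul_le_mul_left (S.rules u).length hk]
    have e3 := Nat.mul_le_mul_left (8 * k) hsz
    have e4 : 8 * (S.size + 1) * k = 8 * k * S.size + 8 * k := by ring
    rw [e4]
    rw [mul_add] at e3
    omega
  · have h11 : Pot S.val M x3 acc3 = c * S.val r := by
      rw [h8, S.decomp hθ0 (by omega) hrθ, Finset.mul_sum]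
      unfold Pot
      simp only [zero_mul, Finset.sum_const_zero, add_zero, zero_add]
      refine Finset.sum_congr rfl ?_
      intro p _
      rw [List.sum_map_mul_left, List.sum_map_mul_left]
    rw [← h11]
    exact h10

end Sys

/-- The cost function. -/
def Kf : ℕ → ℕ → ℕ
  | 0, _ => 1
  | k + 1, s => 8 * (s + 1) * Kf k (3 * s + 1)

lemma one_le_Kf : ∀ k s, 1 ≤ Kf k s := by
  intro k
  induction k with
  | zero => intro s; exact le_rfl
  | succ k ih =>
    intro s
    exact Nat.mul_pos (by omega) (ih _)

lemma Kf_mono : ∀ k {s s' : ℕ}, s ≤ s' → Kf k s ≤ Kf k s' := by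
  intro k
  induction k with
  | zero => intro s s' _; exact le_rfl
  | succ k ih =>
    intro s s' h
    exact Nat.mul_le_mul (by omega) (ih (by omega))

lemma Kf_le_succ : ∀ k s, Kf k s ≤ Kf (k + 1) s := by
  intro k s
  have h1 : Kf k s ≤ Kf k (3 * s + 1) := Kf_mono k (by omega)
  calc Kf k s ≤ Kf k (3 * s + 1) := h1
    _ = 1 * Kf k (3 * s + 1) := (one_mul _).symm
    _ ≤ 8 * (s + 1) * Kf k (3 * s + 1) := Nat.mul_le_mul_right _ (by omega)

lemma Kf_le : ∀ k s, Kf k s ≤ (8 * (s + 1)) ^ k * 3 ^ (k * (k - 1) / 2) := by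
  intro k
  induction k with
  | zero => intro s; simp [Kf]
  | succ k ih =>
    intro s
    have h1 := ih (3 * s + 1)
    have h2 : 8 * (3 * s + 1 + 1) ≤ 3 * (8 * (s + 1)) := by omega
    have h3 : (8 * (3 * s + 1 + 1)) ^ k ≤ 3 ^ k * (8 * (s + 1)) ^ k := by
      rw [← mul_pow]
      exact Nat.pow_le_pow_left h2 k
    have h4 : k + k * (k - 1) / 2 = (k + 1) * (k + 1 - 1) / 2 := by
      rw [Nat.add_sub_cancel]
      cases k with
      | zero => rfl
      | succ k =>
        rw [Nat.add_sub_cancel]
        have e : (k + 1 + 1) * (k + 1) = (k + 1) * k + (k + 1) * 2 := by ring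
        rw [e, Nat.add_mul_div_right _ _ (by norm_num)]
        omega
    calc Kf (k + 1) s = 8 * (s + 1) * Kf k (3 * s + 1) := rfl
      _ ≤ 8 * (s + 1) * ((3 ^ k * (8 * (s + 1)) ^ k) * 3 ^ (k * (k - 1) / 2)) :=
          Nat.mul_le_mul_left _ (h1.trans (Nat.mul_le_mul_right _ h3))
      _ = (8 * (s + 1)) ^ (k + 1) * 3 ^ (k + k * (k - 1) / 2) := by
          rw [pow_succ, pow_add 3]
          ring
      _ = _ := by rw [h4]

/-- Degree less than `3 ^ k` costs at most `Kf k s`. -/
theorem cost_le : ∀ (k : ℕ) (S : Sys K σ) (s : ℕ), S.size ≤ s → ∀ r, S.deg r < 3 ^ k →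
    CostLE (S.val r) (Kf k s) := by
  intro k
  induction k with
  | zero =>
    intro S s _ r hr
    have hr' : S.deg r ≤ 0 := by
      rw [pow_zero] at hr
      omega
    obtain ⟨c, hc⟩ := S.val_const (S.rank r + 1) r (Nat.lt_succ_self _) hr'
    rw [hc]
    exact costLE_C c
  | succ k ih =>
    intro S s hs r hr
    by_cases hr0 : S.deg r ≤ 0
    · obtain ⟨c, hc⟩ := S.val_const (S.rank r + 1) r (Nat.lt_succ_self _) hr0
      rw [hc]
      exact (costLE_C c).mono (one_le_Kf _ _)
    · set μ : ℤ := S.deg r / 3 with hμ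
      set θ : ℤ := S.deg r - μ with hθ
      have h3k : S.deg r < 3 * 3 ^ k := by
        rw [pow_succ] at hr
        linarith
      have hμk : μ < 3 ^ k := by omega
      have hsmall : ∀ v, S.deg v ≤ μ → CostLE (S.val v) (Kf k (3 * s + 1)) := by
        intro v hv
        exact ih S (3 * s + 1) (by omega) v (by omega)
      have hctx : ∀ p, θ ≤ S.deg p → CostLE (S.D p r) (Kf k (3 * s + 1)) := by
        intro p hp
        have h1 := S.size_ext p
        refine ih (S.ext p) (3 * s + 1) (by omega) (r, true) ?_
        change S.deg r - (if true then S.deg p else 0) < 3 ^ k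
        rw [if_pos rfl]
        omega
      have h2 := Sys.cost_step (S := S) (μ := μ) (θ := θ) (r := r) (by omega) (by omega)
        (by omega) (by omega) (by omega) (by omega) (one_le_Kf k (3 * s + 1)) hsmall hctx
      refine h2.mono ?_
      exact Nat.mul_le_mul_right _ (by omega)

end Pool.Agent.H79.Log3
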