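import Pool.Agent.H80.Merge

/-!
# Lower bounds for monotone skew programs: the rectangle argument
-/

set_option autoImplicit false
set_option linter.unusedSectionVars false

namespace Pool.Agent.H79.Log3

open MvPolynomial Pool.Agent.H80

universe u

section generic

variable {K : Type u} [CommSemiring K]
variable {E Φ W : Type} [Fintype E] [DecidableEq E] [Fintype Φ]

/-- The monomial of an assignment `φ` restricted to the set `A` of edges. -/
noncomputable def mono (at_ : Φ → E → W) (A : Finset E) (φ : Φ) : W →₀ ℕ :=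
  ∑ e ∈ A, Finsupp.single (at_ φ e) 1

/-- The polynomial of a family of assignments. -/
noncomputable def poly (K : Type u) [CommSemiring K] (at_ : Φ → E → W) : MvPolynomial W K :=
  ∑ φ, ∏ e, X (at_ φ e)

/-- `A` is reached from the empty set by adding single elements, avoiding `Bad`. -/
inductive Free (Bad : Finset E → Prop) : Finset E → Prop
  | empty : ¬ Bad ∅ → Free Bad ∅
  | insert (A : Finset E) (e : E) : Free Bad A → ¬ Bad (insert e A) → Free Bad (insert e A)

/-- The set of assignments compatible with `φ₀` across `A`. -/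
def Agr (at_ : Φ → E → W) (A : Finset E) (φ₀ : Φ) : Set Φ :=
  {φ | ∃ ψ, (∀ e ∈ A, at_ ψ e = at_ φ e) ∧ ∀ e ∉ A, at_ ψ e = at_ φ₀ e}

lemma prod_X (at_ : Φ → E → W) (A : Finset E) (φ : Φ) :
    ∏ e ∈ A, (X (at_ φ e) : MvPolynomial W K) = monomial (mono at_ A φ) 1 := by
  classical
  unfold mono
  induction A using Finset.induction_on with
  | empty => simp
  | insert e A he ih =>
    rw [Finset.prod_insert he, Finset.sum_insert he, ih, X, monomial_mul, one_mul]

lemma mono_insert (at_ : Φ → E → W) {A : Finset E} {e : E} (he : e ∉ A) (φ : Φ) :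
    mono at_ (insert e A) φ = Finsupp.single (at_ φ e) 1 + mono at_ A φ := by
  unfold mono
  rw [Finset.sum_insert he]

lemma mono_apply [DecidableEq W] {at_ : Φ → E → W} {pr : W → E} (hpr : ∀ φ e, pr (at_ φ e) = e)
    (A : Finset E) (φ : Φ) (w : W) :
    mono at_ A φ w = if pr w ∈ A ∧ at_ φ (pr w) = w then 1 else 0 := by
  unfold mono
  rw [Finsupp.finsetSum_apply]
  simp only [Finsupp.single_apply]
  split_ifs with h
  · rw [Finset.sum_eq_single_of_mem (pr w) h.1]
    · rw [if_pos h.2]
    · intro e _ he
      rw [if_neg]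
      intro h'
      exact he (by rw [← h', hpr])
  · refine Finset.sum_eq_zero ?_
    intro e he
    rw [if_neg]
    intro h'
    apply h
    rw [← h', hpr]
    exact ⟨he, rfl⟩

section pos

variable (hpos : ∀ a b : K, a + b = 0 → a = 0 ∧ b = 0)

include hpos

lemma mem_support_add (a b : MvPolynomial W K) (m : W →₀ ℕ) :
    m ∈ (a + b).support ↔ m ∈ a.support ∨ m ∈ b.support := by
  rw [mem_support_iff, mem_support_iff, mem_support_iff, coeff_add]
  constructor
  · intro h
    by_contra h'
    push Not at h'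
    rw [h'.1, h'.2, add_zero] at h
    exact h rfl
  · rintro h h'
    have := hpos _ _ h'
    tauto

lemma mem_support_sum {ι : Type*} (T : Finset ι) (g : ι → MvPolynomial W K) (m : W →₀ ℕ) :
    m ∈ (∑ i ∈ T, g i).support ↔ ∃ i ∈ T, m ∈ (g i).support := by
  classical
  induction T using Finset.induction_on with
  | empty => simp
  | insert a T ha ih =>
    rw [Finset.sum_insert ha, mem_support_add hpos, ih]
    simp

lemma mem_support_poly [Nontrivial K] (at_ : Φ → E → W) (m : W →₀ ℕ) :
    m ∈ (poly K at_).support ↔ ∃ φ, m = mono at_ Finset.univ φ := by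
  classical
  unfold poly
  rw [mem_support_sum hpos]
  constructor
  · rintro ⟨φ, _, h⟩
    rw [prod_X, support_monomial, if_neg one_ne_zero, Finset.mem_singleton] at h
    exact ⟨φ, h⟩
  · rintro ⟨φ, rfl⟩
    refine ⟨φ, Finset.mem_univ φ, ?_⟩
    rw [prod_X, support_monomial, if_neg one_ne_zero]
    exact Finset.mem_singleton_self _

end pos

/-- `q` is usable for `φ` with the set `A` of edges done. -/
def Good (f : MvPolynomial W K) (at_ : Φ → E → W) (q : MvPolynomial W K) (A : Finset E)
    (φ : Φ) : Prop :=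
  mono at_ A φ ∈ q.support ∧ ∀ μ ∈ q.support, μ + mono at_ Aᶜ φ ∈ f.support

variable [NoZeroDivisors K] [Nontrivial K]

lemma chain (hpos : ∀ a b : K, a + b = 0 → a = 0 ∧ b = 0) {at_ : Φ → E → W} {pr : W → E}
    (hpr : ∀ φ e, pr (at_ φ e) = e) (f : MvPolynomial W K) (Bad : Finset E → Prop)
    {l : List (MvPolynomial W K)} (hl : LSLP l) (φ : Φ) :
    ∀ q ∈ l, ∀ A, Good f at_ q A φ → Free Bad A ∨ ∃ q' ∈ l, ∃ A', Bad A' ∧ Good f at_ q' A' φ := by
  classical
  induction hl with
  | one =>
    intro q hq A hA
    rw [List.mem_singleton] at hq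
    subst hq
    have h1 : mono at_ A φ = 0 := by
      have := hA.1
      rw [← C_1, ← monomial_zero', support_monomial, if_neg one_ne_zero,
        Finset.mem_singleton] at this
      exact this
    have h2 : A = ∅ := by
      by_contra hne
      obtain ⟨e, he⟩ := Finset.nonempty_iff_ne_empty.2 hne
      have h3 := mono_apply hpr A φ (at_ φ e)
      rw [h1, hpr, if_pos ⟨he, rfl⟩] at h3
      simp at h3
    subst h2
    by_cases hb : Bad ∅
    · exact Or.inr ⟨1, by simp, ∅, hb, hA⟩
    · exact Or.inl (Free.empty hb)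
  | cons h hp ih =>
    rename_i l p
    have lift : ∀ q' ∈ l, ∀ A', Good f at_ q' A' φ → Free Bad A' ∨
        ∃ q'' ∈ p :: l, ∃ A'', Bad A'' ∧ Good f at_ q'' A'' φ := by
      intro q' hq' A' hA'
      rcases ih q' hq' A' hA' with h1 | ⟨q'', h1, h2⟩
      · exact Or.inl h1
      · exact Or.inr ⟨q'', List.mem_cons_of_mem _ h1, h2⟩
    intro q hq A hA
    rcases List.mem_cons.1 hq with hqp | hq
    swap
    · exact lift q hq A hA
    rw [hqp] at hA
    cases hp with
    | mulVar hq' i =>
      rename_i q'
      have h1 := hA.1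
      rw [support_mul_X, Finset.mem_map] at h1
      obtain ⟨μ, hμ, hμ'⟩ := h1
      simp only [addRightEmbedding_apply] at hμ'
      have h2 : mono at_ A φ i = μ i + 1 := by
        rw [← hμ']
        simp
      rw [mono_apply hpr] at h2
      have h3 : pr i ∈ A ∧ at_ φ (pr i) = i := by
        by_contra hne
        rw [if_neg hne] at h2
        omega
      set e := pr i with he
      have h4 : mono at_ A φ = Finsupp.single i 1 + mono at_ (A.erase e) φ := by
        conv_lhs => rw [← Finset.insert_erase h3.1]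
        rw [mono_insert at_ (Finset.notMem_erase e A), h3.2]
      have h5 : μ = mono at_ (A.erase e) φ := by
        rw [h4, add_comm] at hμ'
        exact add_left_cancel hμ'
      have hG : Good f at_ q' (A.erase e) φ := by
        refine ⟨h5 ▸ hμ, ?_⟩
        intro ν hν
        have h6 : ν + Finsupp.single i 1 ∈ (q' * X i).support := by
          rw [support_mul_X, Finset.mem_map]
          exact ⟨ν, hν, rfl⟩
        have h7 := hA.2 _ h6
        have h8 : mono at_ (A.erase e)ᶜ φ = Finsupp.single i 1 + mono at_ Aᶜ φ := by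
          have h9 : (A.erase e)ᶜ = insert e Aᶜ := by
            ext x
            simp only [Finset.mem_compl, Finset.mem_erase, Finset.mem_insert, not_and_or, not_not]
          rw [h9, mono_insert at_ (by simpa using h3.1), h3.2]
        rw [h8, ← add_assoc]
        exact h7
      rcases lift q' hq' _ hG with h6 | h6
      · by_cases hb : Bad A
        · exact Or.inr ⟨_, List.mem_cons_self, A, hb, hA⟩
        · left
          have h7 := Free.insert (A.erase e) e h6 (by rwa [Finset.insert_erase h3.1])
          rwa [Finset.insert_erase h3.1] at h7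
      · exact Or.inr h6
    | mulConst hq' c =>
      rename_i q'
      have h1 := hA.1
      rw [mem_support_iff, mul_comm, coeff_C_mul, mul_comm] at h1
      have hc : c ≠ 0 := right_ne_zero_of_mul h1
      refine lift q' hq' A ⟨mem_support_iff.2 (left_ne_zero_of_mul h1), ?_⟩
      intro ν hν
      refine hA.2 ν ?_
      rw [mem_support_iff, mul_comm, coeff_C_mul, mul_comm]
      exact mul_ne_zero (mem_support_iff.1 hν) hc
    | add ha hb =>
      rename_i a b
      rcases (mem_support_add hpos a b _).1 hA.1 with h1 | h1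
      · exact lift a ha A ⟨h1, fun ν hν => hA.2 ν ((mem_support_add hpos a b _).2 (Or.inl hν))⟩
      · exact lift b hb A ⟨h1, fun ν hν => hA.2 ν ((mem_support_add hpos a b _).2 (Or.inr hν))⟩

/-- Agreement of the monomials means agreement of the assignments. -/
lemma agree_of_eq {at_ : Φ → E → W} {pr : W → E} (hpr : ∀ φ e, pr (at_ φ e) = e)
    {A A₀ : Finset E} {φ φ₀ ψ : Φ}
    (h : mono at_ A φ + mono at_ A₀ᶜ φ₀ = mono at_ Finset.univ ψ) :
    A = A₀ ∧ (∀ e ∈ A₀, at_ ψ e = at_ φ e) ∧ ∀ e ∉ A₀, at_ ψ e = at_ φ₀ e := by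
  classical
  have key : ∀ e, (if e ∈ A ∧ at_ φ e = at_ ψ e then 1 else 0) +
      (if e ∈ A₀ᶜ ∧ at_ φ₀ e = at_ ψ e then 1 else 0) = 1 := by
    intro e
    have h1 := DFunLike.congr_fun h (at_ ψ e)
    rw [Finsupp.add_apply, mono_apply hpr, mono_apply hpr, mono_apply hpr] at h1
    simp only [hpr, Finset.mem_univ, and_self, if_true] at h1
    exact h1
  have key2 : ∀ e ∈ A, at_ φ e = at_ ψ e := by
    intro e he
    have h1 := DFunLike.congr_fun h (at_ φ e)
    rw [Finsupp.add_apply, mono_apply hpr, mono_apply hpr, mono_apply hpr] at h1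
    simp only [hpr, he, Finset.mem_univ, true_and, if_true] at h1
    by_contra hne
    rw [if_neg (Ne.symm hne)] at h1
    omega
  have key3 : ∀ e ∉ A₀, at_ φ₀ e = at_ ψ e := by
    intro e he
    have h1 := DFunLike.congr_fun h (at_ φ₀ e)
    rw [Finsupp.add_apply, mono_apply hpr, mono_apply hpr, mono_apply hpr] at h1
    simp only [hpr, Finset.mem_compl, he, Finset.mem_univ, true_and, not_false_eq_true,
      if_true] at h1
    by_contra hne
    rw [if_neg (c := at_ ψ e = at_ φ₀ e) (Ne.symm hne)] at h1
    omega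
  have hA : A = A₀ := by
    ext e
    have h1 := key e
    constructor
    · intro he
      by_contra he'
      rw [if_pos ⟨he, key2 e he⟩, if_pos ⟨Finset.mem_compl.2 he', key3 e he'⟩] at h1
      omega
    · intro he
      by_contra he'
      rw [if_neg (fun h' => he' h'.1), if_neg (fun h' => Finset.mem_compl.1 h'.1 he)] at h1
      omega
  subst hA
  exact ⟨rfl, fun e he => (key2 e he).symm, fun e he => (key3 e he).symm⟩

/-- **Rectangle bound.** -/
theorem lower_generic (hpos : ∀ a b : K, a + b = 0 → a = 0 ∧ b = 0) {at_ : Φ → E → W}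
    {pr : W → E} (hpr : ∀ φ e, pr (at_ φ e) = e) (N : ℕ) [Nonempty Φ]
    (hfree : ¬ Free (fun A => ∀ φ₀, Set.ncard (Agr at_ A φ₀) * N ≤ Fintype.card Φ) Finset.univ)
    {l : List (MvPolynomial W K)} (hl : LSLP l) (hf : poly K at_ ∈ l) : N ≤ l.length := by
  classical
  set Bad : Finset E → Prop := fun A => ∀ φ₀, Set.ncard (Agr at_ A φ₀) * N ≤ Fintype.card Φ
    with hBad
  have h1 : ∀ φ, ∃ q ∈ l, ∃ A, Bad A ∧ Good (poly K at_) at_ q A φ := by
    intro φ
    have hG : Good (poly K at_) at_ (poly K at_) Finset.univ φ := by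
      refine ⟨(mem_support_poly hpos at_ _).2 ⟨φ, rfl⟩, ?_⟩
      intro μ hμ
      rw [Finset.compl_univ]
      simpa [mono] using hμ
    rcases chain hpos hpr (poly K at_) Bad hl φ _ hf _ hG with h | h
    · exact absurd h hfree
    · exact h
  choose q hq A hA hG using h1
  have hfib : ∀ p ∈ l.toFinset, (Finset.univ.filter fun φ => q φ = p).card * N ≤
      Fintype.card Φ := by
    intro p _
    rcases (Finset.univ.filter fun φ => q φ = p).eq_empty_or_nonempty with h0 | ⟨φ₀, hφ₀⟩
    · rw [h0]
      simp
    · have hq0 : q φ₀ = p := (Finset.mem_filter.1 hφ₀).2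
      refine le_trans (Nat.mul_le_mul_right _ ?_) (hA φ₀ φ₀)
      rw [← Set.ncard_coe_finset]
      refine Set.ncard_le_ncard ?_ (Set.toFinite _)
      intro φ hφ
      have hqφ : q φ = p := by simpa using hφ
      have h2 := (hG φ₀).2 (mono at_ (A φ) φ) (by rw [hq0, ← hqφ]; exact (hG φ).1)
      obtain ⟨ψ, hψ⟩ := (mem_support_poly hpos at_ _).1 h2
      obtain ⟨_, h3, h4⟩ := agree_of_eq hpr hψ
      exact ⟨ψ, h3, h4⟩
  have hsum : Fintype.card Φ = ∑ p ∈ l.toFinset, (Finset.univ.filter fun φ => q φ = p).card := by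
    rw [← Finset.card_univ]
    refine Finset.card_eq_sum_card_fiberwise ?_
    intro φ _
    simpa using hq φ
  have h2 : Fintype.card Φ * N ≤ l.length * Fintype.card Φ := by
    calc Fintype.card Φ * N
        = ∑ p ∈ l.toFinset, (Finset.univ.filter fun φ => q φ = p).card * N := by
          conv_lhs => rw [hsum]
          rw [Finset.sum_mul]
      _ ≤ ∑ p ∈ l.toFinset, Fintype.card Φ := Finset.sum_le_sum hfib
      _ = l.toFinset.card * Fintype.card Φ := by rw [Finset.sum_const, smul_eq_mul]
      _ ≤ l.length * Fintype.card Φ := Nat.mul_le_mul_right _ (List.toFinset_card_le l)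
  rw [mul_comm l.length] at h2
  exact Nat.le_of_mul_le_mul_left h2 Fintype.card_pos

end generic

end Pool.Agent.H79.Log3
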