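import Pool.Agent.H79.LogTree

/-!
# Small circuits for the polynomials of the ternary trees with butterfly channels
-/

set_option autoImplicit false
set_option linter.unusedSectionVars false

namespace Pool.Agent.H79.Log3

open MvPolynomial Pool.Agent.H80

universe u

variable {K : Type u} [CommSemiring K] {l : ℕ}

/-- Summands with root label `v`. -/
noncomputable def Pv (K : Type u) [CommSemiring K] (l h : ℕ) (v : Lab l) :
    MvPolynomial (Vr l h) K :=
  ∑ φ : As l h with root φ = v, ∏ e, X (at_ φ e)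

lemma poly_eq_sum (h : ℕ) : poly K (at_ (l := l) (h := h)) = ∑ v, Pv K l h v := by
  unfold poly Pv
  rw [Finset.sum_fiberwise]

/-- Variables of the subtree `c`. -/
def ren {h : ℕ} (c : Fin 3) (y : Vr l h) : Vr l (h + 1) := (c, Sum.inr y)

/-- Variables of the channel `c`. -/
def chv {h : ℕ} (c : Fin 3) (t : Fin l) (a : Lab l) (b : Bool) : Vr l (h + 1) :=
  (c, Sum.inl (t, a, b))

/-- The factor of the branch `c` in an assignment. -/
noncomputable def gfac (K : Type u) [CommSemiring K] {h : ℕ} (v : Lab l) (c : Fin 3)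
    (ψ : As l h) : MvPolynomial (Vr l (h + 1)) K :=
  (∏ t : Fin l, X (chv c t (mix (t : ℕ) v (root ψ)) (root ψ t))) *
    ∏ e, X (ren c (at_ ψ e))

lemma prod_eb {h : ℕ} (F : Ed l (h + 1) → MvPolynomial (Vr l (h + 1)) K) :
    ∏ e, F e = ∏ c : Fin 3, ((∏ t : Fin l, F (eb c (Sum.inl t))) *
      ∏ e : Ed l h, F (eb c (Sum.inr e))) := by
  have h1 : ∏ e, F e = ∏ p : Fin 3 × (Fin l ⊕ Ed l h), F (eb p.1 p.2) := rfl
  rw [h1, Fintype.prod_prod_type]
  refine Finset.prod_congr rfl ?_
  intro c _
  rw [Fintype.prod_sum_type]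

lemma Pv_succ_aux {h : ℕ} (v : Lab l) :
    Pv K l (h + 1) v = ∑ al : Fin 3 → As l h, ∏ c, gfac K v c (al c) := by
  classical
  unfold Pv
  refine Finset.sum_bij (fun (φ : As l (h + 1)) _ => φ.2) ?_ ?_ ?_ ?_
  · intro φ _
    exact Finset.mem_univ _
  · rintro ⟨v1, al1⟩ h1 ⟨v2, al2⟩ h2 h3
    have h4 : v1 = v := (Finset.mem_filter.1 h1).2
    have h5 : v2 = v := (Finset.mem_filter.1 h2).2
    have h6 : al1 = al2 := h3
    rw [h4, h5, h6]
  · intro al _
    exact ⟨((v, al) : Lab l × (Fin 3 → As l h)),
      Finset.mem_filter.2 ⟨Finset.mem_univ _, rfl⟩, rfl⟩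
  · rintro ⟨v1, al⟩ h1
    have h4 : v1 = v := (Finset.mem_filter.1 h1).2
    subst h4
    rw [prod_eb]
    rfl

lemma rename_prod {h : ℕ} (c : Fin 3) (ψ : As l h) :
    rename (ren c) (∏ e, (X (at_ ψ e) : MvPolynomial (Vr l h) K)) =
      ∏ e, X (ren c (at_ ψ e)) := by
  rw [map_prod]
  simp only [rename_X]

/-- The factor of the branch `c`. -/
noncomputable def Rv (K : Type u) [CommSemiring K] {l h : ℕ} (c : Fin 3) (t : ℕ) (a : Lab l) :
    MvPolynomial (Vr l (h + 1)) K :=
  ∑ w : Lab l with (∀ i : Fin l, (i : ℕ) < t → w i = a i),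
    (∏ t' ∈ Finset.univ.filter (fun t' : Fin l => t ≤ (t' : ℕ)),
      X (chv c t' (mix (t' : ℕ) a w) (w t'))) * rename (ren c) (Pv K l h w)

lemma Pv_succ {h : ℕ} (v : Lab l) : Pv K l (h + 1) v = ∏ c, Rv K (h := h) c 0 v := by
  classical
  rw [Pv_succ_aux]
  have h1 : ∏ c : Fin 3, ∑ ψ ∈ (Finset.univ : Finset (As l h)), gfac K v c ψ =
      ∑ al : Fin 3 → As l h, ∏ c, gfac K v c (al c) := by
    rw [Finset.prod_univ_sum, Fintype.piFinset_univ]
  rw [← h1]
  refine Finset.prod_congr rfl ?_
  intro c _
  rw [← Finset.sum_fiberwise Finset.univ (fun ψ : As l h => root ψ)]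
  unfold Rv
  have h2 : (Finset.univ.filter fun w : Lab l => ∀ i : Fin l, (i : ℕ) < 0 → w i = v i) =
      Finset.univ := by
    ext w
    simp
  have h3 : (Finset.univ.filter fun t' : Fin l => 0 ≤ (t' : ℕ)) = Finset.univ := by
    ext w
    simp
  rw [h2, h3]
  refine Finset.sum_congr rfl ?_
  intro w _
  unfold Pv
  rw [map_sum, Finset.mul_sum]
  refine Finset.sum_congr rfl ?_
  intro ψ hψ
  have h4 : root ψ = w := (Finset.mem_filter.1 hψ).2
  rw [rename_prod]
  unfold gfac
  rw [h4]

lemma Rv_last {h : ℕ} (c : Fin 3) (a : Lab l) :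
    Rv K (h := h) c l a = rename (ren c) (Pv K l h a) := by
  classical
  unfold Rv
  have h2 : (Finset.univ.filter fun w : Lab l => ∀ i : Fin l, (i : ℕ) < l → w i = a i) =
      {a} := by
    ext w
    simp only [Finset.mem_filter, Finset.mem_univ, true_and, Finset.mem_singleton]
    constructor
    · intro h1
      funext i
      exact h1 i i.2
    · rintro rfl i _
      rfl
  have h3 : (Finset.univ.filter fun t' : Fin l => l ≤ (t' : ℕ)) = ∅ := by
    ext t
    simp
  rw [h2, h3]
  simp

lemma Rv_step {h : ℕ} (c : Fin 3) (t : Fin l) (a : Lab l) :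
    Rv K (h := h) c (t : ℕ) a =
      X (chv c t a false) * Rv K (h := h) c (t + 1) (Function.update a t false) +
      X (chv c t a true) * Rv K (h := h) c (t + 1) (Function.update a t true) := by
  classical
  have key : ∀ b : Bool, X (chv c t a b) * Rv K (h := h) c (t + 1) (Function.update a t b) =
      ∑ w : Lab l with (∀ i : Fin l, (i : ℕ) < t → w i = a i) ∧ w t = b,
        (∏ t' ∈ Finset.univ.filter (fun t' : Fin l => (t : ℕ) ≤ (t' : ℕ)),
          X (chv c t' (mix (t' : ℕ) a w) (w t'))) * rename (ren c) (Pv K l h w) := by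
    intro b
    unfold Rv
    rw [Finset.mul_sum]
    have h1 : (Finset.univ.filter fun w : Lab l =>
        ∀ i : Fin l, (i : ℕ) < t + 1 → w i = Function.update a t b i) =
        Finset.univ.filter fun w : Lab l => (∀ i : Fin l, (i : ℕ) < t → w i = a i) ∧ w t = b := by
      ext w
      simp only [Finset.mem_filter, Finset.mem_univ, true_and]
      constructor
      · intro h2
        refine ⟨?_, ?_⟩
        · intro i hi
          have := h2 i (by omega)
          rwa [Function.update_of_ne (by rintro rfl; omega)] at this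
        · have := h2 t (by omega)
          rwa [Function.update_self] at this
      · rintro ⟨h2, h3⟩ i hi
        by_cases hit : i = t
        · subst hit
          rw [Function.update_self, h3]
        · rw [Function.update_of_ne hit]
          have : (i : ℕ) ≠ t := fun h4 => hit (Fin.ext h4)
          exact h2 i (by omega)
    rw [h1]
    refine Finset.sum_congr rfl ?_
    intro w hw
    obtain ⟨hw1, hw2⟩ := (Finset.mem_filter.1 hw).2
    rw [← mul_assoc]
    congr 1
    have h2 : (Finset.univ.filter fun t' : Fin l => (t : ℕ) ≤ (t' : ℕ)) =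
        insert t (Finset.univ.filter fun t' : Fin l => (t : ℕ) + 1 ≤ (t' : ℕ)) := by
      ext x
      simp only [Finset.mem_filter, Finset.mem_univ, true_and, Finset.mem_insert]
      constructor
      · intro h3
        by_cases hx : x = t
        · exact Or.inl hx
        · right
          have : (x : ℕ) ≠ t := fun h4 => hx (Fin.ext h4)
          omega
      · rintro (rfl | h3)
        · exact le_rfl
        · omega
    rw [h2, Finset.prod_insert (by simp)]
    congr 1
    · have h3 : mix (t : ℕ) a w = a := by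
        funext i
        simp only [mix]
        split_ifs with hi
        · exact hw1 i hi
        · rfl
      rw [h3, hw2]
    · refine Finset.prod_congr rfl ?_
      intro t' ht'
      have h3 : (t : ℕ) + 1 ≤ t' := (Finset.mem_filter.1 ht').2
      have h4 : mix (t' : ℕ) (Function.update a t b) w = mix (t' : ℕ) a w := by
        funext i
        simp only [mix]
        split_ifs with hi
        · rfl
        · rw [Function.update_of_ne]
          rintro rfl
          omega
      rw [h4]
  rw [key false, key true]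
  unfold Rv
  rw [← Finset.sum_union]
  · refine Finset.sum_congr ?_ (fun _ _ => rfl)
    ext w
    simp only [Finset.mem_filter, Finset.mem_univ, true_and, Finset.mem_union]
    cases hwt : w t <;> simp
  · rw [Finset.disjoint_left]
    intro w h1 h2
    have h3 := (Finset.mem_filter.1 h1).2.2
    have h4 := (Finset.mem_filter.1 h2).2.2
    rw [h3] at h4
    simp at h4

/-! ### Straight-line programs -/

lemma SLP.rename {σ τ : Type} (g : σ → τ) {L : List (MvPolynomial σ K)} (h : SLP L) :
    SLP (L.map (rename g)) := by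
  induction h with
  | nil => exact SLP.nil
  | cons h hp ih =>
    rename_i L p
    rw [List.map_cons]
    refine SLP.cons ih ?_
    cases hp with
    | var i => rw [rename_X]; exact Step.var _
    | const c => rw [rename_C]; exact Step.const _
    | add ha hb =>
      rw [map_add]
      exact Step.add (List.mem_map_of_mem ha) (List.mem_map_of_mem hb)
    | mul ha hb =>
      rw [map_mul]
      exact Step.mul (List.mem_map_of_mem ha) (List.mem_map_of_mem hb)

lemma SLP.append {σ : Type} {L L' : List (MvPolynomial σ K)} (h : SLP L) (h' : SLP L') :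
    SLP (L ++ L') := by
  induction h with
  | nil => exact h'
  | cons h hp ih => exact SLP.cons ih (hp.mono (List.subset_append_left _ _))

/-- All layers of the channels. -/
lemma channel {h : ℕ} (L : List (MvPolynomial (Vr l (h + 1)) K))
    (hL : ∀ c w, rename (ren c) (Pv K l h w) ∈ L) : ∀ n ≤ l,
    ∃ L', Der L (n * (15 * 2 ^ l)) L' ∧ ∀ c a, Rv K (h := h) c (l - n) a ∈ L' := by
  classical
  intro n
  induction n with
  | zero =>
    intro _
    refine ⟨L, by simpa using Der.refl L, ?_⟩
    intro c a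
    rw [Nat.sub_zero, Rv_last]
    exact hL c a
  | succ n ih =>
    intro hn
    obtain ⟨L1, h1, h2⟩ := ih (by omega)
    have ht : l - (n + 1) < l := by omega
    have hts : l - n = l - (n + 1) + 1 := by omega
    obtain ⟨L2, h3, h4⟩ := Der.all (Finset.univ : Finset (Fin 3 × Lab l))
      (fun p => Rv K (h := h) p.1 (l - (n + 1)) p.2) 5 L1 (by
        rintro ⟨c, a⟩ _ L1' hL1'
        have e := Rv_step (K := K) (h := h) c ⟨l - (n + 1), ht⟩ a
        simp only at e ⊢
        rw [e]
        have m1 := hL1' (h2 c (Function.update a ⟨l - (n + 1), ht⟩ false))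
        have m2 := hL1' (h2 c (Function.update a ⟨l - (n + 1), ht⟩ true))
        rw [hts] at m1 m2
        set R1 := Rv K (h := h) c (l - (n + 1) + 1) (Function.update a ⟨l - (n + 1), ht⟩ false)
        set R2 := Rv K (h := h) c (l - (n + 1) + 1) (Function.update a ⟨l - (n + 1), ht⟩ true)
        have s1 := (Der.refl L1').step (Step.var (K := K)
          (chv c ⟨l - (n + 1), ht⟩ a false : Vr l (h + 1)))
        have s2 := s1.step (Step.mul (b := R1) List.mem_cons_self (s1.2.1 m1))
        have s3 := s2.step (Step.var (K := K)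
          (chv c ⟨l - (n + 1), ht⟩ a true : Vr l (h + 1)))
        have s4 := s3.step (Step.mul (b := R2) List.mem_cons_self (s3.2.1 m2))
        have s5 := s4.step (Step.add (List.mem_cons_of_mem _ (List.mem_cons_of_mem _
          List.mem_cons_self)) List.mem_cons_self)
        exact ⟨_, s5, List.mem_cons_self⟩)
    refine ⟨L2, ?_, fun c a => h4 (c, a) (Finset.mem_univ _)⟩
    have h5 := h1.trans h3
    have h6 : n * (15 * 2 ^ l) + (Finset.univ : Finset (Fin 3 × Lab l)).card * 5 =
        (n + 1) * (15 * 2 ^ l) := by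
      rw [Finset.card_univ, Fintype.card_prod]
      simp
      ring
    rwa [h6] at h5

lemma exists_slp (hl : 0 < l) : ∀ h, ∃ L : List (MvPolynomial (Vr l h) K), SLP L ∧
    2 * L.length + 17 * (l * 2 ^ l) ≤ 3 ^ h * (2 + 17 * (l * 2 ^ l)) ∧ ∀ v, Pv K l h v ∈ L := by
  classical
  intro h
  induction h with
  | zero =>
    refine ⟨[C 1], SLP.cons SLP.nil (Step.const 1), by simp, ?_⟩
    intro v
    have : Pv K l 0 v = C 1 := by
      unfold Pv
      obtain ⟨v', hv'⟩ : ∃ v' : As l 0, root v' = v := ⟨v, rfl⟩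
      have h1 : (Finset.univ.filter fun φ : As l 0 => root φ = v) = {v'} := by
        ext φ
        rw [Finset.mem_filter, Finset.mem_singleton, ← hv']
        exact ⟨fun h => h.2, fun h => ⟨Finset.mem_univ _, by rw [h]⟩⟩
      rw [h1, Finset.sum_singleton, C_1]
      exact Finset.prod_eq_one (fun e _ => e.elim)
    rw [this]
    exact List.mem_singleton_self _
  | succ h ih =>
    obtain ⟨L, h1, h2, h3⟩ := ih
    set L1 : List (MvPolynomial (Vr l (h + 1)) K) :=
      L.map (rename (ren 0)) ++ (L.map (rename (ren 1)) ++ L.map (rename (ren 2))) with hL1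
    have h4 : SLP L1 :=
      SLP.append (SLP.rename _ h1) (SLP.append (SLP.rename _ h1) (SLP.rename _ h1))
    have h5 : ∀ c w, rename (ren c) (Pv K l h w) ∈ L1 := by
      intro c w
      rw [hL1, List.mem_append, List.mem_append]
      fin_cases c
      · exact Or.inl (List.mem_map_of_mem (h3 w))
      · exact Or.inr (Or.inl (List.mem_map_of_mem (h3 w)))
      · exact Or.inr (Or.inr (List.mem_map_of_mem (h3 w)))
    obtain ⟨L2, h6, h7⟩ := channel L1 h5 l le_rfl
    rw [Nat.sub_self] at h7
    obtain ⟨L3, h8, h9⟩ := Der.all (Finset.univ : Finset (Lab l))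
      (fun v => Pv K l (h + 1) v) 2 L2 (by
        intro v _ L2' hL2'
        have e : Pv K l (h + 1) v = Rv K (h := h) 0 0 v * Rv K (h := h) 1 0 v *
            Rv K (h := h) 2 0 v := by
          rw [Pv_succ, Fin.prod_univ_three]
        rw [e]
        have s1 := (Der.refl L2').step (Step.mul (hL2' (h7 0 v)) (hL2' (h7 1 v)))
        have s2 := s1.step (Step.mul List.mem_cons_self (s1.2.1 (hL2' (h7 2 v))))
        exact ⟨_, s2, List.mem_cons_self⟩)
    refine ⟨L3, h8.1 (h6.1 h4), ?_, fun v => h9 v (Finset.mem_univ v)⟩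
    have h10 : L1.length = 3 * L.length := by
      rw [hL1]
      simp
      ring
    have h11 := h6.2.2
    have h12 := h8.2.2
    have h13 : (Finset.univ : Finset (Lab l)).card = 2 ^ l := by
      rw [Finset.card_univ]
      simp
    rw [h13] at h12
    have h14 : l * (15 * 2 ^ l) = 15 * (l * 2 ^ l) := by ring
    rw [h14] at h11
    have h15 : 2 ^ l ≤ l * 2 ^ l := Nat.le_mul_of_pos_left _ hl
    have h16 : 3 ^ (h + 1) * (2 + 17 * (l * 2 ^ l)) = 3 * (3 ^ h * (2 + 17 * (l * 2 ^ l))) := by
      rw [pow_succ]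
      ring
    rw [h16]
    omega

/-- Circuits with at most `10 * 3 ^ h * l * 2 ^ l` nodes. -/
theorem exists_circuit (K : Type u) [CommSemiring K] {l : ℕ} (hl : 0 < l) (h : ℕ) :
    ∃ D : Circuit K (Vr l h), D.Computes (poly K (at_ (l := l) (h := h))) ∧
      D.size ≤ 10 * 3 ^ h * (l * 2 ^ l) := by
  classical
  obtain ⟨L, h1, h2, h3⟩ := exists_slp (K := K) hl h
  obtain ⟨L', h4, h5⟩ : ∃ L', Der L (1 + 2 ^ l) L' ∧ ∑ v, Pv K l h v ∈ L' := by
    have h13 : (Finset.univ : Finset (Lab l)).card = 2 ^ l := by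
      rw [Finset.card_univ]
      simp
    rw [← h13]
    have : ∀ s : Finset (Lab l), ∃ L', Der L (1 + s.card) L' ∧ ∑ v ∈ s, Pv K l h v ∈ L' := by
      intro s
      induction s using Finset.induction_on with
      | empty =>
        refine ⟨C 0 :: L, (Der.refl L).step (Step.const 0), ?_⟩
        simp
      | insert v s hv ih =>
        obtain ⟨L', h5, h6⟩ := ih
        refine ⟨(Pv K l h v + ∑ v ∈ s, Pv K l h v) :: L', ?_, ?_⟩
        · rw [Finset.card_insert_of_notMem hv, ← add_assoc]
          exact h5.step (Step.add (h5.2.1 (h3 v)) h6)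
        · rw [Finset.sum_insert hv]
          exact List.mem_cons_self
    exact this Finset.univ
  obtain ⟨D, h6, h7⟩ := (h4.1 h1).exists_circuit h5
  refine ⟨D, by rwa [poly_eq_sum], h7.trans ?_⟩
  have h8 := h4.2.2
  have h9 : 2 ^ l ≤ l * 2 ^ l := Nat.le_mul_of_pos_left _ hl
  have h10 : 2 ≤ l * 2 ^ l := by
    have : 2 ^ 1 ≤ 2 ^ l := Nat.pow_le_pow_right (by norm_num) hl
    omega
  have h11 : 3 ^ h * (2 + 17 * (l * 2 ^ l)) ≤ 3 ^ h * (18 * (l * 2 ^ l)) :=
    Nat.mul_le_mul_left _ (by omega)
  have h12 : 10 * 3 ^ h * (l * 2 ^ l) = 3 ^ h * (10 * (l * 2 ^ l)) := by ring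
  have h13 : 3 ^ h * (18 * (l * 2 ^ l)) = 18 * (3 ^ h * (l * 2 ^ l)) := by ring
  have h14 : 3 ^ h * (10 * (l * 2 ^ l)) = 10 * (3 ^ h * (l * 2 ^ l)) := by ring
  have h15 : l * 2 ^ l ≤ 3 ^ h * (l * 2 ^ l) := Nat.le_mul_of_pos_left _ (by positivity)
  rw [h12, h14]
  omega

end Pool.Agent.H79.Log3
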