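import Pool.Agent.H79.LogCirc
import Pool.Agent.H79.LogUp

/-!
# The exponent `log_3 d`: explicit and asymptotic forms
-/

set_option autoImplicit false
set_option linter.unusedSectionVars false

namespace Pool.Agent.H79.Log3

open MvPolynomial Pool.Agent.H80

universe u

/-! ### Upper bound -/

theorem upper_explicit {K : Type u} [CommSemiring K] {σ : Type} (D : Circuit K σ)
    (f : MvPolynomial σ K) (d : ℕ) (hf : D.Computes f) (hd : f.totalDegree ≤ d) (hd1 : 1 ≤ d) :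
    ∃ D' : Circuit K σ, D'.WeaklySkew ∧ D'.Computes f ∧
      D'.size ≤ 16 * d * (128 * D.size * d ^ 3) ^ (Nat.log 3 d + 1) := by
  obtain ⟨D', h1, h2, h3⟩ := exists_skew D hf hd
    (Nat.lt_pow_succ_log_self (by norm_num : 1 < 3) d)
  refine ⟨D', h1.weaklySkew, h2, h3.trans ?_⟩
  set k := Nat.log 3 d with hk
  have h4 : 3 ^ ((k + 1) * (k + 1 - 1) / 2) ≤ d ^ (k + 1) := by
    have h5 : 3 ^ k ≤ d := Nat.pow_log_le_self 3 (by omega)
    calc 3 ^ ((k + 1) * (k + 1 - 1) / 2) ≤ 3 ^ (k * (k + 1)) := by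
          refine Nat.pow_le_pow_right (by norm_num) ?_
          rw [Nat.add_sub_cancel, mul_comm]
          exact Nat.div_le_self _ _
      _ = (3 ^ k) ^ (k + 1) := pow_mul _ _ _
      _ ≤ d ^ (k + 1) := Nat.pow_le_pow_left h5 _
  have h5 : 32 * D.size * (d + 1) ^ 2 ≤ 128 * D.size * d ^ 2 := by
    have h6 : (d + 1) ^ 2 ≤ 4 * d ^ 2 := by nlinarith
    calc 32 * D.size * (d + 1) ^ 2 ≤ 32 * D.size * (4 * d ^ 2) := Nat.mul_le_mul_left _ h6
      _ = 128 * D.size * d ^ 2 := by ring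
  calc 8 * (d + 1) * ((32 * D.size * (d + 1) ^ 2) ^ (k + 1) * 3 ^ ((k + 1) * (k + 1 - 1) / 2))
      ≤ 16 * d * ((128 * D.size * d ^ 2) ^ (k + 1) * d ^ (k + 1)) :=
        Nat.mul_le_mul (by omega) (Nat.mul_le_mul (Nat.pow_le_pow_left h5 _) h4)
    _ = 16 * d * (128 * D.size * d ^ 3) ^ (k + 1) := by
        rw [← mul_pow]
        congr 2
        ring

lemma size_pos {K : Type u} {σ : Type} (D : Circuit K σ) : 1 ≤ D.size := by
  unfold Circuit.size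
  have := @Fintype.card_pos_iff D.V D.fin
  exact this.2 ⟨D.out⟩

theorem upper_asymp (ε : ℝ) (hε : 0 < ε) : ∃ δ : ℝ, 0 < δ ∧ ∃ d₀ : ℕ,
    ∀ (K : Type u) [CommSemiring K] (σ : Type) (D : Circuit K σ) (f : MvPolynomial σ K)
      (s d : ℕ), D.Computes f → f.totalDegree ≤ d → D.size ≤ s → d₀ ≤ d →
      (d : ℝ) ≤ (s : ℝ) ^ δ → ∃ D' : Circuit K σ, D'.WeaklySkew ∧ D'.Computes f ∧
        (D'.size : ℝ) ≤ (s : ℝ) ^ ((1 + ε) * Real.logb 3 d) := by
  refine ⟨ε / 24, by positivity, ⌈(3 : ℝ) ^ (2 / ε + 1)⌉₊ + 3, ?_⟩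
  intro K _ σ D f s d hf hd hs hd0 hds
  obtain ⟨D', h1, h2, h3⟩ := upper_explicit D f d hf hd (by omega)
  refine ⟨D', h1, h2, ?_⟩
  set k := Nat.log 3 d with hk
  have hd3 : 3 ≤ d := by omega
  have hs1 : 1 ≤ s := (size_pos D).trans hs
  have hs1' : (1 : ℝ) ≤ s := by exact_mod_cast hs1
  have hs0 : (0 : ℝ) < s := by linarith
  have hdpos : (0 : ℝ) < d := by exact_mod_cast (by omega : 0 < d)
  -- natural number bound
  have h4 : D'.size ≤ (s * d ^ 12) ^ (k + 1) := by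
    have e1 : 128 ≤ d ^ 5 := by
      calc 128 ≤ 3 ^ 5 := by norm_num
        _ ≤ d ^ 5 := Nat.pow_le_pow_left hd3 5
    have e2 : 16 * d ≤ (d ^ 4) ^ (k + 1) := by
      calc 16 * d ≤ 3 ^ 3 * d := Nat.mul_le_mul_right _ (by norm_num)
        _ ≤ d ^ 3 * d := Nat.mul_le_mul_right _ (Nat.pow_le_pow_left hd3 3)
        _ = (d ^ 4) ^ 1 := by ring
        _ ≤ (d ^ 4) ^ (k + 1) := Nat.pow_le_pow_right (by positivity) (by omega)
    have e3 : 128 * D.size * d ^ 3 ≤ s * d ^ 8 := by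
      calc 128 * D.size * d ^ 3 ≤ d ^ 5 * s * d ^ 3 :=
            Nat.mul_le_mul_right _ (Nat.mul_le_mul e1 hs)
        _ = s * d ^ 8 := by ring
    calc D'.size ≤ 16 * d * (128 * D.size * d ^ 3) ^ (k + 1) := h3
      _ ≤ (d ^ 4) ^ (k + 1) * (s * d ^ 8) ^ (k + 1) :=
          Nat.mul_le_mul e2 (Nat.pow_le_pow_left e3 _)
      _ = (s * d ^ 12) ^ (k + 1) := by
          rw [← mul_pow]
          congr 1
          ring
  have h5 : (D'.size : ℝ) ≤ ((s : ℝ) * (d : ℝ) ^ 12) ^ (k + 1) := by exact_mod_cast h4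
  refine h5.trans ?_
  have h6 : (s : ℝ) * (d : ℝ) ^ 12 ≤ (s : ℝ) ^ (1 + ε / 2) := by
    have h7 : (d : ℝ) ^ 12 ≤ ((s : ℝ) ^ (ε / 24)) ^ 12 := pow_le_pow_left₀ hdpos.le hds 12
    have h8 : ((s : ℝ) ^ (ε / 24)) ^ 12 = (s : ℝ) ^ (ε / 2) := by
      rw [← Real.rpow_natCast, ← Real.rpow_mul hs0.le]
      congr 1
      push_cast
      ring
    calc (s : ℝ) * (d : ℝ) ^ 12 ≤ (s : ℝ) * (s : ℝ) ^ (ε / 2) := by
          rw [← h8]
          exact mul_le_mul_of_nonneg_left h7 hs0.le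
      _ = (s : ℝ) ^ (1 + ε / 2) := by
          rw [Real.rpow_add hs0, Real.rpow_one]
  have hL : (k : ℝ) ≤ Real.logb 3 d := by
    rw [Real.le_logb_iff_rpow_le (by norm_num) hdpos, Real.rpow_natCast]
    exact_mod_cast Nat.pow_log_le_self 3 (by omega)
  have hL2 : 2 / ε + 1 ≤ Real.logb 3 d := by
    rw [Real.le_logb_iff_rpow_le (by norm_num) hdpos]
    have h7 := Nat.le_ceil ((3 : ℝ) ^ (2 / ε + 1))
    have h8 : ((⌈(3 : ℝ) ^ (2 / ε + 1)⌉₊ : ℕ) : ℝ) ≤ d := by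
      exact_mod_cast (by omega : ⌈(3 : ℝ) ^ (2 / ε + 1)⌉₊ ≤ d)
    linarith
  have h7 : ((s : ℝ) ^ (1 + ε / 2)) ^ (k + 1) = (s : ℝ) ^ ((1 + ε / 2) * (k + 1)) := by
    rw [← Real.rpow_natCast, ← Real.rpow_mul hs0.le]
    congr 1
    push_cast
    ring
  calc ((s : ℝ) * (d : ℝ) ^ 12) ^ (k + 1) ≤ ((s : ℝ) ^ (1 + ε / 2)) ^ (k + 1) :=
        pow_le_pow_left₀ (by positivity) h6 _
    _ = (s : ℝ) ^ ((1 + ε / 2) * (k + 1)) := h7
    _ ≤ (s : ℝ) ^ ((1 + ε) * Real.logb 3 d) := by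
        refine Real.rpow_le_rpow_of_exponent_le hs1' ?_
        have h8 : ε * (2 / ε + 1) = 2 + ε := by
          field_simp
        nlinarith [mul_le_mul_of_nonneg_left hL2 hε.le, mul_le_mul_of_nonneg_left hL
          (by positivity : (0 : ℝ) ≤ 1 + ε / 2)]

/-! ### Lower bound -/

lemma card_Ed (l : ℕ) : ∀ h, 2 * Fintype.card (Ed l h) + 3 * l = l * 3 ^ (h + 1) := by
  intro h
  induction h with
  | zero =>
    have : Fintype.card (Ed l 0) = 0 := Fintype.card_eq_zero_iff.2 ⟨fun e => e.elim⟩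
    rw [this]
    ring
  | succ h ih =>
    have : Fintype.card (Ed l (h + 1)) = 3 * (l + Fintype.card (Ed l h)) := by
      have h1 : Fintype.card (Ed l (h + 1)) = Fintype.card (Fin 3 × (Fin l ⊕ Ed l h)) := rfl
      rw [h1, Fintype.card_prod, Fintype.card_sum, Fintype.card_fin, Fintype.card_fin]
    rw [this, pow_succ]
    nlinarith

lemma poly_ne_zero {K : Type u} [CommSemiring K] [Nontrivial K]
    (hpos : ∀ a b : K, a + b = 0 → a = 0 ∧ b = 0) (l h : ℕ) :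
    poly K (at_ (l := l) (h := h)) ≠ 0 := by
  intro h0
  obtain ⟨φ⟩ := instNonemptyAs l h
  have h1 := (mem_support_poly hpos (at_ (l := l) (h := h)) _).2 ⟨φ, rfl⟩
  rw [h0] at h1
  simp at h1

lemma totalDegree_poly {K : Type u} [CommSemiring K] [Nontrivial K]
    (hpos : ∀ a b : K, a + b = 0 → a = 0 ∧ b = 0) (l h : ℕ) :
    (poly K (at_ (l := l) (h := h))).totalDegree = Fintype.card (Ed l h) := by
  have h1 : (poly K (at_ (l := l) (h := h))).IsHomogeneous (Fintype.card (Ed l h)) := by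
    unfold poly
    refine IsHomogeneous.sum _ _ _ ?_
    intro φ _
    have h2 := IsHomogeneous.prod (Finset.univ : Finset (Ed l h))
      (fun e => (X (at_ φ e) : MvPolynomial (Vr l h) K)) (fun _ => 1)
      (fun e _ => isHomogeneous_X K _)
    simpa using h2
  exact h1.totalDegree (poly_ne_zero hpos l h)

theorem lower_explicit {K : Type u} [CommSemiring K] [Nontrivial K] [NoZeroDivisors K]
    (hpos : ∀ a b : K, a + b = 0 → a = 0 ∧ b = 0) {l : ℕ} (hl : 0 < l) {h : ℕ} (hh : 0 < h)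
    (D : Circuit K (Vr l h)) (hD : D.WeaklySkew) (hf : D.Computes (poly K at_)) :
    2 ^ (l * h) ≤ 1 + D.size := by
  obtain ⟨h, rfl⟩ : ∃ h', h = h' + 1 := ⟨h - 1, by omega⟩
  obtain ⟨L, h1, h2, h3⟩ := hD.exists_lslp hf
  have h4 := lower_generic hpos (fun φ e => pr_at φ e) ((2 ^ l) ^ (h + 1)) (not_free hl h) h1 h3
  rw [pow_mul]
  exact h4.trans h2

theorem lower_asymp (ε δ : ℝ) (hε : 0 < ε) (hδ : 0 < δ) (N : ℕ) :
    ∃ (σ : Type) (f : MvPolynomial σ NNReal) (s d : ℕ), N ≤ d ∧ f.totalDegree = d ∧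
      (d : ℝ) ≤ (s : ℝ) ^ δ ∧ (∃ D : Circuit NNReal σ, D.Computes f ∧ D.size ≤ s) ∧
      ∀ D : Circuit NNReal σ, D.WeaklySkew → D.Computes f →
        (s : ℝ) ^ ((1 - ε) * Real.logb 3 d) ≤ D.size := by
  have hpos : ∀ a b : NNReal, a + b = 0 → a = 0 ∧ b = 0 := fun a b hab => by
    simpa using hab
  obtain ⟨m, hm⟩ : ∃ m : ℕ, N + 1 + 70 / ε + 12 / δ + 5 ≤ m := exists_nat_ge _
  have hε' : 0 < 70 / ε := by positivity
  have hδ' : 0 < 12 / δ := by positivity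
  have hm5 : (5 : ℝ) ≤ m := by
    have : (0 : ℝ) ≤ N := by positivity
    linarith
  have hmN : N ≤ m := by
    have : (N : ℝ) ≤ m := by linarith
    exact_mod_cast this
  have hmε : 70 / ε ≤ m := by
    have : (0 : ℝ) ≤ N := by positivity
    linarith
  have hmδ : 12 / δ ≤ m := by
    have : (0 : ℝ) ≤ N := by positivity
    linarith
  have hm5' : 5 ≤ m := by exact_mod_cast hm5
  set l := m ^ 4 with hl
  set h := m ^ 2 with hh
  have hlpos : 0 < l := by positivity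
  have hhpos : 0 < h := by positivity
  set d := Fintype.card (Ed l h) with hd
  set s := 10 * 3 ^ h * (l * 2 ^ l) with hs
  have hcard := card_Ed l h
  rw [← hd] at hcard
  have h3h : 9 ≤ 3 ^ (h + 1) := by
    calc 9 = 3 ^ 2 := by norm_num
      _ ≤ 3 ^ (h + 1) := Nat.pow_le_pow_right (by norm_num) (by omega)
  have hdl : 3 * l ≤ d := by nlinarith
  have hml : m ≤ l := by
    calc m = m ^ 1 := (pow_one m).symm
      _ ≤ m ^ 4 := Nat.pow_le_pow_right (by omega) (by norm_num)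
  -- upper bound for d
  have hm3 : m ≤ 3 ^ m := (Nat.lt_pow_self (by norm_num : 1 < 3)).le
  have hd_up : d ≤ 3 ^ (m ^ 2 + 4 * m + 1) := by
    have h1 : l ≤ 3 ^ (4 * m) := by
      calc l = m ^ 4 := rfl
        _ ≤ (3 ^ m) ^ 4 := Nat.pow_le_pow_left hm3 4
        _ = 3 ^ (4 * m) := by rw [← pow_mul, mul_comm]
    calc d ≤ l * 3 ^ (h + 1) := by omega
      _ ≤ 3 ^ (4 * m) * 3 ^ (m ^ 2 + 1) := Nat.mul_le_mul_right _ h1
      _ = 3 ^ (m ^ 2 + 4 * m + 1) := by rw [← pow_add]; congr 1; ring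
  have hs_up : s ≤ 2 ^ ((m ^ 2 + 2) ^ 2) := by
    have h1 : 3 ^ h ≤ 2 ^ (2 * m ^ 2) := by
      calc 3 ^ h ≤ 4 ^ h := Nat.pow_le_pow_left (by norm_num) _
        _ = 2 ^ (2 * m ^ 2) := by rw [show (4 : ℕ) = 2 ^ 2 by norm_num, ← pow_mul]
    have h2 : l ≤ 2 ^ (2 * m ^ 2) := by
      have h3 : m ^ 2 ≤ 2 ^ (m ^ 2) := (Nat.lt_pow_self (by norm_num : 1 < 2)).le
      calc l = (m ^ 2) ^ 2 := by rw [hl]; ring
        _ ≤ (2 ^ (m ^ 2)) ^ 2 := Nat.pow_le_pow_left h3 2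
        _ = 2 ^ (2 * m ^ 2) := by rw [← pow_mul, mul_comm]
    calc s = 10 * 3 ^ h * (l * 2 ^ l) := rfl
      _ ≤ 2 ^ 4 * 2 ^ (2 * m ^ 2) * (2 ^ (2 * m ^ 2) * 2 ^ l) :=
          Nat.mul_le_mul (Nat.mul_le_mul (by norm_num) h1) (Nat.mul_le_mul_right _ h2)
      _ = 2 ^ ((m ^ 2 + 2) ^ 2) := by
          rw [hl, ← pow_add, ← pow_add, ← pow_add]
          congr 1
          ring
  have hs_low : 2 ^ l ≤ s := by
    have : 2 ^ l * 1 ≤ 2 ^ l * (10 * 3 ^ h * l) :=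
      Nat.mul_le_mul_left _ (Nat.mul_pos (by positivity) hlpos)
    calc 2 ^ l = 2 ^ l * 1 := (mul_one _).symm
      _ ≤ 2 ^ l * (10 * 3 ^ h * l) := this
      _ = s := by rw [hs]; ring
  have hs1 : 1 ≤ s := (Nat.one_le_two_pow).trans hs_low
  have hs1' : (1 : ℝ) ≤ s := by exact_mod_cast hs1
  have hd0 : (0 : ℝ) < d := by exact_mod_cast (by omega : 0 < d)
  refine ⟨Vr l h, poly NNReal at_, s, d, by omega, totalDegree_poly hpos l h, ?_,
    exists_circuit NNReal hlpos h, ?_⟩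
  · -- d ≤ s ^ δ
    have h1 : (d : ℝ) ≤ (2 : ℝ) ^ ((2 * (m ^ 2 + 4 * m + 1) : ℕ) : ℝ) := by
      rw [Real.rpow_natCast]
      have : d ≤ 2 ^ (2 * (m ^ 2 + 4 * m + 1)) := by
        refine hd_up.trans ?_
        rw [pow_mul]
        exact Nat.pow_le_pow_left (by norm_num) _
      exact_mod_cast this
    have h2 : ((2 : ℝ) ^ (l : ℝ)) ^ δ ≤ (s : ℝ) ^ δ := by
      refine Real.rpow_le_rpow (by positivity) ?_ hδ.le
      rw [Real.rpow_natCast]
      exact_mod_cast hs_low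
    refine (h1.trans ?_).trans h2
    rw [← Real.rpow_mul (by norm_num)]
    refine Real.rpow_le_rpow_of_exponent_le (by norm_num) ?_
    rw [hl]
    push_cast
    have h3 : 12 ≤ δ * m := by
      have := mul_le_mul_of_nonneg_left hmδ hδ.le
      rwa [mul_div_cancel₀ _ hδ.ne'] at this
    have h4 : (0 : ℝ) ≤ (m : ℝ) ^ 3 := by positivity
    have h5 : 12 * (m : ℝ) ^ 3 ≤ (m : ℝ) ^ 4 * δ := by nlinarith
    have h6 : 2 * ((m : ℝ) ^ 2 + 4 * m + 1) ≤ 12 * (m : ℝ) ^ 3 := by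
      have h7 : (m : ℝ) ^ 2 ≤ (m : ℝ) ^ 3 := pow_le_pow_right₀ (by linarith) (by norm_num)
      have h8 : (m : ℝ) ≤ (m : ℝ) ^ 3 := by
        calc (m : ℝ) = (m : ℝ) ^ 1 := (pow_one _).symm
          _ ≤ (m : ℝ) ^ 3 := pow_le_pow_right₀ (by linarith) (by norm_num)
      have h9 : (1 : ℝ) ≤ (m : ℝ) ^ 3 := one_le_pow₀ (by linarith)
      linarith
    linarith
  · intro D hD hf
    have h1 := lower_explicit hpos hlpos hhpos D hD hf
    have h2 : (2 : ℝ) ^ ((l * h : ℕ) : ℝ) - 1 ≤ D.size := by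
      rw [Real.rpow_natCast]
      have : ((2 ^ (l * h) : ℕ) : ℝ) ≤ ((1 + D.size : ℕ) : ℝ) := by exact_mod_cast h1
      push_cast at this
      push_cast
      linarith
    refine le_trans ?_ h2
    by_cases hε1 : 1 ≤ ε
    · have h3 : (s : ℝ) ^ ((1 - ε) * Real.logb 3 d) ≤ 1 := by
        refine Real.rpow_le_one_of_one_le_of_nonpos hs1' ?_
        refine mul_nonpos_of_nonpos_of_nonneg (by linarith) ?_
        refine Real.logb_nonneg (by norm_num) ?_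
        exact_mod_cast (by omega : 1 ≤ d)
      have h4 : (2 : ℝ) ≤ (2 : ℝ) ^ ((l * h : ℕ) : ℝ) := by
        rw [Real.rpow_natCast]
        calc (2 : ℝ) = 2 ^ 1 := (pow_one _).symm
          _ ≤ 2 ^ (l * h) := pow_le_pow_right₀ (by norm_num) (Nat.mul_pos hlpos hhpos)
      linarith
    · push Not at hε1
      have h3 : Real.logb 3 d ≤ (m : ℝ) ^ 2 + 4 * m + 1 := by
        rw [Real.logb_le_iff_le_rpow (by norm_num) hd0]
        have : (d : ℝ) ≤ (3 : ℝ) ^ (m ^ 2 + 4 * m + 1) := by exact_mod_cast hd_up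
        refine this.trans (le_of_eq ?_)
        rw [← Real.rpow_natCast]
        push_cast
        rfl
      have h4 : (s : ℝ) ^ ((1 - ε) * Real.logb 3 d) ≤
          (2 : ℝ) ^ (((m : ℝ) ^ 2 + 2) ^ 2 * ((1 - ε) * ((m : ℝ) ^ 2 + 4 * m + 1))) := by
        have h5 : (s : ℝ) ≤ (2 : ℝ) ^ (((m : ℝ) ^ 2 + 2) ^ 2) := by
          have : (s : ℝ) ≤ (2 : ℝ) ^ ((m ^ 2 + 2) ^ 2) := by exact_mod_cast hs_up
          refine this.trans (le_of_eq ?_)
          rw [← Real.rpow_natCast]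
          push_cast
          rfl
        have h6 : (1 - ε) * Real.logb 3 d ≤ (1 - ε) * ((m : ℝ) ^ 2 + 4 * m + 1) :=
          mul_le_mul_of_nonneg_left h3 (by linarith)
        have h7 : 0 ≤ (1 - ε) * ((m : ℝ) ^ 2 + 4 * m + 1) :=
          mul_nonneg (by linarith) (by positivity)
        calc (s : ℝ) ^ ((1 - ε) * Real.logb 3 d)
            ≤ (s : ℝ) ^ ((1 - ε) * ((m : ℝ) ^ 2 + 4 * m + 1)) :=
              Real.rpow_le_rpow_of_exponent_le hs1' h6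
          _ ≤ ((2 : ℝ) ^ (((m : ℝ) ^ 2 + 2) ^ 2)) ^ ((1 - ε) * ((m : ℝ) ^ 2 + 4 * m + 1)) :=
              Real.rpow_le_rpow (by positivity) h5 h7
          _ = _ := by rw [← Real.rpow_mul (by norm_num)]
      refine h4.trans ?_
      have h5 : ((m : ℝ) ^ 2 + 2) ^ 2 * ((1 - ε) * ((m : ℝ) ^ 2 + 4 * m + 1)) ≤
          ((l * h : ℕ) : ℝ) - 1 := by
        rw [hl, hh]
        push_cast
        have hM : (0 : ℝ) < m := by linarith
        have e1 : (m : ℝ) ^ 2 + 2 ≤ (m : ℝ) * (m + 5) := by nlinarith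
        have e2 : (m : ℝ) ^ 2 + 4 * m + 1 ≤ (m : ℝ) * (m + 5) := by nlinarith
        have e3 : ((m : ℝ) ^ 2 + 2) ^ 2 ≤ ((m : ℝ) * (m + 5)) ^ 2 :=
          pow_le_pow_left₀ (by positivity) e1 2
        have e4 : ((m : ℝ) ^ 2 + 2) ^ 2 * ((1 - ε) * ((m : ℝ) ^ 2 + 4 * m + 1)) ≤
            ((m : ℝ) * (m + 5)) ^ 2 * ((1 - ε) * ((m : ℝ) * (m + 5))) :=
          mul_le_mul e3 (mul_le_mul_of_nonneg_left e2 (by linarith))
            (mul_nonneg (by linarith) (by positivity)) (by positivity)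
        have e5 : ((m : ℝ) * (m + 5)) ^ 2 * ((1 - ε) * ((m : ℝ) * (m + 5))) =
            (1 - ε) * ((m : ℝ) ^ 3 * (m + 5) ^ 3) := by ring
        have e6 : ((m : ℝ) + 5) ^ 3 ≤ (m : ℝ) ^ 3 + 35 * (m : ℝ) ^ 2 := by nlinarith
        have e7 : 70 ≤ ε * m := by
          have := mul_le_mul_of_nonneg_left hmε hε.le
          rwa [mul_div_cancel₀ _ hε.ne'] at this
        have e8 : (1 - ε) * ((m : ℝ) ^ 3 * (m + 5) ^ 3) ≤
            (1 - ε) * ((m : ℝ) ^ 3 * ((m : ℝ) ^ 3 + 35 * (m : ℝ) ^ 2)) :=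
          mul_le_mul_of_nonneg_left (mul_le_mul_of_nonneg_left e6 (by positivity))
            (by linarith)
        have e9 : 70 * (m : ℝ) ^ 5 ≤ ε * (m : ℝ) ^ 6 := by
          have : (0 : ℝ) ≤ (m : ℝ) ^ 5 := by positivity
          nlinarith
        have e10 : (1 : ℝ) ≤ (m : ℝ) ^ 5 := one_le_pow₀ (by linarith)
        have e11 : 0 ≤ ε * (m : ℝ) ^ 5 := by positivity
        have e12 : (1 - ε) * ((m : ℝ) ^ 3 * ((m : ℝ) ^ 3 + 35 * (m : ℝ) ^ 2)) =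
            (m : ℝ) ^ 6 + 35 * (m : ℝ) ^ 5 - ε * (m : ℝ) ^ 6 - 35 * (ε * (m : ℝ) ^ 5) := by ring
        have e13 : (m : ℝ) ^ 4 * (m : ℝ) ^ 2 = (m : ℝ) ^ 6 := by ring
        rw [e13]
        rw [e12] at e8
        rw [e5] at e4
        linarith
      have h6 : (2 : ℝ) ^ (((m : ℝ) ^ 2 + 2) ^ 2 * ((1 - ε) * ((m : ℝ) ^ 2 + 4 * m + 1))) ≤
          (2 : ℝ) ^ (((l * h : ℕ) : ℝ) - 1) :=
        Real.rpow_le_rpow_of_exponent_le (by norm_num) h5
      refine h6.trans ?_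
      have h7 : (2 : ℝ) ^ (((l * h : ℕ) : ℝ) - 1) = (2 : ℝ) ^ ((l * h : ℕ) : ℝ) / 2 := by
        rw [Real.rpow_sub (by norm_num), Real.rpow_one]
      have h8 : (2 : ℝ) ≤ (2 : ℝ) ^ ((l * h : ℕ) : ℝ) := by
        rw [Real.rpow_natCast]
        calc (2 : ℝ) = 2 ^ 1 := (pow_one _).symm
          _ ≤ 2 ^ (l * h) := pow_le_pow_right₀ (by norm_num) (Nat.mul_pos hlpos hhpos)
      rw [h7]
      linarith

end Pool.Agent.H79.Log3
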