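import Pool.Agent.H80.Merge

/-!
# Homogeneous rule systems and their one-hole extensions
-/

set_option autoImplicit false

namespace Pool.Agent.H79.Log3

open MvPolynomial Pool.Agent.H80

universe u

/-- A rule: a constant, a variable, another symbol, or a product of two symbols. -/
inductive Rule (K : Type u) (σ : Type) (V : Type) : Type u
  | const (c : K) : Rule K σ V
  | var (i : σ) : Rule K σ V
  | one (v : V) : Rule K σ V
  | two (v w : V) : Rule K σ V

/-- The polynomial of a rule. -/
noncomputable def Rule.value {K : Type u} [CommSemiring K] {σ V : Type} (r : Rule K σ V)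
    (val : V → MvPolynomial σ K) : MvPolynomial σ K :=
  match r with
  | .const c => C c
  | .var i => X i
  | .one v => val v
  | .two v w => val v * val w

/-- A homogeneous rule system. -/
structure Sys (K : Type u) (σ : Type) : Type (max u 1) where
  V : Type
  fin : Fintype V
  dec : DecidableEq V
  rules : V → List (Rule K σ V)
  rank : V → ℕ
  deg : V → ℤ
  rank_one : ∀ u v, Rule.one v ∈ rules u → rank v < rank u
  rank_two : ∀ u v w, Rule.two v w ∈ rules u → rank v < rank u ∧ rank w < rank u
  deg_const : ∀ u c, Rule.const c ∈ rules u → deg u = 0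
  deg_var : ∀ u i, Rule.var i ∈ rules u → deg u = 1
  deg_one : ∀ u v, Rule.one v ∈ rules u → deg v = deg u
  deg_two : ∀ u v w, Rule.two v w ∈ rules u → deg v + deg w = deg u

attribute [instance] Sys.fin Sys.dec

namespace Sys

variable {K : Type u} [CommSemiring K] {σ : Type} (S : Sys K σ)

/-- Values computed with bounded recursion depth. -/
noncomputable def iter : ℕ → S.V → MvPolynomial σ K
  | 0, _ => 0
  | n + 1, u => ((S.rules u).map fun r => r.value (iter n)).sum

/-- The value of a symbol. -/
noncomputable def val (u : S.V) : MvPolynomial σ K := S.iter (S.rank u + 1) u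

omit [CommSemiring K] in
lemma value_congr [CommSemiring K] {u : S.V} {f g : S.V → MvPolynomial σ K}
    (h : ∀ v, S.rank v < S.rank u → f v = g v) {r : Rule K σ S.V} (hr : r ∈ S.rules u) :
    r.value f = r.value g := by
  cases r with
  | const c => rfl
  | var i => rfl
  | one v => exact h v (S.rank_one u v hr)
  | two v w =>
    have h1 := S.rank_two u v w hr
    simp only [Rule.value]
    rw [h v h1.1, h w h1.2]

lemma iter_eq : ∀ (k : ℕ) (u : S.V), S.rank u < k → ∀ m n, S.rank u < m → S.rank u < n →
    S.iter m u = S.iter n u := by
  intro k
  induction k with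
  | zero => intro u hu; omega
  | succ k ih =>
    intro u hu m n hm hn
    obtain ⟨m, rfl⟩ : ∃ m', m = m' + 1 := ⟨m - 1, by omega⟩
    obtain ⟨n, rfl⟩ : ∃ n', n = n' + 1 := ⟨n - 1, by omega⟩
    simp only [iter]
    congr 1
    refine List.map_congr_left ?_
    intro r hr
    refine S.value_congr ?_ hr
    intro v hv
    exact ih v (by omega) m n (by omega) (by omega)

lemma val_eq (u : S.V) : S.val u = ((S.rules u).map fun r => r.value S.val).sum := by
  unfold val
  rw [iter]
  congr 1
  refine List.map_congr_left ?_
  intro r hr
  refine S.value_congr ?_ hr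
  intro v hv
  exact S.iter_eq (S.rank v + 1) v (by omega) _ _ hv (by omega)

/-- Values are unique. -/
lemma val_unique (f : S.V → MvPolynomial σ K)
    (hf : ∀ u, f u = ((S.rules u).map fun r => r.value f).sum) : f = S.val := by
  have key : ∀ (k : ℕ) (u : S.V), S.rank u < k → f u = S.val u := by
    intro k
    induction k with
    | zero => intro u hu; omega
    | succ k ih =>
      intro u hu
      rw [hf u, S.val_eq u]
      congr 1
      refine List.map_congr_left ?_
      intro r hr
      exact S.value_congr (fun v hv => ih v (by omega)) hr
  funext u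
  exact key _ u (Nat.lt_succ_self _)

lemma sum_eq_zero {α : Type*} (l : List α) (f : α → MvPolynomial σ K) (h : ∀ a ∈ l, f a = 0) :
    (l.map f).sum = 0 := by
  induction l with
  | nil => rfl
  | cons a l ih =>
    rw [List.map_cons, List.sum_cons, h a List.mem_cons_self,
      ih fun b hb => h b (List.mem_cons_of_mem _ hb), add_zero]

/-- Symbols of negative degree have the value zero. -/
lemma val_eq_zero : ∀ (k : ℕ) (u : S.V), S.rank u < k → S.deg u < 0 → S.val u = 0 := by
  intro k
  induction k with
  | zero => intro u hu; omega
  | succ k ih =>
    intro u hu hd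
    rw [S.val_eq u]
    refine sum_eq_zero _ _ ?_
    intro r hr
    cases r with
    | const c => have := S.deg_const u c hr; omega
    | var i => have := S.deg_var u i hr; omega
    | one v =>
      exact ih v (by have := S.rank_one u v hr; omega) (by have := S.deg_one u v hr; omega)
    | two v w =>
      have h1 := S.rank_two u v w hr
      have h2 := S.deg_two u v w hr
      simp only [Rule.value]
      rcases lt_or_ge (S.deg v) 0 with h | h
      · rw [ih v (by omega) h, zero_mul]
      · rw [ih w (by omega) (by omega), mul_zero]

lemma val_neg {u : S.V} (h : S.deg u < 0) : S.val u = 0 :=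
  S.val_eq_zero (S.rank u + 1) u (by omega) h

lemma sum_const {α : Type*} (l : List α) (f : α → MvPolynomial σ K)
    (h : ∀ a ∈ l, ∃ c, f a = C c) : ∃ c, (l.map f).sum = C c := by
  induction l with
  | nil => exact ⟨0, by simp⟩
  | cons a l ih =>
    obtain ⟨c, hc⟩ := h a List.mem_cons_self
    obtain ⟨c', hc'⟩ := ih fun b hb => h b (List.mem_cons_of_mem _ hb)
    exact ⟨c + c', by rw [List.map_cons, List.sum_cons, hc, hc', C_add]⟩

/-- Symbols of degree at most zero have constant values. -/
lemma val_const : ∀ (k : ℕ) (u : S.V), S.rank u < k → S.deg u ≤ 0 → ∃ c, S.val u = C c := by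
  intro k
  induction k with
  | zero => intro u hu; omega
  | succ k ih =>
    intro u hu hd
    rw [S.val_eq u]
    refine sum_const _ _ ?_
    intro r hr
    cases r with
    | const c => exact ⟨c, rfl⟩
    | var i => have := S.deg_var u i hr; omega
    | one v =>
      exact ih v (by have := S.rank_one u v hr; omega) (by have := S.deg_one u v hr; omega)
    | two v w =>
      have h1 := S.rank_two u v w hr
      have h2 := S.deg_two u v w hr
      simp only [Rule.value]
      rcases lt_or_ge 0 (S.deg v) with h | h
      · exact ⟨0, by rw [S.val_neg (u := w) (by omega), mul_zero, C_0]⟩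
      rcases lt_or_ge 0 (S.deg w) with h' | h'
      · exact ⟨0, by rw [S.val_neg (u := v) (by omega), zero_mul, C_0]⟩
      obtain ⟨c, hc⟩ := ih v (by omega) h
      obtain ⟨c', hc'⟩ := ih w (by omega) h'
      exact ⟨c * c', by rw [hc, hc', C_mul]⟩

/-- The number of symbols and rules. -/
def size : ℕ := ∑ u : S.V, ((S.rules u).length + 1)

/-! ### The one-hole extension -/

/-- Copy of a rule without the hole. -/
def mapRule {K : Type u} {σ V W : Type} (f : V → W) : Rule K σ V → Rule K σ W
  | .const c => .const c
  | .var i => .var i
  | .one v => .one (f v)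
  | .two v w => .two (f v) (f w)

/-- Copies of a rule with the hole. -/
def extRule {K : Type u} {σ V : Type} : Rule K σ V → List (Rule K σ (V × Bool))
  | .const _ => []
  | .var _ => []
  | .one v => [.one (v, true)]
  | .two v w => [.two (v, true) (w, false), .two (v, false) (w, true)]

/-- The rules of the one-hole extension. -/
def extRules (p : S.V) : S.V × Bool → List (Rule K σ (S.V × Bool))
  | (u, false) => (S.rules u).map (mapRule fun v => (v, false))
  | (u, true) => (if u = p then [Rule.const 1] else []) ++ (S.rules u).flatMap extRule

lemma mem_extRules_false {p u : S.V} {r : Rule K σ (S.V × Bool)}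
    (h : r ∈ S.extRules p (u, false)) : ∃ r' ∈ S.rules u, r = mapRule (fun v => (v, false)) r' := by
  obtain ⟨r', h1, h2⟩ := List.mem_map.1 h
  exact ⟨r', h1, h2.symm⟩

lemma mem_extRules_true {p u : S.V} {r : Rule K σ (S.V × Bool)}
    (h : r ∈ S.extRules p (u, true)) : (u = p ∧ r = Rule.const 1) ∨
      ∃ r' ∈ S.rules u, r ∈ extRule r' := by
  rcases List.mem_append.1 h with h | h
  · left
    split_ifs at h with hu
    · exact ⟨hu, by simpa using h⟩
    · simp at h
  · right
    exact List.mem_flatMap.1 h

/-- The one-hole extension at `p`: `(u, true)` stands for `u` with one occurrence of `p`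
cut off. -/
def ext (p : S.V) : Sys K σ where
  V := S.V × Bool
  fin := inferInstance
  dec := inferInstance
  rules := S.extRules p
  rank := fun x => S.rank x.1
  deg := fun x => S.deg x.1 - if x.2 then S.deg p else 0
  rank_one := by
    rintro ⟨u, b⟩ v hv
    cases b with
    | false =>
      obtain ⟨r, hr, h⟩ := S.mem_extRules_false hv
      cases r <;> simp [mapRule] at h
      rw [h]
      exact S.rank_one u _ hr
    | true =>
      rcases S.mem_extRules_true hv with ⟨_, h⟩ | ⟨r, hr, h⟩
      · simp at h
      cases r <;> simp [extRule] at h
      rw [h]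
      exact S.rank_one u _ hr
  rank_two := by
    rintro ⟨u, b⟩ v w hv
    cases b with
    | false =>
      obtain ⟨r, hr, h⟩ := S.mem_extRules_false hv
      cases r <;> simp [mapRule] at h
      rw [h.1, h.2]
      exact S.rank_two u _ _ hr
    | true =>
      rcases S.mem_extRules_true hv with ⟨_, h⟩ | ⟨r, hr, h⟩
      · simp at h
      cases r <;> simp [extRule] at h
      rcases h with h | h
      · rw [h.1, h.2]
        exact S.rank_two u _ _ hr
      · rw [h.1, h.2]
        exact S.rank_two u _ _ hr
  deg_const := by
    rintro ⟨u, b⟩ c hv
    cases b with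
    | false =>
      obtain ⟨r, hr, h⟩ := S.mem_extRules_false hv
      cases r <;> simp [mapRule] at h
      simpa using S.deg_const u _ hr
    | true =>
      rcases S.mem_extRules_true hv with ⟨h, _⟩ | ⟨r, hr, h⟩
      · simp [h]
      cases r <;> simp [extRule] at h
  deg_var := by
    rintro ⟨u, b⟩ i hv
    cases b with
    | false =>
      obtain ⟨r, hr, h⟩ := S.mem_extRules_false hv
      cases r <;> simp [mapRule] at h
      simpa using S.deg_var u _ hr
    | true =>
      rcases S.mem_extRules_true hv with ⟨_, h⟩ | ⟨r, hr, h⟩
      · simp at h
      cases r <;> simp [extRule] at h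
  deg_one := by
    rintro ⟨u, b⟩ v hv
    cases b with
    | false =>
      obtain ⟨r, hr, h⟩ := S.mem_extRules_false hv
      cases r <;> simp [mapRule] at h
      rw [h]
      simpa using S.deg_one u _ hr
    | true =>
      rcases S.mem_extRules_true hv with ⟨_, h⟩ | ⟨r, hr, h⟩
      · simp at h
      cases r <;> simp [extRule] at h
      rw [h]
      simpa using S.deg_one u _ hr
  deg_two := by
    rintro ⟨u, b⟩ v w hv
    cases b with
    | false =>
      obtain ⟨r, hr, h⟩ := S.mem_extRules_false hv
      cases r <;> simp [mapRule] at h
      rw [h.1, h.2]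
      simpa using S.deg_two u _ _ hr
    | true =>
      rcases S.mem_extRules_true hv with ⟨_, h⟩ | ⟨r, hr, h⟩
      · simp at h
      cases r <;> simp [extRule] at h
      rcases h with h | h
      · rw [h.1, h.2]
        have := S.deg_two u _ _ hr
        simp
        omega
      · rw [h.1, h.2]
        have := S.deg_two u _ _ hr
        simp
        omega

lemma mapRule_value {V W : Type} (f : V → W) (r : Rule K σ V) (val : W → MvPolynomial σ K) :
    (mapRule f r).value val = r.value fun v => val (f v) := by
  cases r <;> rfl

lemma sum_mapRule {V W : Type} (f : V → W) (l : List (Rule K σ V)) (val : W → MvPolynomial σ K) :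
    ((l.map (mapRule f)).map fun r => r.value val).sum =
      (l.map fun r => r.value fun v => val (f v)).sum := by
  rw [List.map_map]
  congr 1
  refine List.map_congr_left ?_
  intro r _
  exact mapRule_value _ _ _

lemma val_ext_false (p u : S.V) : (S.ext p).val (u, false) = S.val u := by
  have h := S.val_unique (fun u => (S.ext p).val (u, false)) (fun u =>
    ((S.ext p).val_eq (u, false)).trans
      (sum_mapRule (fun v => (v, false)) (S.rules u) (S.ext p).val))
  exact congrFun h u

/-- The value of `u` with one occurrence of `p` cut off. -/
noncomputable def D (p u : S.V) : MvPolynomial σ K := (S.ext p).val (u, true)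

/-- The contribution of a rule to `D`. -/
noncomputable def dval (p : S.V) : Rule K σ S.V → MvPolynomial σ K
  | .const _ => 0
  | .var _ => 0
  | .one v => S.D p v
  | .two v w => S.D p v * S.val w + S.val v * S.D p w

lemma sum_extRule {V : Type} (l : List (Rule K σ V)) (val : V × Bool → MvPolynomial σ K)
    (g : Rule K σ V → MvPolynomial σ K)
    (hg : ∀ r, ((extRule r).map fun r => r.value val).sum = g r) :
    ((l.flatMap extRule).map fun r => r.value val).sum = (l.map g).sum := by
  induction l with
  | nil => rfl
  | cons r l ih =>
    rw [List.flatMap_cons, List.map_append, List.sum_append, ih, List.map_cons, List.sum_cons,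
      hg r]

lemma sum_extRules {V : Type} [DecidableEq V] (p u : V) (l : List (Rule K σ V))
    (val : V × Bool → MvPolynomial σ K) (g : Rule K σ V → MvPolynomial σ K)
    (hg : ∀ r, ((extRule r).map fun r => r.value val).sum = g r) :
    (((if u = p then ([Rule.const 1] : List (Rule K σ (V × Bool))) else []) ++
      l.flatMap extRule).map fun r : Rule K σ (V × Bool) => r.value val).sum =
      (if u = p then 1 else 0) + (l.map g).sum := by
  rw [List.map_append, List.sum_append, sum_extRule l val g hg]
  congr 1
  split_ifs
  · simp [Rule.value]
  · simp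

lemma D_eq (p u : S.V) :
    S.D p u = (if u = p then 1 else 0) + ((S.rules u).map (S.dval p)).sum := by
  refine ((S.ext p).val_eq (u, true)).trans
    (sum_extRules p u (S.rules u) (S.ext p).val (S.dval p) ?_)
  intro r
  cases r with
  | const c => rfl
  | var i => rfl
  | one v => simp [extRule, Rule.value, dval, D]
  | two v w =>
    have h1 := S.val_ext_false p v
    have h2 := S.val_ext_false p w
    simp only [extRule, Rule.value, dval, D, List.map_cons, List.map_nil, List.sum_cons,
      List.sum_nil, add_zero]
    rw [h1, h2]

lemma D_neg {p u : S.V} (h : S.deg u < S.deg p) : S.D p u = 0 := by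
  refine (S.ext p).val_neg ?_
  change S.deg u - (if true then S.deg p else 0) < 0
  simpa using h

lemma size_ext (p : S.V) : (S.ext p).size ≤ 3 * S.size + 1 := by
  unfold size
  change ∑ x : S.V × Bool, ((S.extRules p x).length + 1) ≤ _
  rw [Fintype.sum_prod_type]
  have h1 : ∀ u : S.V, ∑ b : Bool, ((S.extRules p (u, b)).length + 1) ≤
      3 * ((S.rules u).length + 1) + if u = p then 1 else 0 := by
    intro u
    rw [Fintype.sum_bool]
    have h2 : (S.extRules p (u, false)).length = (S.rules u).length := List.length_map _
    have h3 : (S.extRules p (u, true)).length ≤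
        (if u = p then 1 else 0) + 2 * (S.rules u).length := by
      change ((if u = p then [Rule.const 1] else []) ++ (S.rules u).flatMap extRule).length ≤ _
      rw [List.length_append]
      refine Nat.add_le_add ?_ ?_
      · split_ifs <;> simp
      · induction S.rules u with
        | nil => simp
        | cons r l ih =>
          rw [List.flatMap_cons, List.length_append, List.length_cons]
          have : (extRule r).length ≤ 2 := by cases r <;> simp [extRule]
          omega
    rw [h2]
    omega
  refine (Finset.sum_le_sum fun u _ => h1 u).trans ?_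
  rw [Finset.sum_add_distrib, ← Finset.mul_sum]
  simp

end Sys

end Pool.Agent.H79.Log3
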