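import Pool.Agent.H79.LogNum

/-!
# The exact exponent `log_3 d` in the simulation of circuits by weakly skew circuits

Circuits, weakly skew circuits and their sizes are defined in `Pool.Agent.H80.Circuit`, following
the problem file. Circuits over the semiring `NNReal` of nonnegative reals are the monotone
circuits.
-/

set_option autoImplicit false

namespace Pool.LogThreeExponentKept

open Pool.Agent.H80 Pool.Agent.H79.Log3 MvPolynomial

universe u

/-- Upper bounds over every commutative semiring `K`, in particular over every field: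
a polynomial of degree at most `d`, `d ≥ 1`, computed by a circuit with `s` nodes is computed by a
weakly skew circuit with at most `16 d (128 s d ^ 3) ^ (⌊log_3 d⌋ + 1)` nodes; and for every
`ε > 0` there are `δ > 0` and `d₀` such that `s ^ ((1 + ε) log_3 d)` nodes suffice whenever
`d₀ ≤ d ≤ s ^ δ`. Lower bound over the semiring of nonnegative reals: `s ^ ((1 - ε) log_3 d)` nodes
do not suffice. So the optimal exponent of a simulation valid over all commutative semirings
(and of one for monotone circuits) is `log_3 d`. -/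
theorem result :
    (∀ (K : Type u) [CommSemiring K] (σ : Type) (D : Circuit K σ) (f : MvPolynomial σ K) (d : ℕ),
      D.Computes f → f.totalDegree ≤ d → 1 ≤ d → ∃ D' : Circuit K σ, D'.WeaklySkew ∧
        D'.Computes f ∧ D'.size ≤ 16 * d * (128 * D.size * d ^ 3) ^ (Nat.log 3 d + 1)) ∧
    (∀ ε : ℝ, 0 < ε → ∃ δ : ℝ, 0 < δ ∧ ∃ d₀ : ℕ,
      ∀ (K : Type u) [CommSemiring K] (σ : Type) (D : Circuit K σ) (f : MvPolynomial σ K)
        (s d : ℕ), D.Computes f → f.totalDegree ≤ d → D.size ≤ s → d₀ ≤ d →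
        (d : ℝ) ≤ (s : ℝ) ^ δ → ∃ D' : Circuit K σ, D'.WeaklySkew ∧ D'.Computes f ∧
          (D'.size : ℝ) ≤ (s : ℝ) ^ ((1 + ε) * Real.logb 3 d)) ∧
    (∀ ε δ : ℝ, 0 < ε → 0 < δ → ∀ d₀ : ℕ,
      ∃ (σ : Type) (f : MvPolynomial σ NNReal) (s d : ℕ), d₀ ≤ d ∧ f.totalDegree = d ∧
        (d : ℝ) ≤ (s : ℝ) ^ δ ∧ (∃ D : Circuit NNReal σ, D.Computes f ∧ D.size ≤ s) ∧
        ∀ D : Circuit NNReal σ, D.WeaklySkew → D.Computes f →
          (s : ℝ) ^ ((1 - ε) * Real.logb 3 d) ≤ D.size) :=
  ⟨fun _ _ _ D f d h1 h2 h3 => upper_explicit D f d h1 h2 h3, fun ε hε => upper_asymp ε hε,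
    fun ε δ hε hδ d₀ => lower_asymp ε δ hε hδ d₀⟩

end Pool.LogThreeExponentKept
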