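import Pool.Agent.H79.LogLow

/-!
# Ternary trees whose edges are butterfly channels
-/

set_option autoImplicit false
set_option linter.unusedSectionVars false

namespace Pool.Agent.H79.Log3

/-! ### Labels, edges, variables, assignments -/

/-- Labels. -/
abbrev Lab (l : ℕ) := Fin l → Bool

/-- Edges of the tree of depth `h`: for each of the three branches `l` steps and a subtree. -/
def Ed (l : ℕ) : ℕ → Type
  | 0 => Empty
  | h + 1 => Fin 3 × (Fin l ⊕ Ed l h)

/-- Variables: an edge together with the label before it and the new bit. -/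
def Vr (l : ℕ) : ℕ → Type
  | 0 => Empty
  | h + 1 => Fin 3 × ((Fin l × Lab l × Bool) ⊕ Vr l h)

/-- Assignments of labels to the nodes of the ternary tree of depth `h`. -/
def As (l : ℕ) : ℕ → Type
  | 0 => Lab l
  | h + 1 => Lab l × (Fin 3 → As l h)

/-- Vertices of the subdivided tree. -/
def Vx (l : ℕ) : ℕ → Type
  | 0 => Unit
  | h + 1 => Option (Fin 3 × (Fin l ⊕ Vx l h))

instance instFintypeEd (l : ℕ) : ∀ h, Fintype (Ed l h)
  | 0 => inferInstanceAs (Fintype Empty)
  | h + 1 =>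
    have := instFintypeEd l h
    inferInstanceAs (Fintype (Fin 3 × (Fin l ⊕ Ed l h)))

instance instDecEd (l : ℕ) : ∀ h, DecidableEq (Ed l h)
  | 0 => inferInstanceAs (DecidableEq Empty)
  | h + 1 =>
    have := instDecEd l h
    inferInstanceAs (DecidableEq (Fin 3 × (Fin l ⊕ Ed l h)))

instance instFintypeAs (l : ℕ) : ∀ h, Fintype (As l h)
  | 0 => inferInstanceAs (Fintype (Lab l))
  | h + 1 =>
    have := instFintypeAs l h
    inferInstanceAs (Fintype (Lab l × (Fin 3 → As l h)))

instance instNonemptyAs (l : ℕ) : ∀ h, Nonempty (As l h)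
  | 0 => inferInstanceAs (Nonempty (Lab l))
  | h + 1 =>
    have := instNonemptyAs l h
    inferInstanceAs (Nonempty (Lab l × (Fin 3 → As l h)))

variable {l : ℕ}

/-- The edge `y` of the branch `c`. -/
def eb {h : ℕ} (c : Fin 3) (y : Fin l ⊕ Ed l h) : Ed l (h + 1) := (c, y)

lemma eb_inj {h : ℕ} {c c' : Fin 3} {y y' : Fin l ⊕ Ed l h} (h' : eb c y = eb c' y') :
    c = c' ∧ y = y' := ⟨congrArg Prod.fst h', congrArg Prod.snd h'⟩

lemma exists_eb {h : ℕ} (e : Ed l (h + 1)) : ∃ c y, e = eb c y := ⟨e.1, e.2, rfl⟩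

/-- The label of the root. -/
def root : {h : ℕ} → As l h → Lab l
  | 0, v => v
  | _ + 1, (v, _) => v

/-- The label after `t` steps from `v` to `w`. -/
def mix (t : ℕ) (v w : Lab l) : Lab l := fun i => if (i : ℕ) < t then w i else v i

/-- The variable of an assignment at an edge. -/
def at_ : {h : ℕ} → As l h → Ed l h → Vr l h
  | _ + 1, (v, al), (c, Sum.inl t) =>
    (c, Sum.inl (t, mix (t : ℕ) v (root (al c)), root (al c) t))
  | _ + 1, (_, al), (c, Sum.inr e) => (c, Sum.inr (at_ (al c) e))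

/-- The edge of a variable. -/
def pr : {h : ℕ} → Vr l h → Ed l h
  | _ + 1, (c, Sum.inl (t, _)) => (c, Sum.inl t)
  | _ + 1, (c, Sum.inr y) => (c, Sum.inr (pr y))

lemma pr_at : ∀ {h : ℕ} (φ : As l h) (e : Ed l h), pr (at_ φ e) = e := by
  intro h
  induction h with
  | zero => intro φ e; exact e.elim
  | succ h ih =>
    rintro ⟨v, al⟩ ⟨c, t | e⟩
    · rfl
    · change (c, Sum.inr (pr (at_ (al c) e))) = (c, Sum.inr e)
      rw [ih]

/-- The label of a vertex. -/
def lab : {h : ℕ} → Vx l h → As l h → Lab l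
  | 0, _, v => v
  | _ + 1, none, (v, _) => v
  | _ + 1, some (c, Sum.inl t), (v, al) => mix (t : ℕ) v (root (al c))
  | _ + 1, some (c, Sum.inr x), (_, al) => lab x (al c)

/-- The root vertex. -/
def rootV : {h : ℕ} → Vx l h
  | 0 => ()
  | _ + 1 => none

lemma lab_rootV : ∀ {h : ℕ} (φ : As l h), lab rootV φ = root φ
  | 0, _ => rfl
  | _ + 1, (_, _) => rfl

/-! ### Translations -/

/-- Translation of labels. -/
def xr (v g : Lab l) : Lab l := fun i => xor (v i) (g i)

lemma xr_xr (v g : Lab l) : xr (xr v g) g = v := by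
  funext i
  simp [xr]

lemma mix_xr (t : ℕ) (v w g : Lab l) : mix t (xr v g) (xr w g) = xr (mix t v w) g := by
  funext i
  simp only [mix, xr]
  split_ifs <;> rfl

/-- Translate all labels. -/
def tr (g : Lab l) : {h : ℕ} → As l h → As l h
  | 0, v => xr v g
  | _ + 1, (v, al) => (xr v g, fun c => tr g (al c))

lemma tr_tr (g : Lab l) : ∀ {h : ℕ} (φ : As l h), tr g (tr g φ) = φ := by
  intro h
  induction h with
  | zero => intro φ; exact xr_xr φ g
  | succ h ih =>
    rintro ⟨v, al⟩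
    change (xr (xr v g) g, fun c => tr g (tr g (al c))) = (v, al)
    rw [xr_xr]
    congr 1
    funext c
    exact ih _

lemma root_tr (g : Lab l) : ∀ {h : ℕ} (φ : As l h), root (tr g φ) = xr (root φ) g
  | 0, _ => rfl
  | _ + 1, (_, _) => rfl

lemma lab_tr (g : Lab l) : ∀ {h : ℕ} (x : Vx l h) (φ : As l h),
    lab x (tr g φ) = xr (lab x φ) g := by
  intro h
  induction h with
  | zero => intro x φ; rfl
  | succ h ih =>
    rintro x ⟨v, al⟩
    rcases x with _ | ⟨c, t | x⟩
    · rfl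
    · change mix (t : ℕ) (xr v g) (root (tr g (al c))) = xr (mix (t : ℕ) v (root (al c))) g
      rw [root_tr, mix_xr]
    · exact ih x (al c)

/-- Translate all labels outside of the branch `i`. -/
def trO (i : Fin 3) (g : Lab l) {h : ℕ} (φ : As l (h + 1)) : As l (h + 1) :=
  (xr φ.1 g, fun c => if c = i then φ.2 c else tr g (φ.2 c))

lemma trO_trO (i : Fin 3) (g : Lab l) {h : ℕ} (φ : As l (h + 1)) :
    trO i g (trO i g φ) = φ := by
  obtain ⟨v, al⟩ := φ
  unfold trO
  simp only
  rw [xr_xr]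
  congr 1
  funext c
  split_ifs
  · rfl
  · exact tr_tr g _

/-- The vertex `x` is outside of the branch `i`. -/
def Outside (i : Fin 3) {h : ℕ} (x : Vx l (h + 1)) : Prop :=
  ∀ y : Fin 3 × (Fin l ⊕ Vx l h), x = some y → y.1 ≠ i

lemma lab_trO (i : Fin 3) (g : Lab l) {h : ℕ} (x : Vx l (h + 1)) (hx : Outside i x)
    (φ : As l (h + 1)) : lab x (trO i g φ) = xr (lab x φ) g := by
  obtain ⟨v, al⟩ := φ
  rcases x with _ | ⟨c, t | x⟩
  · rfl
  · have hc : c ≠ i := hx _ rfl
    change mix (t : ℕ) (xr v g) (root (if c = i then al c else tr g (al c))) =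
      xr (mix (t : ℕ) v (root (al c))) g
    rw [if_neg hc, root_tr, mix_xr]
  · have hc : c ≠ i := hx _ rfl
    change lab x (if c = i then al c else tr g (al c)) = xr (lab x (al c)) g
    rw [if_neg hc, lab_tr]

/-- Uniformity of an equivariant label. -/
lemma uniform {Φ : Type} [Fintype Φ] (S : Φ → Prop) (L : Φ → Lab l) (T : Lab l → Φ → Φ)
    (hT : ∀ g φ, T g (T g φ) = φ) (hS : ∀ g φ, S φ → S (T g φ))
    (hL : ∀ g φ, L (T g φ) = xr (L φ) g) (a : Lab l) :
    Set.ncard {φ | S φ ∧ L φ = a} * 2 ^ l = Set.ncard {φ | S φ} := by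
  classical
  have h1 : ∀ b, Set.ncard {φ | S φ ∧ L φ = b} = Set.ncard {φ | S φ ∧ L φ = a} := by
    intro b
    have hg : ∀ a b : Lab l, xr a (xr a b) = b := by
      intro a b
      funext i
      simp [xr]
    refine Set.ncard_congr (fun φ _ => T (xr b a) φ) ?_ ?_ ?_
    · rintro φ ⟨h2, h3⟩
      refine ⟨hS _ _ h2, ?_⟩
      rw [hL, h3, hg]
    · intro φ ψ _ _ h
      have := congrArg (T (xr b a)) h
      rwa [hT, hT] at this
    · rintro φ ⟨h2, h3⟩
      refine ⟨T (xr b a) φ, ⟨hS _ _ h2, ?_⟩, hT _ _⟩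
      rw [hL, h3]
      funext i
      simp only [xr]
      cases a i <;> cases b i <;> rfl
  have h2 : Set.ncard {φ | S φ} = ∑ b : Lab l, Set.ncard {φ | S φ ∧ L φ = b} := by
    have h3 : ∀ P : Φ → Prop, Set.ncard {φ | P φ} = (Finset.univ.filter P).card := by
      intro P
      rw [← Set.ncard_coe_finset]
      congr 1
      ext φ
      simp
    rw [h3]
    simp only [h3]
    rw [Finset.card_eq_sum_card_fiberwise (f := L) (t := Finset.univ)
      (fun _ _ => Finset.mem_coe.2 (Finset.mem_univ _))]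
    refine Finset.sum_congr rfl ?_
    intro b _
    rw [Finset.filter_filter]
    congr 1
    ext φ
    simp
  rw [h2, Finset.sum_congr rfl (fun b _ => h1 b), Finset.sum_const, Finset.card_univ]
  simp [mul_comm]

/-! ### Split vertices -/

/-- The variable at `e` determines the label of `x`. -/
def Det {h : ℕ} (x : Vx l h) (e : Ed l h) : Prop :=
  ∀ φ ψ : As l h, at_ φ e = at_ ψ e → lab x φ = lab x ψ

/-- The vertex `x` meets both `B` and its complement. -/
def Split {h : ℕ} (B : Finset (Ed l h)) (x : Vx l h) : Prop :=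
  ∃ e ∈ B, ∃ e', e' ∉ B ∧ Det x e ∧ Det x e'

lemma Split.lab_eq {h : ℕ} {B : Finset (Ed l h)} {x : Vx l h} (hx : Split B x) {φ φ₀ : As l h}
    (hφ : φ ∈ Agr at_ B φ₀) : lab x φ = lab x φ₀ := by
  obtain ⟨e, he, e', he', h1, h2⟩ := hx
  obtain ⟨ψ, h3, h4⟩ := hφ
  exact (h1 _ _ (h3 e he)).symm.trans (h2 _ _ (h4 e' he'))

lemma at_inl {h : ℕ} (φ : As l (h + 1)) (c : Fin 3) (t : Fin l) :
    at_ φ (eb c (Sum.inl t)) =
      (c, Sum.inl (t, mix (t : ℕ) φ.1 (root (φ.2 c)), root (φ.2 c) t)) := rfl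

lemma at_inr {h : ℕ} (φ : As l (h + 1)) (c : Fin 3) (e : Ed l h) :
    at_ φ (eb c (Sum.inr e)) = (c, Sum.inr (at_ (φ.2 c) e)) := rfl

lemma at_inl_inj {h : ℕ} {φ ψ : As l (h + 1)} {c : Fin 3} {t : Fin l}
    (he : at_ φ (eb c (Sum.inl t)) = at_ ψ (eb c (Sum.inl t))) :
    mix (t : ℕ) φ.1 (root (φ.2 c)) = mix (t : ℕ) ψ.1 (root (ψ.2 c)) ∧
      root (φ.2 c) t = root (ψ.2 c) t := by
  rw [at_inl, at_inl] at he
  have h1 := congrArg Prod.snd he
  have h2 := Sum.inl_injective h1
  have h3 := congrArg Prod.snd h2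
  exact ⟨congrArg Prod.fst h3, congrArg Prod.snd h3⟩

lemma at_inr_inj {h : ℕ} {φ ψ : As l (h + 1)} {c : Fin 3} {e : Ed l h}
    (he : at_ φ (eb c (Sum.inr e)) = at_ ψ (eb c (Sum.inr e))) :
    at_ (φ.2 c) e = at_ (ψ.2 c) e := by
  rw [at_inr, at_inr] at he
  exact Sum.inr_injective (congrArg Prod.snd he)

lemma det_root {h : ℕ} (c : Fin 3) (t : Fin l) (ht : (t : ℕ) = 0) :
    Det (h := h + 1) none (eb c (Sum.inl t)) := by
  intro φ ψ he
  obtain ⟨h1, _⟩ := at_inl_inj he
  change φ.1 = ψ.1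
  funext i
  have h2 := congrFun h1 i
  simp only [mix, ht, Nat.not_lt_zero, if_false] at h2
  exact h2

lemma det_before {h : ℕ} (c : Fin 3) (t : Fin l) :
    Det (h := h + 1) (some (c, Sum.inl t)) (eb c (Sum.inl t)) := by
  intro φ ψ he
  exact (at_inl_inj he).1

lemma mix_succ_eq {h : ℕ} {φ ψ : As l (h + 1)} {c : Fin 3} {t : Fin l}
    (he : at_ φ (eb c (Sum.inl t)) = at_ ψ (eb c (Sum.inl t))) :
    mix ((t : ℕ) + 1) φ.1 (root (φ.2 c)) = mix ((t : ℕ) + 1) ψ.1 (root (ψ.2 c)) := by
  obtain ⟨h1, h2⟩ := at_inl_inj he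
  funext i
  have h3 := congrFun h1 i
  simp only [mix] at h3 ⊢
  by_cases hi : (i : ℕ) < t
  · rw [if_pos hi, if_pos hi] at h3
    rw [if_pos (by omega), if_pos (by omega)]
    exact h3
  · by_cases hi' : (i : ℕ) = t
    · have : i = t := Fin.ext hi'
      subst this
      rw [if_pos (by omega), if_pos (by omega)]
      exact h2
    · rw [if_neg hi, if_neg hi] at h3
      rw [if_neg (by omega), if_neg (by omega)]
      exact h3

lemma det_after {h : ℕ} (c : Fin 3) (t t' : Fin l) (ht : (t' : ℕ) = t + 1) :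
    Det (h := h + 1) (some (c, Sum.inl t')) (eb c (Sum.inl t)) := by
  intro φ ψ he
  change mix (t' : ℕ) φ.1 (root (φ.2 c)) = mix (t' : ℕ) ψ.1 (root (ψ.2 c))
  rw [ht]
  exact mix_succ_eq he

lemma det_last {h : ℕ} (c : Fin 3) (t : Fin l) (ht : (t : ℕ) + 1 = l) :
    Det (h := h + 1) (some (c, Sum.inr rootV)) (eb c (Sum.inl t)) := by
  intro φ ψ he
  have h1 := mix_succ_eq he
  change lab rootV (φ.2 c) = lab rootV (ψ.2 c)
  rw [lab_rootV, lab_rootV]
  funext i
  have h2 := congrFun h1 i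
  simp only [mix] at h2
  rw [if_pos (by omega), if_pos (by omega)] at h2
  exact h2

lemma Det.inr {h : ℕ} {x : Vx l h} {e : Ed l h} (hx : Det x e) (c : Fin 3) :
    Det (h := h + 1) (some (c, Sum.inr x)) (eb c (Sum.inr e)) := by
  intro φ ψ he
  exact hx _ _ (at_inr_inj he)

/-- The part of a set of edges in the subtree `c`. -/
def sub (c : Fin 3) {h : ℕ} (B : Finset (Ed l (h + 1))) : Finset (Ed l h) :=
  Finset.univ.filter fun e => eb c (Sum.inr e) ∈ B

lemma mem_sub {c : Fin 3} {h : ℕ} {B : Finset (Ed l (h + 1))} {e : Ed l h} :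
    e ∈ sub c B ↔ eb c (Sum.inr e) ∈ B := by
  unfold sub
  simp

lemma Split.inr {c : Fin 3} {h : ℕ} {B : Finset (Ed l (h + 1))} {x : Vx l h}
    (hx : Split (sub c B) x) : Split B (some (c, Sum.inr x)) := by
  obtain ⟨e, he, e', he', h1, h2⟩ := hx
  exact ⟨eb c (Sum.inr e), mem_sub.1 he, eb c (Sum.inr e'), fun h => he' (mem_sub.2 h),
    h1.inr c, h2.inr c⟩

lemma iff_of_not_split {h : ℕ} {B : Finset (Ed l h)} {x : Vx l h} (hx : ¬ Split B x)
    {e e' : Ed l h} (he : Det x e) (he' : Det x e') : e ∈ B ↔ e' ∈ B := by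
  constructor
  · intro h1
    by_contra h2
    exact hx ⟨e, h1, e', h2, he, he'⟩
  · intro h1
    by_contra h2
    exact hx ⟨e', h1, e, h2, he', he⟩

/-- Connectivity of a tree. -/
def Conn (l h : ℕ) : Prop :=
  ∀ B : Finset (Ed l h), (∀ x, ¬ Split B x) → ∀ e e', e ∈ B ↔ e' ∈ B

lemma conn_branch (hl : 0 < l) {h : ℕ} (hc : Conn l h) (B : Finset (Ed l (h + 1))) (c : Fin 3)
    (hB : ∀ y, ¬ Split B (some (c, y))) (y : Fin l ⊕ Ed l h) :
    eb c y ∈ B ↔ eb c (Sum.inl ⟨0, hl⟩) ∈ B := by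
  have h1 : ∀ (n : ℕ) (hn : n < l), eb c (Sum.inl ⟨n, hn⟩) ∈ B ↔
      eb c (Sum.inl ⟨0, hl⟩) ∈ B := by
    intro n
    induction n with
    | zero => intro _; exact Iff.rfl
    | succ n ih =>
      intro hn
      rw [← ih (by omega)]
      exact iff_of_not_split (hB (Sum.inl ⟨n + 1, hn⟩)) (det_before c ⟨n + 1, hn⟩)
        (det_after c ⟨n, by omega⟩ ⟨n + 1, hn⟩ rfl)
  rcases y with t | e
  · exact h1 t t.2
  · rw [← h1 (l - 1) (by omega)]
    cases h with
    | zero => exact e.elim
    | succ h =>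
      have h2 := hc (sub c B) (fun x hx => hB (Sum.inr x) hx.inr) e (eb 0 (Sum.inl ⟨0, hl⟩))
      rw [mem_sub, mem_sub] at h2
      rw [h2]
      exact iff_of_not_split (hB (Sum.inr none)) ((det_root (0 : Fin 3) ⟨0, hl⟩ rfl).inr c)
        (det_last c ⟨l - 1, by omega⟩ (by simp; omega))

lemma conn (hl : 0 < l) : ∀ h, Conn l h := by
  intro h
  induction h with
  | zero => intro B _ e; exact e.elim
  | succ h ih =>
    have key : ∀ B : Finset (Ed l (h + 1)), (∀ x, ¬ Split B x) → ∀ e,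
        e ∈ B ↔ eb 0 (Sum.inl ⟨0, hl⟩) ∈ B := by
      intro B hB e
      obtain ⟨c, y, rfl⟩ := exists_eb e
      rw [conn_branch hl ih B c (fun y => hB _) y]
      exact iff_of_not_split (hB none) (det_root c ⟨0, hl⟩ rfl) (det_root 0 ⟨0, hl⟩ rfl)
    intro B hB e e'
    rw [key B hB e, key B hB e']

/-! ### Counting -/

lemma ncard_subset_le {Φ : Type} [Fintype Φ] {s t : Set Φ} (h : s ⊆ t) :
    s.ncard ≤ t.ncard := Set.ncard_le_ncard h (Set.toFinite _)

lemma ncard_univ_eq (Φ : Type) [Fintype Φ] : Set.ncard {_φ : Φ | True} = Fintype.card Φ := by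
  have : {_φ : Φ | True} = Set.univ := by ext; simp
  rw [this, Set.ncard_univ, Nat.card_eq_fintype_card]

/-- One split vertex. -/
lemma agr_le_of_split {h : ℕ} {B : Finset (Ed l h)} {x : Vx l h} (hx : Split B x)
    (φ₀ : As l h) : Set.ncard (Agr at_ B φ₀) * 2 ^ l ≤ Fintype.card (As l h) := by
  have h1 := uniform (fun _ : As l h => True) (lab x) (fun g φ => tr g φ)
    (fun g φ => tr_tr g φ) (fun _ _ _ => trivial) (fun g φ => lab_tr g x φ) (lab x φ₀)
  rw [ncard_univ_eq] at h1
  rw [← h1]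
  refine Nat.mul_le_mul_right _ (ncard_subset_le ?_)
  intro φ hφ
  exact ⟨trivial, hx.lab_eq hφ⟩

lemma ncard_component {h : ℕ} (i : Fin 3) (G : Set (As l h)) :
    Set.ncard {φ : As l (h + 1) | φ.2 i ∈ G} * Fintype.card (As l h) =
      G.ncard * Fintype.card (As l (h + 1)) := by
  classical
  have e : ({φ : As l (h + 1) // φ.2 i ∈ G} × As l h) ≃ (G × As l (h + 1)) :=
    { toFun := fun p => (⟨p.1.1.2 i, p.1.2⟩, (p.1.1.1, Function.update p.1.1.2 i p.2))
      invFun := fun q => (⟨(q.2.1, Function.update q.2.2 i q.1.1), by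
        change Function.update q.2.2 i q.1.1 i ∈ G
        rw [Function.update_self]
        exact q.1.2⟩, q.2.2 i)
      left_inv := by
        rintro ⟨⟨⟨v, al⟩, h1⟩, b⟩
        simp
      right_inv := by
        rintro ⟨⟨g, hg⟩, ⟨v, al⟩⟩
        simp }
  have h1 := Nat.card_congr e
  rw [Nat.card_prod, Nat.card_prod, Nat.card_eq_fintype_card (α := As l h),
    Nat.card_eq_fintype_card (α := As l (h + 1))] at h1
  exact h1

/-- The property of having few compatible assignments. -/
def BadN (l h : ℕ) (B : Finset (Ed l h)) : Prop :=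
  ∀ φ₀, Set.ncard (Agr at_ B φ₀) * (2 ^ l) ^ h ≤ Fintype.card (As l h)

lemma BadN.ne_empty (hl : 0 < l) {h : ℕ} (hh : 0 < h) {B : Finset (Ed l h)}
    (hB : BadN l h B) : B ≠ ∅ := by
  rintro rfl
  obtain ⟨φ₀⟩ := instNonemptyAs l h
  have h1 := hB φ₀
  have h2 : Agr at_ (∅ : Finset (Ed l h)) φ₀ = {_φ | True} := by
    ext φ
    simp only [Set.mem_ofPred_eq, iff_true]
    exact ⟨φ₀, by simp, fun _ _ => rfl⟩
  rw [h2, ncard_univ_eq] at h1
  have h3 : 0 < Fintype.card (As l h) := Fintype.card_pos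
  have h4 : 1 < (2 ^ l) ^ h := Nat.one_lt_pow (by omega) (Nat.one_lt_pow (by omega) (by norm_num))
  nlinarith

lemma BadN.ne_univ (hl : 0 < l) {h : ℕ} (hh : 0 < h) {B : Finset (Ed l h)}
    (hB : BadN l h B) : B ≠ Finset.univ := by
  rintro rfl
  obtain ⟨φ₀⟩ := instNonemptyAs l h
  have h1 := hB φ₀
  have h2 : Agr at_ (Finset.univ : Finset (Ed l h)) φ₀ = {_φ | True} := by
    ext φ
    simp only [Set.mem_ofPred_eq, iff_true]
    exact ⟨φ, fun _ _ => rfl, by simp⟩
  rw [h2, ncard_univ_eq] at h1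
  have h3 : 0 < Fintype.card (As l h) := Fintype.card_pos
  have h4 : 1 < (2 ^ l) ^ h := Nat.one_lt_pow (by omega) (Nat.one_lt_pow (by omega) (by norm_num))
  nlinarith

lemma bad_step {h : ℕ} {B : Finset (Ed l (h + 1))} {i : Fin 3} (hi : BadN l h (sub i B))
    {x : Vx l (h + 1)} (hx : Split B x) (hout : Outside i x) : BadN l (h + 1) B := by
  intro φ₀
  set G : Set (As l h) := Agr at_ (sub i B) (φ₀.2 i) with hG
  have h1 := uniform (fun φ : As l (h + 1) => φ.2 i ∈ G) (lab x) (fun g φ => trO i g φ)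
    (fun g φ => trO_trO i g φ) (fun g φ hφ => by
      change (if i = i then φ.2 i else tr g (φ.2 i)) ∈ G
      rw [if_pos rfl]
      exact hφ) (fun g φ => lab_trO i g x hout φ) (lab x φ₀)
  have h2 := ncard_component i G
  have h3 := hi (φ₀.2 i)
  have h4 : Set.ncard (Agr at_ B φ₀) ≤
      Set.ncard {φ : As l (h + 1) | φ.2 i ∈ G ∧ lab x φ = lab x φ₀} := by
    refine ncard_subset_le ?_
    intro φ hφ
    refine ⟨?_, hx.lab_eq hφ⟩
    obtain ⟨ψ, h5, h6⟩ := hφ
    refine ⟨ψ.2 i, ?_, ?_⟩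
    · intro e he
      exact at_inr_inj (h5 _ (mem_sub.1 he))
    · intro e he
      exact at_inr_inj (h6 _ (fun h' => he (mem_sub.2 h')))
  have hpos : 0 < Fintype.card (As l h) := Fintype.card_pos
  refine Nat.le_of_mul_le_mul_right ?_ hpos
  calc Set.ncard (Agr at_ B φ₀) * (2 ^ l) ^ (h + 1) * Fintype.card (As l h)
      ≤ Set.ncard {φ : As l (h + 1) | φ.2 i ∈ G ∧ lab x φ = lab x φ₀} * (2 ^ l) ^ (h + 1) *
          Fintype.card (As l h) :=
        Nat.mul_le_mul_right _ (Nat.mul_le_mul_right _ h4)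
    _ = (Set.ncard {φ : As l (h + 1) | φ.2 i ∈ G ∧ lab x φ = lab x φ₀} * 2 ^ l) *
          Fintype.card (As l h) * (2 ^ l) ^ h := by ring
    _ = G.ncard * (2 ^ l) ^ h * Fintype.card (As l (h + 1)) := by
        rw [h1, h2]
        ring
    _ ≤ Fintype.card (As l h) * Fintype.card (As l (h + 1)) := Nat.mul_le_mul_right _ h3
    _ = Fintype.card (As l (h + 1)) * Fintype.card (As l h) := mul_comm _ _

/-! ### Chains -/

/-- Chains of sets growing by at most one element. -/
structure IsChain' {E : Type} [Fintype E] [DecidableEq E] (C : ℕ → Finset E) (T : ℕ) : Prop where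
  zero : C 0 = ∅
  last : C T = Finset.univ
  step : ∀ t < T, C (t + 1) = C t ∨ ∃ e, C (t + 1) = insert e (C t)

lemma IsChain'.mono {E : Type} [Fintype E] [DecidableEq E] {C : ℕ → Finset E} {T : ℕ}
    (hC : IsChain' C T) {s : ℕ} : ∀ {t : ℕ}, s ≤ t → t ≤ T → C s ⊆ C t := by
  intro t hst
  induction t, hst using Nat.le_induction with
  | base => intro _; exact Finset.Subset.refl _
  | succ t _ ih =>
    intro ht
    refine (ih (by omega)).trans ?_
    rcases hC.step t (by omega) with h | ⟨e, h⟩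
    · rw [h]
    · rw [h]
      exact Finset.subset_insert _ _

lemma IsChain'.sub {h : ℕ} {C : ℕ → Finset (Ed l (h + 1))} {T : ℕ} (hC : IsChain' C T)
    (c : Fin 3) : IsChain' (fun t => sub c (C t)) T where
  zero := by
    ext e
    rw [mem_sub, hC.zero]
    simp
  last := by
    ext e
    rw [mem_sub, hC.last]
    simp
  step := by
    intro t ht
    rcases hC.step t ht with h1 | ⟨e, h1⟩
    · left
      rw [h1]
    · by_cases he : ∃ e', e = eb c (Sum.inr e')
      · right
        obtain ⟨e', rfl⟩ := he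
        refine ⟨e', ?_⟩
        ext x
        simp only [mem_sub, h1, Finset.mem_insert]
        constructor
        · rintro (h2 | h2)
          · left
            exact Sum.inr_injective (eb_inj h2).2
          · exact Or.inr h2
        · rintro (rfl | h2)
          · exact Or.inl rfl
          · exact Or.inr h2
      · left
        ext x
        simp only [mem_sub, h1, Finset.mem_insert]
        constructor
        · rintro (h2 | h2)
          · exact absurd ⟨x, h2.symm⟩ he
          · exact h2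
        · exact Or.inr

lemma median (t : Fin 3 → ℕ) : ∃ i j k : Fin 3, j ≠ i ∧ k ≠ i ∧ j ≠ k ∧ t j ≤ t i ∧
    t i ≤ t k := by
  rcases le_total (t 0) (t 1) with h01 | h01 <;> rcases le_total (t 1) (t 2) with h12 | h12 <;>
    rcases le_total (t 0) (t 2) with h02 | h02
  · exact ⟨1, 0, 2, by decide, by decide, by decide, h01, h12⟩
  · exact ⟨1, 0, 2, by decide, by decide, by decide, h01, h12⟩
  · exact ⟨2, 0, 1, by decide, by decide, by decide, h02, h12⟩
  · exact ⟨0, 2, 1, by decide, by decide, by decide, h02, h01⟩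
  · exact ⟨0, 1, 2, by decide, by decide, by decide, h01, h02⟩
  · exact ⟨2, 1, 0, by decide, by decide, by decide, h12, h02⟩
  · exact ⟨1, 2, 0, by decide, by decide, by decide, h12, h01⟩
  · exact ⟨1, 2, 0, by decide, by decide, by decide, h12, h01⟩

theorem unavoidable (hl : 0 < l) : ∀ h, ∀ (C : ℕ → Finset (Ed l (h + 1))) (T : ℕ),
    IsChain' C T → ∃ t ≤ T, BadN l (h + 1) (C t) := by
  intro h
  induction h with
  | zero =>
    intro C T hC
    classical
    have hex : ∃ t, C t ≠ ∅ := by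
      refine ⟨T, ?_⟩
      rw [hC.last]
      intro h0
      have : eb 0 (Sum.inl ⟨0, hl⟩) ∈ (∅ : Finset (Ed l 1)) := by
        rw [← h0]; exact Finset.mem_univ _
      simp at this
    set t := Nat.find hex with ht
    have h1 : C t ≠ ∅ := Nat.find_spec hex
    have h2 : t ≠ 0 := by
      intro h0
      rw [h0] at h1
      exact h1 hC.zero
    have h3 : C (t - 1) = ∅ := by
      by_contra hne
      have := Nat.find_min' hex hne
      omega
    have h4 : t ≤ T := by
      refine Nat.find_min' hex ?_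
      rw [hC.last]
      intro h0
      have : eb 0 (Sum.inl ⟨0, hl⟩) ∈ (∅ : Finset (Ed l 1)) := by
        rw [← h0]; exact Finset.mem_univ _
      simp at this
    refine ⟨t, h4, ?_⟩
    have h5 : ∃ e, C t = {e} := by
      rcases hC.step (t - 1) (by omega) with h6 | ⟨e, h6⟩
      · rw [Nat.sub_add_cancel (by omega), h3] at h6
        exact absurd h6 h1
      · rw [Nat.sub_add_cancel (by omega), h3] at h6
        exact ⟨e, by rw [h6]; rfl⟩
    obtain ⟨e, he⟩ := h5
    have h6 : ∃ x, Split (C t) x := by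
      by_contra hno
      push Not at hno
      have h7 := conn hl 1 (C t) hno
      have h8 : ∀ e', e' = e := by
        intro e'
        have := (h7 e' e).2 (by rw [he]; simp)
        rw [he] at this
        simpa using this
      have h9 := (h8 (eb 0 (Sum.inl ⟨0, hl⟩))).trans (h8 (eb 1 (Sum.inl ⟨0, hl⟩))).symm
      have h10 := (eb_inj h9).1
      simp at h10
    obtain ⟨x, hx⟩ := h6
    intro φ₀
    have := agr_le_of_split hx φ₀
    simpa using this
  | succ h ih =>
    intro C T hC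
    have h1 : ∀ c, ∃ t ≤ T, BadN l (h + 1) (sub c (C t)) := fun c => ih _ T (hC.sub c)
    choose tm htm hbad using h1
    obtain ⟨i, j, k, hji, hki, hjk, h2, h3⟩ := median tm
    refine ⟨tm i, htm i, ?_⟩
    set B := C (tm i) with hB
    have hj : ∃ e, e ∈ sub j B := by
      have h4 := (hbad j).ne_empty hl (Nat.succ_pos h)
      obtain ⟨e, he⟩ := Finset.nonempty_iff_ne_empty.2 h4
      exact ⟨e, mem_sub.2 (hC.mono h2 (htm i) (mem_sub.1 he))⟩
    have hk : ∃ e, e ∉ sub k B := by
      have h4 := (hbad k).ne_univ hl (Nat.succ_pos h)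
      have h5 : ∃ e, e ∉ sub k (C (tm k)) := by
        by_contra hno
        push Not at hno
        exact h4 (Finset.eq_univ_iff_forall.2 hno)
      obtain ⟨e, he⟩ := h5
      exact ⟨e, fun h' => he (mem_sub.2 (hC.mono h3 (htm k) (mem_sub.1 h')))⟩
    have hx : ∃ x, Split B x ∧ Outside i x := by
      by_contra hno
      push Not at hno
      have hj' : ∀ y, ¬ Split B (some (j, y)) := fun y hs =>
        hno _ hs (fun y' hy' => by
          have : (j, y) = y' := Option.some_injective _ hy'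
          rw [← this]; exact hji)
      have hk' : ∀ y, ¬ Split B (some (k, y)) := fun y hs =>
        hno _ hs (fun y' hy' => by
          have : (k, y) = y' := Option.some_injective _ hy'
          rw [← this]; exact hki)
      have hr : ¬ Split B none := fun hs => hno _ hs (fun y' hy' => by simp at hy')
      obtain ⟨e, he⟩ := hj
      obtain ⟨e', he'⟩ := hk
      have h4 := conn_branch hl (conn hl (h + 1)) B j hj' (Sum.inr e)
      have h5 := conn_branch hl (conn hl (h + 1)) B k hk' (Sum.inr e')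
      have h6 := iff_of_not_split hr (det_root j ⟨0, hl⟩ rfl) (det_root k ⟨0, hl⟩ rfl)
      exact he' (mem_sub.2 (h5.2 (h6.1 (h4.1 (mem_sub.1 he)))))
    obtain ⟨x, hx, hout⟩ := hx
    exact bad_step (hbad i) hx hout

lemma free_exists_chain {E : Type} [Fintype E] [DecidableEq E] {Bad : Finset E → Prop}
    {A : Finset E} (hA : Free Bad A) : ∃ (C : ℕ → Finset E) (T : ℕ), C 0 = ∅ ∧ C T = A ∧
      (∀ t < T, C (t + 1) = C t ∨ ∃ e, C (t + 1) = insert e (C t)) ∧ ∀ t ≤ T, ¬ Bad (C t) := by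
  induction hA with
  | empty h => exact ⟨fun _ => ∅, 0, rfl, rfl, by simp, fun _ _ => h⟩
  | insert A e _ hb ih =>
    obtain ⟨C, T, h1, h2, h3, h4⟩ := ih
    refine ⟨fun t => if t ≤ T then C t else insert e A, T + 1, by simpa using h1, by simp,
      ?_, ?_⟩
    · intro t ht
      by_cases ht' : t < T
      · simp only
        rw [if_pos (by omega), if_pos (by omega)]
        exact h3 t ht'
      · have : t = T := by omega
        subst this
        simp only
        rw [if_neg (by omega), if_pos le_rfl, h2]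
        exact Or.inr ⟨e, rfl⟩
    · intro t ht
      by_cases ht' : t ≤ T
      · simp only
        rw [if_pos ht']
        exact h4 t ht'
      · simp only
        rw [if_neg ht']
        exact hb

theorem not_free (hl : 0 < l) (h : ℕ) :
    ¬ Free (fun A : Finset (Ed l (h + 1)) =>
      ∀ φ₀, Set.ncard (Agr at_ A φ₀) * (2 ^ l) ^ (h + 1) ≤ Fintype.card (As l (h + 1)))
      Finset.univ := by
  intro hf
  obtain ⟨C, T, h1, h2, h3, h4⟩ := free_exists_chain hf
  obtain ⟨t, h5, h6⟩ := unavoidable hl h C T ⟨h1, h2, h3⟩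
  exact h4 t h5 h6

end Pool.Agent.H79.Log3
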