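import Mathlib

/-!
# Types and logical geometry in varieties of nilpotent Lie algebras: definitions
-/

namespace Pool.Agent.H79.NilpLie

open FirstOrder

universe u v w

/-- The function symbols of the one-sorted language of Lie algebras over `P`: a constant `0`,
binary symbols for the sum and the bracket, and a unary symbol for the multiplication by each
scalar. -/
inductive LieFunctions (P : Type u) : ℕ → Type u
  | zero : LieFunctions P 0
  | add : LieFunctions P 2
  | bracket : LieFunctions P 2
  | scalar (c : P) : LieFunctions P 1

/-- The first-order language of Lie algebras over `P` (no relation symbols besides equality). -/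
def lieLanguage (P : Type u) : FirstOrder.Language.{u, 0} where
  Functions := LieFunctions P
  Relations := fun _ => Empty

/-- A Lie algebra over `P` as a first-order structure. -/
noncomputable instance lieStructure (P : Type u) (H : Type v) [CommRing P] [LieRing H]
    [LieAlgebra P H] : (lieLanguage P).Structure H where
  funMap := fun f => LieFunctions.rec (motive := fun r _ => (Fin r → H) → H)
    (fun _ => 0) (fun x => x 0 + x 1) (fun x => ⁅x 0, x 1⁆) (fun c x => c • x 0) f
  RelMap := fun r => r.elim

/-- `H` lies in the variety `Θ_{P,n}`: all Lie products of `n + 1` elements of `H` vanish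
(the `n`-th term, counted from `0`, of the lower central series is zero). -/
def InTheta (P : Type u) [Field P] (n : ℕ) (H : Type v) [LieRing H] [LieAlgebra P H] : Prop :=
  LieModule.lowerCentralSeries P H H n = ⊥

/-- `W(X)` for `X = {x_1, …, x_k}`: the free algebra of `Θ_{P,n}` of rank `k`, that is, the free
Lie algebra modulo the ideal spanned by all products of `n + 1` elements. -/
abbrev FreeNilp (P : Type u) [Field P] (n k : ℕ) : Type u :=
  FreeLieAlgebra P (Fin k) ⧸
    LieModule.lowerCentralSeries P (FreeLieAlgebra P (Fin k)) (FreeLieAlgebra P (Fin k)) n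

/-- The type of a point of `H`, i.e. of a `k`-tuple of elements of `H`: the set of first-order
formulas in `k` free variables that hold in `H` at the tuple. -/
def Tp (P : Type u) [Field P] {H : Type v} [LieRing H] [LieAlgebra P H] {k : ℕ}
    (a : Fin k → H) : Set ((lieLanguage P).Formula (Fin k)) :=
  {φ | φ.Realize a}

/-- `H` is logically homogeneous: two tuples have the same type exactly when an automorphism of
`H` maps one to the other. -/
def LogicallyHomogeneous (P : Type u) [Field P] (H : Type v) [LieRing H]
    [LieAlgebra P H] : Prop :=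
  ∀ (k : ℕ) (a b : Fin k → H), Tp P a = Tp P b ↔ ∃ σ : H ≃ₗ⁅P⁆ H, ∀ i, b i = σ (a i)

/-- `Θ_{P,n}` is logically perfect: every `W(X)`, `X` finite, is logically homogeneous. -/
def LogicallyPerfect (P : Type u) [Field P] (n : ℕ) : Prop :=
  ∀ m : ℕ, LogicallyHomogeneous P (FreeNilp P n m)

/-- `H₁` and `H₂` are isotypic: for every `k` their `k`-tuples realize the same types. -/
def Isotypic (P : Type u) [Field P] (H₁ : Type v) [LieRing H₁] [LieAlgebra P H₁]
    (H₂ : Type w) [LieRing H₂] [LieAlgebra P H₂] : Prop :=
  ∀ k : ℕ, {T | ∃ a : Fin k → H₁, Tp P a = T} = {T | ∃ a : Fin k → H₂, Tp P a = T}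

/-- `H` is logically separable in `Θ_{P,n}`: every `H'` in `Θ_{P,n}` isotypic to `H` is
isomorphic to `H`. -/
def LogicallySeparable (P : Type u) [Field P] (n : ℕ) (H : Type w) [LieRing H]
    [LieAlgebra P H] : Prop :=
  ∀ (H' : Type v) [LieRing H'] [LieAlgebra P H'], InTheta P n H' →
    Isotypic P H' H → Nonempty (H' ≃ₗ⁅P⁆ H)

/-- `Θ_{P,n}` is logically regular: every `W(X)`, `X` finite, is logically separable. -/
def LogicallyRegular (P : Type u) [Field P] (n : ℕ) : Prop :=
  ∀ m : ℕ, LogicallySeparable.{u, v, u} P n (FreeNilp P n m)

end Pool.Agent.H79.NilpLie
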