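import Mathlib
import Pool.Agent.H79.NilpLieDefs

namespace Pool.Agent.H79.NilpLie

open FirstOrder

universe u v w

/-- A copy of `FreeNilp P n k` with its own instances. -/
def W (P : Type u) [Field P] (n k : ℕ) : Type u :=
  FreeLieAlgebra P (Fin k) ⧸
    LieModule.lowerCentralSeries P (FreeLieAlgebra P (Fin k)) (FreeLieAlgebra P (Fin k)) n

noncomputable instance (P : Type u) [Field P] (n k : ℕ) : LieRing (W P n k) :=
  inferInstanceAs (LieRing (FreeLieAlgebra P (Fin k) ⧸
    LieModule.lowerCentralSeries P (FreeLieAlgebra P (Fin k)) (FreeLieAlgebra P (Fin k)) n))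

noncomputable instance (P : Type u) [Field P] (n k : ℕ) : LieAlgebra P (W P n k) :=
  inferInstanceAs (LieAlgebra P (FreeLieAlgebra P (Fin k) ⧸
    LieModule.lowerCentralSeries P (FreeLieAlgebra P (Fin k)) (FreeLieAlgebra P (Fin k)) n))

/-- The free generators of `W(X)`. -/
noncomputable def gen (P : Type u) [Field P] (n k : ℕ) (i : Fin k) : W P n k :=
  LieSubmodule.Quotient.mk (FreeLieAlgebra.of P i)

/-- The type of a point given as a homomorphism `μ : W(X) → H`. -/
def TpH {P : Type u} [Field P] {n k : ℕ} {H : Type v} [LieRing H] [LieAlgebra P H]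
    (μ : W P n k →ₗ⁅P⁆ H) : Set ((lieLanguage P).Formula (Fin k)) :=
  Tp P fun i => μ (gen P n k i)

section Free

variable {P : Type u} [Field P] {n k : ℕ}

/-- The projection of the free Lie algebra onto `W(X)`. -/
noncomputable def proj (P : Type u) [Field P] (n k : ℕ) : FreeLieAlgebra P (Fin k) →ₗ⁅P⁆ W P n k where
  toFun := LieSubmodule.Quotient.mk
  map_add' _ _ := rfl
  map_smul' _ _ := rfl
  map_lie' := rfl

theorem proj_surjective : Function.Surjective (proj P n k) := Quot.mk_surjective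

theorem proj_of (i : Fin k) : proj P n k (FreeLieAlgebra.of P i) = gen P n k i := rfl

theorem proj_eq_zero {x : FreeLieAlgebra P (Fin k)} : proj P n k x = 0 ↔
    x ∈ LieModule.lowerCentralSeries P (FreeLieAlgebra P (Fin k)) (FreeLieAlgebra P (Fin k)) n :=
  LieSubmodule.Quotient.mk_eq_zero'

theorem inTheta_W (P : Type u) [Field P] (n k : ℕ) : InTheta P n (W P n k) := by
  unfold InTheta
  rw [← LieIdeal.lowerCentralSeries_map_eq n (proj_surjective (P := P) (n := n) (k := k))]
  rw [LieIdeal.map_eq_bot_iff]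
  intro x hx
  rw [LieHom.mem_ker]
  exact proj_eq_zero.2 hx

variable {H : Type v} [LieRing H] [LieAlgebra P H]

theorem lift_aux (hH : InTheta P n H) (f : Fin k → H) {x : FreeLieAlgebra P (Fin k)}
    (hx : proj P n k x = 0) : FreeLieAlgebra.lift P f x = 0 := by
  rw [proj_eq_zero] at hx
  have h1 : FreeLieAlgebra.lift P f x ∈ LieIdeal.map (FreeLieAlgebra.lift P f)
      (LieModule.lowerCentralSeries P (FreeLieAlgebra P (Fin k)) (FreeLieAlgebra P (Fin k)) n) :=
    LieIdeal.mem_map hx
  have h2 := LieIdeal.map_lowerCentralSeries_le (R := P) n (f := FreeLieAlgebra.lift P f) h1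
  unfold InTheta at hH
  rw [hH] at h2
  simpa using h2

/-- The universal property of `W(X)` in `Θ_{P,n}`. -/
theorem exists_lift (hH : InTheta P n H) (f : Fin k → H) :
    ∃ g : W P n k →ₗ⁅P⁆ H, ∀ i, g (gen P n k i) = f i := by
  let g0 : W P n k →ₗ[P] H := Submodule.liftQ _
    (FreeLieAlgebra.lift P f : FreeLieAlgebra P (Fin k) →ₗ[P] H) (by
      intro x hx
      exact lift_aux hH f (proj_eq_zero.2 hx))
  refine ⟨{ g0 with map_lie' := ?_ }, ?_⟩
  · intro x y
    obtain ⟨x, rfl⟩ := proj_surjective x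
    obtain ⟨y, rfl⟩ := proj_surjective y
    show g0 (⁅proj P n k x, proj P n k y⁆) = ⁅g0 (proj P n k x), g0 (proj P n k y)⁆
    rw [← LieHom.map_lie]
    exact LieHom.map_lie (FreeLieAlgebra.lift P f) x y
  · intro i
    exact FreeLieAlgebra.lift_of_apply (R := P) f i

theorem hom_ext {g g' : W P n k →ₗ⁅P⁆ H} (h : ∀ i, g (gen P n k i) = g' (gen P n k i)) :
    g = g' := by
  have h1 : g.comp (proj P n k) = g'.comp (proj P n k) := FreeLieAlgebra.hom_ext fun i => h i
  ext x
  obtain ⟨x, rfl⟩ := proj_surjective x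
  exact LieHom.congr_fun h1 x

/-- Every Lie subalgebra of `W(X)` containing the generators is everything. -/
theorem eq_top_of_gen_mem (S : LieSubalgebra P (W P n k)) (h : ∀ i, gen P n k i ∈ S) :
    S = ⊤ := by
  have hS : ∀ x : FreeLieAlgebra P (Fin k), proj P n k x ∈ S := by
    intro x
    let g : FreeLieAlgebra P (Fin k) →ₗ⁅P⁆ S := FreeLieAlgebra.lift P fun i => ⟨gen P n k i, h i⟩
    have h1 : S.incl.comp g = proj P n k := by
      apply FreeLieAlgebra.hom_ext
      intro i
      show ((g (FreeLieAlgebra.of P i) : S) : W P n k) = _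
      simp only [g]
      rw [FreeLieAlgebra.lift_of_apply]
      rfl
    have h2 := LieHom.congr_fun h1 x
    rw [← h2]
    exact (g x).2
  rw [eq_top_iff]
  intro x _
  obtain ⟨x, rfl⟩ := proj_surjective x
  exact hS x

end Free

section Structure

variable {P : Type u} [Field P] {n m : ℕ}

/-- The linear map `(w_j) ↦ ∑ ⁅x_j, w_j⁆`. -/
noncomputable def phi (P : Type u) [Field P] (n m : ℕ) : (Fin m → W P n m) →ₗ[P] W P n m where
  toFun w := ∑ j, ⁅gen P n m j, w j⁆
  map_add' a b := by simp [Finset.sum_add_distrib]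
  map_smul' c a := by simp [Finset.smul_sum]

theorem phi_apply (w : Fin m → W P n m) : phi P n m w = ∑ j, ⁅gen P n m j, w j⁆ := rfl

theorem bracket_mem_range_phi (u v : W P n m) : ⁅u, v⁆ ∈ LinearMap.range (phi P n m) := by
  classical
  let S : LieSubalgebra P (W P n m) :=
    { carrier := {u | ∀ v, ⁅u, v⁆ ∈ LinearMap.range (phi P n m)}
      add_mem' := by
        intro a b ha hb v
        rw [add_lie]
        exact Submodule.add_mem _ (ha v) (hb v)
      zero_mem' := by
        intro v
        rw [zero_lie]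
        exact Submodule.zero_mem _
      smul_mem' := by
        intro c a ha v
        rw [smul_lie]
        exact Submodule.smul_mem _ _ (ha v)
      lie_mem' := by
        intro a b ha hb v
        rw [lie_lie]
        exact Submodule.sub_mem _ (ha _) (hb _) }
  have hS : S = ⊤ := by
    apply eq_top_of_gen_mem
    intro i v
    refine ⟨Pi.single i v, ?_⟩
    rw [phi_apply, Finset.sum_eq_single i]
    · simp
    · intro j _ hj
      simp [Pi.single_eq_of_ne hj]
    · intro h
      exact absurd (Finset.mem_univ i) h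
  have : u ∈ S := by rw [hS]; exact LieSubalgebra.mem_top u
  exact this v

theorem exists_decomp (w : W P n m) :
    ∃ (c : Fin m → P) (w' : Fin m → W P n m), w = ∑ i, c i • gen P n m i + phi P n m w' := by
  classical
  let S : LieSubalgebra P (W P n m) :=
    { carrier := {w | ∃ (c : Fin m → P) (w' : Fin m → W P n m),
        w = ∑ i, c i • gen P n m i + phi P n m w'}
      add_mem' := by
        rintro a b ⟨c, w, rfl⟩ ⟨c', w', rfl⟩
        refine ⟨c + c', w + w', ?_⟩
        simp only [Pi.add_apply, add_smul, Finset.sum_add_distrib, map_add]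
        abel
      zero_mem' := ⟨0, 0, by simp⟩
      smul_mem' := by
        rintro t a ⟨c, w, rfl⟩
        refine ⟨t • c, t • w, ?_⟩
        simp only [Pi.smul_apply, smul_assoc, map_smul, smul_add, Finset.smul_sum]
      lie_mem' := by
        intro a b _ _
        obtain ⟨w, hw⟩ := bracket_mem_range_phi a b
        exact ⟨0, w, by simp [hw]⟩ }
  have hS : S = ⊤ := by
    apply eq_top_of_gen_mem
    intro i
    refine ⟨Pi.single i 1, 0, ?_⟩
    rw [Finset.sum_eq_single i]
    · simp
    · intro j _ hj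
      simp [Pi.single_eq_of_ne hj]
    · intro h
      exact absurd (Finset.mem_univ i) h
  have : w ∈ S := by rw [hS]; exact LieSubalgebra.mem_top w
  exact this

/-- `P^m` with the zero bracket. -/
def AbLie (P : Type u) (m : ℕ) : Type u := Fin m → P

instance : AddCommGroup (AbLie P m) := inferInstanceAs (AddCommGroup (Fin m → P))
instance : Module P (AbLie P m) := inferInstanceAs (Module P (Fin m → P))
instance : LieRing (AbLie P m) where
  bracket _ _ := 0
  add_lie _ _ _ := (add_zero (0 : Fin m → P)).symm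
  lie_add _ _ _ := (add_zero (0 : Fin m → P)).symm
  lie_self _ := rfl
  leibniz_lie _ _ _ := (add_zero (0 : Fin m → P)).symm
instance : LieAlgebra P (AbLie P m) where
  lie_smul t _ _ := (smul_zero (A := Fin m → P) t).symm

theorem InTheta.mono {H : Type v} [LieRing H] [LieAlgebra P H] {r n : ℕ} (h : InTheta P r H)
    (hr : r ≤ n) : InTheta P n H := by
  unfold InTheta at *
  rw [eq_bot_iff, ← h]
  exact LieModule.antitone_lowerCentralSeries P H H hr

theorem inTheta_of_bracket {H : Type v} [LieRing H] [LieAlgebra P H]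
    (h : ∀ a b : H, ⁅a, b⁆ = 0) : InTheta P 1 H := by
  unfold InTheta
  rw [LieModule.lowerCentralSeries_succ, LieSubmodule.lie_eq_bot_iff]
  intro a _ b _
  exact h a b

theorem inTheta_two_of_bracket {H : Type v} [LieRing H] [LieAlgebra P H]
    (h : ∀ a b c : H, ⁅a, ⁅b, c⁆⁆ = 0) : InTheta P 2 H := by
  unfold InTheta
  rw [LieModule.lowerCentralSeries_succ, LieSubmodule.lie_eq_bot_iff]
  intro a _ b hb
  rw [LieModule.lowerCentralSeries_succ, ← LieSubmodule.mem_toSubmodule,
    LieSubmodule.lieIdeal_oper_eq_linear_span'] at hb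
  induction hb using Submodule.span_induction with
  | mem x hx =>
    obtain ⟨p, _, q, _, rfl⟩ := hx
    exact h a p q
  | zero => exact lie_zero a
  | add x y _ _ hx hy => rw [lie_add, hx, hy, add_zero]
  | smul c x _ hx => rw [lie_smul, hx, smul_zero]

/-- The standard basis vectors of `P^m`. -/
def eV (P : Type u) [Field P] {m : ℕ} (i : Fin m) : AbLie P m := (Pi.single i 1 : Fin m → P)

/-- Coordinates on `P^m`. -/
def coord (P : Type u) [Field P] {m : ℕ} (j : Fin m) : AbLie P m →ₗ[P] P :=
  (LinearMap.proj j : (Fin m → P) →ₗ[P] P)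

theorem coord_eV (i j : Fin m) : coord P j (eV P i) = if j = i then 1 else 0 := by
  show (Pi.single i 1 : Fin m → P) j = _
  rw [Pi.single_apply]

theorem AbLie.ext {x y : AbLie P m} (h : ∀ j, coord P j x = coord P j y) : x = y := funext h

theorem exists_ab (hn : 1 ≤ n) : ∃ ab : W P n m →ₗ⁅P⁆ AbLie P m,
    ∀ i, ab (gen P n m i) = eV P i :=
  exists_lift ((inTheta_of_bracket fun _ _ => rfl).mono hn) _

/-- The abelianization `W(X) → P^m`. -/
noncomputable def ab (hn : 1 ≤ n) : W P n m →ₗ⁅P⁆ AbLie P m := (exists_ab hn).choose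

theorem ab_gen (hn : 1 ≤ n) (i : Fin m) :
    ab (P := P) hn (gen P n m i) = eV P i := (exists_ab hn).choose_spec i

theorem ab_bracket (hn : 1 ≤ n) (u v : W P n m) : ab hn ⁅u, v⁆ = 0 := by
  rw [LieHom.map_lie]
  rfl

theorem ab_phi (hn : 1 ≤ n) (w : Fin m → W P n m) : ab hn (phi P n m w) = 0 := by
  rw [phi_apply, map_sum]
  exact Finset.sum_eq_zero fun j _ => ab_bracket hn _ _

theorem coord_ab_sum (hn : 1 ≤ n) (c : Fin m → P) (j : Fin m) :
    coord P j (ab hn (∑ i, c i • gen P n m i)) = c j := by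
  rw [map_sum, map_sum]
  simp only [map_smul, ab_gen, coord_eV]
  simp

theorem coord_ab_decomp (hn : 1 ≤ n) (c : Fin m → P) (w' : Fin m → W P n m) (j : Fin m) :
    coord P j (ab hn (∑ i, c i • gen P n m i + phi P n m w')) = c j := by
  rw [map_add, ab_phi, add_zero, coord_ab_sum]

theorem decomp_ab (hn : 1 ≤ n) (w : W P n m) :
    ∃ w' : Fin m → W P n m, w = ∑ i, coord P i (ab hn w) • gen P n m i + phi P n m w' := by
  obtain ⟨c, w', rfl⟩ := exists_decomp w
  refine ⟨w', ?_⟩
  congr 1
  refine Finset.sum_congr rfl fun i _ => ?_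
  rw [coord_ab_decomp]

theorem mem_range_phi_of_ab (hn : 1 ≤ n) {w : W P n m} (h : ab hn w = 0) :
    w ∈ LinearMap.range (phi P n m) := by
  obtain ⟨w', hw⟩ := decomp_ab hn w
  refine ⟨w', ?_⟩
  conv_rhs => rw [hw]
  simp [h]

/-! ### The Heisenberg argument -/

/-- The Heisenberg Lie algebra. -/
def Heis (P : Type u) : Type u := P × P × P

instance : AddCommGroup (Heis P) := inferInstanceAs (AddCommGroup (P × P × P))
instance : Module P (Heis P) := inferInstanceAs (Module P (P × P × P))

/-- The bracket of the Heisenberg Lie algebra. -/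
def heisBr (x y : P × P × P) : P × P × P := (0, 0, x.1 * y.2.1 - x.2.1 * y.1)

theorem heisBr_add_left (x y z : P × P × P) : heisBr (x + y) z = heisBr x z + heisBr y z := by
  ext
  · simp [heisBr]
  · simp [heisBr]
  · simp only [heisBr, Prod.fst_add, Prod.snd_add]
    ring

theorem heisBr_add_right (x y z : P × P × P) : heisBr x (y + z) = heisBr x y + heisBr x z := by
  ext
  · simp [heisBr]
  · simp [heisBr]
  · simp only [heisBr, Prod.fst_add, Prod.snd_add]
    ring

theorem heisBr_self (x : P × P × P) : heisBr x x = 0 := by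
  ext
  · simp [heisBr]
  · simp [heisBr]
  · simp only [heisBr, Prod.snd_zero]
    ring

theorem heisBr_heisBr (x y z : P × P × P) : heisBr x (heisBr y z) = 0 := by
  ext <;> simp [heisBr]

theorem heisBr_heisBr' (x y z : P × P × P) : heisBr (heisBr x y) z = 0 := by
  ext <;> simp [heisBr]

theorem heisBr_leibniz (x y z : P × P × P) :
    heisBr x (heisBr y z) = heisBr (heisBr x y) z + heisBr y (heisBr x z) := by
  rw [heisBr_heisBr, heisBr_heisBr', heisBr_heisBr, add_zero]

theorem heisBr_smul (t : P) (x y : P × P × P) : heisBr x (t • y) = t • heisBr x y := by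
  ext
  · simp [heisBr]
  · simp [heisBr]
  · simp only [heisBr, Prod.smul_fst, Prod.smul_snd, smul_eq_mul]
    ring

instance : LieRing (Heis P) where
  bracket x y := heisBr x y
  add_lie x y z := heisBr_add_left x y z
  lie_add x y z := heisBr_add_right x y z
  lie_self x := heisBr_self x
  leibniz_lie x y z := heisBr_leibniz x y z

instance : LieAlgebra P (Heis P) where
  lie_smul t x y := heisBr_smul t x y

theorem inTheta_heis : InTheta P 2 (Heis P) :=
  inTheta_two_of_bracket fun a b c => heisBr_heisBr a b c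

/-- First coordinate on the Heisenberg algebra. -/
def hx (P : Type u) [Field P] : Heis P →ₗ[P] P := LinearMap.fst P P (P × P)

/-- Second coordinate on the Heisenberg algebra. -/
def hy (P : Type u) [Field P] : Heis P →ₗ[P] P := (LinearMap.fst P P P).comp (LinearMap.snd P P (P × P))

/-- Third coordinate on the Heisenberg algebra. -/
def hz (P : Type u) [Field P] : Heis P →ₗ[P] P := (LinearMap.snd P P P).comp (LinearMap.snd P P (P × P))

theorem hx_bracket (a b : Heis P) : hx P ⁅a, b⁆ = 0 := rfl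
theorem hy_bracket (a b : Heis P) : hy P ⁅a, b⁆ = 0 := rfl
theorem hz_bracket (a b : Heis P) : hz P ⁅a, b⁆ = hx P a * hy P b - hy P a * hx P b := rfl

/-- The images of the generators in the Heisenberg algebra. -/
def hgen (P : Type u) [Field P] (i j k : Fin m) : Heis P :=
  ((if i = k then 1 else 0, if j = k then 1 else 0, 0) : P × P × P)

theorem hx_hgen (i j k : Fin m) : hx P (hgen P i j k) = if i = k then 1 else 0 := rfl
theorem hy_hgen (i j k : Fin m) : hy P (hgen P i j k) = if j = k then 1 else 0 := rfl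

theorem ab_dependent (hn : 2 ≤ n) (hn1 : 1 ≤ n) {w u : W P n m} (h : ⁅w, u⁆ = 0) (i j : Fin m) :
    coord P i (ab hn1 w) * coord P j (ab hn1 u) =
      coord P j (ab hn1 w) * coord P i (ab hn1 u) := by
  obtain ⟨g, hg⟩ := exists_lift (P := P) (n := n) (k := m) (inTheta_heis.mono hn)
    (fun k => hgen P i j k)
  have h1 : ∀ v : W P n m, hx P (g v) = coord P i (ab hn1 v) := by
    intro v
    obtain ⟨v', hv⟩ := decomp_ab hn1 v
    conv_lhs => rw [hv]
    rw [map_add, map_add, phi_apply, map_sum, map_sum, map_sum, map_sum]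
    simp only [map_smul, LieHom.map_lie, hx_bracket, hg, hx_hgen]
    simp
  have h2 : ∀ v : W P n m, hy P (g v) = coord P j (ab hn1 v) := by
    intro v
    obtain ⟨v', hv⟩ := decomp_ab hn1 v
    conv_lhs => rw [hv]
    rw [map_add, map_add, phi_apply, map_sum, map_sum, map_sum, map_sum]
    simp only [map_smul, LieHom.map_lie, hy_bracket, hg, hy_hgen]
    simp
  have h3 : hz P (g ⁅w, u⁆) = 0 := by rw [h, map_zero, map_zero]
  rw [LieHom.map_lie, hz_bracket, h1, h1, h2, h2] at h3
  exact sub_eq_zero.1 h3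

/-! ### Generating tuples -/

theorem phi_mem_lcs (w : Fin m → W P n m) :
    phi P n m w ∈ LieModule.lowerCentralSeries P (W P n m) (W P n m) 1 := by
  rw [phi_apply]
  refine sum_mem fun j _ => ?_
  rw [LieModule.lowerCentralSeries_succ]
  exact LieSubmodule.lie_mem_lie (LieSubmodule.mem_top _) (LieSubmodule.mem_top _)

theorem lcs_bracket {L : Type v} [LieRing L] [LieAlgebra P L] {k : ℕ} {a b : L}
    (ha : a ∈ LieModule.lowerCentralSeries P L L 1)
    (hb : b ∈ LieModule.lowerCentralSeries P L L k) :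
    ⁅a, b⁆ ∈ LieModule.lowerCentralSeries P L L (k + 2) := by
  have hstep : ∀ {j : ℕ} {x : L} (y : L), x ∈ LieModule.lowerCentralSeries P L L j →
      ⁅y, x⁆ ∈ LieModule.lowerCentralSeries P L L (j + 1) := by
    intro j x y hx
    rw [LieModule.lowerCentralSeries_succ]
    exact LieSubmodule.lie_mem_lie (LieSubmodule.mem_top _) hx
  rw [LieModule.lowerCentralSeries_succ, ← LieSubmodule.mem_toSubmodule,
    LieSubmodule.lieIdeal_oper_eq_linear_span'] at ha
  induction ha using Submodule.span_induction with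
  | mem x hx =>
    obtain ⟨p, _, q, _, rfl⟩ := hx
    rw [lie_lie]
    exact sub_mem (hstep p (hstep q hb)) (hstep q (hstep p hb))
  | zero =>
    rw [zero_lie]
    exact zero_mem _
  | add x y _ _ hx hy =>
    rw [add_lie]
    exact add_mem hx hy
  | smul c x _ hx =>
    rw [smul_lie]
    exact SMulMemClass.smul_mem c hx

theorem subalgebra_step (S : LieSubalgebra P (W P n m))
    (hS : ∀ w : W P n m, ∃ s ∈ S, w - s ∈ LieModule.lowerCentralSeries P (W P n m) (W P n m) 1) :
    ∀ (k : ℕ), ∀ w ∈ LieModule.lowerCentralSeries P (W P n m) (W P n m) k,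
      ∃ s ∈ S, s ∈ LieModule.lowerCentralSeries P (W P n m) (W P n m) k ∧
        w - s ∈ LieModule.lowerCentralSeries P (W P n m) (W P n m) (k + 1) := by
  have hstep : ∀ {j : ℕ} {x : W P n m} (y : W P n m),
      x ∈ LieModule.lowerCentralSeries P (W P n m) (W P n m) j →
      ⁅y, x⁆ ∈ LieModule.lowerCentralSeries P (W P n m) (W P n m) (j + 1) := by
    intro j x y hx
    rw [LieModule.lowerCentralSeries_succ]
    exact LieSubmodule.lie_mem_lie (LieSubmodule.mem_top _) hx
  intro k
  induction k with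
  | zero =>
    intro w _
    obtain ⟨s, hs, h⟩ := hS w
    exact ⟨s, hs, by simp, h⟩
  | succ k ih =>
    intro w hw
    rw [LieModule.lowerCentralSeries_succ, ← LieSubmodule.mem_toSubmodule,
      LieSubmodule.lieIdeal_oper_eq_linear_span'] at hw
    induction hw using Submodule.span_induction with
    | mem x hx =>
      obtain ⟨a, _, b, hb, rfl⟩ := hx
      obtain ⟨s, hs, hs'⟩ := hS a
      obtain ⟨t, ht, ht', ht''⟩ := ih b hb
      refine ⟨⁅s, t⁆, S.lie_mem hs ht, hstep s ht', ?_⟩
      have : ⁅a, b⁆ - ⁅s, t⁆ = ⁅s, b - t⁆ + ⁅a - s, b⁆ := by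
        rw [lie_sub, sub_lie]
        abel
      rw [this]
      exact add_mem (hstep s ht'') (lcs_bracket hs' hb)
    | zero => exact ⟨0, S.zero_mem, zero_mem _, by rw [sub_zero]; exact zero_mem _⟩
    | add x y _ _ hx hy =>
      obtain ⟨s, hs, hs', hs''⟩ := hx
      obtain ⟨t, ht, ht', ht''⟩ := hy
      refine ⟨s + t, S.add_mem hs ht, add_mem hs' ht', ?_⟩
      have : x + y - (s + t) = (x - s) + (y - t) := by abel
      rw [this]
      exact add_mem hs'' ht''
    | smul c x _ hx =>
      obtain ⟨s, hs, hs', hs''⟩ := hx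
      refine ⟨c • s, S.smul_mem c hs, SMulMemClass.smul_mem c hs', ?_⟩
      rw [← smul_sub]
      exact SMulMemClass.smul_mem c hs''

theorem subalgebra_eq_top (S : LieSubalgebra P (W P n m))
    (hS : ∀ w : W P n m, ∃ s ∈ S, w - s ∈ LieModule.lowerCentralSeries P (W P n m) (W P n m) 1) :
    ∀ w, w ∈ S := by
  have key : ∀ (k : ℕ) (w : W P n m), ∃ s ∈ S,
      w - s ∈ LieModule.lowerCentralSeries P (W P n m) (W P n m) k := by
    intro k
    induction k with
    | zero =>
      intro w
      exact ⟨0, S.zero_mem, by simp⟩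
    | succ k ih =>
      intro w
      obtain ⟨s, hs, hs'⟩ := ih w
      obtain ⟨t, ht, _, ht'⟩ := subalgebra_step S hS k _ hs'
      refine ⟨s + t, S.add_mem hs ht, ?_⟩
      have : w - (s + t) = w - s - t := by abel
      rw [this]
      exact ht'
  intro w
  obtain ⟨s, hs, hs'⟩ := key n w
  have h0 : LieModule.lowerCentralSeries P (W P n m) (W P n m) n = ⊥ := inTheta_W P n m
  rw [h0, LieSubmodule.mem_bot, sub_eq_zero] at hs'
  rw [hs']
  exact hs

/-- A homomorphism into `W(X)` hitting everything modulo `[W, W]` is surjective. -/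
theorem surjective_of_ab (hn : 1 ≤ n) {L : Type v} [LieRing L] [LieAlgebra P L]
    (g : L →ₗ⁅P⁆ W P n m) (hg : ∀ w : W P n m, ∃ x : L, ab hn (g x) = ab hn w) :
    Function.Surjective g := by
  intro w
  have : w ∈ g.range := by
    apply subalgebra_eq_top
    intro w
    obtain ⟨x, hx⟩ := hg w
    refine ⟨g x, ⟨x, rfl⟩, ?_⟩
    have h1 : ab hn (w - g x) = 0 := by rw [map_sub, hx, sub_self]
    obtain ⟨w', hw'⟩ := mem_range_phi_of_ab hn h1
    rw [← hw']
    exact phi_mem_lcs w'
  exact this

/-- The endomorphism `c ↦ ∑ c_i a_i` of `P^m`. -/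
def lin (a : Fin m → AbLie P m) : AbLie P m →ₗ[P] AbLie P m where
  toFun c := ∑ i, coord P i c • a i
  map_add' x y := by simp [add_smul, Finset.sum_add_distrib]
  map_smul' t x := by simp [mul_smul, Finset.smul_sum]

theorem ab_hom (hn : 1 ≤ n) (g : W P n m →ₗ⁅P⁆ W P n m) (w : W P n m) :
    ab hn (g w) = lin (fun i => ab hn (g (gen P n m i))) (ab hn w) := by
  obtain ⟨w', hw⟩ := decomp_ab hn w
  conv_lhs => rw [hw]
  rw [map_add, map_add, phi_apply, map_sum, map_sum, map_sum, map_sum]
  simp only [map_smul, LieHom.map_lie]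
  have h0 : ∀ x y : AbLie P m, ⁅x, y⁆ = 0 := fun _ _ => rfl
  simp only [h0, Finset.sum_const_zero, add_zero]
  rfl

theorem ab_surjective (hn : 1 ≤ n) (c : AbLie P m) : ∃ w : W P n m, ab hn w = c := by
  refine ⟨∑ i, coord P i c • gen P n m i, ?_⟩
  apply AbLie.ext
  intro j
  rw [coord_ab_sum]

theorem injective_of_ab (hn : 1 ≤ n) (g : W P n m →ₗ⁅P⁆ W P n m)
    (hg : Function.Surjective g) : Function.Injective g := by
  classical
  choose p hp using fun i => hg (gen P n m i)
  obtain ⟨τ, hτ⟩ := exists_lift (inTheta_W P n m) p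
  have hid : g.comp τ = LieHom.id := by
    apply hom_ext
    intro i
    show g (τ (gen P n m i)) = gen P n m i
    rw [hτ, hp]
  have hid' : ∀ w, g (τ w) = w := fun w => LieHom.congr_fun hid w
  set A := lin (fun i => ab hn (g (gen P n m i))) with hA
  set B := lin (fun i => ab hn (τ (gen P n m i))) with hB
  have hAB : A ∘ₗ B = LinearMap.id := by
    ext c
    obtain ⟨w, rfl⟩ := ab_surjective hn c
    show A (B (ab hn w)) = ab hn w
    rw [← ab_hom, ← ab_hom, hid']
  have : Module.Finite P (AbLie P m) := inferInstanceAs (Module.Finite P (Fin m → P))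
  have hBA : B ∘ₗ A = LinearMap.id := (LinearMap.comp_eq_id_comm _ _).1 hAB
  have hτs : Function.Surjective τ := by
    apply surjective_of_ab hn
    intro w
    obtain ⟨w', hw'⟩ := ab_surjective hn (A (ab hn w))
    refine ⟨w', ?_⟩
    rw [ab_hom, hw']
    exact LinearMap.congr_fun hBA (ab hn w)
  intro x y hxy
  obtain ⟨a, rfl⟩ := hτs x
  obtain ⟨b, rfl⟩ := hτs y
  rw [hid', hid'] at hxy
  rw [hxy]

end Structure

section Formulas

open FirstOrder.Language

variable {P : Type u} [Field P] {α : Type w}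

/-- The term `0`. -/
def t0 : (lieLanguage P).Term α := Term.func (LieFunctions.zero : LieFunctions P 0) ![]

/-- The term `s + t`. -/
def tadd (s t : (lieLanguage P).Term α) : (lieLanguage P).Term α :=
  Term.func (LieFunctions.add : LieFunctions P 2) ![s, t]

/-- The term `[s, t]`. -/
def tbr (s t : (lieLanguage P).Term α) : (lieLanguage P).Term α :=
  Term.func (LieFunctions.bracket : LieFunctions P 2) ![s, t]

/-- The term `c t`. -/
def tsm (c : P) (t : (lieLanguage P).Term α) : (lieLanguage P).Term α :=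
  Term.func (LieFunctions.scalar c : LieFunctions P 1) ![t]

variable {H : Type v} [LieRing H] [LieAlgebra P H]

theorem realize_t0 (v : α → H) : (t0 : (lieLanguage P).Term α).realize v = 0 := rfl

theorem realize_tadd (s t : (lieLanguage P).Term α) (v : α → H) :
    (tadd s t).realize v = s.realize v + t.realize v := rfl

theorem realize_tbr (s t : (lieLanguage P).Term α) (v : α → H) :
    (tbr s t).realize v = ⁅s.realize v, t.realize v⁆ := rfl

theorem realize_tsm (c : P) (t : (lieLanguage P).Term α) (v : α → H) :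
    (tsm c t).realize v = c • t.realize v := rfl

/-- The term `f 0 + (f 1 + ⋯)`. -/
def tsum {ι : Type} (l : List ι) (f : ι → (lieLanguage P).Term α) : (lieLanguage P).Term α :=
  l.foldr (fun i acc => tadd (f i) acc) t0

theorem realize_tsum {m : ℕ} (f : Fin m → (lieLanguage P).Term α) (v : α → H) :
    (tsum (List.finRange m) f).realize v = ∑ i, (f i).realize v := by
  have : ∀ l : List (Fin m), (tsum l f).realize v = (l.map fun i => (f i).realize v).sum := by
    intro l
    induction l with
    | nil => rfl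
    | cons a l ih =>
      show (tadd (f a) (tsum l f)).realize v = _
      rw [realize_tadd, ih, List.map_cons, List.sum_cons]
  rw [this, Fin.sum_univ_def]

/-- A homomorphism of Lie algebras as a homomorphism of first-order structures. -/
def foHom {H' : Type w} [LieRing H'] [LieAlgebra P H'] (g : H →ₗ⁅P⁆ H') :
    FirstOrder.Language.Hom (lieLanguage P) H H' where
  toFun := g
  map_fun' := by
    intro n f x
    cases f with
    | zero => exact map_zero g
    | add => exact map_add g _ _
    | bracket => exact LieHom.map_lie g _ _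
    | scalar c => exact map_smul g c _
  map_rel' := fun r => r.elim

theorem realize_hom {H' : Type w} [LieRing H'] [LieAlgebra P H'] (g : H →ₗ⁅P⁆ H')
    {β : Type*} (t : (lieLanguage P).Term β) (v : β → H) :
    t.realize (fun i => g (v i)) = g (t.realize v) :=
  HomClass.realize_term (foHom g)

/-- An isomorphism of Lie algebras as an isomorphism of first-order structures. -/
def foEquiv {H' : Type w} [LieRing H'] [LieAlgebra P H'] (g : H ≃ₗ⁅P⁆ H') :
    FirstOrder.Language.Equiv (lieLanguage P) H H' where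
  toEquiv := g.toLinearEquiv.toEquiv
  map_fun' := (foHom (g : H →ₗ⁅P⁆ H')).map_fun'
  map_rel' := fun r => r.elim

theorem realize_equiv {H' : Type w} [LieRing H'] [LieAlgebra P H'] (g : H ≃ₗ⁅P⁆ H')
    {β : Type*} (φ : (lieLanguage P).Formula β) (v : β → H) :
    φ.Realize (fun i => g (v i)) ↔ φ.Realize v :=
  StrongHomClass.realize_formula (foEquiv g) φ

theorem exists_term {n m : ℕ} (a : W P n m) :
    ∃ t : (lieLanguage P).Term (Fin m), t.realize (gen P n m) = a := by
  let S : LieSubalgebra P (W P n m) :=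
    { carrier := {a | ∃ t : (lieLanguage P).Term (Fin m), t.realize (gen P n m) = a}
      add_mem' := by
        rintro _ _ ⟨s, rfl⟩ ⟨t, rfl⟩
        exact ⟨tadd s t, rfl⟩
      zero_mem' := ⟨t0, rfl⟩
      smul_mem' := by
        rintro c _ ⟨t, rfl⟩
        exact ⟨tsm c t, rfl⟩
      lie_mem' := by
        rintro _ _ ⟨s, rfl⟩ ⟨t, rfl⟩
        exact ⟨tbr s t, rfl⟩ }
  have hS : S = ⊤ := eq_top_of_gen_mem S fun i => ⟨Term.var i, rfl⟩
  have : a ∈ S := by rw [hS]; exact LieSubalgebra.mem_top a
  exact this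

/-- `Der x`: `x` is a sum of `m` brackets. -/
def Der (m : ℕ) (x : H) : Prop := ∃ c d : Fin m → H, x = ∑ j, ⁅c j, d j⁆

/-- `IsGen u`: the property of `m`-tuples which defines the generating `m`-tuples of `W(X)`. -/
def IsGen (m : ℕ) (u : Fin m → H) : Prop :=
  (∀ i, ¬ Der m (u i)) ∧
    ∀ w : H, ∃ w' : Fin m → H, Der m (w + (-1 : ℤ) • ∑ i, w' i) ∧ ∀ i, ⁅w' i, u i⁆ = 0

/-- The formula defining `Der`. -/
noncomputable def derF (m : ℕ) (t : (lieLanguage P).Term α) : (lieLanguage P).Formula α :=
  Formula.iExs (Fin m ⊕ Fin m) ((t.relabel Sum.inl).equal (tsum (List.finRange m) fun j =>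
    tbr (Term.var (Sum.inr (Sum.inl j))) (Term.var (Sum.inr (Sum.inr j)))))

theorem realize_derF (m : ℕ) (t : (lieLanguage P).Term α) (v : α → H) :
    (derF m t).Realize v ↔ Der m (t.realize v) := by
  unfold derF Der
  rw [Formula.realize_iExs]
  constructor
  · rintro ⟨i, hi⟩
    rw [Formula.realize_equal, realize_tsum, Term.realize_relabel] at hi
    exact ⟨fun j => i (Sum.inl j), fun j => i (Sum.inr j), hi⟩
  · rintro ⟨c, d, h⟩
    refine ⟨Sum.elim c d, ?_⟩
    rw [Formula.realize_equal, realize_tsum, Term.realize_relabel]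
    exact h

/-- The formula defining `IsGen`. -/
noncomputable def genF (m : ℕ) (u : Fin m → α) : (lieLanguage P).Formula α :=
  (Formula.iInf fun i : Fin m => (derF m (Term.var (u i))).not) ⊓
    Formula.iAlls Unit (Formula.iExs (Fin m)
      (derF m (tadd (Term.var (Sum.inl (Sum.inr ())))
        (tsm (-1) (tsum (List.finRange m) fun i => Term.var (Sum.inr i)))) ⊓
        Formula.iInf fun i : Fin m =>
          (tbr (Term.var (Sum.inr i)) (Term.var (Sum.inl (Sum.inl (u i))))).equal t0))

theorem realize_genF (m : ℕ) (u : Fin m → α) (v : α → H) :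
    (genF (P := P) m u).Realize v ↔ IsGen m (fun i => v (u i)) := by
  unfold genF IsGen
  rw [Formula.realize_inf, Formula.realize_iInf, Formula.realize_iAlls]
  refine and_congr ?_ ?_
  · refine forall_congr' fun i => ?_
    rw [Formula.realize_not, realize_derF]
    rfl
  · have key : ∀ i : Unit → H, (Formula.iExs (Fin m)
      (derF m (tadd (Term.var (Sum.inl (Sum.inr ())))
        (tsm (-1) (tsum (List.finRange m) fun i => Term.var (Sum.inr i)))) ⊓
        Formula.iInf fun i : Fin m =>
          (tbr (Term.var (Sum.inr i)) (Term.var (Sum.inl (Sum.inl (u i))))).equal t0 :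
          (lieLanguage P).Formula _)).Realize (Sum.elim v i) ↔
        ∃ w' : Fin m → H, Der m (i () + (-1 : ℤ) • ∑ i, w' i) ∧ ∀ i, ⁅w' i, v (u i)⁆ = 0 := by
      intro i
      rw [Formula.realize_iExs]
      refine exists_congr fun w' => ?_
      rw [Formula.realize_inf, Formula.realize_iInf, realize_derF, realize_tadd, realize_tsm,
        realize_tsum]
      refine and_congr ?_ ?_
      · have : (-1 : P) • ∑ i, w' i = (-1 : ℤ) • ∑ i, w' i := by simp
        rw [← this]
        rfl
      · refine forall_congr' fun j => ?_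
        rw [Formula.realize_equal]
        rfl
    constructor
    · intro h w
      exact (key fun _ => w).1 (h _)
    · intro h i
      exact (key i).2 (h _)

end Formulas

section Homogeneity

open FirstOrder.Language

variable {P : Type u} [Field P] {n m k : ℕ}

theorem ab_der (hn : 1 ≤ n) {x : W P n m} (h : Der m x) : ab hn x = 0 := by
  obtain ⟨c, d, rfl⟩ := h
  rw [map_sum]
  exact Finset.sum_eq_zero fun j _ => ab_bracket hn _ _

theorem der_of_ab (hn : 1 ≤ n) {x : W P n m} (h : ab hn x = 0) : Der m x := by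
  obtain ⟨w, hw⟩ := mem_range_phi_of_ab hn h
  exact ⟨gen P n m, w, hw.symm⟩

theorem isGen_gen (hn : 1 ≤ n) : IsGen m (gen P n m) := by
  constructor
  · intro i h
    have h1 := ab_der hn h
    rw [ab_gen] at h1
    have h2 : coord P i (eV P i) = 0 := by rw [h1, map_zero]
    rw [coord_eV, if_pos rfl] at h2
    exact one_ne_zero h2
  · intro w
    obtain ⟨w', hw⟩ := decomp_ab hn w
    refine ⟨fun i => coord P i (ab hn w) • gen P n m i, ?_, ?_⟩
    · refine ⟨gen P n m, w', ?_⟩
      rw [← phi_apply]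
      generalize hS : ∑ i, coord P i (ab hn w) • gen P n m i = S at hw
      rw [hw]
      abel
    · intro i
      rw [smul_lie, lie_self, smul_zero]

theorem exists_aut_of_isGen (hn : 2 ≤ n) {u : Fin m → W P n m} (h : IsGen m u) :
    ∃ σ : W P n m ≃ₗ⁅P⁆ W P n m, ∀ i, σ (gen P n m i) = u i := by
  have hn1 : 1 ≤ n := by omega
  obtain ⟨h1, h2⟩ := h
  obtain ⟨g, hg⟩ := exists_lift (inTheta_W P n m) u
  have hne : ∀ i, ∃ j, coord P j (ab hn1 (u i)) ≠ 0 := by
    intro i
    by_contra hcon
    push Not at hcon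
    apply h1 i
    apply der_of_ab hn1
    apply AbLie.ext
    intro j
    rw [hcon j, map_zero]
  have hs : Function.Surjective g := by
    apply surjective_of_ab hn1
    intro w
    obtain ⟨w', hd, hc⟩ := h2 w
    have h3 := ab_der hn1 hd
    rw [map_add, map_zsmul] at h3
    have h4 : ab hn1 w = ∑ i, ab hn1 (w' i) := by
      rw [map_sum] at h3
      have h5 : (-1 : ℤ) • ∑ i, ab hn1 (w' i) = - ∑ i, ab hn1 (w' i) := by simp
      rw [h5] at h3
      exact add_neg_eq_zero.1 h3
    choose j hj using hne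
    refine ⟨∑ i, (coord P (j i) (ab hn1 (w' i)) / coord P (j i) (ab hn1 (u i))) • gen P n m i, ?_⟩
    rw [map_sum, map_sum, h4]
    refine Finset.sum_congr rfl fun i _ => ?_
    rw [map_smul, map_smul, hg]
    apply AbLie.ext
    intro r
    rw [map_smul, smul_eq_mul]
    have h5 := ab_dependent hn hn1 (hc i) r (j i)
    rw [div_mul_eq_mul_div, div_eq_iff (hj i), h5]
  have hi := injective_of_ab hn1 g hs
  exact ⟨LieEquiv.ofBijective g ⟨hi, hs⟩, fun i => hg i⟩

theorem tp_comp {H : Type v} [LieRing H] [LieAlgebra P H] (μ : W P n k →ₗ⁅P⁆ H)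
    (σ : H ≃ₗ⁅P⁆ H) : TpH μ = TpH ((σ : H →ₗ⁅P⁆ H).comp μ) := by
  ext φ
  exact (realize_equiv σ φ fun i => μ (gen P n k i)).symm

theorem homogeneous_of_two_le (hn : 2 ≤ n) (k : ℕ) (μ ν : W P n k →ₗ⁅P⁆ W P n m) :
    TpH μ = TpH ν ↔ ∃ σ : W P n m ≃ₗ⁅P⁆ W P n m,
      ν = (σ : W P n m →ₗ⁅P⁆ W P n m).comp μ := by
  constructor
  · intro h
    choose t ht using fun j : Fin k => exists_term (μ (gen P n k j))
    let ψ : (lieLanguage P).Formula (Fin k) :=
      Formula.iExs (Fin m) (genF m Sum.inr ⊓ Formula.iInf fun j : Fin k =>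
        (Term.var (Sum.inl j)).equal ((t j).relabel Sum.inr))
    have hψ : ∀ v : Fin k → W P n m, ψ.Realize v ↔
        ∃ u : Fin m → W P n m, IsGen m u ∧ ∀ j, v j = (t j).realize u := by
      intro v
      simp only [ψ]
      rw [Formula.realize_iExs]
      refine exists_congr fun u => ?_
      rw [Formula.realize_inf, Formula.realize_iInf, realize_genF]
      refine and_congr Iff.rfl (forall_congr' fun j => ?_)
      rw [Formula.realize_equal, Term.realize_relabel]
      rfl
    have hμ : ψ ∈ TpH μ := (hψ _).2 ⟨gen P n m, isGen_gen (by omega), fun j => (ht j).symm⟩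
    rw [h] at hμ
    obtain ⟨u, hu, hν⟩ := (hψ _).1 hμ
    obtain ⟨σ, hσ⟩ := exists_aut_of_isGen hn hu
    refine ⟨σ, ?_⟩
    apply hom_ext
    intro j
    rw [hν j]
    have h1 : u = fun i => (σ : W P n m →ₗ⁅P⁆ W P n m) (gen P n m i) := by
      funext i
      exact (hσ i).symm
    rw [h1, realize_hom, ht]
    rfl
  · rintro ⟨σ, rfl⟩
    exact tp_comp μ σ

theorem exists_linearEquiv {V : Type v} [AddCommGroup V] [Module P V] [Module.Finite P V]
    {k : ℕ} (a b : Fin k → V)
    (h : ∀ c : Fin k → P, ∑ j, c j • a j = 0 ↔ ∑ j, c j • b j = 0) :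
    ∃ e : V ≃ₗ[P] V, ∀ j, e (a j) = b j := by
  classical
  let A : (Fin k → P) →ₗ[P] V := Fintype.linearCombination P a
  let B : (Fin k → P) →ₗ[P] V := Fintype.linearCombination P b
  have hA : ∀ c, A c = ∑ j, c j • a j := fun c => Fintype.linearCombination_apply P a c
  have hB : ∀ c, B c = ∑ j, c j • b j := fun c => Fintype.linearCombination_apply P b c
  have hker : LinearMap.ker A = LinearMap.ker B := by
    ext c
    rw [LinearMap.mem_ker, LinearMap.mem_ker, hA, hB]
    exact h c
  let e0 : LinearMap.range A ≃ₗ[P] LinearMap.range B :=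
    A.quotKerEquivRange.symm ≪≫ₗ (Submodule.quotEquivOfEq _ _ hker) ≪≫ₗ B.quotKerEquivRange
  have he0 : ∀ c, (e0 ⟨A c, ⟨c, rfl⟩⟩ : V) = B c := by
    intro c
    have h1 : (⟨A c, ⟨c, rfl⟩⟩ : LinearMap.range A) =
        A.quotKerEquivRange (Submodule.Quotient.mk c) := rfl
    simp only [e0, LinearEquiv.trans_apply]
    rw [h1, LinearEquiv.symm_apply_apply, Submodule.quotEquivOfEq_mk]
    rfl
  obtain ⟨g, hg⟩ := Submodule.exists_linearEquiv_restrict_eq e0
  refine ⟨g, fun j => ?_⟩
  have h1 := hg ⟨A (Pi.single j 1), ⟨_, rfl⟩⟩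
  rw [he0] at h1
  have h2 : A (Pi.single j 1) = a j := by
    rw [hA, Finset.sum_eq_single j]
    · simp
    · intro i _ hi
      simp [Pi.single_eq_of_ne hi]
    · intro h
      exact absurd (Finset.mem_univ j) h
  have h3 : B (Pi.single j 1) = b j := by
    rw [hB, Finset.sum_eq_single j]
    · simp
    · intro i _ hi
      simp [Pi.single_eq_of_ne hi]
    · intro h
      exact absurd (Finset.mem_univ j) h
  rw [h3] at h1
  have h4 : g (A (Pi.single j 1)) = b j := h1.symm
  rw [h2] at h4
  exact h4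

theorem bracket_eq_zero_of_one (u v : W P 1 m) : ⁅u, v⁆ = 0 := by
  have h0 : LieModule.lowerCentralSeries P (W P 1 m) (W P 1 m) 1 = ⊥ := inTheta_W P 1 m
  have h1 : ⁅u, v⁆ ∈ LieModule.lowerCentralSeries P (W P 1 m) (W P 1 m) 1 := by
    rw [LieModule.lowerCentralSeries_succ]
    exact LieSubmodule.lie_mem_lie (LieSubmodule.mem_top _) (LieSubmodule.mem_top _)
  rw [h0, LieSubmodule.mem_bot] at h1
  exact h1

theorem finite_one : Module.Finite P (W P 1 m) := by
  refine Module.Finite.of_surjective (M := Fin m → P) (Fintype.linearCombination P (gen P 1 m)) ?_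
  intro w
  obtain ⟨c, w', rfl⟩ := exists_decomp w
  refine ⟨c, ?_⟩
  rw [Fintype.linearCombination_apply, phi_apply]
  simp [bracket_eq_zero_of_one]

theorem homogeneous_one (k : ℕ) (μ ν : W P 1 k →ₗ⁅P⁆ W P 1 m) :
    TpH μ = TpH ν ↔ ∃ σ : W P 1 m ≃ₗ⁅P⁆ W P 1 m,
      ν = (σ : W P 1 m →ₗ⁅P⁆ W P 1 m).comp μ := by
  constructor
  · intro h
    have := finite_one (P := P) (m := m)
    have hrel : ∀ c : Fin k → P, ∑ j, c j • μ (gen P 1 k j) = 0 ↔
        ∑ j, c j • ν (gen P 1 k j) = 0 := by
      intro c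
      let φ : (lieLanguage P).Formula (Fin k) :=
        (tsum (List.finRange k) fun j => tsm (c j) (Term.var j)).equal t0
      have hφ : ∀ v : Fin k → W P 1 m, φ.Realize v ↔ ∑ j, c j • v j = 0 := by
        intro v
        simp only [φ]
        rw [Formula.realize_equal, realize_tsum]
        rfl
      have h1 : φ ∈ TpH μ ↔ φ ∈ TpH ν := by rw [h]
      exact (hφ _).symm.trans (h1.trans (hφ _))
    obtain ⟨e, he⟩ := exists_linearEquiv _ _ hrel
    refine ⟨{ e with
      map_lie' := ?_ }, ?_⟩
    · intro x y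
      show e ⁅x, y⁆ = ⁅e x, e y⁆
      rw [bracket_eq_zero_of_one, bracket_eq_zero_of_one, map_zero]
    · apply hom_ext
      intro j
      exact (he j).symm
  · rintro ⟨σ, rfl⟩
    exact tp_comp μ σ

theorem homogeneous_hom (hn : 1 ≤ n) (k : ℕ) (μ ν : W P n k →ₗ⁅P⁆ W P n m) :
    TpH μ = TpH ν ↔ ∃ σ : W P n m ≃ₗ⁅P⁆ W P n m,
      ν = (σ : W P n m →ₗ⁅P⁆ W P n m).comp μ := by
  rcases Nat.eq_or_lt_of_le hn with rfl | hn
  · exact homogeneous_one k μ ν
  · exact homogeneous_of_two_le hn k μ ν

theorem homogeneous_W (hn : 1 ≤ n) : LogicallyHomogeneous P (W P n m) := by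
  intro k a b
  obtain ⟨μ, hμ⟩ := exists_lift (inTheta_W P n m) a
  obtain ⟨ν, hν⟩ := exists_lift (inTheta_W P n m) b
  have h1 : Tp P a = TpH μ := by
    unfold TpH
    congr 1
    funext i
    exact (hμ i).symm
  have h2 : Tp P b = TpH ν := by
    unfold TpH
    congr 1
    funext i
    exact (hν i).symm
  rw [h1, h2, homogeneous_hom hn]
  refine exists_congr fun σ => ?_
  constructor
  · rintro rfl i
    rw [← hμ, ← hν]
    rfl
  · intro h
    apply hom_ext
    intro i
    rw [hν, h, ← hμ]
    rfl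

theorem logicallyPerfect (hn : 1 ≤ n) : LogicallyPerfect P n :=
  fun m => homogeneous_W (m := m) hn

theorem tp_mono_term {H : Type v} [LieRing H] [LieAlgebra P H] {H' : Type w} [LieRing H']
    [LieAlgebra P H'] {μ : W P n k →ₗ⁅P⁆ H} {ν : W P n k →ₗ⁅P⁆ H'}
    (h : TpH μ = TpH ν) (a b : W P n k) : μ a = μ b ↔ ν a = ν b := by
  obtain ⟨s, rfl⟩ := exists_term a
  obtain ⟨t, rfl⟩ := exists_term b
  have h1 : s.equal t ∈ TpH μ ↔ s.equal t ∈ TpH ν := by rw [h]
  have h2 : s.equal t ∈ TpH μ ↔ μ (s.realize (gen P n k)) = μ (t.realize (gen P n k)) := by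
    show Formula.Realize _ _ ↔ _
    rw [Formula.realize_equal, realize_hom, realize_hom]
  have h3 : s.equal t ∈ TpH ν ↔ ν (s.realize (gen P n k)) = ν (t.realize (gen P n k)) := by
    show Formula.Realize _ _ ↔ _
    rw [Formula.realize_equal, realize_hom, realize_hom]
  rw [← h2, h1, h3]

theorem tp_relabel {H : Type v} [LieRing H] [LieAlgebra P H] {H' : Type w} [LieRing H']
    [LieAlgebra P H'] {l : ℕ} {μ : W P n k →ₗ⁅P⁆ H} {ν : W P n k →ₗ⁅P⁆ H'}
    (h : TpH μ = TpH ν) (f : Fin l → Fin k) {μ' : W P n l →ₗ⁅P⁆ H} {ν' : W P n l →ₗ⁅P⁆ H'}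
    (hμ : ∀ i, μ' (gen P n l i) = μ (gen P n k (f i)))
    (hν : ∀ i, ν' (gen P n l i) = ν (gen P n k (f i))) : TpH μ' = TpH ν' := by
  ext φ
  have h1 : φ.relabel f ∈ TpH μ ↔ φ.relabel f ∈ TpH ν := by rw [h]
  have h2 : φ.relabel f ∈ TpH μ ↔ φ ∈ TpH μ' := by
    show Formula.Realize _ _ ↔ Formula.Realize _ _
    rw [Formula.realize_relabel]
    have : (fun i => μ (gen P n k i)) ∘ f = fun i => μ' (gen P n l i) := by
      funext i
      exact (hμ i).symm
    rw [this]
  have h3 : φ.relabel f ∈ TpH ν ↔ φ ∈ TpH ν' := by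
    show Formula.Realize _ _ ↔ Formula.Realize _ _
    rw [Formula.realize_relabel]
    have : (fun i => ν (gen P n k i)) ∘ f = fun i => ν' (gen P n l i) := by
      funext i
      exact (hν i).symm
    rw [this]
  rw [← h2, h1, h3]

theorem isotypic_hom {H : Type v} [LieRing H] [LieAlgebra P H] {H' : Type w} [LieRing H']
    [LieAlgebra P H'] (hH' : InTheta P n H') (h : Isotypic P H H') (μ : W P n k →ₗ⁅P⁆ H) :
    ∃ ν : W P n k →ₗ⁅P⁆ H', TpH ν = TpH μ := by
  have h1 : TpH μ ∈ {T | ∃ a : Fin k → H, Tp P a = T} := ⟨_, rfl⟩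
  rw [h k] at h1
  obtain ⟨a, ha⟩ := h1
  obtain ⟨ν, hν⟩ := exists_lift (n := n) hH' a
  refine ⟨ν, ?_⟩
  rw [← ha]
  unfold TpH
  congr 1
  funext i
  exact hν i

theorem Isotypic.symm {H : Type v} [LieRing H] [LieAlgebra P H] {H' : Type w} [LieRing H']
    [LieAlgebra P H'] (h : Isotypic P H H') : Isotypic P H' H := fun k => (h k).symm

theorem separable_W (hn : 1 ≤ n) : LogicallySeparable.{u, v, u} P n (W P n m) := by
  intro H' _ _ hH' hiso
  -- a point of `H'` with the type of the generators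
  obtain ⟨μ, hμ⟩ : ∃ μ : W P n m →ₗ⁅P⁆ H', TpH μ = TpH (LieHom.id : W P n m →ₗ⁅P⁆ W P n m) :=
    isotypic_hom hH' hiso.symm _
  have hinj : Function.Injective μ := by
    intro a b hab
    exact (tp_mono_term hμ a b).1 hab
  have hsurj : Function.Surjective μ := by
    intro h
    -- adjoin `h` to the images of the generators
    obtain ⟨lam, hlam⟩ := exists_lift (P := P) (n := n) (k := m + 1) hH'
      (Fin.snoc (α := fun _ => H') (fun i => μ (gen P n m i)) h)
    obtain ⟨ρ, hρ⟩ : ∃ ρ : W P n (m + 1) →ₗ⁅P⁆ W P n m, TpH ρ = TpH lam :=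
      isotypic_hom (inTheta_W P n m) hiso _
    obtain ⟨ι, hι⟩ := exists_lift (inTheta_W P n (m + 1))
      (fun i : Fin m => gen P n (m + 1) i.castSucc)
    have hlamι : ∀ i, μ (gen P n m i) = lam (gen P n (m + 1) i.castSucc) := by
      intro i
      rw [hlam, Fin.snoc_castSucc]
    have hT : TpH (ρ.comp ι) = TpH μ := by
      apply tp_relabel hρ (fun i : Fin m => i.castSucc)
      · intro i
        show ρ (ι (gen P n m i)) = _
        rw [hι]
      · exact hlamι
    rw [hμ] at hT
    obtain ⟨σ, hσ⟩ := (homogeneous_hom (P := P) hn m LieHom.id (ρ.comp ι)).1 hT.symm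
    have hσ' : ∀ a, ρ (ι a) = σ a := fun a => LieHom.congr_fun hσ a
    refine ⟨σ.symm (ρ (gen P n (m + 1) (Fin.last m))), ?_⟩
    have h2 : ρ (ι (σ.symm (ρ (gen P n (m + 1) (Fin.last m))))) =
        ρ (gen P n (m + 1) (Fin.last m)) := by
      rw [hσ', LieEquiv.apply_symm_apply]
    have h3 := (tp_mono_term hρ _ _).1 h2
    have h4 : lam (gen P n (m + 1) (Fin.last m)) = h := by
      rw [hlam, Fin.snoc_last]
    rw [h4] at h3
    rw [← h3]
    have h5 : lam.comp ι = μ := by
      apply hom_ext
      intro i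
      show lam (ι (gen P n m i)) = _
      rw [hι, ← hlamι]
    exact (LieHom.congr_fun h5 _).symm
  exact ⟨(LieEquiv.ofBijective μ ⟨hinj, hsurj⟩).symm⟩

theorem logicallyRegular (hn : 1 ≤ n) : LogicallyRegular.{u, v} P n :=
  fun m => separable_W (m := m) hn

end Homogeneity

end Pool.Agent.H79.NilpLie
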