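import Pool.Agent.TM.Cert

/-!
# Predicates decided in polynomial time: a calculus
-/

set_option autoImplicit false

namespace TMLib

variable {α β γ : Type} [Enc α] [Enc β] [Enc γ]

/-- Predicates decided in polynomial time. -/
def PDec {α : Type} [Enc α] (P : α → Prop) : Prop := ∃ V : α → Bool, PTime V ∧ ∀ x, V x = true ↔ P x

namespace PDec

lemma congr {P Q : α → Prop} (h : PDec P) (hPQ : ∀ x, Q x ↔ P x) : PDec Q := by
  rwa [show Q = P from funext fun x => propext (hPQ x)]

lemma const (p : Prop) : PDec (fun _ : α => p) := by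
  classical
  exact ⟨fun _ => decide p, PTime.const _, fun _ => by simp⟩

lemma of_bool {g : α → Bool} (hg : PTime g) : PDec (fun x => g x = true) := ⟨g, hg, fun _ => Iff.rfl⟩

lemma of_bool' {g : α → Bool} (hg : PTime g) : PDec (fun x => g x = false) :=
  ⟨fun x => !g x, PTime.not hg, fun x => by simp⟩

lemma and {P Q : α → Prop} (hP : PDec P) (hQ : PDec Q) : PDec (fun x => P x ∧ Q x) := by
  obtain ⟨V, h1, h2⟩ := hP
  obtain ⟨W, h3, h4⟩ := hQ
  exact ⟨fun x => V x && W x, PTime.and h1 h3, fun x => by simp [h2, h4]⟩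

lemma or {P Q : α → Prop} (hP : PDec P) (hQ : PDec Q) : PDec (fun x => P x ∨ Q x) := by
  obtain ⟨V, h1, h2⟩ := hP
  obtain ⟨W, h3, h4⟩ := hQ
  exact ⟨fun x => V x || W x, PTime.or h1 h3, fun x => by simp [h2, h4]⟩

lemma not {P : α → Prop} (hP : PDec P) : PDec (fun x => ¬ P x) := by
  obtain ⟨V, h1, h2⟩ := hP
  exact ⟨fun x => !V x, PTime.not h1, fun x => by simp [← h2]⟩

lemma imp {P Q : α → Prop} (hP : PDec P) (hQ : PDec Q) : PDec (fun x => P x → Q x) :=
  (hP.not.or hQ).congr fun x => by tauto

lemma iff {P Q : α → Prop} (hP : PDec P) (hQ : PDec Q) : PDec (fun x => P x ↔ Q x) :=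
  ((hP.imp hQ).and (hQ.imp hP)).congr fun x => by tauto

lemma comp {P : β → Prop} {g : α → β} (hP : PDec P) (hg : PTime g) : PDec (fun x => P (g x)) := by
  obtain ⟨V, h1, h2⟩ := hP
  exact ⟨fun x => V (g x), h1.comp hg, fun x => h2 _⟩

lemma forall_mem {P : α → β → Prop} {l : α → List β} (hl : PTime l)
    (hP : PDec (fun p : α × β => P p.1 p.2)) : PDec (fun x => ∀ b ∈ l x, P x b) := by
  obtain ⟨V, h1, h2⟩ := hP
  refine ⟨fun x => (l x).all fun b => V (x, b), PTime.all (g := fun x b => V (x, b)) hl h1,
    fun x => ?_⟩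
  rw [List.all_eq_true]
  exact forall₂_congr fun b _ => h2 (x, b)

lemma exists_mem {P : α → β → Prop} {l : α → List β} (hl : PTime l)
    (hP : PDec (fun p : α × β => P p.1 p.2)) : PDec (fun x => ∃ b ∈ l x, P x b) := by
  obtain ⟨V, h1, h2⟩ := hP
  refine ⟨fun x => (l x).any fun b => V (x, b), PTime.any (g := fun x b => V (x, b)) hl h1,
    fun x => ?_⟩
  rw [List.any_eq_true]
  exact exists_congr fun b => and_congr_right fun _ => h2 (x, b)

lemma forall_lt {P : α → ℕ → Prop} {n : α → ℕ} (hn : PTime n)
    (hP : PDec (fun p : α × ℕ => P p.1 p.2)) : PDec (fun x => ∀ i, i < n x → P x i) :=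
  (forall_mem (PTime.range hn) hP).congr fun x => by simp

lemma exists_lt {P : α → ℕ → Prop} {n : α → ℕ} (hn : PTime n)
    (hP : PDec (fun p : α × ℕ => P p.1 p.2)) : PDec (fun x => ∃ i, i < n x ∧ P x i) :=
  (exists_mem (PTime.range hn) hP).congr fun x => by simp

/-- Quantification over a fixed finite list, whose elements need not be encoded. -/
lemma exists_const {ι : Type} (L : List ι) {P : α → ι → Prop} (hP : ∀ i ∈ L, PDec (fun x => P x i)) :
    PDec (fun x => ∃ i ∈ L, P x i) := by
  induction L with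
  | nil => exact (const False).congr fun x => by simp
  | cons i L ih =>
    refine ((hP i List.mem_cons_self).or (ih fun j hj => hP j (List.mem_cons_of_mem _ hj))).congr
      fun x => by simp

/-- Quantification over a fixed finite list, whose elements need not be encoded. -/
lemma forall_const {ι : Type} (L : List ι) {P : α → ι → Prop} (hP : ∀ i ∈ L, PDec (fun x => P x i)) :
    PDec (fun x => ∀ i ∈ L, P x i) := by
  induction L with
  | nil => exact (const True).congr fun x => by simp
  | cons i L ih =>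
    refine ((hP i List.mem_cons_self).and (ih fun j hj => hP j (List.mem_cons_of_mem _ hj))).congr
      fun x => by simp

lemma eq [EncInj β] {f g : α → β} (hf : PTime f) (hg : PTime g) : PDec (fun x => f x = g x) := by
  classical
  exact ⟨fun x => decide (f x = g x), PTime.eq hf hg, fun x => by simp⟩

lemma ne [EncInj β] {f g : α → β} (hf : PTime f) (hg : PTime g) : PDec (fun x => f x ≠ g x) :=
  (eq hf hg).not

lemma mem [EncInj β] {f : α → β} {l : α → List β} (hf : PTime f) (hl : PTime l) :
    PDec (fun x => f x ∈ l x) := by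
  classical
  exact ⟨fun x => decide (f x ∈ l x), PTime.mem hf hl, fun x => by simp⟩

lemma not_mem [EncInj β] {f : α → β} {l : α → List β} (hf : PTime f) (hl : PTime l) :
    PDec (fun x => f x ∉ l x) := (mem hf hl).not

lemma le {f g : α → ℕ} (hf : PTime f) (hg : PTime g) : PDec (fun x => f x ≤ g x) :=
  ⟨fun x => decide (f x ≤ g x), PTime.le hf hg, fun x => by simp⟩

lemma lt {f g : α → ℕ} (hf : PTime f) (hg : PTime g) : PDec (fun x => f x < g x) :=
  ⟨fun x => decide (f x < g x), PTime.lt hf hg, fun x => by simp⟩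

end PDec

/-! The following block proves polynomial time decidability of a formula by the closure lemmas;
the leaves about functions are left to `fun_prop`. -/

example : PDec (fun p : List (ℕ × ℕ × ℕ) × ℕ => ∀ t ∈ p.1, ∀ s ∈ p.1, t.1 = s.1 → t.2.1 = p.2 →
    ∃ r ∈ p.1, r.2.2 < p.2 ∨ ¬ r = (t.1, s.1, p.2)) := by
  repeat (first
    | exact PDec.of_bool (by fun_prop)
    | exact PDec.of_bool' (by fun_prop)
    | refine PDec.forall_lt (by fun_prop) ?_
    | refine PDec.exists_lt (by fun_prop) ?_
    | refine PDec.forall_mem (by fun_prop) ?_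
    | refine PDec.exists_mem (by fun_prop) ?_
    | refine PDec.and ?_ ?_
    | refine PDec.or ?_ ?_
    | exact PDec.lt (by fun_prop) (by fun_prop)
    | exact PDec.le (by fun_prop) (by fun_prop)
    | exact PDec.ne (by fun_prop) (by fun_prop)
    | exact PDec.eq (by fun_prop) (by fun_prop)
    | exact PDec.not_mem (by fun_prop) (by fun_prop)
    | exact PDec.mem (by fun_prop) (by fun_prop)
    | refine PDec.not ?_
    | refine PDec.iff ?_ ?_
    | refine PDec.imp ?_ ?_)

end TMLib
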