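import Mathlib

/-!
# Parikh tree automata with and without reset: definitions
-/

namespace Pool.Agent.H79.PTARLib

open Set

/-- Finite ordered trees over a ranked alphabet `(S, rk)`: a node labelled `s` has
exactly `rk s` (ordered) children. -/
inductive RTree (S : Type) (rk : S → ℕ) : Type
  | node (s : S) (ch : Fin (rk s) → RTree S rk) : RTree S rk

/-- An `m`-dimensional Parikh tree automaton with reset over the ranked alphabet `(S, rk)`:
a finite set `Q` of states, an initial state `q0`, a semilinear set `C` of counter vectors and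
a finite set `Δ` of transitions `q → s(q₁(e₁), …, q_k(e_k))`, `k = rk s`, where each `eᵢ` is
`some e` (add the vector `e`) or `none` (reset).  For `rk s = 0` the tuple is empty and the
transition is `q → s`. -/
structure PTAR (S : Type) (rk : S → ℕ) (m : ℕ) where
  Q : Type
  finiteQ : Finite Q
  q0 : Q
  C : Set (Fin m → ℕ)
  semilinearC : IsSemilinearSet C
  Δ : Set (Q × (Σ s : S, Fin (rk s) → Q × Option (Fin m → ℕ)))
  finiteΔ : Δ.Finite

/-- The counter vector passed to a child along an edge carrying `some e` (increment by `e`) or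
`none` (reset to zero), when the parent carries `v`. -/
def update {m : ℕ} (v : Fin m → ℕ) (e : Option (Fin m → ℕ)) : Fin m → ℕ :=
  e.elim 0 (fun e => v + e)

/-- `A.Run ξ q v`: there is a run of `A` on the tree `ξ` whose root carries the pair `(q, v)`.
At an inner node the children get their pairs from some transition; at a leaf the counter
vector must lie in `C`. -/
inductive PTAR.Run {S : Type} {rk : S → ℕ} {m : ℕ} (A : PTAR S rk m) :
    RTree S rk → A.Q → (Fin m → ℕ) → Prop
  | node (s : S) (ch : Fin (rk s) → RTree S rk) (q : A.Q) (v : Fin m → ℕ)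
      (t : Fin (rk s) → A.Q × Option (Fin m → ℕ)) :
      (q, ⟨s, t⟩) ∈ A.Δ → (rk s = 0 → v ∈ A.C) →
      (∀ i, PTAR.Run A (ch i) (t i).1 (update v (t i).2)) → PTAR.Run A (.node s ch) q v

/-- The tree language of `A`: the trees with a run whose root pair is `(q0, 0)`. -/
def PTAR.lang {S : Type} {rk : S → ℕ} {m : ℕ} (A : PTAR S rk m) : Set (RTree S rk) :=
  {ξ | A.Run ξ A.q0 0}

/-- `A` is a Parikh tree automaton (without reset): no transition contains a reset. -/
def PTAR.IsPTA {S : Type} {rk : S → ℕ} {m : ℕ} (A : PTAR S rk m) : Prop :=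
  ∀ tr ∈ A.Δ, ∀ i, (tr.2.2 i).2 ≠ none

/-- Tree languages recognized by some `m`-PTAR, `m ≥ 1`. -/
def PTARRecognizable {S : Type} {rk : S → ℕ} (L : Set (RTree S rk)) : Prop :=
  ∃ m : ℕ, 1 ≤ m ∧ ∃ A : PTAR S rk m, A.lang = L

/-- Tree languages recognized by some `m`-PTA, `m ≥ 1`. -/
def PTARecognizable {S : Type} {rk : S → ℕ} (L : Set (RTree S rk)) : Prop :=
  ∃ m : ℕ, 1 ≤ m ∧ ∃ A : PTAR S rk m, A.IsPTA ∧ A.lang = L

/-! ### The candidate automaton of the problem -/

/-- The alphabet `{σ, a, b, α}`. -/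
inductive Sym
  | σ | a | b | α

/-- Ranks: `σ` is binary, `a` and `b` are unary, `α` is nullary. -/
def Sym.rk : Sym → ℕ
  | .σ => 2
  | .a => 1
  | .b => 1
  | .α => 0

instance : Finite Sym :=
  Finite.of_surjective (fun i : Fin 4 => match i with
    | 0 => Sym.σ | 1 => Sym.a | 2 => Sym.b | 3 => Sym.α) (by
    intro s
    cases s
    · exact ⟨0, rfl⟩
    · exact ⟨1, rfl⟩
    · exact ⟨2, rfl⟩
    · exact ⟨3, rfl⟩)

section Transitions

variable {Q : Type} {m : ℕ}

/-- Transitions over the alphabet `Sym`. -/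
abbrev Tr (Q : Type) (m : ℕ) : Type := Q × (Σ s : Sym, Fin s.rk → Q × Option (Fin m → ℕ))

/-- The transition `q → a(q'(e))`. -/
def trA (q q' : Q) (e : Option (Fin m → ℕ)) : Tr Q m :=
  (q, ⟨.a, fun _ => (q', e)⟩)

/-- The transition `q → b(q'(e))`. -/
def trB (q q' : Q) (e : Option (Fin m → ℕ)) : Tr Q m :=
  (q, ⟨.b, fun _ => (q', e)⟩)

/-- The transition `q → σ(q₁(e₁), q₂(e₂))`. -/
def trS (q q1 : Q) (e1 : Option (Fin m → ℕ)) (q2 : Q) (e2 : Option (Fin m → ℕ)) : Tr Q m :=
  (q, ⟨.σ, fun i => if i.val = 0 then (q1, e1) else (q2, e2)⟩)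

/-- The transition `q → α`. -/
def trL (q : Q) : Tr Q m :=
  (q, ⟨.α, fun i => Fin.elim0 i⟩)

end Transitions

/-- The transitions of the candidate: states `q₀ = false`, `q₁ = true`,
`q_j → a(q_j(1,0))`, `q_j → b(q_j(0,1))`, `q₀ → σ(q₁(0,0), q₀(reset))`,
`q₀ → σ(q₁(0,0), q₁(0,0))`, `q₁ → α`. -/
def candΔ : Set (Tr Bool 2) :=
  {trA false false (some ![1, 0]), trA true true (some ![1, 0]),
   trB false false (some ![0, 1]), trB true true (some ![0, 1]),
   trS false true (some ![0, 0]) false none,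
   trS false true (some ![0, 0]) true (some ![0, 0]),
   trL true}

/-- The acceptance set `{(i, i)}` is semilinear. -/
theorem semilinear_diag : IsSemilinearSet {v : Fin 2 → ℕ | v 0 = v 1} := by
  have := isSemilinearSet_setOfPred_eq (M := Fin 2 → ℕ) (N := ℕ) 0 0
    (Pi.evalAddMonoidHom (fun _ : Fin 2 => ℕ) 0) (Pi.evalAddMonoidHom (fun _ : Fin 2 => ℕ) 1)
  simpa using this

/-- The candidate `2`-PTAR. -/
def cand : PTAR Sym Sym.rk 2 where
  Q := Bool
  finiteQ := inferInstance
  q0 := false
  C := {v | v 0 = v 1}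
  semilinearC := semilinear_diag
  Δ := candΔ
  finiteΔ := by
    unfold candΔ
    exact Set.toFinite _


end Pool.Agent.H79.PTARLib
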