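import Mathlib
import Pool.Agent.H79.PTARDefs

namespace Pool.Agent.H79.PTARLib

open Set

theorem PTAR.run_node {S : Type} {rk : S → ℕ} {m : ℕ} (A : PTAR S rk m) {s : S}
    {ch : Fin (rk s) → RTree S rk} {q : A.Q} {v : Fin m → ℕ} :
    A.Run (.node s ch) q v ↔ ∃ t : Fin (rk s) → A.Q × Option (Fin m → ℕ),
      (q, ⟨s, t⟩) ∈ A.Δ ∧ (rk s = 0 → v ∈ A.C) ∧
        ∀ i, A.Run (ch i) (t i).1 (update v (t i).2) := by
  constructor
  · intro h
    cases h with
    | node _ _ _ _ t h1 h2 h3 => exact ⟨t, h1, h2, h3⟩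
  · rintro ⟨t, h1, h2, h3⟩
    exact .node s ch q v t h1 h2 h3

/-! ### Path sums in a finite graph with semilinear labels -/

section Paths

open Pointwise AddSubmonoid

variable {Q M : Type*} [AddCommMonoid M]

/-- Sums along paths all of whose intermediate vertices lie in `X`. -/
inductive PathIn (E : Q → Q → Set M) (X : Set Q) : Q → Q → M → Prop
  | nil (r : Q) : PathIn E X r r 0
  | single {r r' : Q} {e : M} : e ∈ E r r' → PathIn E X r r' e
  | cons {r z r' : Q} {e g : M} : e ∈ E r z → z ∈ X → PathIn E X z r' g → PathIn E X r r' (e + g)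

theorem PathIn.mono {E : Q → Q → Set M} {X Y : Set Q} (h : X ⊆ Y) {r r' : Q} {g : M}
    (hp : PathIn E X r r' g) : PathIn E Y r r' g := by
  induction hp with
  | nil r => exact .nil r
  | single he => exact .single he
  | cons he hz _ ih => exact .cons he (h hz) ih

theorem PathIn.append {E : Q → Q → Set M} {X : Set Q} {r z r' : Q} {g g' : M}
    (hp : PathIn E X r z g) (hz : z ∈ X) (hq : PathIn E X z r' g') :
    PathIn E X r r' (g + g') := by
  induction hp with
  | nil r => simpa using hq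
  | single he => exact .cons he hz hq
  | cons he hz' _ ih => rw [add_assoc]; exact .cons he hz' (ih hz hq)

theorem PathIn.of_closure {E : Q → Q → Set M} {X : Set Q} {z : Q} (hz : z ∈ X) {g : M}
    (hg : g ∈ closure {h | PathIn E X z z h}) : PathIn E X z z g := by
  induction hg using closure_induction with
  | mem x hx => exact hx
  | zero => exact .nil z
  | add x y _ _ ihx ihy => exact ihx.append hz ihy

theorem pathIn_insert_iff {E : Q → Q → Set M} {X : Set Q} {z r r' : Q} {g : M} :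
    PathIn E (insert z X) r r' g ↔ PathIn E X r r' g ∨
      g ∈ ({h | PathIn E X r z h} + (closure {h | PathIn E X z z h} : Set M)
        + {h | PathIn E X z r' h} : Set M) := by
  constructor
  · intro hp
    induction hp with
    | nil r => exact .inl (.nil r)
    | single he => exact .inl (.single he)
    | @cons r z' r' e g he hz' _ ih =>
      rcases hz' with rfl | hz'
      · right
        rcases ih with ih | ih
        · refine Set.mem_add.2 ⟨e, ?_, g, ih, rfl⟩
          exact Set.mem_add.2 ⟨e, PathIn.single he, 0, zero_mem _, add_zero _⟩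
        · obtain ⟨g12, h12, g3, h3, rfl⟩ := Set.mem_add.1 ih
          obtain ⟨g1, h1, g2, h2, rfl⟩ := Set.mem_add.1 h12
          refine Set.mem_add.2 ⟨e + (g1 + g2), ?_, g3, h3, by abel⟩
          exact Set.mem_add.2 ⟨e, PathIn.single he, g1 + g2,
            add_mem (mem_closure_of_mem h1) h2, rfl⟩
      · rcases ih with ih | ih
        · exact .inl (.cons he hz' ih)
        · right
          obtain ⟨g12, h12, g3, h3, rfl⟩ := Set.mem_add.1 ih
          obtain ⟨g1, h1, g2, h2, rfl⟩ := Set.mem_add.1 h12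
          refine Set.mem_add.2 ⟨e + g1 + g2, ?_, g3, h3, by abel⟩
          exact Set.mem_add.2 ⟨e + g1, PathIn.cons he hz' h1, g2, h2, rfl⟩
  · rintro (hp | hp)
    · exact hp.mono (subset_insert _ _)
    · obtain ⟨g12, h12, g3, h3, rfl⟩ := Set.mem_add.1 hp
      obtain ⟨g1, h1, g2, h2, rfl⟩ := Set.mem_add.1 h12
      have hz : z ∈ insert z X := mem_insert _ _
      have h1' : PathIn E (insert z X) r z g1 := PathIn.mono (subset_insert _ _) h1
      have h3' : PathIn E (insert z X) z r' g3 := PathIn.mono (subset_insert _ _) h3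
      have h2' : PathIn E (insert z X) z z g2 := by
        apply PathIn.of_closure hz
        refine closure_mono ?_ h2
        intro x hx
        exact PathIn.mono (subset_insert _ _) hx
      exact (h1'.append hz h2').append hz h3'

theorem isSemilinearSet_pathIn {E : Q → Q → Set M} (hE : ∀ r r', IsSemilinearSet (E r r'))
    {X : Set Q} (hX : X.Finite) : ∀ r r', IsSemilinearSet {g | PathIn E X r r' g} := by
  classical
  induction X, hX using Set.Finite.induction_on with
  | empty =>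
    intro r r'
    have : {g | PathIn E (∅ : Set Q) r r' g} = (if r = r' then {0} else ∅) ∪ E r r' := by
      ext g
      constructor
      · intro hp
        cases hp with
        | nil r => left; simp
        | single he => right; exact he
        | cons he hz _ => exact absurd hz (notMem_empty _)
      · rintro (hg | hg)
        · split_ifs at hg with h
          · subst h
            rw [mem_singleton_iff.1 hg]
            exact PathIn.nil r
          · exact absurd hg (notMem_empty _)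
        · exact PathIn.single hg
    rw [this]
    refine IsSemilinearSet.union ?_ (hE r r')
    split_ifs
    · exact .singleton 0
    · exact .empty
  | @insert z X _ _ ih =>
    intro r r'
    have : {g | PathIn E (insert z X) r r' g} = {g | PathIn E X r r' g} ∪
        ({h | PathIn E X r z h} + (closure {h | PathIn E X z z h} : Set M)
          + {h | PathIn E X z r' h} : Set M) := by
      ext g
      exact pathIn_insert_iff
    rw [this]
    exact (ih r r').union (((ih r z).add (ih z z).closure).add (ih z r'))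

end Paths

/-- `Uniq S p`: `p.2` is the only `y` with `(p.1, y) ∈ S`. -/
def Uniq {T : Type*} (S : Set (T × ℕ)) (p : T × ℕ) : Prop := ∀ y, (p.1, y) ∈ S ↔ y = p.2

theorem isSemilinearSet_uniq {m : ℕ} {S : Set ((Fin m → ℕ) × ℕ)} (hS : IsSemilinearSet S) :
    IsSemilinearSet {p | Uniq S p} := by
  let f1 : (((Fin m → ℕ) × ℕ) × ℕ) →+ ((Fin m → ℕ) × ℕ) :=
    (AddMonoidHom.fst (Fin m → ℕ) ℕ).comp (AddMonoidHom.fst ((Fin m → ℕ) × ℕ) ℕ) |>.prod
      (AddMonoidHom.snd ((Fin m → ℕ) × ℕ) ℕ)
  let g1 : (((Fin m → ℕ) × ℕ) × ℕ) →+ ℕ :=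
    (AddMonoidHom.snd (Fin m → ℕ) ℕ).comp (AddMonoidHom.fst ((Fin m → ℕ) × ℕ) ℕ)
  let g2 : (((Fin m → ℕ) × ℕ) × ℕ) →+ ℕ := AddMonoidHom.snd ((Fin m → ℕ) × ℕ) ℕ
  have h1 : IsSemilinearSet {x : (((Fin m → ℕ) × ℕ) × ℕ) | 0 + g1 x = 0 + g2 x} :=
    isSemilinearSet_setOfPred_eq 0 0 g1 g2
  have h2 : IsSemilinearSet ((f1 ⁻¹' S) \ {x | 0 + g1 x = 0 + g2 x}) := (hS.preimage f1).sdiff h1
  have h3 := h2.image (AddMonoidHom.fst ((Fin m → ℕ) × ℕ) ℕ)
  have h4 := hS.sdiff h3
  convert h4 using 1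
  ext ⟨t, y⟩
  constructor
  · intro h
    refine ⟨(h y).2 rfl, ?_⟩
    rintro ⟨⟨⟨t', y'⟩, y''⟩, ⟨hm, hne⟩, heq⟩
    have heq' : (t', y') = (t, y) := heq
    obtain ⟨rfl, rfl⟩ := Prod.mk.inj heq'
    have : (t', y'') ∈ S := hm
    apply hne
    have := (h y'').1 this
    simpa [g1, g2] using this.symm
  · rintro ⟨hm, hn⟩ y'
    constructor
    · intro hy'
      by_contra hne
      apply hn
      refine ⟨⟨⟨t, y⟩, y'⟩, ⟨hy', ?_⟩, rfl⟩
      intro h
      apply hne
      have : 0 + y = 0 + y' := h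
      simpa using this.symm
    · rintro rfl
      exact hm

theorem linear_lipschitz {m : ℕ} {L : Set ((Fin m → ℕ) × ℕ)} (hL : IsLinearSet L)
    (hfun : ∀ t y y', (t, y) ∈ L → (t, y') ∈ L → y = y') :
    ∃ K : ℕ, ∀ p ∈ L, ∀ p' ∈ L, ∀ D : ℕ, (∀ j, p.1 j ≤ p'.1 j + D) →
      (∀ j, p'.1 j ≤ p.1 j + D) → p.2 ≤ p'.2 + K * D := by
  obtain ⟨a, n, f, rfl⟩ := isLinearSet_iff_exists_fin_addMonoidHom.1 hL
  -- coordinates of `f`
  let v : Fin n → Fin m → ℕ := fun i => (f (Pi.single i 1)).1
  let w : Fin n → ℕ := fun i => (f (Pi.single i 1)).2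
  have hf : ∀ c : Fin n → ℕ, f c = ∑ i, c i • f (Pi.single i 1) := by
    intro c
    conv_lhs => rw [← Finset.univ_sum_single c]
    rw [map_sum]
    refine Finset.sum_congr rfl fun i _ => ?_
    rw [← map_nsmul]
    congr 1
    ext j
    by_cases h : j = i
    · subst h; simp
    · simp [h]
  have hf1 : ∀ (c : Fin n → ℕ) (j : Fin m), (f c).1 j = ∑ i, c i * v i j := by
    intro c j
    rw [hf c]
    simp [Prod.fst_sum, Finset.sum_apply, v]
  have hf2 : ∀ (c : Fin n → ℕ), (f c).2 = ∑ i, c i * w i := by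
    intro c
    rw [hf c]
    simp [Prod.snd_sum, w]
  let V : (Fin n → ℚ) →ₗ[ℚ] (Fin m → ℚ) :=
    { toFun := fun z j => ∑ i, z i * (v i j : ℚ)
      map_add' := by
        intro x y; ext j; simp [add_mul, Finset.sum_add_distrib]
      map_smul' := by
        intro c x; ext j; simp [Finset.mul_sum, mul_assoc] }
  let Y : (Fin n → ℚ) →ₗ[ℚ] ℚ :=
    { toFun := fun z => ∑ i, z i * (w i : ℚ)
      map_add' := by
        intro x y; simp [add_mul, Finset.sum_add_distrib]
      map_smul' := by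
        intro c x; simp [Finset.mul_sum, mul_assoc] }
  have hV : ∀ z j, V z j = ∑ i, z i * (v i j : ℚ) := fun _ _ => rfl
  have hY : ∀ z, Y z = ∑ i, z i * (w i : ℚ) := fun _ => rfl
  have hker : ∀ z, V z = 0 → Y z = 0 := by
    intro z hz
    -- common denominator
    let N : ℕ := ∏ i, (z i).den
    have hN : (N : ℚ) ≠ 0 := by
      simp only [N]
      push_cast
      exact Finset.prod_ne_zero_iff.2 fun i _ => by exact_mod_cast (z i).den_nz
    have hint : ∀ i, ∃ u : ℤ, (u : ℚ) = N * z i := by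
      intro i
      refine ⟨(∏ j ∈ Finset.univ.erase i, ((z j).den : ℤ)) * (z i).num, ?_⟩
      have h1 : (N : ℚ) = (∏ j ∈ Finset.univ.erase i, ((z j).den : ℚ)) * (z i).den := by
        simp only [N]
        push_cast
        rw [Finset.prod_erase_mul _ _ (Finset.mem_univ i)]
      rw [h1]
      push_cast
      rw [mul_assoc]
      congr 1
      have := Rat.den_mul_eq_num (z i)
      exact this.symm
    choose u hu using hint
    have hfun' := hfun (a + f (fun i => (u i).toNat)).1 (a + f (fun i => (u i).toNat)).2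
      (a + f (fun i => (-u i).toNat)).2 ⟨_, ⟨_, rfl⟩, rfl⟩ ?_
    · have h2 : (f (fun i => (u i).toNat)).2 = (f (fun i => (-u i).toNat)).2 := by
        have : a.2 + (f (fun i => (u i).toNat)).2 = a.2 + (f (fun i => (-u i).toNat)).2 := hfun'
        exact Nat.add_left_cancel this
      rw [hf2, hf2] at h2
      have h3 : ((∑ i, (u i).toNat * w i : ℕ) : ℚ) = ((∑ i, (-u i).toNat * w i : ℕ) : ℚ) := by
        rw [h2]
      push_cast at h3
      have h4 : ∑ i, (((u i).toNat : ℚ) - ((-u i).toNat : ℚ)) * w i = 0 := by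
        simp only [sub_mul, Finset.sum_sub_distrib]
        rw [h3, sub_self]
      have h5 : ∀ i, (((u i).toNat : ℚ) - ((-u i).toNat : ℚ)) = N * z i := by
        intro i
        rw [← hu i]
        have := Int.toNat_sub_toNat_neg (u i)
        exact_mod_cast congrArg (fun x : ℤ => (x : ℚ)) this
      simp only [h5, mul_assoc, ← Finset.mul_sum] at h4
      rw [hY]
      exact (mul_eq_zero.1 h4).resolve_left hN
    · have h1 : (f (fun i => (u i).toNat)).1 = (f (fun i => (-u i).toNat)).1 := by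
        ext j
        rw [hf1, hf1]
        have h4 : ∑ i, (((u i).toNat : ℚ) - ((-u i).toNat : ℚ)) * v i j = 0 := by
          have h5 : ∀ i, (((u i).toNat : ℚ) - ((-u i).toNat : ℚ)) = N * z i := by
            intro i
            rw [← hu i]
            have := Int.toNat_sub_toNat_neg (u i)
            exact_mod_cast congrArg (fun x : ℤ => (x : ℚ)) this
          simp only [h5, mul_assoc, ← Finset.mul_sum]
          rw [← hV, hz]
          simp
        simp only [sub_mul, Finset.sum_sub_distrib] at h4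
        have h6 := sub_eq_zero.1 h4
        exact_mod_cast h6
      have h7 : (a + f (fun i => (u i).toNat)).1 = (a + f (fun i => (-u i).toNat)).1 := by
        show a.1 + (f (fun i => (u i).toNat)).1 = a.1 + (f (fun i => (-u i).toNat)).1
        rw [h1]
      rw [h7]
      exact ⟨_, ⟨_, rfl⟩, rfl⟩
  -- factor `Y` through `V`
  obtain ⟨α, hα⟩ : ∃ α : Module.Dual ℚ (Fin m → ℚ), V.dualMap α = Y := by
    have : Y ∈ LinearMap.range V.dualMap := by
      rw [LinearMap.range_dualMap_eq_dualAnnihilator_ker, Submodule.mem_dualAnnihilator]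
      intro z hz
      exact hker z (LinearMap.mem_ker.1 hz)
    exact this
  have hα' : ∀ z, Y z = ∑ j, V z j * α (Pi.single j 1) := by
    intro z
    rw [← hα]
    show α (V z) = _
    conv_lhs => rw [← Finset.univ_sum_single (V z)]
    rw [map_sum]
    refine Finset.sum_congr rfl fun j _ => ?_
    have : (Pi.single j (V z j) : Fin m → ℚ) = (V z j) • (Pi.single j 1) := by
      ext k
      by_cases h : k = j
      · subst h; simp
      · simp [h]
    rw [this, map_smul, smul_eq_mul]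
  refine ⟨⌈∑ j, |α (Pi.single j 1)|⌉₊, ?_⟩
  rintro _ ⟨_, ⟨c, rfl⟩, rfl⟩ _ ⟨_, ⟨c', rfl⟩, rfl⟩ D hD hD'
  have e1 : ∀ c : Fin n → ℕ, (a +ᵥ f c).2 = a.2 + (f c).2 := fun _ => rfl
  have e2 : ∀ (c : Fin n → ℕ) j, (a +ᵥ f c).1 j = a.1 j + (f c).1 j := fun _ _ => rfl
  simp only [e1]
  simp only [e2] at hD hD'
  have hb : ∀ j, |V (fun i => (c i : ℚ) - c' i) j| ≤ D := by
    intro j
    have h1 : V (fun i => (c i : ℚ) - c' i) j = ((f c).1 j : ℚ) - ((f c').1 j : ℚ) := by
      rw [hV, hf1, hf1]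
      push_cast
      simp [sub_mul, Finset.sum_sub_distrib]
    rw [h1, abs_le]
    have h2 := hD j
    have h3 := hD' j
    have h2' : (f c).1 j ≤ (f c').1 j + D := by omega
    have h3' : (f c').1 j ≤ (f c).1 j + D := by omega
    have h2'' : ((f c).1 j : ℚ) ≤ (f c').1 j + D := by exact_mod_cast h2'
    have h3'' : ((f c').1 j : ℚ) ≤ (f c).1 j + D := by exact_mod_cast h3'
    constructor <;> linarith
  have hc : ((f c).2 : ℚ) - (f c').2 ≤ ⌈∑ j, |α (Pi.single j 1)|⌉₊ * D := by
    have h1 : ((f c).2 : ℚ) - (f c').2 = Y (fun i => (c i : ℚ) - c' i) := by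
      rw [hY, hf2, hf2]
      push_cast
      simp [sub_mul, Finset.sum_sub_distrib]
    rw [h1, hα']
    calc ∑ j, V (fun i => (c i : ℚ) - c' i) j * α (Pi.single j 1)
        ≤ ∑ j, |V (fun i => (c i : ℚ) - c' i) j * α (Pi.single j 1)| :=
          Finset.sum_le_sum fun j _ => le_abs_self _
      _ ≤ ∑ j, D * |α (Pi.single j 1)| := by
          refine Finset.sum_le_sum fun j _ => ?_
          rw [abs_mul]
          exact mul_le_mul_of_nonneg_right (hb j) (abs_nonneg _)
      _ = (∑ j, |α (Pi.single j 1)|) * D := by rw [← Finset.mul_sum, mul_comm]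
      _ ≤ ⌈∑ j, |α (Pi.single j 1)|⌉₊ * D := by
          refine mul_le_mul_of_nonneg_right (Nat.le_ceil _) ?_
          positivity
  have hc' : ((f c).2 : ℚ) ≤ (f c').2 + ⌈∑ j, |α (Pi.single j 1)|⌉₊ * D := by linarith
  have hc'' : (f c).2 ≤ (f c').2 + ⌈∑ j, |α (Pi.single j 1)|⌉₊ * D := by exact_mod_cast hc'
  omega

/-- The points of a semilinear set with unique second coordinate split into finitely many classes
on each of which the second coordinate is a Lipschitz function of the first. -/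
theorem exists_classes {m : ℕ} {S : Set ((Fin m → ℕ) × ℕ)} (hS : IsSemilinearSet S) :
    ∃ (𝒞 : Set (Set ((Fin m → ℕ) × ℕ))) (K : ℕ), 𝒞.Finite ∧ (∀ p, Uniq S p → ∃ c ∈ 𝒞, p ∈ c) ∧
      ∀ c ∈ 𝒞, ∀ p ∈ c, ∀ p' ∈ c, ∀ D : ℕ, (∀ j, p.1 j ≤ p'.1 j + D) →
        (∀ j, p'.1 j ≤ p.1 j + D) → p.2 ≤ p'.2 + K * D := by
  obtain ⟨𝒞, hfin, hlin, hU⟩ := isSemilinearSet_uniq hS
  have hex : ∀ c ∈ 𝒞, ∃ K : ℕ, ∀ p ∈ c, ∀ p' ∈ c, ∀ D : ℕ, (∀ j, p.1 j ≤ p'.1 j + D) →
      (∀ j, p'.1 j ≤ p.1 j + D) → p.2 ≤ p'.2 + K * D := by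
    intro c hc
    apply linear_lipschitz (hlin c hc)
    intro t y y' hy hy'
    have h1 : (t, y) ∈ {p | Uniq S p} := by rw [hU]; exact ⟨c, hc, hy⟩
    have h2 : (t, y') ∈ {p | Uniq S p} := by rw [hU]; exact ⟨c, hc, hy'⟩
    have h3 : (t, y') ∈ S := (h2 y').2 rfl
    exact ((h1 y').1 h3).symm
  choose! K hK using hex
  obtain ⟨B, hB⟩ := (hfin.image K).bddAbove
  refine ⟨𝒞, B, hfin, ?_, ?_⟩
  · intro p hp
    have : p ∈ {p | Uniq S p} := hp
    rw [hU] at this
    obtain ⟨c, hc, hpc⟩ := this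
    exact ⟨c, hc, hpc⟩
  · intro c hc p hp p' hp' D h1 h2
    have h3 := hK c hc p hp p' hp' D h1 h2
    have h4 : K c ≤ B := hB ⟨c, hc, rfl⟩
    have h5 : K c * D ≤ B * D := Nat.mul_le_mul_right D h4
    omega

section TransitionLemmas

variable {Q : Type} {m : ℕ}

theorem trA_inj {q q' p p' : Q} {e f : Option (Fin m → ℕ)} :
    trA q q' e = trA p p' f ↔ q = p ∧ q' = p' ∧ e = f := by
  constructor
  · intro h
    have h2 := congrFun (eq_of_heq (Sigma.mk.inj (Prod.mk.inj h).2).2) (0 : Fin 1)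
    exact ⟨(Prod.mk.inj h).1, Prod.mk.inj h2⟩
  · rintro ⟨rfl, rfl, rfl⟩
    rfl

theorem trB_inj {q q' p p' : Q} {e f : Option (Fin m → ℕ)} :
    trB q q' e = trB p p' f ↔ q = p ∧ q' = p' ∧ e = f := by
  constructor
  · intro h
    have h2 := congrFun (eq_of_heq (Sigma.mk.inj (Prod.mk.inj h).2).2) (0 : Fin 1)
    exact ⟨(Prod.mk.inj h).1, Prod.mk.inj h2⟩
  · rintro ⟨rfl, rfl, rfl⟩
    rfl

theorem trS_inj {q q1 q2 p p1 p2 : Q} {e1 e2 f1 f2 : Option (Fin m → ℕ)} :
    trS q q1 e1 q2 e2 = trS p p1 f1 p2 f2 ↔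
      q = p ∧ (q1 = p1 ∧ e1 = f1) ∧ (q2 = p2 ∧ e2 = f2) := by
  constructor
  · intro h
    have h2 := congrFun (eq_of_heq (Sigma.mk.inj (Prod.mk.inj h).2).2) (0 : Fin 2)
    have h3 := congrFun (eq_of_heq (Sigma.mk.inj (Prod.mk.inj h).2).2) (1 : Fin 2)
    exact ⟨(Prod.mk.inj h).1, Prod.mk.inj h2, Prod.mk.inj h3⟩
  · rintro ⟨rfl, ⟨rfl, rfl⟩, ⟨rfl, rfl⟩⟩
    rfl

theorem trL_inj {q p : Q} : (trL q : Tr Q m) = trL p ↔ q = p := by
  constructor
  · intro h
    exact (Prod.mk.inj h).1
  · rintro rfl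
    rfl

theorem Tr.sym_eq {x y : Tr Q m} (h : x = y) : x.2.1 = y.2.1 := by rw [h]

theorem trA_ne_trB {q q' p p' : Q} {e f : Option (Fin m → ℕ)} : trA q q' e ≠ trB p p' f :=
  fun h => by cases Tr.sym_eq h

theorem trA_ne_trS {q q' p p1 p2 : Q} {e f1 f2 : Option (Fin m → ℕ)} :
    trA q q' e ≠ trS p p1 f1 p2 f2 := fun h => by cases Tr.sym_eq h

theorem trA_ne_trL {q q' p : Q} {e : Option (Fin m → ℕ)} : trA q q' e ≠ trL p :=
  fun h => by cases Tr.sym_eq h

theorem trB_ne_trA {q q' p p' : Q} {e f : Option (Fin m → ℕ)} : trB q q' e ≠ trA p p' f :=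
  fun h => by cases Tr.sym_eq h

theorem trB_ne_trS {q q' p p1 p2 : Q} {e f1 f2 : Option (Fin m → ℕ)} :
    trB q q' e ≠ trS p p1 f1 p2 f2 := fun h => by cases Tr.sym_eq h

theorem trB_ne_trL {q q' p : Q} {e : Option (Fin m → ℕ)} : trB q q' e ≠ trL p :=
  fun h => by cases Tr.sym_eq h

theorem trS_ne_trA {q q' p p1 p2 : Q} {e f1 f2 : Option (Fin m → ℕ)} :
    trS p p1 f1 p2 f2 ≠ trA q q' e := fun h => by cases Tr.sym_eq h

theorem trS_ne_trB {q q' p p1 p2 : Q} {e f1 f2 : Option (Fin m → ℕ)} :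
    trS p p1 f1 p2 f2 ≠ trB q q' e := fun h => by cases Tr.sym_eq h

theorem trS_ne_trL {q p p1 p2 : Q} {f1 f2 : Option (Fin m → ℕ)} :
    trS p p1 f1 p2 f2 ≠ trL q := fun h => by cases Tr.sym_eq h

theorem trL_ne_trA {q q' p : Q} {e : Option (Fin m → ℕ)} : trL p ≠ trA q q' e :=
  fun h => by cases Tr.sym_eq h

theorem trL_ne_trB {q q' p : Q} {e : Option (Fin m → ℕ)} : trL p ≠ trB q q' e :=
  fun h => by cases Tr.sym_eq h

theorem trL_ne_trS {q p p1 p2 : Q} {f1 f2 : Option (Fin m → ℕ)} :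
    trL q ≠ trS p p1 f1 p2 f2 := fun h => by cases Tr.sym_eq h

end TransitionLemmas

/-! ### Trees over the alphabet -/

abbrev T := RTree Sym Sym.rk

/-- The leaf. -/
def lf : T := .node .α ![]

/-- `a(t)`. -/
def na (t : T) : T := .node .a ![t]

/-- `b(t)`. -/
def nb (t : T) : T := .node .b ![t]

/-- `σ(t, t')`. -/
def ns (t t' : T) : T := .node .σ ![t, t']

/-- `a^x(t)`. -/
def as : ℕ → T → T
  | 0, t => t
  | x + 1, t => na (as x t)

/-- `b^y(α)`. -/
def bs : ℕ → T
  | 0 => lf
  | y + 1 => nb (bs y)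

/-- The caterpillar `a^{x₁} σ(b^{y₁} α, a^{x₂} σ(b^{y₂} α, … σ(α, α)))`. -/
def cat : List (ℕ × ℕ) → T
  | [] => ns lf lf
  | (x, y) :: l => as x (ns (bs y) (cat l))

section RunLemmas

variable {m : ℕ} (A : PTAR Sym Sym.rk m)

theorem run_lf {q : A.Q} {v : Fin m → ℕ} :
    A.Run lf q v ↔ trL q ∈ A.Δ ∧ v ∈ A.C := by
  refine A.run_node.trans ?_
  constructor
  · rintro ⟨t, h1, h2, -⟩
    have : t = fun i => Fin.elim0 i :=
      Subsingleton.elim (α := Fin 0 → A.Q × Option (Fin m → ℕ)) t _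
    subst this
    exact ⟨h1, h2 rfl⟩
  · rintro ⟨h1, h2⟩
    exact ⟨fun i => Fin.elim0 i, h1, fun _ => h2, fun i => Fin.elim0 i⟩

theorem run_na {q : A.Q} {v : Fin m → ℕ} {t : T} :
    A.Run (na t) q v ↔ ∃ q' e, trA q q' e ∈ A.Δ ∧ A.Run t q' (update v e) := by
  refine A.run_node.trans ?_
  constructor
  · rintro ⟨u, h1, -, h3⟩
    refine ⟨(u (0 : Fin 1)).1, (u (0 : Fin 1)).2, ?_, h3 (0 : Fin 1)⟩
    have : u = fun _ => ((u (0 : Fin 1)).1, (u (0 : Fin 1)).2) := by
      funext i
      fin_cases i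
      rfl
    rw [this] at h1
    exact h1
  · rintro ⟨q', e, h1, h2⟩
    refine ⟨fun _ => (q', e), h1, fun h => absurd h (by simp [Sym.rk]), ?_⟩
    intro i
    fin_cases i
    exact h2

theorem run_nb {q : A.Q} {v : Fin m → ℕ} {t : T} :
    A.Run (nb t) q v ↔ ∃ q' e, trB q q' e ∈ A.Δ ∧ A.Run t q' (update v e) := by
  refine A.run_node.trans ?_
  constructor
  · rintro ⟨u, h1, -, h3⟩
    refine ⟨(u (0 : Fin 1)).1, (u (0 : Fin 1)).2, ?_, h3 (0 : Fin 1)⟩
    have : u = fun _ => ((u (0 : Fin 1)).1, (u (0 : Fin 1)).2) := by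
      funext i
      fin_cases i
      rfl
    rw [this] at h1
    exact h1
  · rintro ⟨q', e, h1, h2⟩
    refine ⟨fun _ => (q', e), h1, fun h => absurd h (by simp [Sym.rk]), ?_⟩
    intro i
    fin_cases i
    exact h2

theorem run_ns {q : A.Q} {v : Fin m → ℕ} {t t' : T} :
    A.Run (ns t t') q v ↔ ∃ q1 e1 q2 e2, trS q q1 e1 q2 e2 ∈ A.Δ ∧
      A.Run t q1 (update v e1) ∧ A.Run t' q2 (update v e2) := by
  refine A.run_node.trans ?_
  constructor
  · rintro ⟨u, h1, -, h3⟩
    refine ⟨(u (0 : Fin 2)).1, (u (0 : Fin 2)).2, (u (1 : Fin 2)).1, (u (1 : Fin 2)).2, ?_,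
      h3 (0 : Fin 2), h3 (1 : Fin 2)⟩
    have : u = fun i => if i.val = 0 then ((u (0 : Fin 2)).1, (u (0 : Fin 2)).2) else
        ((u (1 : Fin 2)).1, (u (1 : Fin 2)).2) := by
      funext i
      fin_cases i <;> rfl
    rw [this] at h1
    exact h1
  · rintro ⟨q1, e1, q2, e2, h1, h2, h3⟩
    refine ⟨fun i => if i.val = 0 then (q1, e1) else (q2, e2), h1,
      fun h => absurd h (by simp [Sym.rk]), ?_⟩
    intro i
    fin_cases i
    · exact h2
    · exact h3

end RunLemmas

/-! ### The candidate accepts exactly the right caterpillars -/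

theorem mem_candΔ {x : Tr Bool 2} : x ∈ candΔ ↔
    x = trA false false (some ![1, 0]) ∨ x = trA true true (some ![1, 0]) ∨
    x = trB false false (some ![0, 1]) ∨ x = trB true true (some ![0, 1]) ∨
    x = trS false true (some ![0, 0]) false none ∨
    x = trS false true (some ![0, 0]) true (some ![0, 0]) ∨ x = trL true := Iff.rfl

theorem cand_na {q : Bool} {v : Fin 2 → ℕ} {t : T} :
    cand.Run (na t) q v ↔ cand.Run t q (v + ![1, 0]) := by
  refine (run_na cand).trans ?_
  constructor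
  · rintro ⟨q', e, h, h'⟩
    have h := mem_candΔ.1 h
    rcases h with h | h | h | h | h | h | h
    · obtain ⟨rfl, rfl, rfl⟩ := trA_inj.1 h
      exact h'
    · obtain ⟨rfl, rfl, rfl⟩ := trA_inj.1 h
      exact h'
    · exact absurd h trA_ne_trB
    · exact absurd h trA_ne_trB
    · exact absurd h trA_ne_trS
    · exact absurd h trA_ne_trS
    · exact absurd h trA_ne_trL
  · intro h
    refine ⟨q, some ![1, 0], mem_candΔ.2 ?_, h⟩
    cases q
    · exact .inl rfl
    · exact .inr (.inl rfl)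

theorem cand_nb {q : Bool} {v : Fin 2 → ℕ} {t : T} :
    cand.Run (nb t) q v ↔ cand.Run t q (v + ![0, 1]) := by
  refine (run_nb cand).trans ?_
  constructor
  · rintro ⟨q', e, h, h'⟩
    have h := mem_candΔ.1 h
    rcases h with h | h | h | h | h | h | h
    · exact absurd h trB_ne_trA
    · exact absurd h trB_ne_trA
    · obtain ⟨rfl, rfl, rfl⟩ := trB_inj.1 h
      exact h'
    · obtain ⟨rfl, rfl, rfl⟩ := trB_inj.1 h
      exact h'
    · exact absurd h trB_ne_trS
    · exact absurd h trB_ne_trS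
    · exact absurd h trB_ne_trL
  · intro h
    refine ⟨q, some ![0, 1], mem_candΔ.2 ?_, h⟩
    cases q
    · exact .inr (.inr (.inl rfl))
    · exact .inr (.inr (.inr (.inl rfl)))

theorem cand_lf {q : Bool} {v : Fin 2 → ℕ} :
    cand.Run lf q v ↔ q = true ∧ v 0 = v 1 := by
  refine (run_lf cand).trans (and_congr ?_ Iff.rfl)
  constructor
  · intro h
    have h := mem_candΔ.1 h
    rcases h with h | h | h | h | h | h | h
    · exact absurd h trL_ne_trA
    · exact absurd h trL_ne_trA
    · exact absurd h trL_ne_trB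
    · exact absurd h trL_ne_trB
    · exact absurd h trL_ne_trS
    · exact absurd h trL_ne_trS
    · exact trL_inj.1 h
  · rintro rfl
    exact mem_candΔ.2 (.inr (.inr (.inr (.inr (.inr (.inr rfl))))))

theorem cand_ns {q : Bool} {v : Fin 2 → ℕ} {t t' : T} :
    cand.Run (ns t t') q v ↔ q = false ∧ cand.Run t true v ∧
      (cand.Run t' false 0 ∨ cand.Run t' true v) := by
  have h0 : (![0, 0] : Fin 2 → ℕ) = 0 := by
    ext i
    fin_cases i <;> rfl
  have hz : update v (some ![0, 0]) = v := by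
    show v + ![0, 0] = v
    rw [h0, add_zero]
  refine (run_ns cand).trans ?_
  constructor
  · rintro ⟨q1, e1, q2, e2, h, h1, h2⟩
    have h := mem_candΔ.1 h
    rcases h with h | h | h | h | h | h | h
    · exact absurd h trS_ne_trA
    · exact absurd h trS_ne_trA
    · exact absurd h trS_ne_trB
    · exact absurd h trS_ne_trB
    · obtain ⟨rfl, ⟨rfl, rfl⟩, rfl, rfl⟩ := trS_inj.1 h
      rw [hz] at h1
      exact ⟨rfl, h1, .inl h2⟩
    · obtain ⟨rfl, ⟨rfl, rfl⟩, rfl, rfl⟩ := trS_inj.1 h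
      rw [hz] at h1 h2
      exact ⟨rfl, h1, .inr h2⟩
    · exact absurd h trS_ne_trL
  · rintro ⟨rfl, h1, h2 | h2⟩
    · refine ⟨true, some ![0, 0], false, none, mem_candΔ.2 ?_, ?_, h2⟩
      · exact .inr (.inr (.inr (.inr (.inl rfl))))
      · rw [hz]
        exact h1
    · refine ⟨true, some ![0, 0], true, some ![0, 0], mem_candΔ.2 ?_, ?_, ?_⟩
      · exact .inr (.inr (.inr (.inr (.inr (.inl rfl)))))
      · rw [hz]
        exact h1
      · rw [hz]
        exact h2

theorem cand_as {q : Bool} {x : ℕ} {t : T} : ∀ {v : Fin 2 → ℕ},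
    cand.Run (as x t) q v ↔ cand.Run t q (v + ![x, 0]) := by
  induction x with
  | zero =>
    intro v
    have : v + ![0, 0] = v := by
      ext i
      fin_cases i <;> rfl
    rw [this]
    rfl
  | succ x ih =>
    intro v
    have : v + ![x + 1, 0] = v + ![1, 0] + ![x, 0] := by
      ext i
      fin_cases i
      · show v 0 + (x + 1) = v 0 + 1 + x
        omega
      · rfl
    rw [this, ← ih, ← cand_na]
    rfl

theorem cand_bs {y : ℕ} : ∀ {v : Fin 2 → ℕ}, cand.Run (bs y) true v ↔ v 0 = v 1 + y := by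
  induction y with
  | zero =>
    intro v
    show cand.Run lf true v ↔ _
    rw [cand_lf]
    simp
  | succ y ih =>
    intro v
    show cand.Run (nb (bs y)) true v ↔ _
    rw [cand_nb, ih]
    show v 0 + 0 = v 1 + 1 + y ↔ _
    constructor <;> intro h <;> omega

/-- The candidate accepts a caterpillar only if all its branches are balanced. -/
theorem cand_cat_sound : ∀ l : List (ℕ × ℕ), cand.Run (cat l) false 0 → ∀ p ∈ l, p.1 = p.2
  | [], _ => by simp
  | (x, y) :: l, h => by
    have h : cand.Run (as x (ns (bs y) (cat l))) false 0 := h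
    rw [cand_as, cand_ns, cand_bs] at h
    obtain ⟨-, h1, h2⟩ := h
    have h1 : 0 + x = 0 + 0 + y := h1
    have hxy : x = y := by omega
    rcases h2 with h2 | h2
    · intro p hp
      rcases List.mem_cons.1 hp with rfl | hp
      · exact hxy
      · exact cand_cat_sound l h2 p hp
    · exfalso
      cases l with
      | nil =>
        have h2 : cand.Run (ns lf lf) true (0 + ![x, 0]) := h2
        rw [cand_ns] at h2
        exact absurd h2.1 (by simp)
      | cons c l =>
        obtain ⟨x', y'⟩ := c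
        have h2 : cand.Run (as x' (ns (bs y') (cat l))) true (0 + ![x, 0]) := h2
        rw [cand_as, cand_ns] at h2
        exact absurd h2.1 (by simp)

/-- The candidate accepts every balanced caterpillar. -/
theorem cand_cat_complete : ∀ l : List ℕ, cand.Run (cat (l.map fun x => (x, x))) false 0
  | [] => by
    show cand.Run (ns lf lf) false 0
    rw [cand_ns, cand_lf]
    exact ⟨rfl, ⟨rfl, rfl⟩, .inr ⟨rfl, rfl⟩⟩
  | x :: l => by
    show cand.Run (as x (ns (bs x) (cat (l.map fun x => (x, x))))) false 0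
    rw [cand_as, cand_ns, cand_bs]
    refine ⟨rfl, ?_, .inl (cand_cat_complete l)⟩
    show 0 + x = 0 + 0 + x
    omega

/-! ### Analysis of a Parikh tree automaton without reset -/

section PTA

variable {m : ℕ} (A : PTAR Sym Sym.rk m)

/-- A common bound on all entries of all increments. -/
theorem exists_bound : ∃ K : ℕ, ∀ tr ∈ A.Δ, ∀ i, ∀ e, (tr.2.2 i).2 = some e → ∀ j, e j ≤ K := by
  classical
  have h : ∀ tr : A.Q × (Σ s : Sym, Fin s.rk → A.Q × Option (Fin m → ℕ)),
      ∃ K : ℕ, ∀ i, ∀ e, (tr.2.2 i).2 = some e → ∀ j, e j ≤ K := by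
    intro tr
    refine ⟨∑ i, ∑ j, (match (tr.2.2 i).2 with | some e => e j | none => 0), ?_⟩
    intro i e he j
    calc e j = (match (tr.2.2 i).2 with | some e => e j | none => 0) := by rw [he]
      _ ≤ ∑ j, (match (tr.2.2 i).2 with | some e => e j | none => 0) :=
          Finset.single_le_sum (f := fun j => (match (tr.2.2 i).2 with | some e => e j | none => 0))
            (fun _ _ => Nat.zero_le _) (Finset.mem_univ j)
      _ ≤ _ := Finset.single_le_sum
            (f := fun i => ∑ j, (match (tr.2.2 i).2 with | some e => e j | none => 0))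
            (fun _ _ => Nat.zero_le _) (Finset.mem_univ i)
  choose K hK using h
  obtain ⟨B, hB⟩ := (A.finiteΔ.image K).bddAbove
  refine ⟨B, fun tr htr i e he j => (hK tr i e he j).trans (hB ⟨tr, htr, rfl⟩)⟩

/-- The labels of the `b`-transitions of `A`, each counted together with its length `1`. -/
def bEdge (r r' : A.Q) : Set (ℕ × (Fin m → ℕ)) :=
  {p | p.1 = 1 ∧ trB r r' (some p.2) ∈ A.Δ}

theorem finite_bEdge (r r' : A.Q) : (bEdge A r r').Finite := by
  have hinj : Set.InjOn (fun p : ℕ × (Fin m → ℕ) => trB r r' (some p.2)) (bEdge A r r') := by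
    rintro ⟨n, e⟩ ⟨hn, -⟩ ⟨n', e'⟩ ⟨hn', -⟩ h
    have h := Option.some.inj (trB_inj.1 h).2.2
    have hn : n = 1 := hn
    have hn' : n' = 1 := hn'
    have h : e = e' := h
    rw [hn, hn', h]
  refine Set.Finite.of_finite_image (A.finiteΔ.subset ?_) hinj
  rintro _ ⟨p, hp, rfl⟩
  exact hp.2

theorem run_bs (hA : A.IsPTA) : ∀ (y : ℕ) (r : A.Q) (t : Fin m → ℕ), A.Run (bs y) r t ↔
    ∃ r' g, PathIn (bEdge A) univ r r' (y, g) ∧ trL r' ∈ A.Δ ∧ t + g ∈ A.C := by
  intro y
  induction y with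
  | zero =>
    intro r t
    show A.Run lf r t ↔ _
    rw [run_lf]
    constructor
    · rintro ⟨h1, h2⟩
      exact ⟨r, 0, .nil r, h1, by simpa using h2⟩
    · rintro ⟨r', g, hp, h1, h2⟩
      have key : r' = r ∧ g = 0 := by
        generalize hyg : ((0 : ℕ), g) = yg at hp
        cases hp with
        | nil => exact ⟨rfl, (Prod.mk.inj hyg).2⟩
        | single he =>
          have h : yg.1 = 1 := he.1
          rw [← hyg] at h
          exact absurd h (by simp)
        | @cons _ z _ e g' he _ _ =>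
          have h : e.1 = 1 := he.1
          have h' : 0 = e.1 + g'.1 := congrArg Prod.fst hyg
          omega
      obtain ⟨rfl, rfl⟩ := key
      exact ⟨h1, by simpa using h2⟩
  | succ y ih =>
    intro r t
    show A.Run (nb (bs y)) r t ↔ _
    rw [run_nb]
    constructor
    · rintro ⟨r1, e, h1, h2⟩
      cases e with
      | none => exact absurd rfl (hA _ h1 (0 : Fin 1))
      | some e =>
        rw [ih] at h2
        obtain ⟨r', g, hp, h3, h4⟩ := h2
        refine ⟨r', e + g, ?_, h3, ?_⟩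
        · have : ((y + 1, e + g) : ℕ × (Fin m → ℕ)) = (1, e) + (y, g) := by
            rw [Prod.mk_add_mk, add_comm y 1]
          rw [this]
          exact .cons ⟨rfl, h1⟩ (mem_univ _) hp
        · rw [← add_assoc]
          exact h4
    · rintro ⟨r', g, hp, h3, h4⟩
      generalize hyg : (y + 1, g) = yg at hp
      cases hp with
      | nil =>
        have h : y + 1 = 0 := congrArg Prod.fst hyg
        omega
      | single he =>
        have h : yg.1 = 1 := he.1
        have h' : y + 1 = yg.1 := congrArg Prod.fst hyg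
        have hg : g = yg.2 := congrArg Prod.snd hyg
        have hy : y = 0 := by omega
        subst hy
        refine ⟨r', some g, ?_, ?_⟩
        · rw [hg]
          exact he.2
        · show A.Run lf r' (t + g)
          rw [run_lf]
          exact ⟨h3, h4⟩
      | @cons _ z _ e g' he _ hp =>
        have h : e.1 = 1 := he.1
        have h' : y + 1 = e.1 + g'.1 := congrArg Prod.fst hyg
        have hg : g = e.2 + g'.2 := congrArg Prod.snd hyg
        have hy : g'.1 = y := by omega
        refine ⟨z, some e.2, he.2, ?_⟩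
        rw [ih]
        refine ⟨r', g'.2, ?_, h3, ?_⟩
        · rw [← hy]
          exact hp
        · show t + e.2 + g'.2 ∈ A.C
          rw [add_assoc, ← hg]
          exact h4

/-- The pairs `(t, y)` such that `A` has a run on `b^y(α)` from state `r` and counters `t`. -/
def accSet (r : A.Q) : Set ((Fin m → ℕ) × ℕ) := {p | A.Run (bs p.2) r p.1}

theorem isSemilinearSet_accSet (hA : A.IsPTA) (r : A.Q) : IsSemilinearSet (accSet A r) := by
  classical
  have := A.finiteQ
  have hP : ∀ r', IsSemilinearSet {g | PathIn (bEdge A) univ r r' g} :=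
    isSemilinearSet_pathIn (fun _ _ => .of_finite (finite_bEdge A _ _)) (Set.toFinite _) r
  let N := (Fin m → ℕ) × (ℕ × (Fin m → ℕ))
  let f1 : N →+ ℕ × (Fin m → ℕ) := AddMonoidHom.snd _ _
  let f2 : N →+ (Fin m → ℕ) := AddMonoidHom.fst _ _ + (AddMonoidHom.snd _ _).comp f1
  let f3 : N →+ (Fin m → ℕ) × ℕ := (AddMonoidHom.fst _ _).prod ((AddMonoidHom.fst _ _).comp f1)
  have key : accSet A r = ⋃ r' : A.Q, (if trL r' ∈ A.Δ then
      f3 '' ((f1 ⁻¹' {g | PathIn (bEdge A) univ r r' g}) ∩ (f2 ⁻¹' A.C)) else ∅) := by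
    ext ⟨t, y⟩
    show A.Run (bs y) r t ↔ _
    rw [run_bs A hA, mem_iUnion]
    refine exists_congr fun r' => ?_
    constructor
    · rintro ⟨g, h1, h2, h3⟩
      rw [if_pos h2]
      exact ⟨(t, (y, g)), ⟨h1, h3⟩, rfl⟩
    · intro h
      split_ifs at h with h2
      · obtain ⟨⟨t', ⟨y', g⟩⟩, ⟨h1, h3⟩, heq⟩ := h
        have heq : (t', y') = (t, y) := heq
        obtain ⟨rfl, rfl⟩ := Prod.mk.inj heq
        exact ⟨g, h1, h2, h3⟩
      · exact absurd h (notMem_empty _)
  rw [key]
  refine IsSemilinearSet.iUnion fun r' => ?_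
  split_ifs
  · exact (((hP r').preimage f1).inter (A.semilinearC.preimage f2)).image f3
  · exact .empty

theorem extract_as {K : ℕ}
    (hK : ∀ tr ∈ A.Δ, ∀ i, ∀ e, (tr.2.2 i).2 = some e → ∀ j, e j ≤ K) (hA : A.IsPTA) :
    ∀ (x : ℕ) (t : T) (q : A.Q) (v : Fin m → ℕ), A.Run (as x t) q v →
      ∃ p s, (∀ j, v j ≤ s j ∧ s j ≤ v j + K * x) ∧ A.Run t p s ∧
        ∀ t', A.Run t' p s → A.Run (as x t') q v := by
  intro x
  induction x with
  | zero =>
    intro t q v h
    exact ⟨q, v, fun j => ⟨le_rfl, by omega⟩, h, fun t' h' => h'⟩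
  | succ x ih =>
    intro t q v h
    have h : A.Run (na (as x t)) q v := h
    obtain ⟨q', e, h1, h2⟩ := (run_na A).1 h
    cases e with
    | none => exact absurd rfl (hA _ h1 (0 : Fin 1))
    | some e =>
      obtain ⟨p, s, h3, h4, h5⟩ := ih _ _ _ h2
      refine ⟨p, s, ?_, h4, ?_⟩
      · intro j
        have h6 := h3 j
        have h7 : e j ≤ K := hK _ h1 (0 : Fin 1) e rfl j
        have h8 : update v (some e) j = v j + e j := rfl
        rw [h8] at h6
        have h9 : K * (x + 1) = K * x + K := by ring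
        omega
      · intro t' h'
        exact (run_na A).2 ⟨q', some e, h1, h5 t' h'⟩

theorem extract_ns {K : ℕ}
    (hK : ∀ tr ∈ A.Δ, ∀ i, ∀ e, (tr.2.2 i).2 = some e → ∀ j, e j ≤ K) (hA : A.IsPTA)
    {t t' : T} {q : A.Q} {v : Fin m → ℕ} (h : A.Run (ns t t') q v) :
    ∃ r v1 q' v2, (∀ j, v j ≤ v1 j ∧ v1 j ≤ v j + K) ∧ (∀ j, v j ≤ v2 j ∧ v2 j ≤ v j + K) ∧
      A.Run t r v1 ∧ A.Run t' q' v2 ∧
        ∀ u u', A.Run u r v1 → A.Run u' q' v2 → A.Run (ns u u') q v := by
  obtain ⟨q1, e1, q2, e2, h1, h2, h3⟩ := (run_ns A).1 h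
  cases e1 with
  | none => exact absurd rfl (hA _ h1 (0 : Fin 2))
  | some e1 =>
    cases e2 with
    | none => exact absurd rfl (hA _ h1 (1 : Fin 2))
    | some e2 =>
      refine ⟨q1, v + e1, q2, v + e2, ?_, ?_, h2, h3, ?_⟩
      · intro j
        have h7 : e1 j ≤ K := hK _ h1 (0 : Fin 2) e1 rfl j
        rw [Pi.add_apply]
        omega
      · intro j
        have h7 : e2 j ≤ K := hK _ h1 (1 : Fin 2) e2 rfl j
        rw [Pi.add_apply]
        omega
      · intro u u' hu hu'
        exact (run_ns A).2 ⟨q1, some e1, q2, some e2, h1, hu, hu'⟩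

/-- `R^n, R^(n-1), …, R`. -/
def xs (R : ℕ) : ℕ → List ℕ
  | 0 => []
  | n + 1 => R ^ (n + 1) :: xs R n

theorem main_induction {K : ℕ}
    (hK : ∀ tr ∈ A.Δ, ∀ i, ∀ e, (tr.2.2 i).2 = some e → ∀ j, e j ≤ K) (hA : A.IsPTA)
    {L R : ℕ} (hR : 5 * K * L + 2 ≤ R) {ι : Type} [DecidableEq ι]
    (cls : A.Q → (Fin m → ℕ) × ℕ → ι)
    (hcls : ∀ r p r' p', Uniq (accSet A r) p → Uniq (accSet A r') p' → cls r p = cls r' p' →
      ∀ D : ℕ, (∀ j, p.1 j ≤ p'.1 j + D) → (∀ j, p'.1 j ≤ p.1 j + D) → p.2 ≤ p'.2 + L * D) :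
    ∀ (n : ℕ) (q : A.Q) (v : Fin m → ℕ), A.Run (cat ((xs R n).map fun x => (x, x))) q v →
      (∀ l : List (ℕ × ℕ), l.map Prod.fst = xs R n → A.Run (cat l) q v → ∀ p ∈ l, p.1 = p.2) →
      ∃ s : Finset ι, s.card = n ∧ ∀ k ∈ s, ∃ r p, cls r p = k ∧ Uniq (accSet A r) p ∧
        p.2 ≤ R ^ n ∧ ∀ j, v j ≤ p.1 j ∧ p.1 j ≤ v j + 4 * K * R ^ n := by
  intro n
  induction n with
  | zero =>
    intro q v _ _
    exact ⟨∅, rfl, fun k hk => absurd hk (Finset.notMem_empty k)⟩
  | succ n ih =>
    intro q v hrun huniq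
    set x := R ^ (n + 1) with hx
    have hrun : A.Run (as x (ns (bs x) (cat ((xs R n).map fun x => (x, x))))) q v := hrun
    obtain ⟨p, s, hs, hrun2, hback2⟩ := extract_as A hK hA _ _ _ _ hrun
    obtain ⟨r, v1, q', v2, hv1, hv2, hb, htail, hback3⟩ := extract_ns A hK hA hrun2
    -- uniqueness of the branch
    have hU : Uniq (accSet A r) (v1, x) := by
      intro y
      constructor
      · intro hy
        have hy : A.Run (bs y) r v1 := hy
        have h1 := hback2 _ (hback3 _ _ hy htail)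
        have h2 : A.Run (cat ((x, y) :: (xs R n).map fun x => (x, x))) q v := h1
        have h3 := huniq _ (by simp [xs, hx, Function.comp_def]) h2 (x, y) (by simp)
        exact h3.symm
      · rintro rfl
        exact hb
    -- uniqueness for the tail
    have hUt : ∀ l : List (ℕ × ℕ), l.map Prod.fst = xs R n → A.Run (cat l) q' v2 →
        ∀ p ∈ l, p.1 = p.2 := by
      intro l hl hrunl p' hp'
      have h1 := hback2 _ (hback3 _ _ hb hrunl)
      have h2 : A.Run (cat ((x, x) :: l)) q v := h1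
      exact huniq _ (by simp [xs, hx, hl]) h2 p' (List.mem_cons_of_mem _ hp')
    obtain ⟨F, hcard, hF⟩ := ih q' v2 htail hUt
    have hRpos : 1 ≤ R ^ n := Nat.one_le_pow _ _ (by omega)
    have hxR : x = R * R ^ n := by rw [hx, pow_succ, mul_comm]
    have hRn : 2 * R ^ n ≤ x := by
      rw [hxR]
      exact Nat.mul_le_mul_right _ (by omega)
    have hnot : cls r (v1, x) ∉ F := by
      intro hmem
      obtain ⟨r', p', hc, hU', hp'2, hp'1⟩ := hF _ hmem
      have h1 := hcls r (v1, x) r' p' hU hU' hc.symm (K + 4 * K * R ^ n) ?_ ?_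
      · have h1 : x ≤ p'.2 + L * (K + 4 * K * R ^ n) := h1
        have h2 : L * (K + 4 * K * R ^ n) ≤ (5 * K * L) * R ^ n := by
          have : L * K ≤ L * K * R ^ n := Nat.le_mul_of_pos_right _ hRpos
          calc L * (K + 4 * K * R ^ n) = L * K + 4 * K * L * R ^ n := by ring
            _ ≤ L * K * R ^ n + 4 * K * L * R ^ n := by omega
            _ = (5 * K * L) * R ^ n := by ring
        have h3 : (5 * K * L + 2) * R ^ n ≤ x := by
          rw [hxR]
          exact Nat.mul_le_mul_right _ hR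
        have h4 : (5 * K * L + 2) * R ^ n = (5 * K * L) * R ^ n + 2 * R ^ n := by ring
        omega
      · intro j
        have h2 := hv1 j
        have h3 := hv2 j
        have h4 := hp'1 j
        show v1 j ≤ p'.1 j + (K + 4 * K * R ^ n)
        omega
      · intro j
        have h2 := hv1 j
        have h3 := hv2 j
        have h4 := hp'1 j
        show p'.1 j ≤ v1 j + (K + 4 * K * R ^ n)
        omega
    have hKx : K * (2 * R ^ n) ≤ K * x := Nat.mul_le_mul_left K hRn
    have hK1 : K * 1 ≤ K * x := Nat.mul_le_mul_left K (by omega)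
    have hKx' : K * (2 * R ^ n) = 2 * (K * R ^ n) := by ring
    have h4K : 4 * K * R ^ n = 4 * (K * R ^ n) := by ring
    have h4K' : 4 * K * x = 4 * (K * x) := by ring
    refine ⟨insert (cls r (v1, x)) F, ?_, ?_⟩
    · rw [Finset.card_insert_of_notMem hnot, hcard]
    · intro k hk
      rcases Finset.mem_insert.1 hk with rfl | hk
      · refine ⟨r, (v1, x), rfl, hU, le_rfl, ?_⟩
        intro j
        have h1 := hs j
        have h2 := hv1 j
        show v j ≤ v1 j ∧ v1 j ≤ v j + 4 * K * x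
        omega
      · obtain ⟨r', p', hc, hU', hp'2, hp'1⟩ := hF _ hk
        refine ⟨r', p', hc, hU', by omega, ?_⟩
        intro j
        have h1 := hs j
        have h2 := hv2 j
        have h3 := hp'1 j
        omega

end PTA

/-- No Parikh tree automaton without reset recognizes the language of the candidate. -/
theorem not_pta {m : ℕ} (A : PTAR Sym Sym.rk m) (hA : A.IsPTA) : A.lang ≠ cand.lang := by
  classical
  intro hlang
  have := A.finiteQ
  obtain ⟨K, hK⟩ := exists_bound A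
  have hex := fun r => exists_classes (isSemilinearSet_accSet A hA r)
  choose 𝒞 L' hfin hcov hlip using hex
  obtain ⟨L, hL⟩ := (Set.finite_range L').bddAbove
  let ι := Σ r : A.Q, Option (𝒞 r)
  have : ∀ r, Finite (𝒞 r) := fun r => hfin r
  have : Finite ι := inferInstance
  let cls : A.Q → (Fin m → ℕ) × ℕ → ι := fun r p =>
    ⟨r, if h : ∃ c ∈ 𝒞 r, p ∈ c then some ⟨h.choose, h.choose_spec.1⟩ else none⟩
  have hcls : ∀ r p r' p', Uniq (accSet A r) p → Uniq (accSet A r') p' → cls r p = cls r' p' →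
      ∀ D : ℕ, (∀ j, p.1 j ≤ p'.1 j + D) → (∀ j, p'.1 j ≤ p.1 j + D) → p.2 ≤ p'.2 + L * D := by
    intro r p r' p' hU hU' hc D h1 h2
    have hr : r = r' := congrArg Sigma.fst hc
    subst hr
    have hp := hcov r p hU
    have hp' := hcov r p' hU'
    have hc' : (cls r p).2 = (cls r p').2 := by
      have := (Sigma.mk.inj_iff.1 hc).2
      exact eq_of_heq this
    simp only [cls, dif_pos hp, dif_pos hp', Option.some.injEq, Subtype.mk.injEq] at hc'
    have h3 := hlip r hp.choose hp.choose_spec.1 p hp.choose_spec.2 p'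
      (by rw [hc']; exact hp'.choose_spec.2) D h1 h2
    have h4 : L' r ≤ L := hL ⟨r, rfl⟩
    have h5 : L' r * D ≤ L * D := Nat.mul_le_mul_right D h4
    omega
  have := Fintype.ofFinite ι
  set R := 5 * K * L + 2 with hR
  set n := Fintype.card ι + 1 with hn
  have hmem : cat ((xs R n).map fun x => (x, x)) ∈ A.lang := by
    rw [hlang]
    exact cand_cat_complete _
  obtain ⟨F, hcard, -⟩ := main_induction A hK hA (le_of_eq hR.symm) cls hcls n A.q0 0 hmem (by
    intro l _ hrun
    have hl : cat l ∈ A.lang := hrun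
    rw [hlang] at hl
    exact cand_cat_sound l hl)
  have := Finset.card_le_univ F
  omega

end Pool.Agent.H79.PTARLib
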