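import Pool.Agent.H79.StarHard

/-!
# Rational and algebraic values of `p`
-/

namespace Pool.Agent.H79.Star

open TMLib N487b59b3 N68a2faeb N793a5b8e

lemma ptime_sum {α : Type} [Enc α] (g : ℕ → α → ℕ) (hg : ∀ i, PTime (g i)) (m : ℕ) :
    PTime (fun x => ∑ i ∈ Finset.range m, g i x) := by
  induction m with
  | zero => simpa using PTime.const (α := α) 0
  | succ m ih =>
    simp only [Finset.sum_range_succ]
    exact PTime.add ih (hg m)

/-- A `PTime` test for the rationals below `p`. -/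
lemma cut_mem_NP_of_test {p : ℝ} (T : ℕ → ℕ → Bool) (hT : PTime fun b : ℕ × ℕ => T b.1 b.2)
    (h : ∀ k d : ℕ, 1 ≤ d → (T k d = true ↔ (k : ℝ) / d ≤ p)) : Cut p ∈ NP := by
  classical
  refine mem_NP_cert (β := ℕ × ℕ)
    (V := fun x b => decide (x = unary b.1 b.2 ∧ 1 ≤ b.2) && T b.1 b.2) ?_
      (4 * Polynomial.X + 3) ?_ ?_
  · have h1 : PTime (fun p : List Bool × ℕ × ℕ => unary p.2.1 p.2.2) :=
      ptime_unary (by fun_prop) (by fun_prop)
    refine PTime.and (by fun_prop) ?_
    exact hT.comp (f := fun q : List Bool × ℕ × ℕ => q.2) (by fun_prop)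
  · intro x b hb
    simp only [Bool.and_eq_true, decide_eq_true_eq] at hb
    obtain ⟨⟨rfl, h1⟩, h2⟩ := hb
    rw [cut_unary]
    exact ⟨h1, (h _ _ h1).1 h2⟩
  · intro x hx
    simp only [Cut, decide_eq_true_eq] at hx
    obtain ⟨k, d, hd, rfl, hle⟩ := hx
    refine ⟨(k, d), ?_, ?_⟩
    · have : (unary k d).length = k + (d + 1) := by simp [unary]
      rw [this]
      have e3 : Polynomial.eval (k + (d + 1)) (3 : Polynomial ℕ) = 3 := by simp
      have e4 : Polynomial.eval (k + (d + 1)) (4 : Polynomial ℕ) = 4 := by simp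
      simp only [sz_pair, sz_nat, Polynomial.eval_add, Polynomial.eval_mul, Polynomial.eval_X,
        e3, e4]
      omega
    · simp only [Bool.and_eq_true, decide_eq_true_eq]
      exact ⟨⟨trivial, hd⟩, (h _ _ hd).2 hle⟩

/-- A positive rational as a quotient of natural numbers. -/
lemma exists_nat_div' {r : ℚ} (hr : 0 < r) : ∃ a b : ℕ, 1 ≤ b ∧ (r : ℝ) = (a : ℝ) / b := by
  refine ⟨r.num.toNat, r.den, r.den_pos, ?_⟩
  have h1 : 0 ≤ r.num := Rat.num_nonneg.2 hr.le
  have h2 : ((r.num.toNat : ℕ) : ℝ) = (r.num : ℝ) := by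
    have : ((r.num.toNat : ℕ) : ℤ) = r.num := Int.toNat_of_nonneg h1
    exact_mod_cast this
  rw [h2]
  exact_mod_cast (Rat.num_div_den r).symm

lemma div_le_div_nat {k d a b : ℕ} (hd : 1 ≤ d) (hb : 1 ≤ b) :
    (k : ℝ) / d ≤ (a : ℝ) / b ↔ k * b ≤ a * d := by
  rw [div_le_div_iff₀ (by exact_mod_cast hd) (by exact_mod_cast hb)]
  exact_mod_cast Iff.rfl

/-- An integer polynomial with a simple root at `p`, increasing there. -/
lemma exists_poly {p : ℝ} (ha : IsAlgebraic ℤ p) : ∃ G : Polynomial ℤ,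
    (G.map (Int.castRingHom ℝ)).eval p = 0 ∧
      0 < ((G.map (Int.castRingHom ℝ)).derivative).eval p := by
  classical
  obtain ⟨F, hF0, hF⟩ := ha
  have hex : ∃ n, ∃ F : Polynomial ℤ, F ≠ 0 ∧ F.natDegree = n ∧
      (F.map (Int.castRingHom ℝ)).eval p = 0 := by
    refine ⟨_, F, hF0, rfl, ?_⟩
    rw [Polynomial.eval_map]
    exact hF
  obtain ⟨G, hG0, hGn, hG⟩ := Nat.find_spec hex
  have hinj : Function.Injective (Int.castRingHom ℝ) := Int.cast_injective
  have hdeg : G.natDegree ≠ 0 := by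
    intro h
    rw [Polynomial.eq_C_of_natDegree_eq_zero h] at hG hG0
    simp only [Polynomial.map_C, Polynomial.eval_C] at hG
    have : G.coeff 0 = 0 := by
      have h2 : (Int.castRingHom ℝ) (G.coeff 0) = (Int.castRingHom ℝ) 0 := by simpa using hG
      exact hinj h2
    exact hG0 (by rw [this]; simp)
  have hder : G.derivative ≠ 0 := by
    intro h
    exact hdeg (Polynomial.natDegree_eq_zero_of_derivative_eq_zero h)
  have hne : ((G.map (Int.castRingHom ℝ)).derivative).eval p ≠ 0 := by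
    intro h
    rw [Polynomial.derivative_map] at h
    have hlt : G.derivative.natDegree < Nat.find hex := by
      rw [← hGn]
      exact Polynomial.natDegree_derivative_lt hdeg
    exact Nat.find_min hex hlt ⟨_, hder, rfl, h⟩
  rcases lt_or_gt_of_ne hne with h | h
  · refine ⟨-G, ?_, ?_⟩
    · simp [hG]
    · rw [Polynomial.map_neg, Polynomial.derivative_neg, Polynomial.eval_neg]
      linarith
  · exact ⟨G, hG, h⟩

/-- Value of a polynomial at a fraction. -/
lemma eval_div {G : Polynomial ℤ} {k d : ℕ} (hd : 1 ≤ d) :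
    (G.map (Int.castRingHom ℝ)).eval ((k : ℝ) / d) ≤ 0 ↔
      (∑ i ∈ Finset.range (G.natDegree + 1), (G.coeff i).toNat * k ^ i * d ^ (G.natDegree - i)) ≤
      ∑ i ∈ Finset.range (G.natDegree + 1), (-G.coeff i).toNat * k ^ i * d ^ (G.natDegree - i) := by
  have hd0 : (0 : ℝ) < d := by exact_mod_cast hd
  have h1 : (G.map (Int.castRingHom ℝ)).eval ((k : ℝ) / d) * d ^ G.natDegree =
      (∑ i ∈ Finset.range (G.natDegree + 1),
        ((G.coeff i).toNat : ℝ) * k ^ i * d ^ (G.natDegree - i)) -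
      ∑ i ∈ Finset.range (G.natDegree + 1),
        ((-G.coeff i).toNat : ℝ) * k ^ i * d ^ (G.natDegree - i) := by
    rw [Polynomial.eval_map, Polynomial.eval₂_eq_sum_range, Finset.sum_mul,
      ← Finset.sum_sub_distrib]
    refine Finset.sum_congr rfl fun i hi => ?_
    have hi' : i ≤ G.natDegree := by simpa [Nat.lt_succ_iff] using hi
    have h2 : ((d : ℝ)) ^ G.natDegree = d ^ i * d ^ (G.natDegree - i) := by
      rw [← pow_add]; congr 1; omega
    have h3 : (((G.coeff i).toNat : ℕ) : ℝ) - (((-G.coeff i).toNat : ℕ) : ℝ) = (G.coeff i : ℝ) := by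
      have : (((G.coeff i).toNat : ℕ) : ℤ) - (((-G.coeff i).toNat : ℕ) : ℤ) = G.coeff i := by omega
      exact_mod_cast this
    rw [h2, div_pow]
    have h4 : (d : ℝ) ^ i ≠ 0 := by positivity
    rw [← sub_mul, ← sub_mul, h3]
    simp only [eq_intCast]
    field_simp
  have hp : (0 : ℝ) < d ^ G.natDegree := by positivity
  constructor
  · intro h
    have h5 : (G.map (Int.castRingHom ℝ)).eval ((k : ℝ) / d) * d ^ G.natDegree ≤ 0 :=
      mul_nonpos_of_nonpos_of_nonneg h hp.le
    rw [h1] at h5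
    have h6 := sub_nonpos.1 h5
    exact_mod_cast h6
  · intro h
    have h6 : (∑ i ∈ Finset.range (G.natDegree + 1),
        ((G.coeff i).toNat : ℝ) * k ^ i * d ^ (G.natDegree - i)) ≤
      ∑ i ∈ Finset.range (G.natDegree + 1),
        ((-G.coeff i).toNat : ℝ) * k ^ i * d ^ (G.natDegree - i) := by exact_mod_cast h
    have h5 := sub_nonpos.2 h6
    rw [← h1] at h5
    by_contra hcon
    push Not at hcon
    have := mul_pos hcon hp
    linarith

/-- The rationals below a positive algebraic number are in `NP` (in unary; even in `P`). -/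
theorem cut_algebraic {p : ℝ} (hp : 0 < p) (ha : IsAlgebraic ℤ p) : Cut p ∈ NP := by
  classical
  obtain ⟨G, hG, hG'⟩ := exists_poly ha
  set g := G.map (Int.castRingHom ℝ) with hg
  have hev : ∀ᶠ x in nhds p, 0 < g.derivative.eval x :=
    (isOpen_lt continuous_const g.derivative.continuous).mem_nhds hG'
  obtain ⟨a', b', ⟨ha', hb'⟩, hab⟩ := mem_nhds_iff_exists_Ioo_subset.1 hev
  obtain ⟨a, ha1, ha2⟩ := exists_rat_btwn (max_lt ha' hp)
  obtain ⟨b, hb1, hb2⟩ := exists_rat_btwn hb'
  have ha0 : (0 : ℝ) < a := lt_of_le_of_lt (le_max_right _ _) ha1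
  have hb0 : (0 : ℝ) < b := hp.trans hb1
  obtain ⟨a₁, a₂, ha₂, hae⟩ := exists_nat_div' (r := a) (by exact_mod_cast ha0)
  obtain ⟨b₁, b₂, hb₂, hbe⟩ := exists_nat_div' (r := b) (by exact_mod_cast hb0)
  have hmono : StrictMonoOn (fun x => g.eval x) (Set.Icc (a : ℝ) b) := by
    refine strictMonoOn_of_deriv_pos (convex_Icc _ _) g.continuous.continuousOn fun x hx => ?_
    rw [interior_Icc] at hx
    rw [Polynomial.deriv]
    refine hab ⟨?_, hx.2.trans hb2⟩
    exact (lt_of_le_of_lt (le_max_left _ _) ha1).trans hx.1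
  have hpm : p ∈ Set.Icc (a : ℝ) b := ⟨ha2.le, hb1.le⟩
  refine cut_mem_NP_of_test (fun k d => decide (k * a₂ ≤ a₁ * d ∨ (k * b₂ ≤ b₁ * d ∧
    (∑ i ∈ Finset.range (G.natDegree + 1), (G.coeff i).toNat * k ^ i * d ^ (G.natDegree - i)) ≤
      ∑ i ∈ Finset.range (G.natDegree + 1), (-G.coeff i).toNat * k ^ i * d ^ (G.natDegree - i))))
    ?_ ?_
  · have h1 : PTime (fun b : ℕ × ℕ => ∑ i ∈ Finset.range (G.natDegree + 1),
        (G.coeff i).toNat * b.1 ^ i * b.2 ^ (G.natDegree - i)) :=
      ptime_sum _ (fun i => PTime.mul (PTime.mul (PTime.const _) (PTime.pow (by fun_prop) _))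
        (PTime.pow (by fun_prop) _)) _
    have h2 : PTime (fun b : ℕ × ℕ => ∑ i ∈ Finset.range (G.natDegree + 1),
        (-G.coeff i).toNat * b.1 ^ i * b.2 ^ (G.natDegree - i)) :=
      ptime_sum _ (fun i => PTime.mul (PTime.mul (PTime.const _) (PTime.pow (by fun_prop) _))
        (PTime.pow (by fun_prop) _)) _
    exact PTime.decide_or (by fun_prop) (PTime.decide_and (by fun_prop) (PTime.le h1 h2))
  · intro k d hd
    rw [decide_eq_true_eq, ← div_le_div_nat hd ha₂, ← div_le_div_nat hd hb₂, ← eval_div hd,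
      ← hae, ← hbe, ← hg]
    constructor
    · rintro (h | ⟨h1, h2⟩)
      · exact h.trans ha2.le
      · by_contra hcon
        push Not at hcon
        have := hmono hpm ⟨(ha2.le.trans hcon.le), h1⟩ hcon
        simp only [hG] at this
        linarith
    · intro h
      rcases le_or_gt ((k : ℝ) / d) a with h1 | h1
      · exact Or.inl h1
      · refine Or.inr ⟨h.trans hb1.le, ?_⟩
        have := hmono.monotoneOn ⟨h1.le, h.trans hb1.le⟩ hpm h
        simp only [hG] at this
        exact this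

/-- **NP-hardness** for every non-integer real number. -/
theorem star_hard {p : ℝ} (hp : 1 < p) (hn : ∀ n : ℕ, p ≠ n) :
    ∀ L ∈ NP, ManyOneReducible L (STAR p) := by
  obtain ⟨l, m, j, N, hl, hN, k₁, d₁, k₂, d₂, h1, h2, h3, h4⟩ := exists_decides hp hn
  exact hard_of_sat (g := fun φ => bitEncode (inst l m j N φ))
    (PTime.bitEncode (ptime_inst l m j N)) fun φ => inst_correct hl hN h1 h2 h3 h4 φ

/-- NP-completeness is membership of the rationals below `p`. -/
theorem star_complete_iff {p : ℝ} (hp : 1 < p) (hn : ∀ n : ℕ, p ≠ n) :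
    IsCompleteFor NP (STAR p) ↔ Cut p ∈ NP :=
  ⟨fun h => cut_mem_NP hp.le h.1, fun h => ⟨star_mem_NP h, star_hard hp hn⟩⟩

end Pool.Agent.H79.Star
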