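import Pool.Agent.H79.StarCore

/-!
# The infimum is attained by a colouring with at most `|V|` colours
-/

namespace Pool.Agent.H79.Star

/-- Weight of the walk that starts at `u` and continues through the list. -/
def wt {V : Type} (w : V → V → ℤ) : V → List V → ℤ
  | _, [] => 0
  | u, v :: l => w u v + wt w v l

lemma getLastD_cons' {V : Type} (v u : V) (l : List V) : (v :: l).getLastD u = l.getLastD v := by
  rw [List.getLastD_eq_getLast?, List.getLast?_cons, List.getLastD_eq_getLast?]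
  simp

lemma wt_append {V : Type} (w : V → V → ℤ) (l l' : List V) : ∀ u,
    wt w u (l ++ l') = wt w u l + wt w (l.getLastD u) l' := by
  induction l with
  | nil => intro u; simp [wt]
  | cons v l ih =>
    intro u
    rw [getLastD_cons', List.cons_append, wt, wt, ih]
    ring

lemma getLastD_append_cons {V : Type} (l l' : List V) (x u : V) :
    (l ++ x :: l').getLastD u = l'.getLastD x := by
  rw [List.getLastD_eq_getLast?, List.getLast?_append, List.getLast?_cons]
  simp

lemma wt_lin {V : Type} (Z : V → V → ℤ) (e k : ℤ) (l : List V) : ∀ u,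
    wt (fun u v => e - k * Z u v) u l = e * l.length - k * wt Z u l := by
  induction l with
  | nil => intro u; simp [wt]
  | cons v l ih =>
    intro u
    simp only [wt, ih, List.length_cons]
    push_cast
    ring

/-- A list longer than the number of elements has a repetition. -/
lemma exists_repeat {V : Type} [Fintype V] {l : List V} (h : Fintype.card V < l.length) :
    ∃ (x : V) (l₁ l₂ l₃ : List V), l = l₁ ++ x :: l₂ ++ x :: l₃ := by
  have h1 : ¬ l.Nodup := fun hn => by
    have := hn.length_le_card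
    omega
  rw [List.nodup_iff_sublist] at h1
  push Not at h1
  obtain ⟨x, hx⟩ := h1
  obtain ⟨l₁, l', rfl, h2⟩ := List.cons_sublist_iff.1 hx
  obtain ⟨hx1, h3⟩ : x ∈ l₁ ∧ x ∈ l' := ⟨h2.1, by simpa using h2.2⟩
  obtain ⟨a, b, rfl⟩ := List.append_of_mem hx1
  obtain ⟨c, d, rfl⟩ := List.append_of_mem h3
  exact ⟨x, a, b ++ c, d, by simp⟩

/-- Closed walks are nonnegative as soon as the short ones are. -/
lemma closed_nonneg {V : Type} [Fintype V] {w : V → V → ℤ}
    (h : ∀ (u : V) (l : List V), l.length ≤ Fintype.card V → l.getLastD u = u → 0 ≤ wt w u l) :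
    ∀ (n : ℕ) (u : V) (l : List V), l.length ≤ n → l.getLastD u = u → 0 ≤ wt w u l := by
  intro n
  induction n with
  | zero =>
    intro u l hl _
    have : l = [] := List.length_eq_zero_iff.1 (by omega)
    subst this
    simp [wt]
  | succ n ih =>
    intro u l hl hu
    by_cases hn : l.length ≤ Fintype.card V
    · exact h u l hn hu
    obtain ⟨x, l₁, l₂, l₃, rfl⟩ := exists_repeat (not_le.1 hn)
    have e1 : wt w u (l₁ ++ x :: l₂ ++ x :: l₃) = wt w u (l₁ ++ x :: l₃) + wt w x (l₂ ++ [x]) := by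
      rw [List.append_assoc, wt_append, wt_append, wt_append]
      simp only [wt, wt_append, getLastD_cons']
      ring
    rw [e1]
    have h2 : (l₁ ++ x :: l₃).getLastD u = u := by
      rw [getLastD_append_cons] at hu ⊢
      exact hu
    have h3 := ih u (l₁ ++ x :: l₃) (by simp at hl ⊢; omega) h2
    have h4 := ih x (l₂ ++ [x]) (by simp at hl ⊢; omega) (by rw [getLastD_append_cons]; rfl)
    omega

/-- Potentials exist when all closed walks are nonnegative. -/
lemma exists_potential {V : Type} {w : V → V → ℤ}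
    (h : ∀ (u : V) (l : List V), l.getLastD u = u → 0 ≤ wt w u l) :
    ∃ x : V → ℤ, ∀ u v, x v ≤ x u + w u v := by
  rcases isEmpty_or_nonempty V with hV | ⟨⟨v₀⟩⟩
  · exact ⟨fun _ => 0, fun u => (hV.false u).elim⟩
  let W : V → Set ℤ := fun v => {z | ∃ l : List V, l.getLastD v₀ = v ∧ z = wt w v₀ l}
  have hne : ∀ v, (W v).Nonempty := fun v => ⟨_, [v], rfl, rfl⟩
  have hbd : ∀ v, BddBelow (W v) := by
    intro v
    refine ⟨- w v v₀, ?_⟩
    rintro z ⟨l, hl, rfl⟩
    have h1 := h v₀ (l ++ [v₀]) (by rw [getLastD_append_cons]; rfl)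
    rw [wt_append, hl] at h1
    simp only [wt] at h1
    omega
  refine ⟨fun v => sInf (W v), fun u v => ?_⟩
  obtain ⟨l, hl, he⟩ := Int.csInf_mem (hne u) (hbd u)
  refine csInf_le (hbd v) ⟨l ++ [v], by rw [getLastD_append_cons]; rfl, ?_⟩
  rw [wt_append, hl, ← he]
  simp [wt]

lemma wt_pot_le {V : Type} {c : V → ℤ} {k e : ℤ} {Z : V → V → ℤ}
    (hZ : ∀ u v, c v - c u + k * Z u v ≤ e) (l : List V) : ∀ u,
    c (l.getLastD u) - c u + k * wt Z u l ≤ e * l.length := by
  induction l with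
  | nil => intro u; simp [wt]
  | cons v l ih =>
    intro u
    have h1 := ih v
    have h2 := hZ u v
    rw [getLastD_cons']
    simp only [wt, List.length_cons]
    push_cast
    nlinarith

/-- **Attainment.**  Every colouring can be replaced by one with at most `|V|` colours, with a
ratio that is at least as good. -/
theorem exists_small {V : Type} [Fintype V] {k e : ℤ} (he : 0 ≤ e) (hek : e < k)
    (c : V → ℤ) : ∃ k' e' : ℤ, 1 ≤ k' ∧ k' ≤ max 1 (Fintype.card V) ∧ 0 ≤ e' ∧ e' * k ≤ e * k' ∧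
      ∃ x : V → ℤ, ∀ S, Dense k e c S → Dense k' e' x S := by
  have hk : 0 < k := by omega
  rcases isEmpty_or_nonempty V with hV | ⟨⟨v₀⟩⟩
  · refine ⟨1, 0, le_rfl, by simp, le_rfl, by omega, fun _ => 0, fun S hS => ?_⟩
    obtain ⟨v, -⟩ := hS 0
    exact (hV.false v).elim
  let Z : V → V → ℤ := fun u v => (e - c v + c u) / k
  have hZ : ∀ u v, c v - c u + k * Z u v ≤ e := by
    intro u v
    have := Int.mul_ediv_self_le (x := e - c v + c u) hk.ne'
    simp only [Z]
    omega
  have hZ' : ∀ u v n, c v - c u + k * n ≤ e → n ≤ Z u v := by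
    intro u v n hn
    rw [Int.le_ediv_iff_mul_le hk, mul_comm]
    omega
  -- the closed walk of largest ratio
  let s : Set (V × List V) := {q | q.2 ≠ [] ∧ q.2.length ≤ Fintype.card V ∧ q.2.getLastD q.1 = q.1}
  have hfin : s.Finite := by
    have h1 : Set.Finite {l : List V | l.length ≤ Fintype.card V} := List.finite_length_le V _
    refine Set.Finite.subset (Set.finite_univ.prod h1) fun q hq => ?_
    exact ⟨trivial, hq.2.1⟩
  have hcard : 1 ≤ Fintype.card V := Fintype.card_pos_iff.2 ⟨v₀⟩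
  have hs0 : (v₀, [v₀]) ∈ s := ⟨by simp, by simpa using hcard, rfl⟩
  obtain ⟨⟨u₁, l₁⟩, ⟨hl1, hl2, hl3⟩, hmax⟩ := Set.exists_max_image s
    (fun q => (wt Z q.1 q.2 : ℚ) / q.2.length) hfin ⟨_, hs0⟩
  simp only at hl1 hl2 hl3
  have hpos : 0 < l₁.length := List.length_pos_iff.2 hl1
  set k' : ℤ := (l₁.length : ℤ) with hk'
  set e' : ℤ := wt Z u₁ l₁ with he'
  have hk'0 : 0 < k' := by omega
  have hcross : ∀ (u : V) (l : List V), l ≠ [] → l.length ≤ Fintype.card V → l.getLastD u = u →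
      k' * wt Z u l ≤ e' * l.length := by
    intro u l h1 h2 h3
    have h4 := hmax (u, l) ⟨h1, h2, h3⟩
    simp only at h4
    have h5 : 0 < l.length := List.length_pos_iff.2 h1
    rw [div_le_div_iff₀ (by exact_mod_cast h5) (by exact_mod_cast hpos)] at h4
    have h6 : wt Z u l * (l₁.length : ℤ) ≤ wt Z u₁ l₁ * (l.length : ℤ) := by exact_mod_cast h4
    rw [mul_comm k']
    exact h6
  have he'0 : 0 ≤ e' := by
    have h1 := hcross v₀ [v₀] (by simp) (by simpa using hcard) rfl
    have h2 : 0 ≤ Z v₀ v₀ := hZ' _ _ _ (by omega)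
    simp only [wt, List.length_singleton] at h1
    have h3 : 0 ≤ k' * Z v₀ v₀ := mul_nonneg hk'0.le h2
    push_cast at h1
    nlinarith
  have hratio : e' * k ≤ e * k' := by
    have h1 := wt_pot_le hZ l₁ u₁
    rw [hl3, ← hk', ← he'] at h1
    have : k * e' = e' * k := by ring
    omega
  obtain ⟨x, hx⟩ := exists_potential (w := fun u v => e' - k' * Z u v) (by
    intro u l hul
    refine closed_nonneg (w := fun u v => e' - k' * Z u v) ?_ l.length u l le_rfl hul
    intro u l h1 h2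
    by_cases h0 : l = []
    · subst h0; simp [wt]
    · rw [wt_lin]
      have := hcross u l h0 h1 h2
      omega)
  refine ⟨k', e', by omega, ?_, he'0, hratio, x, fun S hS => ?_⟩
  · have : l₁.length ≤ max 1 (Fintype.card V) := le_max_of_le_right hl2
    rw [hk']
    exact_mod_cast this
  -- walk inside `S`
  have hstep : ∀ u : S, ∃ v : S, ∃ n : ℤ, c u + 1 ≤ c v + n * k ∧ c v + n * k ≤ c u + e := by
    intro u
    obtain ⟨v, hv, n, h1, h2⟩ := hS (c u + 1)
    exact ⟨⟨v, hv⟩, n, h1, by change c v + n * k ≤ c u + e; omega⟩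
  choose nx N hN1 hN2 using hstep
  obtain ⟨u₀, hu₀, -⟩ := hS 0
  let U : ℕ → S := fun j => nx^[j] ⟨u₀, hu₀⟩
  have hU : ∀ j, U (j + 1) = nx (U j) := fun j => Function.iterate_succ_apply' _ _ _
  let M : ℕ → ℤ := fun j => ∑ i ∈ Finset.range j, N (U i)
  have hM : ∀ j, M (j + 1) = M j + N (U j) := fun j => Finset.sum_range_succ _ _
  have hc : ∀ j : ℕ, c (U 0) + j ≤ c (U j) + M j * k := by
    intro j
    induction j with
    | zero => simp [M]
    | succ j ih =>
      have h1 := hN1 (U j)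
      rw [hU, hM]
      push_cast
      nlinarith
  have hX : ∀ j : ℕ, x (U (j + 1)) + M (j + 1) * k' ≤ x (U j) + M j * k' + e' := by
    intro j
    have h1 := hx (U j) (nx (U j))
    have h2 : N (U j) ≤ Z (U j) (nx (U j)) := hZ' _ _ _ (by
      have := hN2 (U j)
      rw [mul_comm]
      omega)
    have h3 : k' * N (U j) ≤ k' * Z (U j) (nx (U j)) := mul_le_mul_of_nonneg_left h2 hk'0.le
    rw [hU, hM]
    nlinarith
  obtain ⟨C, hC⟩ : ∃ C : ℤ, ∀ v, |c v| ≤ C := by
    obtain ⟨v, -, hv⟩ := Finset.exists_max_image Finset.univ (fun v => |c v|) ⟨v₀, Finset.mem_univ _⟩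
    exact ⟨|c v|, fun w => hv w (Finset.mem_univ _)⟩
  obtain ⟨C', hC'⟩ : ∃ C : ℤ, ∀ v, |x v| ≤ C := by
    obtain ⟨v, -, hv⟩ := Finset.exists_max_image Finset.univ (fun v => |x v|) ⟨v₀, Finset.mem_univ _⟩
    exact ⟨|x v|, fun w => hv w (Finset.mem_univ _)⟩
  have hC0 : 0 ≤ C := (abs_nonneg _).trans (hC v₀)
  have hC'0 : 0 ≤ C' := (abs_nonneg _).trans (hC' v₀)
  set T : ℕ := (2 * C + k * (1 + 2 * C')).toNat with hT
  have hT' : (T : ℤ) = 2 * C + k * (1 + 2 * C') := by
    rw [hT, Int.toNat_of_nonneg]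
    have : 0 ≤ k * (1 + 2 * C') := mul_nonneg hk.le (by omega)
    omega
  refine dense_of_seq hk'0 (fun j => x (U j) + M j * k') T (fun j _ => hX j) ?_
    (fun j _ => ⟨U j, (U j).2, M j, rfl⟩)
  have h1 := hc T
  have h2 := abs_le.1 (hC (U 0))
  have h3 := abs_le.1 (hC (U T))
  have h4 := abs_le.1 (hC' (U 0))
  have h5 := abs_le.1 (hC' (U T))
  have h6 : k * (1 + 2 * C') ≤ k * M T := by rw [hT'] at h1; nlinarith
  have h7 : 1 + 2 * C' ≤ M T := le_of_mul_le_mul_left h6 hk
  have h8 : M 0 = 0 := by simp [M]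
  simp only [h8, zero_mul, add_zero]
  have h9 : (1 + 2 * C') * k' ≤ M T * k' := mul_le_mul_of_nonneg_right h7 hk'0.le
  have h10 : 2 * C' ≤ 2 * C' * k' := by nlinarith
  nlinarith

/-- The values `k / d` of colourings. -/
lemma exists_small_colouring {V : Type} [Fintype V] (D : Digraph V) {k d : ℕ} (hd : 1 ≤ d)
    (hdk : d ≤ k) (h : ∃ c : V → ZMod k, IsAcyclicColouring D k d c) :
    ∃ k' d' : ℕ, 1 ≤ d' ∧ d' ≤ k' ∧ k' ≤ max 1 (Fintype.card V) ∧ k' * d ≤ k * d' ∧
      ∃ c : V → ZMod k', IsAcyclicColouring D k' d' c := by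
  rw [colourable_iff D hd hdk] at h
  obtain ⟨c, hc⟩ := h
  obtain ⟨k', e', h1, h2, h3, h4, x, hx⟩ := exists_small (k := k) (e := (k - d : ℕ)) (by omega)
    (by omega) c
  have h5 : e' < k' := by
    by_contra hcon
    push Not at hcon
    have h6 : k' * k ≤ e' * k := mul_le_mul_of_nonneg_right hcon (by omega)
    have h7 : ((k - d : ℕ) : ℤ) ≤ k - 1 := by omega
    have h8 : ((k - d : ℕ) : ℤ) * k' ≤ (k - 1) * k' := mul_le_mul_of_nonneg_right h7 (by omega)
    nlinarith
  refine ⟨k'.toNat, (k' - e').toNat, by omega, by omega, by omega, ?_, ?_⟩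
  · zify
    rw [Int.toNat_of_nonneg (by omega), Int.toNat_of_nonneg (by omega)]
    have h6 : ((k - d : ℕ) : ℤ) = k - d := by omega
    rw [h6] at h4
    nlinarith
  · rw [colourable_iff D (by omega) (by omega)]
    refine ⟨x, fun S hS => ?_⟩
    have h6 : ((k'.toNat : ℕ) : ℤ) = k' := Int.toNat_of_nonneg (by omega)
    have h7 : ((k'.toNat - (k' - e').toNat : ℕ) : ℤ) = e' := by omega
    rw [h6, h7]
    exact hx S (hc S hS)

/-- Monotonicity in the ratio. -/
lemma colouring_mono {V : Type} (D : Digraph V) {k d k' d' : ℕ} (hd : 1 ≤ d)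
    (hdk : d ≤ k) (hd' : 1 ≤ d') (hdk' : d' ≤ k') (hle : k * d' ≤ k' * d)
    (h : ∃ c : V → ZMod k, IsAcyclicColouring D k d c) :
    ∃ c : V → ZMod k', IsAcyclicColouring D k' d' c := by
  rw [colourable_iff D hd hdk] at h
  rw [colourable_iff D hd' hdk']
  obtain ⟨c, hc⟩ := h
  refine ⟨_, fun S hS => (hc S hS).scale (by omega) (by omega) ?_⟩
  have h1 : ((k - d : ℕ) : ℤ) = k - d := by omega
  have h2 : ((k' - d' : ℕ) : ℤ) = k' - d' := by omega
  rw [h1, h2]
  zify at hle
  nlinarith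

lemma exists_trivial_colouring {V : Type} [Fintype V] (D : Digraph V)
    (hloop : ∀ v, ¬ D.Adj v v) :
    ∃ c : V → ZMod (max 1 (Fintype.card V)), IsAcyclicColouring D (max 1 (Fintype.card V)) 1 c := by
  set K := max 1 (Fintype.card V) with hK
  have : NeZero K := ⟨by omega⟩
  have hlt : ∀ v, (Fintype.equivFin V v).val < K := fun v =>
    lt_of_lt_of_le (Fintype.equivFin V v).isLt (le_max_right _ _)
  have hinj : Function.Injective fun v => (((Fintype.equivFin V v).val : ℕ) : ZMod K) := by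
    intro a b hab
    have h1 : (((Fintype.equivFin V a).val : ℕ) : ZMod K).val =
      (((Fintype.equivFin V b).val : ℕ) : ZMod K).val := congrArg ZMod.val hab
    rw [ZMod.val_cast_of_lt (hlt a), ZMod.val_cast_of_lt (hlt b)] at h1
    exact (Fintype.equivFin V).injective (Fin.ext h1)
  refine ⟨fun v => (((Fintype.equivFin V v).val : ℕ) : ZMod K), fun i v hv => ?_⟩
  have hhead : ∀ a b, Relation.TransGen (fun a b =>
      a ∈ {v | ∃ j < 1, (((Fintype.equivFin V v).val : ℕ) : ZMod K) = i + (j : ℕ)} ∧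
      b ∈ {v | ∃ j < 1, (((Fintype.equivFin V v).val : ℕ) : ZMod K) = i + (j : ℕ)} ∧
      D.Adj a b) a b → False := by
    intro a b h
    induction h with
    | single h =>
      obtain ⟨⟨j, hj, h1⟩, ⟨j', hj', h2⟩, h3⟩ := h
      have : j = j' := by omega
      subst this
      have := hinj (h1.trans h2.symm)
      subst this
      exact hloop _ h3
    | tail _ _ ih => exact ih
  exact hhead v v hv

/-- The star dichromatic number is at most `p` exactly when some colouring with at most `|V|`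
colours shows it. -/
theorem starDichromatic_le_iff {V : Type} [Fintype V] (D : Digraph V) (hloop : ∀ v, ¬ D.Adj v v)
    (p : ℝ) : starDichromatic D ≤ p ↔ ∃ k d : ℕ, 1 ≤ d ∧ d ≤ k ∧ k ≤ max 1 (Fintype.card V) ∧
      (k : ℝ) ≤ p * d ∧ ∃ c : V → ZMod k, IsAcyclicColouring D k d c := by
  constructor
  · intro h
    let s : Set (ℕ × ℕ) := {q | 1 ≤ q.2 ∧ q.2 ≤ q.1 ∧ q.1 ≤ max 1 (Fintype.card V) ∧
      ∃ c : V → ZMod q.1, IsAcyclicColouring D q.1 q.2 c}
    have hfin : s.Finite := by
      refine Set.Finite.subset ((Set.finite_Iic (max 1 (Fintype.card V))).prod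
        (Set.finite_Iic (max 1 (Fintype.card V)))) fun q hq => ?_
      exact ⟨hq.2.2.1, hq.2.1.trans hq.2.2.1⟩
    have hne : s.Nonempty := ⟨(max 1 (Fintype.card V), 1), le_rfl, le_max_left _ _, le_rfl,
      exists_trivial_colouring D hloop⟩
    obtain ⟨⟨k, d⟩, ⟨h1, h2, h3, h4⟩, hmin⟩ := Set.exists_min_image s
      (fun q => (q.1 : ℝ) / q.2) hfin hne
    simp only at h1 h2 h3 h4
    refine ⟨k, d, h1, h2, h3, ?_, h4⟩
    have hd0 : (0 : ℝ) < d := by exact_mod_cast h1
    rw [← div_le_iff₀ hd0]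
    refine le_trans ?_ h
    refine le_csInf ⟨_, k, d, h1, h2, rfl, h4⟩ ?_
    rintro x ⟨k₁, d₁, g1, g2, rfl, g3⟩
    obtain ⟨k₂, d₂, f1, f2, f3, f4, f5⟩ := exists_small_colouring D g1 g2 g3
    have := hmin (k₂, d₂) ⟨f1, f2, f3, f5⟩
    simp only at this
    refine this.trans ?_
    rw [div_le_div_iff₀ (by exact_mod_cast f1) (by exact_mod_cast g1)]
    exact_mod_cast f4
  · rintro ⟨k, d, h1, h2, -, h3, h4⟩
    have hd0 : (0 : ℝ) < d := by exact_mod_cast h1
    refine le_trans (csInf_le ⟨0, ?_⟩ ⟨k, d, h1, h2, rfl, h4⟩) ((div_le_iff₀ hd0).2 h3)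
    rintro x ⟨k₁, d₁, g1, g2, rfl, g3⟩
    positivity

end Pool.Agent.H79.Star
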