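import Pool.Agent.TM.Sat

/-!
# From 3-SAT to colouring with `N` colours
-/

namespace Pool.Agent.H79.Star

open TMLib

/-- Base vertices. -/
def bv (i : ℕ) : ℕ := Nat.pair 0 i
/-- Literal vertices. -/
def lv (a : Lit) : ℕ := Nat.pair (if a.2 = true then 1 else 2) a.1
/-- Clause vertices. -/
def gv (p i : ℕ) : ℕ := Nat.pair (3 + p) i

/-- Base clique. -/
def baseE (N : ℕ) : List (ℕ × ℕ) :=
  (List.range N).flatMap fun i => (List.range i).map fun j => (bv j, bv i)

/-- Edges of a variable. -/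
def litE (N x : ℕ) : List (ℕ × ℕ) :=
  (lv (x, true), lv (x, false)) :: (List.range (N - 2)).flatMap fun i =>
    [(bv (i + 2), lv (x, true)), (bv (i + 2), lv (x, false))]

/-- Edges joining clause vertices to the base. -/
def gbE (N i : ℕ) : List (ℕ × ℕ) :=
  (List.range (N - 3)).flatMap fun j => (List.range 5).map fun p => (bv (j + 3), gv p i)

/-- Inner edges of a clause. -/
def inE (i : ℕ) (c : Cl) : List (ℕ × ℕ) :=
  [(lv c.1, gv 0 i), (lv c.2.1, gv 1 i), (gv 0 i, gv 1 i), (gv 0 i, gv 2 i), (gv 1 i, gv 2 i),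
    (gv 2 i, gv 3 i), (lv c.2.2, gv 4 i), (gv 3 i, gv 4 i), (bv 0, gv 3 i), (bv 0, gv 4 i)]

/-- Edges of a clause. -/
def clE (N : ℕ) (i : ℕ) (c : Cl) : List (ℕ × ℕ) :=
  litE N c.1.1 ++ (litE N c.2.1.1 ++ (litE N c.2.2.1 ++ (gbE N i ++ inE i c)))

/-- The graph of a formula. -/
def satE (N : ℕ) (φ : List Cl) : List (ℕ × ℕ) :=
  baseE N ++ ((List.range φ.length).zip φ).flatMap fun p => clE N p.1 p.2

/-- `c` is a proper colouring with `N` colours. -/
def IsCol (N : ℕ) (B : List (ℕ × ℕ)) (c : ℕ → ℕ) : Prop :=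
  (∀ v, c v < N) ∧ ∀ q ∈ B, c q.1 ≠ c q.2

lemma mem_baseE {N : ℕ} {q : ℕ × ℕ} : q ∈ baseE N ↔ ∃ i < N, ∃ j < i, q = (bv j, bv i) := by
  simp only [baseE, List.mem_flatMap, List.mem_range, List.mem_map]
  refine exists_congr fun i => and_congr_right fun _ => exists_congr fun j =>
    and_congr_right fun _ => eq_comm

lemma mem_litE {N x : ℕ} {q : ℕ × ℕ} : q ∈ litE N x ↔ q = (lv (x, true), lv (x, false)) ∨
    ∃ i, 2 ≤ i ∧ i < N ∧ ∃ b, q = (bv i, lv (x, b)) := by
  simp only [litE, List.mem_cons, List.mem_flatMap, List.mem_range, List.not_mem_nil, or_false]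
  refine or_congr Iff.rfl ?_
  constructor
  · rintro ⟨i, hi, rfl | rfl⟩
    · exact ⟨i + 2, by omega, by omega, true, rfl⟩
    · exact ⟨i + 2, by omega, by omega, false, rfl⟩
  · rintro ⟨i, h1, h2, b, rfl⟩
    refine ⟨i - 2, by omega, ?_⟩
    rw [show i - 2 + 2 = i by omega]
    cases b
    · exact Or.inr rfl
    · exact Or.inl rfl

lemma mem_gbE {N i : ℕ} {q : ℕ × ℕ} : q ∈ gbE N i ↔
    ∃ j, 3 ≤ j ∧ j < N ∧ ∃ p < 5, q = (bv j, gv p i) := by
  simp only [gbE, List.mem_flatMap, List.mem_range, List.mem_map]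
  constructor
  · rintro ⟨j, hj, p, hp, rfl⟩
    exact ⟨j + 3, by omega, by omega, p, hp, rfl⟩
  · rintro ⟨j, h1, h2, p, hp, rfl⟩
    refine ⟨j - 3, by omega, p, hp, ?_⟩
    rw [show j - 3 + 3 = j by omega]

lemma mem_zip_range {φ : List Cl} {p : ℕ × Cl} : p ∈ (List.range φ.length).zip φ ↔
    φ[p.1]? = some p.2 := by
  constructor
  · intro h
    obtain ⟨i, hi, rfl⟩ := List.getElem_of_mem h
    simp only [List.length_zip, List.length_range, min_self] at hi
    simp [hi]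
  · intro h
    obtain ⟨hi, h2⟩ := List.getElem?_eq_some_iff.1 h
    have h3 : ((List.range φ.length).zip φ)[p.1]'(by simpa using hi) = p := by
      rw [List.getElem_zip]
      simp [h2]
    rw [← h3]
    exact List.getElem_mem _

lemma mem_satE {N : ℕ} {φ : List Cl} {q : ℕ × ℕ} : q ∈ satE N φ ↔ q ∈ baseE N ∨
    ∃ i c, φ[i]? = some c ∧ q ∈ clE N i c := by
  simp only [satE, List.mem_append, List.mem_flatMap, mem_zip_range, Prod.exists]

lemma mem_clE {N i : ℕ} {c : Cl} {q : ℕ × ℕ} : q ∈ clE N i c ↔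
    q ∈ litE N c.1.1 ∨ q ∈ litE N c.2.1.1 ∨ q ∈ litE N c.2.2.1 ∨ q ∈ gbE N i ∨ q ∈ inE i c := by
  simp only [clE, List.mem_append]

lemma mem_inE {i : ℕ} {c : Cl} {q : ℕ × ℕ} : q ∈ inE i c ↔
    q = (lv c.1, gv 0 i) ∨ q = (lv c.2.1, gv 1 i) ∨ q = (gv 0 i, gv 1 i) ∨ q = (gv 0 i, gv 2 i) ∨
    q = (gv 1 i, gv 2 i) ∨ q = (gv 2 i, gv 3 i) ∨ q = (lv c.2.2, gv 4 i) ∨
    q = (gv 3 i, gv 4 i) ∨ q = (bv 0, gv 3 i) ∨ q = (bv 0, gv 4 i) := by
  simp only [inE, List.mem_cons, List.not_mem_nil, or_false]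

lemma bv_ne_lv (i : ℕ) (a : Lit) : bv i ≠ lv a := by
  intro h
  have := (Nat.pair_eq_pair.1 h).1
  split_ifs at this

lemma bv_ne_gv (i p j : ℕ) : bv i ≠ gv p j := by
  intro h
  have := (Nat.pair_eq_pair.1 h).1
  omega

lemma lv_ne_gv (a : Lit) (p j : ℕ) : lv a ≠ gv p j := by
  intro h
  have := (Nat.pair_eq_pair.1 h).1
  split_ifs at this <;> omega

lemma gv_ne_gv {p p' : ℕ} (hp : p ≠ p') (j j' : ℕ) : gv p j ≠ gv p' j' := by
  intro h
  have := (Nat.pair_eq_pair.1 h).1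
  omega

lemma lv_ne_lv (x : ℕ) : lv (x, true) ≠ lv (x, false) := by
  intro h
  have := (Nat.pair_eq_pair.1 h).1
  simp at this

lemma satE_loopless {N : ℕ} {φ : List Cl} : ∀ q ∈ satE N φ, q.1 ≠ q.2 := by
  intro q hq
  have hlit : ∀ x, q ∈ litE N x → q.1 ≠ q.2 := by
    intro x hx
    rw [mem_litE] at hx
    rcases hx with rfl | ⟨i, -, -, b, rfl⟩
    · exact lv_ne_lv x
    · exact bv_ne_lv i _
  rw [mem_satE] at hq
  rcases hq with hq | ⟨i, c, -, hq⟩
  · rw [mem_baseE] at hq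
    obtain ⟨i, -, j, hj, rfl⟩ := hq
    simp only [bv]
    intro h
    have := (Nat.pair_eq_pair.1 h).2
    omega
  · rw [mem_clE] at hq
    rcases hq with hq | hq | hq | hq | hq
    · exact hlit _ hq
    · exact hlit _ hq
    · exact hlit _ hq
    · rw [mem_gbE] at hq
      obtain ⟨j, -, -, p, -, rfl⟩ := hq
      exact bv_ne_gv _ _ _
    · rw [mem_inE] at hq
      rcases hq with rfl | rfl | rfl | rfl | rfl | rfl | rfl | rfl | rfl | rfl
      · exact lv_ne_gv _ _ _
      · exact lv_ne_gv _ _ _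
      · exact gv_ne_gv (by omega) _ _
      · exact gv_ne_gv (by omega) _ _
      · exact gv_ne_gv (by omega) _ _
      · exact gv_ne_gv (by omega) _ _
      · exact lv_ne_gv _ _ _
      · exact gv_ne_gv (by omega) _ _
      · exact bv_ne_gv 0 3 i
      · exact bv_ne_gv 0 4 i

/-- Every vertex of `B` other than `z` is adjacent to `z`. -/
def Univ (z : ℕ) (B : List (ℕ × ℕ)) : Prop :=
  ∀ q ∈ B, (q.1 = z ∨ (z, q.1) ∈ B ∨ (q.1, z) ∈ B) ∧ (q.2 = z ∨ (z, q.2) ∈ B ∨ (q.2, z) ∈ B)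

lemma satE_univ {N : ℕ} (hN : 4 ≤ N) (φ : List Cl) : Univ (bv (N - 1)) (satE N φ) := by
  have hb : ∀ j < N, bv j = bv (N - 1) ∨ (bv (N - 1), bv j) ∈ satE N φ ∨
      (bv j, bv (N - 1)) ∈ satE N φ := by
    intro j hj
    by_cases h : j = N - 1
    · left; rw [h]
    · right; right
      rw [mem_satE]
      exact Or.inl (mem_baseE.2 ⟨N - 1, by omega, j, by omega, rfl⟩)
  have hlit : ∀ i c, φ[i]? = some c → ∀ x, (∀ q, q ∈ litE N x → q ∈ clE N i c) → ∀ b,
      (bv (N - 1), lv (x, b)) ∈ satE N φ := by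
    intro i c hc x hx b
    rw [mem_satE]
    exact Or.inr ⟨i, c, hc, hx _ (mem_litE.2 (Or.inr ⟨N - 1, by omega, by omega, b, rfl⟩))⟩
  have hg : ∀ i c, φ[i]? = some c → ∀ p < 5, (bv (N - 1), gv p i) ∈ satE N φ := by
    intro i c hc p hp
    rw [mem_satE]
    refine Or.inr ⟨i, c, hc, mem_clE.2 ?_⟩
    exact Or.inr (Or.inr (Or.inr (Or.inl (mem_gbE.2 ⟨N - 1, by omega, by omega, p, hp, rfl⟩))))
  intro q hq
  rw [mem_satE] at hq
  rcases hq with hq | ⟨i, c, hc, hq⟩
  · obtain ⟨i, hi, j, hj, rfl⟩ := mem_baseE.1 hq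
    exact ⟨hb j (by omega), hb i hi⟩
  · have l1 := hlit i c hc c.1.1 (fun q hq => mem_clE.2 (Or.inl hq))
    have l2 := hlit i c hc c.2.1.1 (fun q hq => mem_clE.2 (Or.inr (Or.inl hq)))
    have l3 := hlit i c hc c.2.2.1 (fun q hq => mem_clE.2 (Or.inr (Or.inr (Or.inl hq))))
    have hL : ∀ x, (∀ b, (bv (N - 1), lv (x, b)) ∈ satE N φ) → q ∈ litE N x →
        (q.1 = bv (N - 1) ∨ (bv (N - 1), q.1) ∈ satE N φ ∨ (q.1, bv (N - 1)) ∈ satE N φ) ∧
        (q.2 = bv (N - 1) ∨ (bv (N - 1), q.2) ∈ satE N φ ∨ (q.2, bv (N - 1)) ∈ satE N φ) := by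
      intro x hx hqx
      rcases mem_litE.1 hqx with rfl | ⟨i, h1, h2, b, rfl⟩
      · exact ⟨Or.inr (Or.inl (hx true)), Or.inr (Or.inl (hx false))⟩
      · exact ⟨hb i h2, Or.inr (Or.inl (hx b))⟩
    rcases mem_clE.1 hq with hq | hq | hq | hq | hq
    · exact hL _ l1 hq
    · exact hL _ l2 hq
    · exact hL _ l3 hq
    · obtain ⟨j, h1, h2, p, hp, rfl⟩ := mem_gbE.1 hq
      exact ⟨hb j h2, Or.inr (Or.inl (hg i c hc p hp))⟩
    · have g := hg i c hc
      have m1 : (bv (N - 1), lv c.1) ∈ satE N φ := l1 c.1.2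
      have m2 : (bv (N - 1), lv c.2.1) ∈ satE N φ := l2 c.2.1.2
      have m3 : (bv (N - 1), lv c.2.2) ∈ satE N φ := l3 c.2.2.2
      rcases mem_inE.1 hq with rfl | rfl | rfl | rfl | rfl | rfl | rfl | rfl | rfl | rfl
      · exact ⟨Or.inr (Or.inl m1), Or.inr (Or.inl (g 0 (by omega)))⟩
      · exact ⟨Or.inr (Or.inl m2), Or.inr (Or.inl (g 1 (by omega)))⟩
      · exact ⟨Or.inr (Or.inl (g 0 (by omega))), Or.inr (Or.inl (g 1 (by omega)))⟩
      · exact ⟨Or.inr (Or.inl (g 0 (by omega))), Or.inr (Or.inl (g 2 (by omega)))⟩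
      · exact ⟨Or.inr (Or.inl (g 1 (by omega))), Or.inr (Or.inl (g 2 (by omega)))⟩
      · exact ⟨Or.inr (Or.inl (g 2 (by omega))), Or.inr (Or.inl (g 3 (by omega)))⟩
      · exact ⟨Or.inr (Or.inl m3), Or.inr (Or.inl (g 4 (by omega)))⟩
      · exact ⟨Or.inr (Or.inl (g 3 (by omega))), Or.inr (Or.inl (g 4 (by omega)))⟩
      · exact ⟨hb 0 (by omega), Or.inr (Or.inl (g 3 (by omega)))⟩
      · exact ⟨hb 0 (by omega), Or.inr (Or.inl (g 4 (by omega)))⟩

/-- From colourings to assignments. -/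
lemma sat_of_col {N : ℕ} (hN : 3 ≤ N) {φ : List Cl} {c : ℕ → ℕ} (hc : IsCol N (satE N φ) c) :
    Sat φ := by
  obtain ⟨hlt, hne⟩ := hc
  -- base colours
  have hbase : ∀ i < N, ∀ j < i, c (bv j) ≠ c (bv i) := fun i hi j hj =>
    hne _ (mem_satE.2 (Or.inl (mem_baseE.2 ⟨i, hi, j, hj, rfl⟩)))
  have hinj : Function.Injective (fun i : Fin N => (⟨c (bv i), hlt _⟩ : Fin N)) := by
    intro i j hij
    have h1 : c (bv i) = c (bv j) := congrArg Fin.val hij
    by_contra h
    rcases lt_or_gt_of_ne (fun h' => h (Fin.ext h') : i.val ≠ j.val) with h2 | h2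
    · exact hbase j j.isLt i h2 h1
    · exact hbase i i.isLt j h2 h1.symm
  have hsurj : ∀ v, ∃ i < N, c v = c (bv i) := by
    intro v
    obtain ⟨i, hi⟩ := (Finite.injective_iff_surjective.1 hinj) ⟨c v, hlt v⟩
    exact ⟨i, i.isLt, (congrArg Fin.val hi).symm⟩
  have two : ∀ v, (∀ i, 2 ≤ i → i < N → c (bv i) ≠ c v) → c v = c (bv 0) ∨ c v = c (bv 1) := by
    intro v hv
    obtain ⟨i, hi, he⟩ := hsurj v
    rcases Nat.lt_or_ge i 2 with h | h
    · interval_cases i
      · exact Or.inl he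
      · exact Or.inr he
    · exact absurd he.symm (hv i h hi)
  have three : ∀ v, (∀ i, 3 ≤ i → i < N → c (bv i) ≠ c v) →
      c v = c (bv 0) ∨ c v = c (bv 1) ∨ c v = c (bv 2) := by
    intro v hv
    obtain ⟨i, hi, he⟩ := hsurj v
    rcases Nat.lt_or_ge i 3 with h | h
    · interval_cases i
      · exact Or.inl he
      · exact Or.inr (Or.inl he)
      · exact Or.inr (Or.inr he)
    · exact absurd he.symm (hv i h hi)
  have d01 : c (bv 0) ≠ c (bv 1) := hbase 1 (by omega) 0 (by omega)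
  refine ⟨fun x => decide (c (lv (x, true)) = c (bv 0)), fun cl hcl => ?_⟩
  obtain ⟨i, hi, hcl'⟩ := List.getElem_of_mem hcl
  have hi' : φ[i]? = some cl := by rw [List.getElem?_eq_getElem hi, hcl']
  have hall : ∀ q ∈ clE N i cl, c q.1 ≠ c q.2 := fun q hq =>
    hne q (mem_satE.2 (Or.inr ⟨i, cl, hi', hq⟩))
  -- value of a literal
  have hlit : ∀ a : Lit, (∀ q, q ∈ litE N a.1 → q ∈ clE N i cl) →
      ¬ (decide (c (lv (a.1, true)) = c (bv 0)) = a.2) → c (lv a) = c (bv 1) := by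
    intro a ha hna
    have t1 := two (lv (a.1, true)) (fun j h1 h2 =>
      hall _ (ha _ (mem_litE.2 (Or.inr ⟨j, h1, h2, true, rfl⟩))))
    have t2 := two (lv (a.1, false)) (fun j h1 h2 =>
      hall _ (ha _ (mem_litE.2 (Or.inr ⟨j, h1, h2, false, rfl⟩))))
    have t3 : c (lv (a.1, true)) ≠ c (lv (a.1, false)) :=
      hall _ (ha _ (mem_litE.2 (Or.inl rfl)))
    obtain ⟨x, b⟩ := a
    cases b with
    | true =>
      simp only [decide_eq_true_eq] at hna
      exact t1.resolve_left hna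
    | false =>
      simp only [decide_eq_false_iff_not, not_not] at hna
      rcases t2 with h | h
      · exact absurd (hna.trans h.symm) t3
      · exact h
  by_contra hno
  unfold Cl.holds at hno
  push Not at hno
  obtain ⟨n1, n2, n3⟩ := hno
  have v1 := hlit cl.1 (fun q hq => mem_clE.2 (Or.inl hq)) n1
  have v2 := hlit cl.2.1 (fun q hq => mem_clE.2 (Or.inr (Or.inl hq))) n2
  have v3 := hlit cl.2.2 (fun q hq => mem_clE.2 (Or.inr (Or.inr (Or.inl hq)))) n3
  have hg3 : ∀ p < 5, c (gv p i) = c (bv 0) ∨ c (gv p i) = c (bv 1) ∨ c (gv p i) = c (bv 2) := by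
    intro p hp
    refine three _ fun j h1 h2 => hall (bv j, gv p i) (mem_clE.2 ?_)
    exact Or.inr (Or.inr (Or.inr (Or.inl (mem_gbE.2 ⟨j, h1, h2, p, hp, rfl⟩))))
  have hin : ∀ q ∈ inE i cl, c q.1 ≠ c q.2 := fun q hq => hall q
    (mem_clE.2 (Or.inr (Or.inr (Or.inr (Or.inr hq)))))
  simp only [inE, List.forall_mem_cons, List.not_mem_nil, false_imp_iff, implies_true,
    and_true] at hin
  obtain ⟨e1, e2, e3, e4, e5, e6, e7, e8, e9, e10⟩ := hin
  rw [v1] at e1
  rw [v2] at e2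
  rw [v3] at e7
  have g0 := hg3 0 (by omega)
  have g1 := hg3 1 (by omega)
  have g2 := hg3 2 (by omega)
  have g3 := hg3 3 (by omega)
  have g4 := hg3 4 (by omega)
  omega

/-- Colours of the clause vertices, given the values of the three literals. -/
def gcol (x1 x2 : Bool) (p : ℕ) : ℕ :=
  if p = 0 then (if x1 = true then 1 else if x2 = true then 2 else 0)
  else if p = 1 then (if x1 = true then 2 else if x2 = true then 1 else 2)
  else if p = 2 then (if x1 = true ∨ x2 = true then 0 else 1)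
  else if p = 3 then (if x1 = true ∨ x2 = true then 1 else 2)
  else (if x1 = true ∨ x2 = true then 2 else 1)

/-- Value of a literal. -/
def lval (v : ℕ → Bool) (a : Lit) : Bool := v a.1 == a.2

/-- The colouring of an assignment. -/
def colOf (N : ℕ) (φ : List Cl) (v : ℕ → Bool) (n : ℕ) : ℕ :=
  if n.unpair.1 = 0 then (if n.unpair.2 < N then n.unpair.2 else 0)
  else if n.unpair.1 = 1 then (if v n.unpair.2 = true then 0 else 1)
  else if n.unpair.1 = 2 then (if v n.unpair.2 = true then 1 else 0)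
  else gcol (lval v (φ[n.unpair.2]?.getD ((0, true), (0, true), (0, true))).1)
    (lval v (φ[n.unpair.2]?.getD ((0, true), (0, true), (0, true))).2.1) (n.unpair.1 - 3)

lemma gcol_lt (x1 x2 : Bool) (p : ℕ) : gcol x1 x2 p < 3 := by
  unfold gcol
  split_ifs <;> omega

/-- From assignments to colourings. -/
lemma col_of_sat {N : ℕ} (hN : 3 ≤ N) {φ : List Cl} (h : Sat φ) :
    ∃ c, IsCol N (satE N φ) c := by
  obtain ⟨v, hv⟩ := h
  refine ⟨colOf N φ v, ?_, ?_⟩
  · intro n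
    have := gcol_lt (lval v (φ[n.unpair.2]?.getD ((0, true), (0, true), (0, true))).1)
      (lval v (φ[n.unpair.2]?.getD ((0, true), (0, true), (0, true))).2.1) (n.unpair.1 - 3)
    unfold colOf
    split_ifs <;> omega
  · have hbv : ∀ i < N, colOf N φ v (bv i) = i := by
      intro i hi
      simp [colOf, bv, hi]
    have hlv : ∀ a : Lit, colOf N φ v (lv a) = if lval v a = true then 0 else 1 := by
      rintro ⟨x, b⟩
      cases b <;> simp [colOf, lv, lval] <;> cases v x <;> simp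
    have hgv : ∀ i cl, φ[i]? = some cl → ∀ p, colOf N φ v (gv p i) =
        gcol (lval v cl.1) (lval v cl.2.1) p := by
      intro i cl hi p
      simp only [colOf, gv, Nat.unpair_pair, hi, Option.getD_some]
      rw [if_neg (by omega), if_neg (by omega), if_neg (by omega), show 3 + p - 3 = p by omega]
    have hlit : ∀ x q, q ∈ litE N x → colOf N φ v q.1 ≠ colOf N φ v q.2 := by
      intro x q hq
      rcases mem_litE.1 hq with rfl | ⟨i, h1, h2, b, rfl⟩
      · cases h : v x <;> simp [hlv, lval, h]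
      · simp only [hlv, hbv i h2]
        split_ifs <;> omega
    intro q hq
    rcases mem_satE.1 hq with hq | ⟨i, cl, hi, hq⟩
    · obtain ⟨i, hi, j, hj, rfl⟩ := mem_baseE.1 hq
      simp only [hbv i hi, hbv j (by omega)]
      omega
    · rcases mem_clE.1 hq with hq | hq | hq | hq | hq
      · exact hlit _ _ hq
      · exact hlit _ _ hq
      · exact hlit _ _ hq
      · obtain ⟨j, h1, h2, p, hp, rfl⟩ := mem_gbE.1 hq
        simp only [hbv j h2, hgv i cl hi]
        have := gcol_lt (lval v cl.1) (lval v cl.2.1) p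
        omega
      · have hsat : lval v cl.1 = true ∨ lval v cl.2.1 = true ∨ lval v cl.2.2 = true := by
          have hmem : cl ∈ φ := by
            obtain ⟨h1, h2⟩ := List.getElem?_eq_some_iff.1 hi
            rw [← h2]
            exact List.getElem_mem _
          have := hv cl hmem
          simpa [Cl.holds, lval] using this
        have hb0 : colOf N φ v (bv 0) = 0 := hbv 0 (by omega)
        rcases mem_inE.1 hq with rfl | rfl | rfl | rfl | rfl | rfl | rfl | rfl | rfl | rfl <;>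
          simp only [hgv i cl hi, hlv, hb0] <;>
          generalize lval v cl.1 = x1 at * <;>
          generalize lval v cl.2.1 = x2 at * <;>
          generalize lval v cl.2.2 = x3 at * <;>
          revert hsat <;> clear * - <;>
          revert x1 x2 x3 <;> decide

end Pool.Agent.H79.Star
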