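import Pool.Agent.H79.StarAttain

/-!
# Circulant digraphs realise every rational value
-/

namespace Pool.Agent.H79.Star

/-- A set in which every vertex has an out-neighbour is not acyclic. -/
lemma exists_cycle_of_serial {V : Type} [Finite V] (D : Digraph V) (X : Set V) (hne : X.Nonempty)
    (h : ∀ v ∈ X, ∃ w ∈ X, D.Adj v w) : ¬ IsAcyclicSet D X := by
  intro hac
  obtain ⟨v₀, hv₀⟩ := hne
  have h' : ∀ v : X, ∃ w : X, D.Adj v w := fun v => by
    obtain ⟨w, hw, hvw⟩ := h v v.2
    exact ⟨⟨w, hw⟩, hvw⟩
  choose nx hnx using h'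
  obtain ⟨i, j, hij, he⟩ := Finite.exists_ne_map_eq_of_infinite
    (fun i : ℕ => nx^[i] (⟨v₀, hv₀⟩ : X))
  have key : ∀ (i t : ℕ), Relation.TransGen (fun a b => a ∈ X ∧ b ∈ X ∧ D.Adj a b)
      (nx^[i] (⟨v₀, hv₀⟩ : X) : V) (nx^[i + (t + 1)] (⟨v₀, hv₀⟩ : X) : V) := by
    intro i t
    induction t with
    | zero =>
      rw [Nat.zero_add, Function.iterate_succ_apply']
      exact .single ⟨Subtype.coe_prop _, Subtype.coe_prop _, hnx _⟩
    | succ t ih =>
      refine .tail ih ?_
      rw [show i + (t + 1 + 1) = (i + (t + 1)) + 1 by ring, Function.iterate_succ_apply']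
      exact ⟨Subtype.coe_prop _, Subtype.coe_prop _, hnx _⟩
  rcases lt_or_gt_of_ne hij with hlt | hlt
  · obtain ⟨t, rfl⟩ : ∃ t, j = i + (t + 1) := ⟨j - i - 1, by omega⟩
    have := key i t
    rw [← he] at this
    exact hac _ this
  · obtain ⟨t, rfl⟩ : ∃ t, i = j + (t + 1) := ⟨i - j - 1, by omega⟩
    have := key j t
    rw [he] at this
    exact hac _ this

/-- A relation along which a rank increases has no closed walks. -/
lemma acyclic_of_rank {V : Type} {D : Digraph V} {X : Set V} (r : V → ℕ)
    (h : ∀ a ∈ X, ∀ b ∈ X, D.Adj a b → r a < r b) : IsAcyclicSet D X := by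
  intro v hv
  have : ∀ a b, Relation.TransGen (fun a b => a ∈ X ∧ b ∈ X ∧ D.Adj a b) a b → r a < r b := by
    intro a b hab
    induction hab with
    | single h' => exact h _ h'.1 _ h'.2.1 h'.2.2
    | tail _ h' ih => exact ih.trans (h _ h'.1 _ h'.2.1 h'.2.2)
  exact lt_irrefl _ (this v v hv)

/-- The adjacency relation of the circulant digraph. -/
def CircAdj (k e u v : ℕ) : Prop := 1 ≤ (v + k - u) % k ∧ (v + k - u) % k ≤ e

instance (k e u v : ℕ) : Decidable (CircAdj k e u v) := by unfold CircAdj; infer_instance

lemma circ_acyclic_card {k e : ℕ} (D : Digraph (Fin k)) (he : 1 ≤ e) (hek : e < k)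
    (hD : ∀ u v : Fin k, D.Adj u v ↔ CircAdj k e u v) (X : Finset (Fin k))
    (hX : IsAcyclicSet D (X : Set (Fin k))) : X.card ≤ k - e := by
  by_contra hcon
  push Not at hcon
  refine exists_cycle_of_serial D (X : Set (Fin k)) ?_ ?_ hX
  · have : X.Nonempty := Finset.card_pos.1 (by omega)
    exact this
  · intro v hv
    by_contra hno
    push Not at hno
    have hk : 0 < k := by omega
    let g : Fin e → Fin k := fun s => ⟨(v.val + s.val + 1) % k, Nat.mod_lt _ hk⟩
    have hg : Function.Injective g := by
      intro s t hst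
      have h1 : (v.val + s.val + 1) % k = (v.val + t.val + 1) % k := congrArg Fin.val hst
      have h2 : (v.val + s.val + 1) ≡ (v.val + t.val + 1) [MOD k] := h1
      have h3 : s.val ≡ t.val [MOD k] := by
        have : v.val + 1 + s.val ≡ v.val + 1 + t.val [MOD k] := by
          rw [show v.val + 1 + s.val = v.val + s.val + 1 by ring,
            show v.val + 1 + t.val = v.val + t.val + 1 by ring]
          exact h2
        exact Nat.ModEq.add_left_cancel' _ this
      have hs := s.isLt
      have ht := t.isLt
      exact Fin.ext (Nat.ModEq.eq_of_lt_of_lt h3 (by omega) (by omega))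
    have hdisj : Disjoint X (Finset.univ.map ⟨g, hg⟩) := by
      rw [Finset.disjoint_right]
      intro w hw hwX
      simp only [Finset.mem_map, Finset.mem_univ, true_and, Function.Embedding.coeFn_mk] at hw
      obtain ⟨s, rfl⟩ := hw
      refine hno _ hwX ((hD _ _).2 ?_)
      have hs := s.isLt
      have hv' := v.isLt
      have key : ((v.val + s.val + 1) % k + k - v.val) % k = s.val + 1 := by
        rcases Nat.lt_or_ge (v.val + s.val + 1) k with h | h
        · rw [Nat.mod_eq_of_lt h, show v.val + s.val + 1 + k - v.val = s.val + 1 + k by omega,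
            Nat.add_mod_right, Nat.mod_eq_of_lt (by omega)]
        · have h7 : (v.val + s.val + 1) % k = v.val + s.val + 1 - k := by
            rw [Nat.mod_eq_sub_mod h, Nat.mod_eq_of_lt (by omega)]
          rw [h7, show v.val + s.val + 1 - k + k - v.val = s.val + 1 by omega,
            Nat.mod_eq_of_lt (by omega)]
      simp only [CircAdj, g, key]
      omega
    have hcard := Finset.card_union_of_disjoint hdisj
    rw [Finset.card_map, Finset.card_univ, Fintype.card_fin] at hcard
    have h4 := Finset.card_le_univ (X ∪ Finset.univ.map ⟨g, hg⟩)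
    rw [Fintype.card_fin] at h4
    omega

/-- The star dichromatic number of the circulant digraph is `k / (k - e)`. -/
theorem star_circ {k e : ℕ} (D : Digraph (Fin k)) (he : 1 ≤ e) (hek : e < k)
    (hD : ∀ u v : Fin k, D.Adj u v ↔ CircAdj k e u v) (p : ℝ) :
    starDichromatic D ≤ p ↔ (k : ℝ) ≤ p * (k - e : ℕ) := by
  classical
  have hk : 0 < k := by omega
  have : NeZero k := ⟨by omega⟩
  have hloop : ∀ v, ¬ D.Adj v v := by
    intro v h
    rw [hD] at h
    have h1 := h.1
    have h2 : (v.val + k - v.val) % k = 0 := by
      rw [Nat.add_sub_cancel_left, Nat.mod_self]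
    omega
  constructor
  · intro h
    rw [starDichromatic_le_iff D hloop] at h
    obtain ⟨k', d', h1, h2, -, h3, c, hc⟩ := h
    have : NeZero k' := ⟨by omega⟩
    -- counting
    have hcount : k * d' ≤ k' * (k - e) := by
      have e1 : ∑ i : ZMod k', (Finset.univ.filter fun v : Fin k =>
          ∃ j : ℕ, j < d' ∧ c v = i + j).card = k * d' := by
        simp only [Finset.card_filter]
        rw [Finset.sum_comm]
        have : ∀ v : Fin k, (∑ i : ZMod k', if (∃ j : ℕ, j < d' ∧ c v = i + j) then 1 else 0)
            = d' := by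
          intro v
          rw [← Finset.card_filter]
          have h5 : (Finset.univ.filter fun i : ZMod k' => ∃ j : ℕ, j < d' ∧ c v = i + j) =
              (Finset.range d').image (fun j : ℕ => c v - (j : ZMod k')) := by
            ext i
            simp only [Finset.mem_filter, Finset.mem_univ, true_and, Finset.mem_image,
              Finset.mem_range]
            refine exists_congr fun j => and_congr_right fun _ => ?_
            constructor
            · intro h; rw [h]; ring
            · intro h; rw [← h]; ring
          rw [h5, Finset.card_image_of_injOn, Finset.card_range]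
          intro a ha b hb hab
          simp only [Finset.coe_range, Set.mem_Iio] at ha hb
          have h6 : ((a : ℕ) : ZMod k') = (b : ℕ) := by
            have : c v - (a : ZMod k') = c v - (b : ZMod k') := hab
            simpa using this
          have h7 := congrArg ZMod.val h6
          rwa [ZMod.val_cast_of_lt (by omega), ZMod.val_cast_of_lt (by omega)] at h7
        rw [Finset.sum_congr rfl (fun v _ => this v)]
        simp
      have e2 : ∑ i : ZMod k', (Finset.univ.filter fun v : Fin k =>
          ∃ j : ℕ, j < d' ∧ c v = i + j).card ≤ ∑ i : ZMod k', (k - e) := by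
        refine Finset.sum_le_sum fun i _ => ?_
        refine circ_acyclic_card D he hek hD _ ?_
        refine (hc i).mono ?_
        intro v hv
        simpa using hv
      rw [e1] at e2
      simpa using e2
    have hd0 : (0 : ℝ) < d' := by exact_mod_cast h1
    have h8 : (k : ℝ) * d' ≤ k' * (k - e : ℕ) := by exact_mod_cast hcount
    have h9 : (0 : ℝ) ≤ (k - e : ℕ) := Nat.cast_nonneg _
    have h10 : (k' : ℝ) * (k - e : ℕ) ≤ p * d' * (k - e : ℕ) := mul_le_mul_of_nonneg_right h3 h9
    have h11 : (k : ℝ) * d' ≤ (p * (k - e : ℕ)) * d' := by nlinarith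
    exact le_of_mul_le_mul_right h11 hd0
  · intro h
    rw [starDichromatic_le_iff D hloop]
    refine ⟨k, k - e, by omega, by omega, by simp, h, fun v => (v.val : ZMod k), fun i => ?_⟩
    refine acyclic_of_rank (fun v => (v.val + k - i.val) % k) ?_
    have hwin : ∀ v : Fin k, (∃ j : ℕ, j < k - e ∧ ((v.val : ℕ) : ZMod k) = i + j) →
        (v.val + k - i.val) % k < k - e := by
      rintro v ⟨j, hj, hv⟩
      have h1 : (((v.val + k - i.val : ℕ)) : ZMod k) = (j : ZMod k) := by
        have hi := ZMod.val_lt i
        rw [Nat.cast_sub (by omega), Nat.cast_add, hv]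
        simp
      have h2 := congrArg ZMod.val h1
      rw [ZMod.val_natCast, ZMod.val_natCast, Nat.mod_eq_of_lt (show j < k by omega)] at h2
      omega
    intro a ha b hb hab
    have ha' := hwin a ha
    have hb' := hwin b hb
    rw [hD] at hab
    obtain ⟨h1, h2⟩ := hab
    have hi := ZMod.val_lt i
    have halt := a.isLt
    have hblt := b.isLt
    -- everything is below `k`: split according to the order of `a`, `b`, `i`
    have m1 : (b.val + k - a.val) % k = if a.val ≤ b.val then b.val - a.val else b.val + k - a.val := by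
      split_ifs with h
      · rw [show b.val + k - a.val = b.val - a.val + k by omega, Nat.add_mod_right,
          Nat.mod_eq_of_lt (by omega)]
      · exact Nat.mod_eq_of_lt (by omega)
    have m2 : (a.val + k - i.val) % k = if i.val ≤ a.val then a.val - i.val else a.val + k - i.val := by
      split_ifs with h
      · rw [show a.val + k - i.val = a.val - i.val + k by omega, Nat.add_mod_right,
          Nat.mod_eq_of_lt (by omega)]
      · exact Nat.mod_eq_of_lt (by omega)
    have m3 : (b.val + k - i.val) % k = if i.val ≤ b.val then b.val - i.val else b.val + k - i.val := by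
      split_ifs with h
      · rw [show b.val + k - i.val = b.val - i.val + k by omega, Nat.add_mod_right,
          Nat.mod_eq_of_lt (by omega)]
      · exact Nat.mod_eq_of_lt (by omega)
    simp only [m1, m2, m3] at *
    split_ifs at * <;> omega

/-- Adjacency lists of the circulant digraph. -/
def circ (k e : ℕ) : List (List ℕ) :=
  (List.range k).map fun u => (List.range k).filter fun v => decide (CircAdj k e u v)

@[simp] lemma length_circ (k e : ℕ) : (circ k e).length = k := by simp [circ]

lemma mem_circ {k e : ℕ} {u v : ℕ} (hu : u < (circ k e).length) :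
    v ∈ (circ k e)[u] ↔ v < k ∧ CircAdj k e u v := by
  simp [circ]

lemma valid_circ {k e : ℕ} : Valid (circ k e) := by
  intro u
  have hu : u.val < k := by simpa using u.isLt
  refine ⟨fun h => ?_, fun v hv => ?_⟩
  · rw [mem_circ u.isLt] at h
    have h1 := h.2.1
    rw [Nat.add_sub_cancel_left, Nat.mod_self] at h1
    omega
  · rw [mem_circ u.isLt] at hv
    simpa using hv.1

theorem star_ofLists_of (L : List (List ℕ)) {k e : ℕ} (hlen : L.length = k) (he : 1 ≤ e)
    (hek : e < k) (hadj : ∀ (u v : ℕ) (hu : u < L.length), v < k → (v ∈ L[u] ↔ CircAdj k e u v))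
    (p : ℝ) : starDichromatic (ofLists L) ≤ p ↔ (k : ℝ) ≤ p * (k - e : ℕ) := by
  subst hlen
  exact star_circ (ofLists L) he hek (fun u v => hadj _ _ u.isLt v.isLt) p

theorem star_ofLists_circ {k e : ℕ} (he : 1 ≤ e) (hek : e < k) (p : ℝ) :
    starDichromatic (ofLists (circ k e)) ≤ p ↔ (k : ℝ) ≤ p * (k - e : ℕ) :=
  star_ofLists_of _ (length_circ k e) he hek
    (fun u v hu hv => by rw [mem_circ hu]; simp [hv]) p

end Pool.Agent.H79.Star
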