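import Pool.Agent.H79.StarPath
import Pool.Agent.H79.StarBase

/-!
# The relations on colours and ordinary colourings
-/

namespace Pool.Agent.H79.Star

/-- The threshold case: the relation is the one of a complete graph. -/
lemma exists_RA_iff {k e f : ℤ} {l Q : ℕ} (hl : 1 ≤ l) (hf : 0 < f) (he : e = (Q + 1) * f)
    (hk : k = l * e + f) (B : List (ℕ × ℕ)) :
    (∃ c : ℕ → ℤ, ∀ q ∈ B, RA k e f l (c q.1) (c q.2)) ↔
      ∃ c, IsCol (l * (Q + 1) + 1) B c := by
  have hQf : 0 ≤ (Q : ℤ) * f := mul_nonneg (by omega) hf.le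
  have hQe : (Q : ℤ) * f + f = e := by rw [he]; ring
  have he0 : 0 < e := by omega
  have hle : 0 ≤ (l : ℤ) * e := mul_nonneg (by omega) he0.le
  have hk0 : 0 < k := by omega
  have hkm : k = ((l * (Q + 1) + 1 : ℕ) : ℤ) * f := by rw [hk, he]; push_cast; ring
  constructor
  · rintro ⟨c, hc⟩
    refine ⟨fun v => (c v % k / f).toNat, fun v => ?_, fun q hq heq => ?_⟩
    · have h1 := Int.emod_lt_of_pos (c v) hk0
      have h2 : c v % k / f < (l * (Q + 1) + 1 : ℕ) := by
        rw [Int.ediv_lt_iff_lt_mul hf, ← hkm]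
        exact h1
      have h3 : 0 ≤ c v % k / f := Int.ediv_nonneg (Int.emod_nonneg _ hk0.ne') hf.le
      change (c v % k / f).toNat < l * (Q + 1) + 1
      generalize l * (Q + 1) + 1 = m at *
      omega
    · have key : ∀ v w : ℕ, RA k e f l (c v) (c w) → c v % k / f = c w % k / f →
          c v % k ≤ c w % k → False := by
        intro v w hR heq hle
        have h1 := Int.emod_add_mul_ediv (c v) k
        have h2 := Int.emod_add_mul_ediv (c w) k
        have h3 := Int.ediv_mul_le (c v % k) hf.ne'
        have h4 := Int.lt_ediv_add_one_mul_self (c w % k) hf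
        have h5 := Int.emod_lt_of_pos (c w) hk0
        have h6 := Int.emod_nonneg (c v) hk0.ne'
        obtain ⟨i, i1, i2, i3, i4⟩ := hR.lift (b := c w % k - c v % k)
          (n := c v / k - c w / k) hf (by omega) hk (by
            have h7 : c w - c v + (c v / k - c w / k) * k =
              (c w - k * (c w / k)) - (c v - k * (c v / k)) := by ring
            rw [h7]; omega) (by omega) (by omega)
        have h8 : 0 ≤ (i - 1) * e := mul_nonneg (by omega) he0.le
        rw [heq] at h3
        have h9 : (c w % k / f + 1) * f = c w % k / f * f + f := by ring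
        omega
      have h1 : 0 ≤ c q.1 % k / f := Int.ediv_nonneg (Int.emod_nonneg _ hk0.ne') hf.le
      have h2 : 0 ≤ c q.2 % k / f := Int.ediv_nonneg (Int.emod_nonneg _ hk0.ne') hf.le
      simp only at heq
      have heq' : c q.1 % k / f = c q.2 % k / f := by omega
      rcases le_total (c q.1 % k) (c q.2 % k) with h | h
      · exact key _ _ (hc q hq) heq' h
      · exact key _ _ ((hc q hq).symm hk) heq'.symm h
  · rintro ⟨c, hlt, hne⟩
    refine ⟨fun v => c v * f, fun q hq => ?_⟩
    have key : ∀ a b : ℕ, a < b → b < l * (Q + 1) + 1 → RA k e f l (a * f) (b * f) := by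
      intro a b hab hb
      have h1 := Nat.div_add_mod (b - a - 1) (Q + 1)
      have h2 := Nat.mod_lt (b - a - 1) (show 0 < Q + 1 by omega)
      have h3 : (b - a - 1) / (Q + 1) < l := by
        rw [Nat.div_lt_iff_lt_mul (by omega)]
        omega
      generalize (b - a - 1) / (Q + 1) = i at *
      generalize (b - a - 1) % (Q + 1) = q at *
      have h4 : ((Q : ℤ) + 1) * i + q = b - a - 1 := by
        have : (((Q + 1) * i + q : ℕ) : ℤ) = ((b - a - 1 : ℕ) : ℤ) := by rw [h1]
        push_cast at this
        omega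
      have h5 : (b : ℤ) * f - a * f = ((Q + 1) * i + q + 1) * f := by rw [h4]; ring
      have h6 : 0 ≤ (q : ℤ) * f := mul_nonneg (by omega) hf.le
      have h7 : (q : ℤ) * f ≤ Q * f := mul_le_mul_of_nonneg_right (by omega) hf.le
      refine ⟨i + 1, 0, by omega, by omega, ?_, ?_⟩
      · rw [zero_mul, add_zero, h5, he]
        linarith
      · rw [zero_mul, add_zero, h5, he]
        linarith
    rcases lt_or_gt_of_ne (hne q hq) with h | h
    · exact key _ _ h (hlt _)
    · exact (key _ _ h (hlt _)).symm hk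

lemma RC.symm {k r x y : ℤ} (h : RC k r x y) : RC k r y x := by
  obtain ⟨n, h1, h2⟩ := h
  exact ⟨1 - n, by linarith, by linarith⟩

/-- The general case: the relation is the one of a circular clique, and a universal vertex
makes colourings ordinary. -/
lemma exists_RC_iff {k r : ℤ} (hr : 0 < r) {N : ℕ} (hN : 2 ≤ N) (h1 : N * r ≤ k)
    (h2 : k < (N + 1) * r) {B : List (ℕ × ℕ)} {z : ℕ} (hz : Univ z B) :
    (∃ c : ℕ → ℤ, ∀ q ∈ B, RC k r (c q.1) (c q.2)) ↔ ∃ c, IsCol N B c := by
  classical
  have hk0 : 0 < k := by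
    have : 2 * r ≤ N * r := mul_le_mul_of_nonneg_right (by omega) hr.le
    omega
  constructor
  · rintro ⟨c, hc⟩
    set b : ℕ → ℤ := fun v => (c v - c z) % k with hb
    have hb0 : ∀ v, 0 ≤ b v := fun v => Int.emod_nonneg _ hk0.ne'
    have hbk : ∀ v, b v < k := fun v => Int.emod_lt_of_pos _ hk0
    have hbe : ∀ v, ∃ n : ℤ, c v - c z = b v + n * k := fun v => by
      refine ⟨(c v - c z) / k, ?_⟩
      have := Int.emod_add_mul_ediv (c v - c z) k
      simp only [hb]
      linarith
    have hbz : ∀ v, RC k r (c z) (c v) → r ≤ b v ∧ b v ≤ k - r := by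
      rintro v ⟨n, h3, h4⟩
      obtain ⟨n', hn'⟩ := hbe v
      have : n + n' = 0 := by
        have e1 : c v - c z + n * k = b v + (n + n') * k := by rw [hn']; ring
        have e2 : b v + (n + n') * k < 0 + k := by linarith
        exact (lift_unique (k := k) (x := b v) (i := 0) (n' := 0) (by linarith) e2
          (by have := hb0 v; linarith) (by have := hbk v; linarith))
      have e1 : c v - c z + n * k = b v + (n + n') * k := by rw [hn']; ring
      rw [e1, this, zero_mul, add_zero] at h3 h4
      exact ⟨h3, h4⟩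
    refine ⟨fun v => if v = z then N - 1 else min (N - 2) ((b v - r) / r).toNat, fun v => ?_,
      fun q hq heq => ?_⟩
    · simp only
      split_ifs
      · omega
      · have := min_le_left (N - 2) ((b v - r) / r).toNat
        omega
    · obtain ⟨hz1, hz2⟩ := hz q hq
      have hnz : ∀ v, (v = z ∨ (z, v) ∈ B ∨ (v, z) ∈ B) → v ≠ z →
          r ≤ b v ∧ b v ≤ k - r := by
        rintro v (h | h | h) hv
        · exact absurd h hv
        · exact hbz v (hc _ h)
        · exact hbz v (hc _ h).symm
      have hcl : ∀ v, r ≤ b v ∧ b v ≤ k - r → 0 ≤ (b v - r) / r ∧ (b v - r) / r < N - 1 := by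
        intro v hv
        refine ⟨Int.ediv_nonneg (by omega) hr.le, ?_⟩
        rw [Int.ediv_lt_iff_lt_mul hr]
        have : ((N : ℤ) - 1) * r = (N + 1) * r - 2 * r := by ring
        omega
      have hself : ¬ RC k r (c z) (c z) := by
        rintro ⟨n, h3, h4⟩
        rw [sub_self, zero_add] at h3 h4
        have : 0 < n := by
          by_contra hcon
          have : n * k ≤ 0 := mul_nonpos_of_nonpos_of_nonneg (by omega) hk0.le
          omega
        have : 1 * k ≤ n * k := mul_le_mul_of_nonneg_right (by omega) hk0.le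
        omega
      simp only at heq
      have hq' := hc q hq
      by_cases c1 : q.1 = z
      · by_cases c2 : q.2 = z
        · rw [c1, c2] at hq'
          exact hself hq'
        · have := hcl _ (hnz _ hz2 c2)
          rw [if_pos c1, if_neg c2] at heq
          omega
      · by_cases c2 : q.2 = z
        · have := hcl _ (hnz _ hz1 c1)
          rw [if_neg c1, if_pos c2] at heq
          omega
        · rw [if_neg c1, if_neg c2] at heq
          obtain ⟨a1, a2⟩ := hcl _ (hnz _ hz1 c1)
          obtain ⟨a3, a4⟩ := hcl _ (hnz _ hz2 c2)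
          have heq' : (b q.1 - r) / r = (b q.2 - r) / r := by omega
          have g1 := Int.ediv_mul_le (b q.1 - r) hr.ne'
          have g2 := Int.lt_ediv_add_one_mul_self (b q.1 - r) hr
          have g3 := Int.ediv_mul_le (b q.2 - r) hr.ne'
          have g4 := Int.lt_ediv_add_one_mul_self (b q.2 - r) hr
          rw [← heq'] at g3 g4
          have g5 : ((b q.1 - r) / r + 1) * r = (b q.1 - r) / r * r + r := by ring
          obtain ⟨n, h3, h4⟩ := hq'
          obtain ⟨n1, e1⟩ := hbe q.1
          obtain ⟨n2, e2⟩ := hbe q.2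
          have e3 : c q.2 - c q.1 + n * k = b q.2 - b q.1 + (n2 - n1 + n) * k := by
            have : c q.2 - c q.1 = (c q.2 - c z) - (c q.1 - c z) := by ring
            rw [this, e1, e2]; ring
          rw [e3] at h3 h4
          generalize n2 - n1 + n = n' at *
          rcases lt_trichotomy n' 0 with h | h | h
          · have : n' * k ≤ (-1) * k := mul_le_mul_of_nonneg_right (by omega) hk0.le
            omega
          · subst h
            omega
          · have : 1 * k ≤ n' * k := mul_le_mul_of_nonneg_right (by omega) hk0.le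
            omega
  · rintro ⟨c, hlt, hne⟩
    refine ⟨fun v => c v * r, fun q hq => ?_⟩
    have key : ∀ a b : ℕ, a < b → b < N → RC k r (a * r) (b * r) := by
      intro a b hab hb
      refine ⟨0, ?_, ?_⟩
      · have : ((a : ℤ) + 1) * r ≤ b * r := mul_le_mul_of_nonneg_right (by omega) hr.le
        linarith
      · have h3 : ((b : ℤ) + 1) * r ≤ N * r := mul_le_mul_of_nonneg_right (by omega) hr.le
        have h4 : 0 ≤ (a : ℤ) * r := mul_nonneg (by omega) hr.le
        linarith
    rcases lt_or_gt_of_ne (hne q hq) with h | h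
    · exact key _ _ h (hlt _)
    · exact (key _ _ h (hlt _)).symm

/-- The pair `(k, d)` decides `N`-colourability through the gadgets with parameters
`l`, `m`, `j`. -/
def Decides (l m j N k d : ℕ) : Prop := 1 ≤ d ∧ d ≤ k ∧ ∀ (B : List (ℕ × ℕ)) (z : ℕ),
  (∀ q ∈ B, q.1 ≠ q.2) → (4 ≤ N → Univ z B) →
    ((∃ c : ℕ → ZMod k, IsAcyclicColouring (DN (bigArcs l m j B)) k d c) ↔ ∃ c, IsCol N B c)

lemma decides_threshold {l Q f k d : ℕ} (hl : 1 ≤ l) (hd : 1 ≤ d) (hf : 1 ≤ f)
    (he : k - d = (Q + 1) * f) (hk : k = l * (k - d) + f) :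
    Decides l (l * (Q + 1)) 0 (l * (Q + 1) + 1) k d := by
  have hfe : f ≤ k - d := by rw [he]; nlinarith
  refine ⟨hd, by omega, fun B z hB _ => ?_⟩
  rw [bigArcs_colourable_iff hl hB hd hf hfe hk]
  simp only [pathRel_zero]
  exact exists_RA_iff hl (by omega) (by exact_mod_cast he) (by exact_mod_cast hk) B

lemma decides_general {l Q j f s N k d : ℕ} (hl : 1 ≤ l) (hd : 1 ≤ d) (hf : 1 ≤ f)
    (he : k - d = (Q + 1) * f + s) (hk : k = l * (k - d) + f) (hj : 1 ≤ j) (hj1 : j * s < f)
    (hj2 : f ≤ (j + 1) * s) (hN : 4 ≤ N) (hN1 : N * (f - j * s) ≤ k)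
    (hN2 : k < (N + 1) * (f - j * s)) :
    Decides l (l * (Q + 1)) j N k d := by
  have hfe : f ≤ k - d := by rw [he]; nlinarith
  have hsf : s < f := by
    have : 1 * s ≤ j * s := Nat.mul_le_mul_right _ hj
    omega
  refine ⟨hd, by omega, fun B z hB hz => ?_⟩
  rw [bigArcs_colourable_iff hl hB hd hf hfe hk]
  have he' : ((k - d : ℕ) : ℤ) = (Q + 1) * f + s := by exact_mod_cast he
  have hk' : (k : ℤ) = l * ((k - d : ℕ) : ℤ) + f := by exact_mod_cast hk
  have hr : ((f - j * s : ℕ) : ℤ) = (f : ℤ) - j * s := by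
    rw [Nat.cast_sub hj1.le]; push_cast; ring
  have h1 : ∀ x y : ℤ, (∃ g, PathRel k (k - d : ℕ) f l (l * (Q + 1)) j x y g) ↔
      RC k ((f : ℤ) - j * s) x y := by
    intro x y
    constructor
    · rintro ⟨g, hg⟩
      exact RC_of_pathRel hl (by omega) (by omega) (by omega) he' hk' hg
    · intro h
      exact exists_pathRel hl (by omega) (by omega) he' hk' hj (by exact_mod_cast hj2) h
  simp only [h1]
  refine exists_RC_iff (by omega) (by omega) ?_ ?_ (hz hN)
  · rw [← hr]; exact_mod_cast hN1
  · rw [← hr]; exact_mod_cast hN2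

end Pool.Agent.H79.Star
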