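import Pool.Agent.H79.StarDefs

/-!
# Colourings with integer lifts, monotonicity
-/

namespace Pool.Agent.H79.Star

/-- The colours of `S` meet every window of `e` consecutive residues modulo `k`. -/
def Dense {V : Type} (k e : ℤ) (c : V → ℤ) (S : Set V) : Prop :=
  ∀ i : ℤ, ∃ v ∈ S, ∃ n : ℤ, i ≤ c v + n * k ∧ c v + n * k < i + e

lemma exists_lift {k : ℤ} (hk : 0 < k) (x i : ℤ) : ∃ n : ℤ, i ≤ x + n * k ∧ x + n * k < i + k := by
  refine ⟨-((x - i) / k), ?_⟩
  have h1 := Int.emod_add_mul_ediv (x - i) k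
  have h2 := Int.emod_nonneg (x - i) hk.ne'
  have h3 := Int.emod_lt_of_pos (x - i) hk
  have h4 : k * ((x - i) / k) = ((x - i) / k) * k := mul_comm _ _
  constructor <;> nlinarith

lemma lift_unique {k : ℤ} {x n n' i : ℤ} (h1 : i ≤ x + n * k) (h2 : x + n * k < i + k)
    (h3 : i ≤ x + n' * k) (h4 : x + n' * k < i + k) : n = n' := by
  by_contra h
  rcases lt_or_gt_of_ne h with h | h
  · have : n + 1 ≤ n' := h
    nlinarith
  · have : n' + 1 ≤ n := h
    nlinarith

lemma window_iff (k d : ℕ) (x i : ℤ) :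
    (∃ j : ℕ, j < d ∧ (x : ZMod k) = (i : ZMod k) + j) ↔
      ∃ n : ℤ, i ≤ x + n * k ∧ x + n * k < i + d := by
  constructor
  · rintro ⟨j, hj, h⟩
    have h' : ((x : ℤ) : ZMod k) = ((i + j : ℤ) : ZMod k) := by rw [h]; push_cast; rfl
    rw [ZMod.intCast_eq_intCast_iff_dvd_sub] at h'
    obtain ⟨n, hn⟩ := h'
    refine ⟨n, ?_, ?_⟩
    · rw [mul_comm]; omega
    · rw [mul_comm]; omega
  · rintro ⟨n, h1, h2⟩
    refine ⟨(x + n * k - i).toNat, by omega, ?_⟩
    have h' : ((x : ℤ) : ZMod k) = ((i + ((x + n * k - i).toNat : ℤ) : ℤ) : ZMod k) := by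
      rw [Int.toNat_of_nonneg (by omega)]
      push_cast
      simp
    rw [h']
    push_cast
    rfl

lemma IsAcyclicSet.mono {V : Type} {D : Digraph V} {X Y : Set V} (h : IsAcyclicSet D Y)
    (hXY : X ⊆ Y) : IsAcyclicSet D X := by
  intro v hv
  refine h v ?_
  have : ∀ a b, Relation.TransGen (fun a b => a ∈ X ∧ b ∈ X ∧ D.Adj a b) a b →
      Relation.TransGen (fun a b => a ∈ Y ∧ b ∈ Y ∧ D.Adj a b) a b := by
    intro a b hab
    induction hab with
    | single h => exact .single ⟨hXY h.1, hXY h.2.1, h.2.2⟩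
    | tail _ h ih => exact .tail ih ⟨hXY h.1, hXY h.2.1, h.2.2⟩
  exact this v v hv

/-- Colourings by residues and colourings by integers. -/
theorem colourable_iff {V : Type} (D : Digraph V) {k d : ℕ} (hd : 1 ≤ d) (hdk : d ≤ k) :
    (∃ c : V → ZMod k, IsAcyclicColouring D k d c) ↔
      ∃ c : V → ℤ, ∀ S, ¬ IsAcyclicSet D S → Dense k (k - d : ℕ) c S := by
  have hk : (0 : ℤ) < k := by omega
  have : NeZero k := ⟨by omega⟩
  have key : ∀ c : V → ℤ, IsAcyclicColouring D k d (fun v => (c v : ZMod k)) ↔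
      ∀ S, ¬ IsAcyclicSet D S → Dense k (k - d : ℕ) c S := by
    intro c
    constructor
    · intro h S hS i
      by_contra hcon
      refine hS ((h ((i + (k - d : ℕ) : ℤ) : ZMod k)).mono fun v hv => ?_)
      change ∃ j : ℕ, j < d ∧ (c v : ZMod k) = ((i + (k - d : ℕ) : ℤ) : ZMod k) + j
      rw [window_iff]
      obtain ⟨n, h1, h2⟩ := exists_lift hk (c v) i
      refine ⟨n, ?_, by omega⟩
      by_contra h3
      exact hcon ⟨v, hv, n, h1, by omega⟩
    · intro h i
      by_contra this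
      · obtain ⟨v, ⟨j, hj, hv⟩, n, h1, h2⟩ := h _ this ((i.val : ℤ) + d)
        have h3 : (∃ j : ℕ, j < d ∧ ((c v : ℤ) : ZMod k) = ((i.val : ℤ) : ZMod k) + j) :=
          ⟨j, hj, by
            have hv' : ((c v : ℤ) : ZMod k) = i + j := hv
            rw [hv']; simp⟩
        rw [window_iff] at h3
        obtain ⟨n', h4, h5⟩ := h3
        have h6 : n = n' := lift_unique (k := k) (x := c v) (i := (i.val : ℤ)) (by omega) (by omega)
          (by omega) (by omega)
        subst h6
        omega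
  constructor
  · rintro ⟨c, hc⟩
    refine ⟨fun v => ((c v).val : ℤ), (key _).1 ?_⟩
    have : (fun v => (((c v).val : ℤ) : ZMod k)) = c := by
      funext v
      simp
    rw [this]
    exact hc
  · rintro ⟨c, hc⟩
    exact ⟨_, (key c).2 hc⟩

/-- Monotonicity: density survives passing to a larger ratio `e' / k'`. -/
theorem Dense.scale {V : Type} {k e k' e' : ℤ} (hk : 0 < k) (hk' : 0 < k')
    (he : e * k' ≤ e' * k) {c : V → ℤ} {S : Set V} (h : Dense k e c S) :
    Dense k' e' (fun v => c v * k' / k) S := by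
  intro i
  -- first integer `y` with `i ≤ y k' / k`
  set i₀ : ℤ := -((-(i * k)) / k') with hi₀
  have e1 := Int.emod_add_mul_ediv (-(i * k)) k'
  have e2 := Int.emod_nonneg (-(i * k)) hk'.ne'
  have e3 := Int.emod_lt_of_pos (-(i * k)) hk'
  -- `i k ≤ i₀ k' < i k + k'`
  have b1 : i * k ≤ i₀ * k' := by rw [hi₀]; nlinarith
  have b2 : i₀ * k' < i * k + k' := by rw [hi₀]; nlinarith
  obtain ⟨v, hv, n, h1, h2⟩ := h i₀
  refine ⟨v, hv, n, ?_, ?_⟩
  · have : c v * k' / k + n * k' = (c v + n * k) * k' / k := by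
      rw [add_mul, show n * k * k' = (n * k') * k by ring, Int.add_mul_ediv_right _ _ hk.ne']
    change i ≤ c v * k' / k + n * k'
    rw [this, Int.le_ediv_iff_mul_le hk]
    exact b1.trans (mul_le_mul_of_nonneg_right h1 hk'.le)
  · have : c v * k' / k + n * k' = (c v + n * k) * k' / k := by
      rw [add_mul, show n * k * k' = (n * k') * k by ring, Int.add_mul_ediv_right _ _ hk.ne']
    change c v * k' / k + n * k' < i + e'
    rw [this, Int.ediv_lt_iff_lt_mul hk]
    have h3 : c v + n * k ≤ i₀ + e - 1 := by omega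
    have h4 : (c v + n * k) * k' ≤ (i₀ + e - 1) * k' := mul_le_mul_of_nonneg_right h3 hk'.le
    nlinarith

/-- A sequence of lifts of colours of `S`, with steps at most `e`, that advances by at least `k`,
shows that `S` is dense. -/
theorem dense_of_seq {V : Type} {k e : ℤ} (hk : 0 < k) {c : V → ℤ} {S : Set V} (X : ℕ → ℤ) (T : ℕ)
    (h1 : ∀ s < T, X (s + 1) ≤ X s + e) (h2 : X 0 + k ≤ X T)
    (h3 : ∀ s ≤ T, ∃ v ∈ S, ∃ n : ℤ, X s = c v + n * k) : Dense k e c S := by
  intro i
  -- shift so that the start is in `[i - k, i)`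
  obtain ⟨n, hn1, hn2⟩ := exists_lift hk (X 0) (i - k)
  have hT : i ≤ X T + n * k := by omega
  classical
  have hex : ∃ s, i ≤ X s + n * k := ⟨T, hT⟩
  set s := Nat.find hex with hs
  have hs1 : i ≤ X s + n * k := Nat.find_spec hex
  have hs0 : s ≠ 0 := by
    intro h0
    rw [h0] at hs1
    omega
  have hsT : s ≤ T := Nat.find_min' hex hT
  obtain ⟨t, ht⟩ := Nat.exists_eq_succ_of_ne_zero hs0
  have hs2 : ¬ i ≤ X t + n * k := Nat.find_min hex (by omega)
  have hs3 := h1 t (by omega)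
  obtain ⟨v, hv, m, hm⟩ := h3 s hsT
  rw [ht] at hs1 hm
  refine ⟨v, hv, m + n, ?_, ?_⟩
  · have : c v + (m + n) * k = X t.succ + n * k := by rw [hm]; ring
    rw [this]; exact hs1
  · have : c v + (m + n) * k = X t.succ + n * k := by rw [hm]; ring
    rw [this]
    have : X t.succ = X (t + 1) := rfl
    omega

end Pool.Agent.H79.Star
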