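import Pool.Agent.H79.StarNP

/-!
# `STAR_p` in `NP` forces the rationals below `p` to be in `NP`; countability
-/

namespace Pool.Agent.H79.Star

open TMLib Polynomial N487b59b3 N68a2faeb
open Pool.Agent.H79.GD (length_le_bitEncode bitEncode_le_of_mem)

@[fun_prop] lemma ptime_circAdj {α : Type} [Enc α] {k e u v : α → ℕ} (hk : PTime k) (he : PTime e)
    (hu : PTime u) (hv : PTime v) :
    PTime (fun x => decide (CircAdj (k x) (e x) (u x) (v x))) := by
  unfold CircAdj; fun_prop

@[fun_prop] lemma ptime_circ {α : Type} [Enc α] {k e : α → ℕ} (hk : PTime k) (he : PTime e) :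
    PTime (fun x => circ (k x) (e x)) := by
  unfold circ; fun_prop

lemma star_code (p : ℝ) (L : List (List ℕ)) :
    STAR p (bitEncode L) = true ↔ Valid L ∧ starDichromatic (ofLists L) ≤ p := by
  classical
  simp only [STAR, decide_eq_true_eq]
  constructor
  · rintro ⟨L', h1, h2, h3⟩
    obtain rfl := bitEncode_injective h1
    exact ⟨h2, h3⟩
  · rintro ⟨h2, h3⟩
    exact ⟨L, rfl, h2, h3⟩

lemma star_circ_code {k d : ℕ} (hd : 1 ≤ d) (hdk : d < k) (p : ℝ) :
    STAR p (bitEncode (circ k (k - d))) = true ↔ (k : ℝ) / d ≤ p := by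
  rw [star_code, star_ofLists_circ (by omega) (by omega)]
  have hd0 : (0 : ℝ) < d := by exact_mod_cast hd
  rw [show k - (k - d) = d by omega, div_le_iff₀ hd0]
  exact ⟨fun h => h.2, fun h => ⟨valid_circ, h⟩⟩

lemma star_nil {p : ℝ} (hp : 1 ≤ p) : STAR p (bitEncode ([] : List (List ℕ))) = true := by
  rw [star_code]
  refine ⟨fun u => u.elim0, ?_⟩
  rw [starDichromatic_le_iff _ (fun v => v.elim0)]
  exact ⟨1, 1, le_rfl, le_rfl, by simp, by simpa using hp, fun v => v.elim0,
    fun i v => v.elim0⟩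

/-- If `STAR_p` is in `NP`, so are the rationals below `p` (in unary). -/
theorem cut_mem_NP {p : ℝ} (hp1 : 1 ≤ p) (hp : STAR p ∈ NP) : Cut p ∈ NP := by
  classical
  have hg : PTime (fun b : ℕ × ℕ => bitEncode (if b.1 ≤ b.2 then ([] : List (List ℕ))
      else circ b.1 (b.1 - b.2))) := by fun_prop
  refine mem_NP_cert_and (β := ℕ × ℕ) hp
    (V := fun x b => decide (x = unary b.1 b.2 ∧ 1 ≤ b.2)) ?_ hg (4 * X + 3) ?_ ?_
  · have h : PTime (fun p : List Bool × ℕ × ℕ => unary p.2.1 p.2.2) :=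
      ptime_unary (by fun_prop) (by fun_prop)
    fun_prop
  · intro x b h1 h2
    obtain ⟨k, d⟩ := b
    obtain ⟨rfl, hd⟩ := of_decide_eq_true h1
    simp only at hd h2 ⊢
    rw [cut_unary]
    refine ⟨hd, ?_⟩
    have hd0 : (0 : ℝ) < d := by exact_mod_cast hd
    split_ifs at h2 with hkd
    · rw [div_le_iff₀ hd0]
      have : (k : ℝ) ≤ d := by exact_mod_cast hkd
      nlinarith
    · exact (star_circ_code hd (by omega) p).1 h2
  · intro x hx
    simp only [Cut, decide_eq_true_eq] at hx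
    obtain ⟨k, d, hd, rfl, hle⟩ := hx
    refine ⟨(k, d), ?_, decide_eq_true ⟨rfl, hd⟩, ?_⟩
    · have : (unary k d).length = k + (d + 1) := by simp [unary]
      rw [this]
      have e3 : eval (k + (d + 1)) (3 : ℕ[X]) = 3 := by simp
      have e4 : eval (k + (d + 1)) (4 : ℕ[X]) = 4 := by simp
      simp only [sz_pair, sz_nat, eval_add, eval_mul, eval_X, e3, e4]
      omega
    · simp only
      split_ifs with hkd
      · exact star_nil hp1
      · exact (star_circ_code hd (by omega) p).2 hle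

/-- Different reals give different problems. -/
lemma star_injOn : Set.InjOn STAR {p : ℝ | 1 ≤ p} := by
  intro p hp q hq h
  by_contra hne
  wlog hlt : p < q generalizing p q
  · exact this hq hp h.symm (Ne.symm hne) (lt_of_le_of_ne (not_lt.1 hlt) (Ne.symm hne))
  obtain ⟨r, hr1, hr2⟩ := exists_rat_btwn hlt
  have hp' : (1 : ℝ) ≤ p := hp
  have hr0 : (1 : ℝ) < r := lt_of_le_of_lt hp' hr1
  have hr0' : (1 : ℚ) < r := by exact_mod_cast hr0
  -- `r = k / d`
  obtain ⟨k, d, hd, hr⟩ : ∃ k d : ℕ, 1 ≤ d ∧ (r : ℝ) = (k : ℝ) / d := by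
    refine ⟨r.num.toNat, r.den, r.den_pos, ?_⟩
    have h1 : 0 ≤ r.num := Rat.num_nonneg.2 (by linarith)
    have h2 : ((r.num.toNat : ℕ) : ℝ) = (r.num : ℝ) := by
      have : ((r.num.toNat : ℕ) : ℤ) = r.num := Int.toNat_of_nonneg h1
      exact_mod_cast this
    rw [h2]
    exact_mod_cast (Rat.num_div_den r).symm
  have hd0 : (0 : ℝ) < d := by exact_mod_cast hd
  have hdk : d < k := by
    rw [hr, lt_div_iff₀ hd0, one_mul] at hr0
    exact_mod_cast hr0
  have h1 := star_circ_code hd hdk q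
  have h2 := star_circ_code hd hdk p
  rw [← h, h2, ← hr] at h1
  exact absurd (h1.2 hr2.le) (not_le.2 hr1)

/-- `STAR_p` is in `NP` for countably many real numbers `p` only. -/
theorem countable_star : {p : ℝ | 1 ≤ p ∧ STAR p ∈ NP}.Countable := by
  have h : Set.MapsTo STAR {p : ℝ | 1 ≤ p ∧ STAR p ∈ NP} NP := fun p hp => hp.2
  exact h.countable_of_injOn (star_injOn.mono fun p hp => hp.1) countable_NP

end Pool.Agent.H79.Star
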