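import Pool.Prelude.Def_F_458e953d

/-!
# The star dichromatic number and the decision problem `STAR_p`
-/

namespace Pool.Agent.H79.Star

/-- The set `X` of vertices is acyclic in `D`: there is no closed directed walk (of positive
length) all of whose vertices lie in `X`. -/
def IsAcyclicSet {V : Type} (D : Digraph V) (X : Set V) : Prop :=
  ∀ v, ¬ Relation.TransGen (fun a b => a ∈ X ∧ b ∈ X ∧ D.Adj a b) v v

/-- `c` is an acyclic `(k, d)`-colouring of `D`: for every `i` in `ℤ/k`, the set of vertices with
colour in `{i, i + 1, ..., i + d - 1}` is acyclic. -/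
def IsAcyclicColouring {V : Type} (D : Digraph V) (k d : ℕ) (c : V → ZMod k) : Prop :=
  ∀ i : ZMod k, IsAcyclicSet D {v | ∃ j : ℕ, j < d ∧ c v = i + j}

/-- The star dichromatic number. -/
noncomputable def starDichromatic {V : Type} (D : Digraph V) : ℝ :=
  sInf {x : ℝ | ∃ k d : ℕ, 1 ≤ d ∧ d ≤ k ∧ x = (k : ℝ) / d ∧
    ∃ c : V → ZMod k, IsAcyclicColouring D k d c}

/-- The digraph with adjacency lists `L`: the vertices are `0, ..., n - 1`, where `n` is the length
of `L`, and there is an arc from `u` to `v` when `v` occurs in the list number `u`. -/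
def ofLists (L : List (List ℕ)) : Digraph (Fin L.length) := ⟨fun u v => v.val ∈ L[u.val]⟩

/-- `L` is the list of adjacency lists of a loopless digraph. -/
def Valid (L : List (List ℕ)) : Prop :=
  ∀ u : Fin L.length, u.val ∉ L[u.val] ∧ ∀ v ∈ L[u.val], v < L.length

open Classical in
/-- The decision problem `STAR_p`, as a set of bit strings: the codes of the finite loopless
digraphs (given by adjacency lists) whose star dichromatic number is at most `p`. -/
noncomputable def STAR (p : ℝ) : N68a2faeb.DecisionProblem := fun x =>
  decide (∃ L : List (List ℕ), x = N487b59b3.bitEncode L ∧ Valid L ∧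
    starDichromatic (ofLists L) ≤ p)

/-- The unary code of a pair of natural numbers: the string `1^k 0 1^d`. -/
def unary (k d : ℕ) : List Bool := List.replicate k true ++ false :: List.replicate d true

open Classical in
/-- The rational numbers `k / d ≤ p` (with `d ≥ 1`), in unary code. -/
noncomputable def Cut (p : ℝ) : N68a2faeb.DecisionProblem := fun x =>
  decide (∃ k d : ℕ, 1 ≤ d ∧ x = unary k d ∧ (k : ℝ) / d ≤ p)

end Pool.Agent.H79.Star
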