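import Pool.Agent.H79.StarCirc

/-!
# Directed cycle gadgets

For a list `Γ` of edges `(u, v)` with `u < v`, every edge is replaced by a directed cycle with
`l + 1` vertices, through `u`, `v` and `l - 1` private vertices.
-/

namespace Pool.Agent.H79.Star

/-- Vertex number `t` of the gadget of the edge `q`. -/
def nd (l : ℕ) (q : ℕ × ℕ) (t : ℕ) : ℕ :=
  if t = 0 then 2 * q.2 else if t = l then 2 * q.1 else 2 * Nat.pair (Nat.pair q.1 q.2) t + 1

/-- Arcs of one gadget. -/
def arcs1 (l : ℕ) (q : ℕ × ℕ) : List (ℕ × ℕ) :=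
  (nd l q l, nd l q 0) :: (List.range l).map fun t => (nd l q t, nd l q (t + 1))

/-- Arcs of the digraph. -/
def arcs (l : ℕ) (Γ : List (ℕ × ℕ)) : List (ℕ × ℕ) := Γ.flatMap (arcs1 l)

/-- The digraph on the natural numbers with a given list of arcs. -/
def DN (E : List (ℕ × ℕ)) : Digraph ℕ := ⟨fun u v => (u, v) ∈ E⟩

lemma mem_arcs {l : ℕ} {Γ : List (ℕ × ℕ)} {a b : ℕ} : (a, b) ∈ arcs l Γ ↔
    ∃ q ∈ Γ, (a = nd l q l ∧ b = nd l q 0) ∨ ∃ t < l, a = nd l q t ∧ b = nd l q (t + 1) := by
  simp only [arcs, arcs1, List.mem_flatMap, List.mem_cons, Prod.mk.injEq, List.mem_map,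
    List.mem_range]
  refine exists_congr fun q => and_congr_right fun _ => or_congr Iff.rfl ?_
  refine exists_congr fun t => and_congr_right fun _ => ?_
  exact ⟨fun h => ⟨h.1.symm, h.2.symm⟩, fun h => ⟨h.1.symm, h.2.symm⟩⟩

open Classical in
/-- The rank function that certifies acyclicity of a set containing no complete gadget. -/
noncomputable def rk (l : ℕ) (X : Set ℕ) (n : ℕ) : ℕ :=
  if n % 2 = 0 then (n / 2) * (2 * l + 2) + (l + 1)
  else if ∀ s ≤ (n / 2).unpair.2, nd l ((n / 2).unpair.1.unpair) s ∈ X then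
    ((n / 2).unpair.1.unpair.2) * (2 * l + 2) + (l + 1) + (n / 2).unpair.2
  else ((n / 2).unpair.1.unpair.1) * (2 * l + 2) + (n / 2).unpair.2

lemma rk_even (l : ℕ) (X : Set ℕ) (x : ℕ) : rk l X (2 * x) = x * (2 * l + 2) + (l + 1) := by
  unfold rk
  rw [if_pos (by omega), show 2 * x / 2 = x by omega]

lemma rk_priv (l : ℕ) (X : Set ℕ) (q : ℕ × ℕ) (t : ℕ) :
    ((∀ s ≤ t, nd l q s ∈ X) → rk l X (2 * Nat.pair (Nat.pair q.1 q.2) t + 1) =
      q.2 * (2 * l + 2) + (l + 1) + t) ∧
    ((¬ ∀ s ≤ t, nd l q s ∈ X) → rk l X (2 * Nat.pair (Nat.pair q.1 q.2) t + 1) =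
      q.1 * (2 * l + 2) + t) := by
  unfold rk
  rw [if_neg (by omega), show (2 * Nat.pair (Nat.pair q.1 q.2) t + 1) / 2 =
    Nat.pair (Nat.pair q.1 q.2) t by omega]
  constructor
  · intro h
    rw [if_pos (by simpa using h)]
    simp
  · intro h
    rw [if_neg (by simpa using h)]
    simp

lemma acyclic_arcs_iff {l : ℕ} (hl : 1 ≤ l) {Γ : List (ℕ × ℕ)} (hΓ : ∀ q ∈ Γ, q.1 < q.2)
    (X : Set ℕ) : IsAcyclicSet (DN (arcs l Γ)) X ↔ ∀ q ∈ Γ, ¬ ∀ t ≤ l, nd l q t ∈ X := by
  constructor
  · intro h q hq hX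
    have hadj : ∀ t < l, (DN (arcs l Γ)).Adj (nd l q t) (nd l q (t + 1)) := fun t ht =>
      mem_arcs.2 ⟨q, hq, Or.inr ⟨t, ht, rfl, rfl⟩⟩
    have hlast : (DN (arcs l Γ)).Adj (nd l q l) (nd l q 0) :=
      mem_arcs.2 ⟨q, hq, Or.inl ⟨rfl, rfl⟩⟩
    have hR : ∀ t ≤ l, Relation.ReflTransGen (fun a b => a ∈ X ∧ b ∈ X ∧
        (DN (arcs l Γ)).Adj a b) (nd l q 0) (nd l q t) := by
      intro t
      induction t with
      | zero => intro _; exact .refl
      | succ t ih =>
        intro ht
        exact (ih (by omega)).tail ⟨hX _ (by omega), hX _ ht, hadj t (by omega)⟩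
    exact h _ (Relation.TransGen.tail' (hR l le_rfl) ⟨hX _ le_rfl, hX _ (by omega), hlast⟩)
  · intro h
    refine acyclic_of_rank (rk l X) ?_
    intro a ha b hb hab
    obtain ⟨q, hq, hq'⟩ := mem_arcs.1 hab
    have hlt := hΓ q hq
    have hno := h q hq
    have hmul : q.1 * (2 * l + 2) + (2 * l + 2) ≤ q.2 * (2 * l + 2) := by
      have : (q.1 + 1) * (2 * l + 2) ≤ q.2 * (2 * l + 2) := Nat.mul_le_mul_right _ hlt
      linarith
    rcases hq' with ⟨rfl, rfl⟩ | ⟨t, ht, rfl, rfl⟩
    · have e1 : nd l q l = 2 * q.1 := by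
        unfold nd; rw [if_neg (by omega), if_pos rfl]
      have e2 : nd l q 0 = 2 * q.2 := by unfold nd; rw [if_pos rfl]
      rw [e1, e2, rk_even, rk_even]
      omega
    · by_cases hcond : ∀ s ≤ t, nd l q s ∈ X
      · -- the next one is private as well
        have hcond' : ∀ s ≤ t + 1, nd l q s ∈ X := by
          intro s hs
          rcases Nat.lt_or_ge s (t + 1) with h1 | h1
          · exact hcond s (by omega)
          · obtain rfl : s = t + 1 := by omega
            exact hb
        have htl : t + 1 ≠ l := by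
          intro h1
          exact hno (h1 ▸ hcond')
        have e2 : nd l q (t + 1) = 2 * Nat.pair (Nat.pair q.1 q.2) (t + 1) + 1 := by
          unfold nd; rw [if_neg (by omega), if_neg htl]
        rw [e2, (rk_priv l X q (t + 1)).1 hcond']
        by_cases ht0 : t = 0
        · subst ht0
          have e1 : nd l q 0 = 2 * q.2 := by unfold nd; rw [if_pos rfl]
          rw [e1, rk_even]
          omega
        · have e1 : nd l q t = 2 * Nat.pair (Nat.pair q.1 q.2) t + 1 := by
            unfold nd; rw [if_neg ht0, if_neg (by omega)]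
          rw [e1, (rk_priv l X q t).1 hcond]
          omega
      · have ht0 : t ≠ 0 := by
          rintro rfl
          exact hcond fun s hs => by
            obtain rfl : s = 0 := by omega
            exact ha
        have e1 : nd l q t = 2 * Nat.pair (Nat.pair q.1 q.2) t + 1 := by
          unfold nd; rw [if_neg ht0, if_neg (by omega)]
        rw [e1, (rk_priv l X q t).2 hcond]
        by_cases htl : t + 1 = l
        · have e2 : nd l q (t + 1) = 2 * q.1 := by
            unfold nd; rw [if_neg (by omega), if_pos htl]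
          rw [e2, rk_even]
          omega
        · have e2 : nd l q (t + 1) = 2 * Nat.pair (Nat.pair q.1 q.2) (t + 1) + 1 := by
            unfold nd; rw [if_neg (by omega), if_neg htl]
          rw [e2, (rk_priv l X q (t + 1)).2 (fun h1 => hcond fun s hs => h1 s (by omega))]
          omega

/-- Colours of the vertices of a gadget. -/
def col (l : ℕ) (x y : ℤ) (g : ℕ → ℤ) (t : ℕ) : ℤ := if t = 0 then y else if t = l then x else g t

/-- Substitution of gadgets with private vertices. -/
lemma subst_iff (P : ℤ → ℤ → (ℕ → ℤ) → Prop) (Γ : List (ℕ × ℕ)) :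
    (∃ c : ℕ → ℤ, ∀ q ∈ Γ, P (c (2 * q.1)) (c (2 * q.2))
      (fun t => c (2 * Nat.pair (Nat.pair q.1 q.2) t + 1))) ↔
    ∃ c : ℕ → ℤ, ∀ q ∈ Γ, ∃ g : ℕ → ℤ, P (c q.1) (c q.2) g := by
  classical
  constructor
  · rintro ⟨c, hc⟩
    exact ⟨fun n => c (2 * n), fun q hq => ⟨_, hc q hq⟩⟩
  · rintro ⟨c, hc⟩
    have hc' : ∀ q : ℕ × ℕ, ∃ g : ℕ → ℤ, q ∈ Γ → P (c q.1) (c q.2) g := by
      intro q
      by_cases hq : q ∈ Γ
      · obtain ⟨g, hg⟩ := hc q hq
        exact ⟨g, fun _ => hg⟩
      · exact ⟨fun _ => 0, fun h => absurd h hq⟩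
    choose G hG using hc'
    refine ⟨fun n => if n % 2 = 0 then c (n / 2) else
      G ((n / 2).unpair.1.unpair) ((n / 2).unpair.2), fun q hq => ?_⟩
    have e1 : ∀ x, (2 * x) % 2 = 0 := fun x => by omega
    have e2 : ∀ x, (2 * x) / 2 = x := fun x => by omega
    have e3 : ∀ x, ¬ (2 * x + 1) % 2 = 0 := fun x => by omega
    have e4 : ∀ x, (2 * x + 1) / 2 = x := fun x => by omega
    simp only [e1, e2, e3, e4, if_true, if_false, Nat.unpair_pair]
    exact hG q hq

/-- Colourability of the digraph with gadgets. -/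
theorem arcs_colourable_iff {l : ℕ} (hl : 1 ≤ l) {Γ : List (ℕ × ℕ)} (hΓ : ∀ q ∈ Γ, q.1 < q.2)
    {k d : ℕ} (hd : 1 ≤ d) (hdk : d ≤ k) :
    (∃ c : ℕ → ZMod k, IsAcyclicColouring (DN (arcs l Γ)) k d c) ↔
      ∃ c : ℕ → ℤ, ∀ q ∈ Γ, ∃ g : ℕ → ℤ,
        Dense k (k - d : ℕ) (col l (c q.1) (c q.2) g) {t | t ≤ l} := by
  rw [colourable_iff _ hd hdk, ← subst_iff (fun x y g =>
    Dense k (k - d : ℕ) (col l x y g) {t | t ≤ l})]
  refine exists_congr fun c => ?_
  have hcol : ∀ q : ℕ × ℕ, ∀ t, col l (c (2 * q.1)) (c (2 * q.2))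
      (fun t => c (2 * Nat.pair (Nat.pair q.1 q.2) t + 1)) t = c (nd l q t) := by
    intro q t
    unfold col nd
    split_ifs <;> rfl
  constructor
  · intro h q hq i
    have hS : ¬ IsAcyclicSet (DN (arcs l Γ)) {x | ∃ t ≤ l, x = nd l q t} := by
      rw [acyclic_arcs_iff hl hΓ]
      intro h1
      exact h1 q hq fun t ht => ⟨t, ht, rfl⟩
    obtain ⟨v, ⟨t, ht, rfl⟩, n, h1, h2⟩ := h _ hS i
    exact ⟨t, ht, n, by rw [hcol]; exact h1, by rw [hcol]; exact h2⟩
  · intro h S hS i
    rw [acyclic_arcs_iff hl hΓ] at hS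
    push Not at hS
    obtain ⟨q, hq, hS⟩ := hS
    obtain ⟨t, ht, n, h1, h2⟩ := h q hq i
    rw [hcol] at h1 h2
    exact ⟨_, hS t ht, n, h1, h2⟩

/-- The relation between the colours of the ends of an edge. -/
def RA (k e f l : ℤ) (x y : ℤ) : Prop :=
  ∃ i n : ℤ, 1 ≤ i ∧ i ≤ l ∧ (i - 1) * e + f ≤ y - x + n * k ∧ y - x + n * k ≤ i * e

lemma exists_dense_of_RA {k e f : ℤ} {l : ℕ} (hf : 0 < f) (hfe : f ≤ e) (hk : k = l * e + f)
    {x y : ℤ} (h : RA k e f l x y) :
    ∃ g : ℕ → ℤ, Dense k e (col l x y g) {t | t ≤ l} := by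
  obtain ⟨i, n, h1, h2, h3, h4⟩ := h
  have hk0 : 0 < k := by
    have : 0 ≤ (l : ℤ) * e := mul_nonneg (by omega) (by omega)
    omega
  set a := y - x + n * k with ha
  refine ⟨fun t => if (t : ℤ) ≤ i - 1 then x + t * e else x + a + (t - i + 1) * e, ?_⟩
  refine dense_of_seq hk0 (fun s => if (s : ℤ) ≤ i - 1 then x + s * e else
    if s ≤ l then x + a + (s - i) * e else x + k) (l + 1) ?_ ?_ ?_
  · intro s hs
    push_cast
    by_cases c1 : (s : ℤ) + 1 ≤ i - 1
    · rw [if_pos c1, if_pos (by omega)]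
      linarith
    · rw [if_neg c1]
      by_cases c2 : (s : ℤ) ≤ i - 1
      · have hs' : (s : ℤ) = i - 1 := by omega
        rw [if_pos c2, if_pos (by omega), hs']
        nlinarith
      · rw [if_neg c2]
        by_cases c3 : s + 1 ≤ l
        · rw [if_pos c3, if_pos (by omega)]
          linarith
        · rw [if_neg c3, if_pos (by omega)]
          have hs' : (s : ℤ) = l := by omega
          rw [hs']
          nlinarith
  · push_cast
    rw [if_pos (by omega), if_neg (by omega), if_neg (by omega)]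
    simp
  · intro s hs
    by_cases c1 : (s : ℤ) ≤ i - 1
    · rw [if_pos c1]
      by_cases c0 : s = 0
      · subst c0
        refine ⟨l, le_refl l, 0, ?_⟩
        unfold col
        rw [if_neg (by omega), if_pos rfl]
        push_cast
        ring
      · refine ⟨s, by change s ≤ l; omega, 0, ?_⟩
        unfold col
        rw [if_neg c0, if_neg (by omega)]
        simp only
        rw [if_pos c1]
        ring
    · rw [if_neg c1]
      by_cases c3 : s ≤ l
      · rw [if_pos c3]
        by_cases c4 : (s : ℤ) = i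
        · refine ⟨0, Nat.zero_le l, n, ?_⟩
          unfold col
          rw [if_pos rfl, c4, ha]
          ring
        · refine ⟨s - 1, by change s - 1 ≤ l; omega, 0, ?_⟩
          unfold col
          have hcast : ((s - 1 : ℕ) : ℤ) = s - 1 := by omega
          rw [if_neg (by omega), if_neg (by omega)]
          simp only
          rw [hcast, if_neg (by omega)]
          ring
      · rw [if_neg c3]
        refine ⟨l, le_refl l, 1, ?_⟩
        unfold col
        rw [if_neg (by omega), if_pos rfl]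
        ring

lemma RA_of_dense {k e f : ℤ} {l : ℕ} (hl : 1 ≤ l) (hf : 0 < f) (hfe : f ≤ e)
    (hk : k = l * e + f) {x y : ℤ} {g : ℕ → ℤ} (h : Dense k e (col l x y g) {t | t ≤ l}) :
    RA k e f l x y := by
  have he : 0 < e := by omega
  have hk0 : 0 < k := by
    have : 0 ≤ (l : ℤ) * e := mul_nonneg (by omega) (by omega)
    omega
  obtain ⟨n, hn1, hn2⟩ := exists_lift hk0 (y - x) 0
  set a := y - x + n * k with ha
  by_contra hno
  -- number of windows before and after
  obtain ⟨p, hp0, hp1, hp2⟩ : ∃ p : ℤ, 0 ≤ p ∧ p * e ≤ max 0 (a - 1) ∧ a ≤ (p + 1) * e := by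
    refine ⟨(max 0 (a - 1)) / e, Int.ediv_nonneg (le_max_left _ _) he.le, ?_, ?_⟩
    · exact Int.ediv_mul_le _ he.ne'
    · have h1 := Int.lt_ediv_add_one_mul_self (max 0 (a - 1)) he
      have h2 : a - 1 ≤ max 0 (a - 1) := le_max_right _ _
      omega
  obtain ⟨r, hr0, hr1, hr2⟩ : ∃ r : ℤ, 0 ≤ r ∧ r * e ≤ k - a - 1 ∧ k - a ≤ (r + 1) * e := by
    refine ⟨(k - a - 1) / e, Int.ediv_nonneg (by omega) he.le, ?_, ?_⟩
    · exact Int.ediv_mul_le _ he.ne'
    · have h1 := Int.lt_ediv_add_one_mul_self (k - a - 1) he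
      omega
  have hpr : (l : ℤ) ≤ p + r := by
    by_contra hcon
    push Not at hcon
    refine hno ⟨p + 1, n, by omega, by omega, ?_, ?_⟩
    · rw [← ha]
      have : (r + 1) * e ≤ (l - p) * e := mul_le_mul_of_nonneg_right (by omega) he.le
      nlinarith
    · rw [← ha]; exact hp2
  -- windows
  have hwin : ∀ j : Fin l, ∃ t, 1 ≤ t ∧ t ≤ l - 1 ∧ ∃ m : ℤ,
      (if (j.val : ℤ) < p then x + 1 + j.val * e else x + a + 1 + (j.val - p) * e) ≤
        g t + m * k ∧
      g t + m * k < (if (j.val : ℤ) < p then x + 1 + j.val * e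
        else x + a + 1 + (j.val - p) * e) + e := by
    intro j
    obtain ⟨t, ht, m, h1, h2⟩ := h (if (j.val : ℤ) < p then x + 1 + j.val * e
        else x + a + 1 + (j.val - p) * e)
    have hjl : (j.val : ℤ) < l := by exact_mod_cast j.isLt
    -- the window lies strictly between `x` and `x + k` and avoids `x + a`
    have hb : x < col l x y g t + m * k ∧ col l x y g t + m * k < x + k ∧
        col l x y g t + m * k ≠ x + a := by
      by_cases c1 : (j.val : ℤ) < p
      · rw [if_pos c1] at h1 h2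
        have h3 : 0 ≤ (j.val : ℤ) * e := mul_nonneg (by omega) he.le
        have h4 : ((j.val : ℤ) + 1) * e ≤ p * e := mul_le_mul_of_nonneg_right (by omega) he.le
        have h5 : 0 < a := by
          by_contra h6
          have : max 0 (a - 1) = 0 := max_eq_left (by omega)
          rw [this] at hp1
          nlinarith
        have h6 : max 0 (a - 1) = a - 1 := max_eq_right (by omega)
        rw [h6] at hp1
        have h7 : (j.val : ℤ) * e + e = (j.val + 1) * e := by ring
        refine ⟨by omega, by omega, by omega⟩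
      · rw [if_neg c1] at h1 h2
        have h3 : 0 ≤ ((j.val : ℤ) - p) * e := mul_nonneg (by omega) he.le
        have h4 : ((j.val : ℤ) - p + 1) * e ≤ r * e := mul_le_mul_of_nonneg_right (by omega) he.le
        have h7 : ((j.val : ℤ) - p) * e + e = (j.val - p + 1) * e := by ring
        refine ⟨by omega, by omega, by omega⟩
    have ht' : t ≤ l := ht
    have ht0 : t ≠ 0 := by
      rintro rfl
      have e1 : col l x y g 0 = y := by simp [col]
      rw [e1] at hb
      obtain ⟨b1, b2, b3⟩ := hb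
      -- `y + m k ≡ x + a`
      have h8 : n = m := lift_unique (k := k) (x := y) (i := x) (by omega) (by omega)
        (by omega) (by omega)
      subst h8
      exact b3 (by omega)
    have htl : t ≠ l := by
      intro h9
      have e1 : col l x y g t = x := by
        unfold col; rw [if_neg ht0, if_pos h9]
      rw [e1] at hb
      obtain ⟨b1, b2, -⟩ := hb
      have h8 : m = 0 := lift_unique (k := k) (x := x) (i := x) (by omega) (by omega)
        (by omega) (by omega)
      subst h8
      omega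
    have e1 : col l x y g t = g t := by
      unfold col; rw [if_neg ht0, if_neg htl]
    rw [e1] at h1 h2
    exact ⟨t, by omega, by omega, m, h1, h2⟩
  choose T hT1 hT2 M hM1 hM2 using hwin
  obtain ⟨j, -, j', -, hjj, hTT⟩ := Finset.exists_ne_map_eq_of_card_lt_of_maps_to
    (s := (Finset.univ : Finset (Fin l))) (t := Finset.Icc 1 (l - 1)) (f := T) (by simp; omega)
    (fun j _ => by simp only [Finset.coe_Icc, Set.mem_Icc]; exact ⟨hT1 j, hT2 j⟩)
  wlog hlt : j.val < j'.val generalizing j j'
  · exact this j' j (Ne.symm hjj) hTT.symm (lt_of_le_of_ne (not_lt.1 hlt)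
      (fun h => hjj (Fin.ext h.symm)))
  -- positions of the two windows
  have hjl : (j'.val : ℤ) < l := by exact_mod_cast j'.isLt
  have hlt' : (j.val : ℤ) + 1 ≤ j'.val := by exact_mod_cast hlt
  have hbnd : ∀ i : Fin l, x < g (T i) + M i * k ∧ g (T i) + M i * k < x + k := by
    intro i
    have h1 := hM1 i
    have h2 := hM2 i
    have hil : (i.val : ℤ) < l := by exact_mod_cast i.isLt
    by_cases c1 : (i.val : ℤ) < p
    · rw [if_pos c1] at h1 h2
      have h3 : 0 ≤ (i.val : ℤ) * e := mul_nonneg (by omega) he.le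
      have h4 : ((i.val : ℤ) + 1) * e ≤ p * e := mul_le_mul_of_nonneg_right (by omega) he.le
      have h7 : (i.val : ℤ) * e + e = (i.val + 1) * e := by ring
      have h6 : max 0 (a - 1) < k := max_lt hk0 (by omega)
      have h8 : max 0 (a - 1) ≤ k - 1 := by omega
      refine ⟨by omega, by omega⟩
    · rw [if_neg c1] at h1 h2
      have h3 : 0 ≤ ((i.val : ℤ) - p) * e := mul_nonneg (by omega) he.le
      have h4 : ((i.val : ℤ) - p + 1) * e ≤ r * e := mul_le_mul_of_nonneg_right (by omega) he.le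
      have h7 : ((i.val : ℤ) - p) * e + e = (i.val - p + 1) * e := by ring
      refine ⟨by omega, by omega⟩
  have b1 := hbnd j
  have b2 := hbnd j'
  rw [← hTT] at b2
  have hMM : M j = M j' := lift_unique (k := k) (x := g (T j)) (i := x) (by omega) (by omega)
    (by omega) (by omega)
  have c1 := hM2 j
  have c2 := hM1 j'
  rw [← hTT, ← hMM] at c2
  -- the first window ends before the second one starts
  have hord : (if (j.val : ℤ) < p then x + 1 + j.val * e else x + a + 1 + (j.val - p) * e) + e ≤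
      (if (j'.val : ℤ) < p then x + 1 + j'.val * e else x + a + 1 + (j'.val - p) * e) := by
    by_cases d1 : (j'.val : ℤ) < p
    · rw [if_pos (by omega : (j.val : ℤ) < p), if_pos d1]
      have : ((j.val : ℤ) + 1) * e ≤ j'.val * e := mul_le_mul_of_nonneg_right hlt' he.le
      linarith
    · rw [if_neg d1]
      have h3 : 0 ≤ ((j'.val : ℤ) - p) * e := mul_nonneg (by omega) he.le
      by_cases d2 : (j.val : ℤ) < p
      · rw [if_pos d2]
        have h4 : ((j.val : ℤ) + 1) * e ≤ p * e := mul_le_mul_of_nonneg_right (by omega) he.le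
        have h5 : 0 < a := by
          by_contra h6
          have : max 0 (a - 1) = 0 := max_eq_left (by omega)
          rw [this] at hp1
          have : e ≤ ((j.val : ℤ) + 1) * e := by
            have : 1 * e ≤ ((j.val : ℤ) + 1) * e := mul_le_mul_of_nonneg_right (by omega) he.le
            linarith
          omega
        have h6 : max 0 (a - 1) = a - 1 := max_eq_right (by omega)
        rw [h6] at hp1
        have h7 : (j.val : ℤ) * e + e = (j.val + 1) * e := by ring
        omega
      · rw [if_neg d2]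
        have : ((j.val : ℤ) - p + 1) * e ≤ (j'.val - p) * e :=
          mul_le_mul_of_nonneg_right (by omega) he.le
        linarith
  omega

/-- **Colourings of the digraph are homomorphisms of the graph.** -/
theorem arcs_colourable_iff_RA {l : ℕ} (hl : 1 ≤ l) {Γ : List (ℕ × ℕ)} (hΓ : ∀ q ∈ Γ, q.1 < q.2)
    {k d f : ℕ} (hd : 1 ≤ d) (hf : 1 ≤ f) (hfe : f ≤ k - d) (hk : k = l * (k - d) + f) :
    (∃ c : ℕ → ZMod k, IsAcyclicColouring (DN (arcs l Γ)) k d c) ↔
      ∃ c : ℕ → ℤ, ∀ q ∈ Γ, RA k (k - d : ℕ) f l (c q.1) (c q.2) := by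
  rw [arcs_colourable_iff hl hΓ hd (by omega)]
  refine exists_congr fun c => forall_congr' fun q => imp_congr_right fun _ => ?_
  have hk' : (k : ℤ) = l * ((k - d : ℕ) : ℤ) + f := by exact_mod_cast hk
  constructor
  · rintro ⟨g, hg⟩
    exact RA_of_dense hl (by omega) (by omega) hk' hg
  · intro h
    exact exists_dense_of_RA (by omega) (by omega) hk' h

end Pool.Agent.H79.Star
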