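import Pool.Agent.H79.StarPar
import Pool.Agent.H79.StarCut

/-!
# NP-hardness of `STAR_p` for every non-integer real number `p > 1`
-/

namespace Pool.Agent.H79.Star

open TMLib Polynomial N487b59b3 N68a2faeb N793a5b8e

/-- A bound for all ends of arcs. -/
def size (E : List (ℕ × ℕ)) : ℕ := (E.flatMap fun a => List.range (a.1 + a.2 + 1)).length

/-- Adjacency lists of a list of arcs. -/
def adjLists (E : List (ℕ × ℕ)) : List (List ℕ) :=
  (List.range (size E)).map fun u => (List.range (size E)).filter fun v => decide ((u, v) ∈ E)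

lemma lt_size {E : List (ℕ × ℕ)} {u v : ℕ} (h : (u, v) ∈ E) : u < size E ∧ v < size E := by
  have h1 : (List.range (u + v + 1)).Sublist (E.flatMap fun a => List.range (a.1 + a.2 + 1)) := by
    rw [List.flatMap_def]
    exact List.sublist_flatten_of_mem (List.mem_map.2 ⟨(u, v), h, rfl⟩)
  have h2 := h1.length_le
  rw [List.length_range] at h2
  change u + v + 1 ≤ size E at h2
  omega

lemma length_adjLists (E : List (ℕ × ℕ)) : (adjLists E).length = size E := by
  simp [adjLists]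

lemma mem_adjLists {E : List (ℕ × ℕ)} {u v : ℕ} (hu : u < (adjLists E).length) :
    v ∈ (adjLists E)[u] ↔ (u, v) ∈ E := by
  simp only [adjLists, List.getElem_map, List.getElem_range, List.mem_filter, List.mem_range,
    decide_eq_true_eq]
  exact ⟨fun h => h.2, fun h => ⟨(lt_size h).2, h⟩⟩

lemma valid_adjLists {E : List (ℕ × ℕ)} (hE : ∀ a ∈ E, a.1 ≠ a.2) : Valid (adjLists E) := by
  intro u
  refine ⟨fun h => ?_, fun v hv => ?_⟩
  · rw [mem_adjLists u.isLt] at h
    exact hE _ h rfl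
  · rw [mem_adjLists u.isLt] at hv
    rw [length_adjLists]
    exact (lt_size hv).2

/-- Colourings of the finite digraph and of the digraph on the natural numbers. -/
lemma adjLists_colourable_iff (E : List (ℕ × ℕ)) (k d : ℕ) :
    (∃ c, IsAcyclicColouring (ofLists (adjLists E)) k d c) ↔
      ∃ c : ℕ → ZMod k, IsAcyclicColouring (DN E) k d c := by
  classical
  constructor
  · rintro ⟨c, hc⟩
    refine ⟨fun n => if h : n < (adjLists E).length then c ⟨n, h⟩ else 0, fun i v hv => ?_⟩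
    have key : ∀ a b, Relation.TransGen (fun a b =>
        a ∈ {v | ∃ j : ℕ, j < d ∧ (if h : v < (adjLists E).length then c ⟨v, h⟩ else 0) = i + j} ∧
        b ∈ {v | ∃ j : ℕ, j < d ∧ (if h : v < (adjLists E).length then c ⟨v, h⟩ else 0) = i + j} ∧
        (DN E).Adj a b) a b → ∃ (ha : a < (adjLists E).length) (hb : b < (adjLists E).length),
        Relation.TransGen (fun a b => a ∈ {v | ∃ j : ℕ, j < d ∧ c v = i + j} ∧
        b ∈ {v | ∃ j : ℕ, j < d ∧ c v = i + j} ∧
        (ofLists (adjLists E)).Adj a b) ⟨a, ha⟩ ⟨b, hb⟩ := by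
      intro a b hab
      have hstep : ∀ a b, (a ∈ {v | ∃ j : ℕ, j < d ∧
          (if h : v < (adjLists E).length then c ⟨v, h⟩ else 0) = i + j} ∧
        b ∈ {v | ∃ j : ℕ, j < d ∧ (if h : v < (adjLists E).length then c ⟨v, h⟩ else 0) = i + j} ∧
        (DN E).Adj a b) → ∃ (ha : a < (adjLists E).length) (hb : b < (adjLists E).length),
        ((⟨a, ha⟩ : Fin _) ∈ {v | ∃ j : ℕ, j < d ∧ c v = i + j} ∧
        (⟨b, hb⟩ : Fin _) ∈ {v | ∃ j : ℕ, j < d ∧ c v = i + j} ∧
        (ofLists (adjLists E)).Adj ⟨a, ha⟩ ⟨b, hb⟩) := by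
        rintro a b ⟨⟨j, hj, h1⟩, ⟨j', hj', h2⟩, h3⟩
        have h4 := lt_size h3
        rw [← length_adjLists] at h4
        rw [dif_pos h4.1] at h1
        rw [dif_pos h4.2] at h2
        exact ⟨h4.1, h4.2, ⟨j, hj, h1⟩, ⟨j', hj', h2⟩, (mem_adjLists h4.1).2 h3⟩
      induction hab with
      | single h =>
        obtain ⟨ha, hb, h'⟩ := hstep _ _ h
        exact ⟨ha, hb, .single h'⟩
      | tail _ h ih =>
        obtain ⟨ha, hb, h'⟩ := ih
        obtain ⟨ha', hb', h''⟩ := hstep _ _ h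
        exact ⟨ha, hb', .tail h' h''⟩
    obtain ⟨ha, _, h⟩ := key v v hv
    exact hc i ⟨v, ha⟩ h
  · rintro ⟨c, hc⟩
    refine ⟨fun v => c v.val, fun i v hv => hc i v.val ?_⟩
    have key : ∀ a b, Relation.TransGen (fun a b =>
        a ∈ {v : Fin (adjLists E).length | ∃ j : ℕ, j < d ∧ c v.val = i + j} ∧
        b ∈ {v : Fin (adjLists E).length | ∃ j : ℕ, j < d ∧ c v.val = i + j} ∧
        (ofLists (adjLists E)).Adj a b) a b →
        Relation.TransGen (fun a b => a ∈ {v | ∃ j : ℕ, j < d ∧ c v = i + j} ∧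
        b ∈ {v | ∃ j : ℕ, j < d ∧ c v = i + j} ∧ (DN E).Adj a b) a.val b.val := by
      intro a b hab
      induction hab with
      | single h => exact .single ⟨h.1, h.2.1, (mem_adjLists (Fin.isLt _)).1 h.2.2⟩
      | tail _ h ih => exact .tail ih ⟨h.1, h.2.1, (mem_adjLists (Fin.isLt _)).1 h.2.2⟩
    exact key v v hv

lemma arcs_loopless {l : ℕ} (hl : 1 ≤ l) {Γ : List (ℕ × ℕ)} (hΓ : ∀ q ∈ Γ, q.1 < q.2) :
    ∀ a ∈ arcs l Γ, a.1 ≠ a.2 := by
  rintro ⟨a, b⟩ hab
  obtain ⟨q, hq, h⟩ := mem_arcs.1 hab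
  have hlt := hΓ q hq
  simp only
  rcases h with ⟨rfl, rfl⟩ | ⟨t, ht, rfl, rfl⟩
  · unfold nd
    rw [if_neg (by omega), if_pos rfl, if_pos rfl]
    omega
  · unfold nd
    rw [if_neg (show ¬ t + 1 = 0 by omega)]
    by_cases h0 : t = 0
    · rw [if_pos h0]
      split_ifs <;> omega
    · rw [if_neg h0, if_neg (by omega)]
      split_ifs
      · omega
      · intro h
        have h1 : Nat.pair (Nat.pair q.1 q.2) t = Nat.pair (Nat.pair q.1 q.2) (t + 1) := by omega
        have := (Nat.pair_eq_pair.1 h1).2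
        omega

/-- The instance of the reduction. -/
def inst (l m j N : ℕ) (φ : List Cl) : List (List ℕ) := adjLists (bigArcs l m j (satE N φ))

theorem inst_correct {p : ℝ} {l m j N k₁ d₁ k₂ d₂ : ℕ} (hl : 1 ≤ l) (hN : 3 ≤ N)
    (h₁ : Decides l m j N k₁ d₁) (h₂ : Decides l m j N k₂ d₂) (hp₁ : (k₁ : ℝ) ≤ p * d₁)
    (hp₂ : p * d₂ ≤ k₂) (φ : List Cl) :
    Sat φ ↔ STAR p (bitEncode (inst l m j N φ)) = true := by
  have hV : Valid (inst l m j N φ) :=
    valid_adjLists (arcs_loopless hl (gamma_lt satE_loopless))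
  rw [star_code, starDichromatic_le_iff _ (valid_loopless hV)]
  obtain ⟨a1, a2, a3⟩ := h₁
  obtain ⟨b1, b2, b3⟩ := h₂
  have c1 := a3 (satE N φ) (bv (N - 1)) satE_loopless (fun h => satE_univ h φ)
  have c2 := b3 (satE N φ) (bv (N - 1)) satE_loopless (fun h => satE_univ h φ)
  constructor
  · intro h
    refine ⟨hV, ?_⟩
    have h3 := c1.2 (col_of_sat hN h)
    rw [← adjLists_colourable_iff] at h3
    obtain ⟨k', d', f1, f2, f3, f4, f5⟩ := exists_small_colouring _ a1 a2 h3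
    refine ⟨k', d', f1, f2, f3, ?_, f5⟩
    have e1 : (0 : ℝ) < d₁ := by exact_mod_cast a1
    have e2 : (0 : ℝ) ≤ d' := Nat.cast_nonneg _
    have e3 : (k' : ℝ) * d₁ ≤ k₁ * d' := by exact_mod_cast f4
    have e4 : (k₁ : ℝ) * d' ≤ p * d₁ * d' := mul_le_mul_of_nonneg_right hp₁ e2
    have e5 : (k' : ℝ) * d₁ ≤ (p * d') * d₁ := by linarith
    exact le_of_mul_le_mul_right e5 e1
  · rintro ⟨-, k, d, h1, h2, -, h4, h5⟩
    have h6 : k * d₂ ≤ k₂ * d := by
      have e2 : (0 : ℝ) ≤ d := Nat.cast_nonneg _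
      have e3 : (0 : ℝ) ≤ d₂ := Nat.cast_nonneg _
      have e4 : (k : ℝ) * d₂ ≤ p * d * d₂ := mul_le_mul_of_nonneg_right h4 e3
      have e5 : p * d₂ * d ≤ k₂ * d := mul_le_mul_of_nonneg_right hp₂ e2
      have : (k : ℝ) * d₂ ≤ k₂ * d := by linarith
      exact_mod_cast this
    have h7 := colouring_mono _ h1 h2 b1 b2 h6 h5
    have h8 : ∃ c : ℕ → ZMod k₂, IsAcyclicColouring (DN (bigArcs l m j (satE N φ))) k₂ d₂ c :=
      (adjLists_colourable_iff _ _ _).1 h7
    obtain ⟨c, hc⟩ := c2.1 h8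
    exact sat_of_col hN hc

/-! ### The reduction is computable in polynomial time -/

section ptime

variable {α : Type} [Enc α]

@[fun_prop] lemma ptime_bv {f : α → ℕ} (hf : PTime f) : PTime (fun x => bv (f x)) := by
  unfold bv; fun_prop

@[fun_prop] lemma ptime_lv {f : α → Lit} (hf : PTime f) : PTime (fun x => lv (f x)) := by
  unfold lv; fun_prop

@[fun_prop] lemma ptime_gv {f g : α → ℕ} (hf : PTime f) (hg : PTime g) :
    PTime (fun x => gv (f x) (g x)) := by
  unfold gv; fun_prop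

@[fun_prop] lemma ptime_baseE (N : ℕ) : PTime (fun _ : α => baseE N) := PTime.const _

@[fun_prop] lemma ptime_litE (N : ℕ) {f : α → ℕ} (hf : PTime f) :
    PTime (fun x => litE N (f x)) := by
  unfold litE; fun_prop

@[fun_prop] lemma ptime_gbE (N : ℕ) {f : α → ℕ} (hf : PTime f) :
    PTime (fun x => gbE N (f x)) := by
  unfold gbE; fun_prop

@[fun_prop] lemma ptime_inE {f : α → ℕ} {c : α → Cl} (hf : PTime f) (hc : PTime c) :
    PTime (fun x => inE (f x) (c x)) := by
  unfold inE; fun_prop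

@[fun_prop] lemma ptime_clE (N : ℕ) {f : α → ℕ} {c : α → Cl} (hf : PTime f) (hc : PTime c) :
    PTime (fun x => clE N (f x) (c x)) := by
  unfold clE; fun_prop

@[fun_prop] lemma ptime_satE (N : ℕ) {f : α → List Cl} (hf : PTime f) :
    PTime (fun x => satE N (f x)) := by
  unfold satE; fun_prop

@[fun_prop] lemma ptime_cv {q : α → ℕ × ℕ} {s t : α → ℕ} (hq : PTime q) (hs : PTime s)
    (ht : PTime t) : PTime (fun x => cv (q x) (s x) (t x)) := by
  unfold cv; fun_prop

@[fun_prop] lemma ptime_pv (m j : ℕ) {q : α → ℕ × ℕ} {s : α → ℕ} (hq : PTime q) (hs : PTime s) :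
    PTime (fun x => pv m j (q x) (s x)) := by
  unfold pv; fun_prop

@[fun_prop] lemma ptime_cedges (m j : ℕ) {q : α → ℕ × ℕ} {s : α → ℕ} (hq : PTime q)
    (hs : PTime s) : PTime (fun x => cedges m j (q x) (s x)) := by
  unfold cedges; fun_prop

@[fun_prop] lemma ptime_pedges1 (m j : ℕ) {q : α → ℕ × ℕ} (hq : PTime q) :
    PTime (fun x => pedges1 m j (q x)) := by
  unfold pedges1; fun_prop

@[fun_prop] lemma ptime_pedges (m j : ℕ) {B : α → List (ℕ × ℕ)} (hB : PTime B) :
    PTime (fun x => pedges m j (B x)) := by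
  unfold pedges; fun_prop

@[fun_prop] lemma ptime_gamma (m j : ℕ) {B : α → List (ℕ × ℕ)} (hB : PTime B) :
    PTime (fun x => gamma m j (B x)) := by
  unfold gamma srt; fun_prop

@[fun_prop] lemma ptime_nd (l : ℕ) {q : α → ℕ × ℕ} {t : α → ℕ} (hq : PTime q) (ht : PTime t) :
    PTime (fun x => nd l (q x) (t x)) := by
  unfold nd; fun_prop

@[fun_prop] lemma ptime_arcs1 (l : ℕ) {q : α → ℕ × ℕ} (hq : PTime q) :
    PTime (fun x => arcs1 l (q x)) := by
  unfold arcs1; fun_prop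

@[fun_prop] lemma ptime_arcs (l : ℕ) {Γ : α → List (ℕ × ℕ)} (hΓ : PTime Γ) :
    PTime (fun x => arcs l (Γ x)) := by
  unfold arcs; fun_prop

@[fun_prop] lemma ptime_size {E : α → List (ℕ × ℕ)} (hE : PTime E) :
    PTime (fun x => size (E x)) := by
  unfold size; fun_prop

@[fun_prop] lemma ptime_adjLists {E : α → List (ℕ × ℕ)} (hE : PTime E) :
    PTime (fun x => adjLists (E x)) := by
  unfold adjLists; fun_prop

lemma ptime_inst (l m j N : ℕ) : PTime (fun φ : List Cl => inst l m j N φ) := by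
  unfold inst bigArcs; fun_prop

end ptime

end Pool.Agent.H79.Star
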