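import Pool.Agent.H79.GDNP
import Pool.Agent.TM.Closure
import Pool.Agent.H79.StarCirc

/-!
# Membership of `STAR_p` in `NP`
-/

namespace Pool.Agent.H79.Star

open TMLib Polynomial N487b59b3 N68a2faeb
open Pool.Agent.H79.GD (length_le_bitEncode bitEncode_le_of_mem)

lemma unary_injective {k d k' d' : ℕ} (h : unary k d = unary k' d') : k = k' ∧ d = d' := by
  have key : ∀ k k' d d' : ℕ, unary k d = unary k' d' → k = k' ∧ d = d' := by
    intro k
    induction k with
    | zero =>
      intro k' d d' h
      cases k' with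
      | zero =>
        have := congrArg List.length h
        simp [unary] at this
        exact ⟨rfl, this⟩
      | succ k' => simp [unary, List.replicate_succ] at h
    | succ k ih =>
      intro k' d d' h
      cases k' with
      | zero => simp [unary, List.replicate_succ] at h
      | succ k' =>
        have h1 : unary k d = unary k' d' := by
          simp only [unary, List.replicate_succ, List.cons_append, List.cons.injEq, true_and] at h
          exact h
        have := ih k' d d' h1
        omega
  exact key k k' d d' h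

lemma cut_unary (p : ℝ) (k d : ℕ) : Cut p (unary k d) = true ↔ 1 ≤ d ∧ (k : ℝ) / d ≤ p := by
  classical
  simp only [Cut, decide_eq_true_eq]
  constructor
  · rintro ⟨k', d', h1, h2, h3⟩
    obtain ⟨rfl, rfl⟩ := unary_injective h2
    exact ⟨h1, h3⟩
  · rintro ⟨h1, h2⟩
    exact ⟨k, d, h1, rfl, h2⟩

lemma ptime_unary {α : Type} [Enc α] {k d : α → ℕ} (hk : PTime k) (hd : PTime d) :
    PTime (fun x => unary (k x) (d x)) := by
  unfold unary; fun_prop

/-- Entry of a list of numbers. -/
def ent (l : List ℕ) (i : ℕ) : ℕ := l[i]?.getD 0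
/-- Entry of a list of lists. -/
def row (L : List (List ℕ)) (i : ℕ) : List ℕ := L[i]?.getD []

@[fun_prop] lemma ptime_ent {α : Type} [Enc α] {l : α → List ℕ} {i : α → ℕ} (hl : PTime l)
    (hi : PTime i) : PTime (fun x => ent (l x) (i x)) := by
  unfold ent; fun_prop

@[fun_prop] lemma ptime_row {α : Type} [Enc α] {l : α → List (List ℕ)} {i : α → ℕ} (hl : PTime l)
    (hi : PTime i) : PTime (fun x => row (l x) (i x)) := by
  unfold row; fun_prop

/-- The colour `x` is in the window `{i, ..., i + d - 1}`. -/
def low (k d i x : ℕ) : Prop := (x + k - i) % k < d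

instance (k d i x : ℕ) : Decidable (low k d i x) := by unfold low; infer_instance

@[fun_prop] lemma ptime_low {α : Type} [Enc α] {k d i y : α → ℕ} (hk : PTime k) (hd : PTime d)
    (hi : PTime i) (hy : PTime y) : PTime (fun x => decide (low (k x) (d x) (i x) (y x))) := by
  unfold low; fun_prop

/-- Rank condition of one arc, for one window. -/
def chkArc (k d i : ℕ) (c r : List ℕ) (u v : ℕ) : Prop :=
  ¬ low k d i (ent c u) ∨ ¬ low k d i (ent c v) ∨ ent r u < ent r v

instance (k d i : ℕ) (c r : List ℕ) (u v : ℕ) : Decidable (chkArc k d i c r u v) := by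
  unfold chkArc; infer_instance

@[fun_prop] lemma ptime_chkArc {α : Type} [Enc α] {k d i u v : α → ℕ} {c r : α → List ℕ}
    (hk : PTime k) (hd : PTime d) (hi : PTime i) (hc : PTime c) (hr : PTime r) (hu : PTime u)
    (hv : PTime v) :
    PTime (fun x => decide (chkArc (k x) (d x) (i x) (c x) (r x) (u x) (v x))) := by
  unfold chkArc; fun_prop

/-- The list describes a loopless digraph. -/
def chkValid (L : List (List ℕ)) : Prop :=
  ∀ u ∈ List.range L.length, u ∉ row L u ∧ ∀ v ∈ row L u, v < L.length

instance (L : List (List ℕ)) : Decidable (chkValid L) := by unfold chkValid; infer_instance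

@[fun_prop] lemma ptime_chkValid {α : Type} [Enc α] {L : α → List (List ℕ)} (hL : PTime L) :
    PTime (fun x => decide (chkValid (L x))) := by
  unfold chkValid; fun_prop

/-- All rank conditions of one window. -/
def chkWin (k d i : ℕ) (L : List (List ℕ)) (c r : List ℕ) : Prop :=
  ∀ u ∈ List.range L.length, ∀ v ∈ row L u, chkArc k d i c r u v

instance (k d i : ℕ) (L : List (List ℕ)) (c r : List ℕ) : Decidable (chkWin k d i L c r) := by
  unfold chkWin; infer_instance

@[fun_prop] lemma ptime_chkWin {α : Type} [Enc α] {k d i : α → ℕ} {L : α → List (List ℕ)}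
    {c r : α → List ℕ}
    (hk : PTime k) (hd : PTime d) (hi : PTime i) (hL : PTime L) (hc : PTime c) (hr : PTime r) :
    PTime (fun x => decide (chkWin (k x) (d x) (i x) (L x) (c x) (r x))) := by
  unfold chkWin; fun_prop

/-- The colouring condition. -/
def chkCol (k d : ℕ) (L : List (List ℕ)) (c : List ℕ) (R : List (List ℕ)) : Prop :=
  ∀ i ∈ List.range k, chkWin k d i L c (row R i)

instance (k d : ℕ) (L : List (List ℕ)) (c : List ℕ) (R : List (List ℕ)) :
    Decidable (chkCol k d L c R) := by
  unfold chkCol; infer_instance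

@[fun_prop] lemma ptime_chkCol {α : Type} [Enc α] {k d : α → ℕ} {L R : α → List (List ℕ)}
    {c : α → List ℕ}
    (hk : PTime k) (hd : PTime d) (hL : PTime L) (hc : PTime c) (hR : PTime R) :
    PTime (fun x => decide (chkCol (k x) (d x) (L x) (c x) (R x))) := by
  unfold chkCol; fun_prop

/-- Certificates: adjacency lists, `(k, d)`, colours, ranks. -/
abbrev Cert := List (List ℕ) × (ℕ × ℕ) × List ℕ × List (List ℕ)

/-- The certificate is correct. -/
def chk (x : List Bool) (b : Cert) : Prop :=
  x = bitEncode b.1 ∧ chkValid b.1 ∧ 1 ≤ b.2.1.2 ∧ b.2.1.2 ≤ b.2.1.1 ∧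
    chkCol b.2.1.1 b.2.1.2 b.1 b.2.2.1 b.2.2.2

instance (x : List Bool) (b : Cert) : Decidable (chk x b) := by unfold chk; infer_instance

lemma ptime_chk : PTime (fun p : List Bool × Cert => decide (chk p.1 p.2)) := by
  unfold chk; fun_prop

lemma row_eq {L : List (List ℕ)} {u : ℕ} (hu : u < L.length) : row L u = L[u] := by
  simp [row, List.getElem?_eq_getElem hu]

lemma chkValid_iff (L : List (List ℕ)) : chkValid L ↔ Valid L := by
  constructor
  · intro h u
    have := h u.val (List.mem_range.2 u.isLt)
    rwa [row_eq u.isLt] at this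
  · intro h u hu
    have hu' := List.mem_range.1 hu
    rw [row_eq hu']
    exact h ⟨u, hu'⟩

lemma low_iff {k d : ℕ} (hdk : d ≤ k) [NeZero k] (x : ℕ) (i : ZMod k) :
    low k d i.val x ↔ ∃ j : ℕ, j < d ∧ (x : ZMod k) = i + j := by
  have hi := ZMod.val_lt i
  unfold low
  constructor
  · intro h
    refine ⟨_, h, ?_⟩
    rw [ZMod.natCast_mod, Nat.cast_sub (by omega), Nat.cast_add]
    simp
  · rintro ⟨j, hj, hx⟩
    have h1 : (((x + k - i.val : ℕ)) : ZMod k) = (j : ZMod k) := by
      rw [Nat.cast_sub (by omega), Nat.cast_add, hx]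
      simp
    have h2 := congrArg ZMod.val h1
    rw [ZMod.val_natCast, ZMod.val_natCast, Nat.mod_eq_of_lt (show j < k by omega)] at h2
    omega

/-- Acyclic sets of finite digraphs have rank functions. -/
lemma exists_rank {V : Type} [Fintype V] {D : Digraph V} {X : Set V} (h : IsAcyclicSet D X) :
    ∃ r : V → ℕ, (∀ v, r v ≤ Fintype.card V) ∧ ∀ a ∈ X, ∀ b ∈ X, D.Adj a b → r a < r b := by
  classical
  refine ⟨fun v => (Finset.univ.filter fun u =>
    Relation.TransGen (fun a b => a ∈ X ∧ b ∈ X ∧ D.Adj a b) u v).card,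
    fun v => Finset.card_le_univ _, fun a ha b hb hab => Finset.card_lt_card ?_⟩
  rw [Finset.ssubset_iff_of_subset]
  · refine ⟨a, ?_, ?_⟩
    · simp only [Finset.mem_filter, Finset.mem_univ, true_and]
      exact .single ⟨ha, hb, hab⟩
    · simp only [Finset.mem_filter, Finset.mem_univ, true_and]
      exact h a
  · intro u hu
    simp only [Finset.mem_filter, Finset.mem_univ, true_and] at hu ⊢
    exact .tail hu ⟨ha, hb, hab⟩

lemma valid_loopless {L : List (List ℕ)} (h : Valid L) : ∀ v, ¬ (ofLists L).Adj v v :=
  fun v => (h v).1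

/-- If the rationals below `p` are in `NP` (in unary), then `STAR_p` is in `NP`. -/
theorem star_mem_NP {p : ℝ} (hp : Cut p ∈ NP) : STAR p ∈ NP := by
  classical
  refine mem_NP_cert_and (β := Cert) hp (V := fun x b => decide (chk x b)) ptime_chk
    (g := fun b => unary b.2.1.1 b.2.1.2) (ptime_unary (by fun_prop) (by fun_prop))
    (4 + (1 + X * (1 + (1 + X * (1 + (2 * X + 1))))) + (2 * X + 3) + (2 * X + 3) +
      (1 + X * (1 + (2 * X + 3))) + (1 + (X + 1) * (1 + (1 + X * (1 + (2 * X + 1)))))) ?_ ?_
  · intro x b h1 h2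
    obtain ⟨L, ⟨k, d⟩, c, R⟩ := b
    obtain ⟨h3, h4, h5, h6, h7⟩ := of_decide_eq_true h1
    simp only at h3 h4 h5 h6 h7 h2
    rw [cut_unary] at h2
    rw [chkValid_iff] at h4
    simp only [STAR, decide_eq_true_eq]
    refine ⟨L, h3, h4, ?_⟩
    rw [starDichromatic_le_iff _ (valid_loopless h4)]
    have : NeZero k := ⟨by omega⟩
    have hd0 : (0 : ℝ) < d := by exact_mod_cast h5
    have hcol : ∃ c : Fin L.length → ZMod k, IsAcyclicColouring (ofLists L) k d c := by
      refine ⟨fun v => (ent c v.val : ZMod k), fun i => ?_⟩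
      refine acyclic_of_rank (fun v => ent (row R i.val) v.val) ?_
      intro a ha b hb hab
      have h8 := h7 i.val (List.mem_range.2 (ZMod.val_lt i)) a.val (List.mem_range.2 a.isLt) b.val
        (by rw [row_eq a.isLt]; exact hab)
      have ha' := (low_iff h6 _ _).2 ha
      have hb' := (low_iff h6 _ _).2 hb
      rcases h8 with h8 | h8 | h8
      · exact absurd ha' h8
      · exact absurd hb' h8
      · exact h8
    obtain ⟨k', d', f1, f2, f3, f4, f5⟩ := exists_small_colouring (ofLists L) h5 h6 hcol
    refine ⟨k', d', f1, f2, f3, ?_, f5⟩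
    have hd1 : (0 : ℝ) < d' := by exact_mod_cast f1
    rw [← div_le_iff₀ hd1]
    refine le_trans ?_ h2.2
    rw [div_le_div_iff₀ hd1 hd0]
    exact_mod_cast f4
  · intro x hx
    simp only [STAR, decide_eq_true_eq] at hx
    obtain ⟨L, rfl, hL, hle⟩ := hx
    rw [starDichromatic_le_iff _ (valid_loopless hL)] at hle
    obtain ⟨k, d, h1, h2, h3, h4, c, hc⟩ := hle
    have : NeZero k := ⟨by omega⟩
    have hd0 : (0 : ℝ) < d := by exact_mod_cast h1
    choose rk hrk1 hrk2 using fun i : ZMod k => exists_rank (hc i)
    let cl : List ℕ := List.ofFn fun v : Fin L.length => (c v).val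
    let R : List (List ℕ) := (List.range k).map fun i : ℕ =>
      List.ofFn fun v : Fin L.length => rk (i : ZMod k) v
    have hcl : ∀ v : Fin L.length, ent cl v.val = (c v).val := by
      intro v
      simp [ent, cl]
    have hR : ∀ (i : ZMod k) (v : Fin L.length), ent (row R i.val) v.val = rk i v := by
      intro i v
      have hi := ZMod.val_lt i
      simp [ent, row, R, hi]
    refine ⟨(L, (k, d), cl, R), ?_, ?_, ?_⟩
    · set N := (bitEncode L).length with hN
      have hn : L.length ≤ N := length_le_bitEncode L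
      rw [Fintype.card_fin] at h3
      have hk : k ≤ N + 1 := by omega
      have s1 : sz L ≤ 1 + N * (1 + (1 + N * (1 + (2 * N + 1)))) := by
        refine sz_list_le _ _ _ hn fun q hq => ?_
        refine sz_list_le _ _ _ ?_ fun v hv => ?_
        · exact (length_le_bitEncode q).trans (bitEncode_le_of_mem hq)
        · obtain ⟨i, hi, rfl⟩ := List.getElem_of_mem hq
          have := (hL ⟨i, hi⟩).2 v hv
          rw [sz_nat]
          omega
      have s2 : sz cl ≤ 1 + N * (1 + (2 * N + 3)) := by
        refine sz_list_le _ _ _ (by simp [cl, hn]) fun q hq => ?_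
        obtain ⟨v, rfl⟩ : ∃ v : Fin L.length, (c v).val = q := by
          rw [List.mem_ofFn] at hq
          exact hq
        have := ZMod.val_lt (c v)
        rw [sz_nat]
        omega
      have s3 : sz R ≤ 1 + (N + 1) * (1 + (1 + N * (1 + (2 * N + 1)))) := by
        refine sz_list_le _ _ _ (by simp [R, hk]) fun q hq => ?_
        obtain ⟨i, -, rfl⟩ := List.mem_map.1 hq
        refine sz_list_le _ _ _ (by simp [hn]) fun y hy => ?_
        obtain ⟨v, rfl⟩ : ∃ v : Fin L.length, rk (i : ZMod k) v = y := by
          rw [List.mem_ofFn] at hy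
          exact hy
        have := hrk1 (i : ZMod k) v
        rw [Fintype.card_fin] at this
        rw [sz_nat]
        omega
      have e3 : eval N (3 : ℕ[X]) = 3 := by simp
      have e2 : eval N (2 : ℕ[X]) = 2 := by simp
      have e4 : eval N (4 : ℕ[X]) = 4 := by simp
      have e1 : eval N (1 : ℕ[X]) = 1 := by simp
      simp only [sz_pair, sz_nat, eval_add, eval_mul, eval_X, e1, e2, e3, e4]
      omega
    · refine decide_eq_true ?_
      refine ⟨rfl, (chkValid_iff L).2 hL, h1, h2, fun i hi u hu v hv => ?_⟩
      have hi' := List.mem_range.1 hi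
      have hu' := List.mem_range.1 hu
      rw [row_eq hu'] at hv
      have hv' : v < L.length := (hL ⟨u, hu'⟩).2 v hv
      have hiv : ((i : ZMod k)).val = i := ZMod.val_cast_of_lt hi'
      by_cases ha : low k d i (ent cl u)
      · by_cases hb : low k d i (ent cl v)
        · right; right
          have e1 := hR (i : ZMod k) ⟨u, hu'⟩
          have e2 := hR (i : ZMod k) ⟨v, hv'⟩
          rw [hiv] at e1 e2
          simp only at e1 e2
          rw [e1, e2]
          have f1 := hcl ⟨u, hu'⟩
          have f2 := hcl ⟨v, hv'⟩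
          simp only at f1 f2
          rw [f1, ← hiv, low_iff h2] at ha
          rw [f2, ← hiv, low_iff h2] at hb
          simp only [ZMod.natCast_val, ZMod.cast_id', id_eq] at ha hb
          exact hrk2 _ _ ha _ hb hv
        · exact Or.inr (Or.inl hb)
      · exact Or.inl ha
    · rw [cut_unary]
      exact ⟨h1, (div_le_iff₀ hd0).2 h4⟩

end Pool.Agent.H79.Star
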