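import Pool.Agent.H79.StarCol

/-!
# Parameters of the reduction, for every non-integer real number
-/

namespace Pool.Agent.H79.Star

/-- Parameters for rational numbers. -/
lemma exists_decides_nat {k d : ℕ} (hd : 1 ≤ d) (hdk : d < k) (hn : ∀ n : ℕ, k ≠ n * d) :
    ∃ l m j N : ℕ, 1 ≤ l ∧ 3 ≤ N ∧ Decides l m j N k d := by
  set e := k - d with he
  have he1 : 1 ≤ e := by omega
  set l := (k - 1) / e with hl
  have hl1 := Nat.div_mul_le_self (k - 1) e
  have hl2 : k - 1 < (l + 1) * e := by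
    have := Nat.lt_div_mul_add (a := k - 1) (b := e) (by omega)
    rw [add_mul, one_mul]
    exact this
  rw [← hl] at hl1
  have hlpos : 1 ≤ l := by
    rw [hl, Nat.le_div_iff_mul_le (by omega)]
    omega
  obtain ⟨f, hf⟩ : ∃ f, k = l * e + f := ⟨k - l * e, by omega⟩
  have hf1 : 1 ≤ f := by omega
  have hfe : f ≤ e := by rw [add_mul, one_mul] at hl2; omega
  have hQ := Nat.div_add_mod (e - f) f
  have hs := Nat.mod_lt (e - f) (show 0 < f by omega)
  set Q := (e - f) / f with hQd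
  set s := (e - f) % f with hsd
  have he' : e = (Q + 1) * f + s := by
    have : (Q + 1) * f = f * Q + f := by ring
    omega
  clear_value Q s l
  rcases Nat.eq_zero_or_pos s with h0 | h0
  · refine ⟨l, l * (Q + 1), 0, l * (Q + 1) + 1, hlpos, ?_, decides_threshold hlpos hd hf1 ?_ hf⟩
    · by_contra hcon
      have h1 : l * (Q + 1) < 2 := by omega
      have hl1' : l = 1 := by
        by_contra hne
        have : 2 * 1 ≤ l * (Q + 1) := Nat.mul_le_mul (by omega) (by omega)
        omega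
      have hQ0 : Q = 0 := by
        rw [hl1'] at h1
        omega
      rw [hQ0, h0] at he'
      rw [hl1'] at hf
      exact hn 2 (by omega)
    · rw [← he, he', h0, add_zero]
  · set j := (f - 1) / s with hj
    have hj1 := Nat.div_mul_le_self (f - 1) s
    have hj2 : f - 1 < (j + 1) * s := by
      have := Nat.lt_div_mul_add (a := f - 1) (b := s) h0
      rw [add_mul, one_mul]
      exact this
    rw [← hj] at hj1
    have hjpos : 1 ≤ j := by
      rw [hj, Nat.le_div_iff_mul_le h0]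
      omega
    have hr0 : 0 < f - j * s := by omega
    have hjs : s ≤ j * s := by
      have : 1 * s ≤ j * s := Nat.mul_le_mul_right _ hjpos
      omega
    have hle : e ≤ l * e := by
      have : 1 * e ≤ l * e := Nat.mul_le_mul_right _ hlpos
      omega
    have hfe' : f + s ≤ e := by rw [he']; nlinarith
    have hN : 4 ≤ k / (f - j * s) := by
      rw [Nat.le_div_iff_mul_le hr0]
      rw [add_mul, one_mul] at hj2
      omega
    refine ⟨l, l * (Q + 1), j, k / (f - j * s), hlpos, by omega,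
      decides_general hlpos hd hf1 he' hf hjpos (by omega) (by omega) hN ?_ ?_⟩
    · exact Nat.div_mul_le_self _ _
    · have := Nat.lt_div_mul_add (a := k) (b := f - j * s) hr0
      rw [add_mul, one_mul]
      exact this

/-- Conditions on real numbers that are inherited by nearby rational numbers. -/
lemma decides_of_real {l Q j N k d : ℕ} (hl : 1 ≤ l) (hj : 1 ≤ j) (hN : 4 ≤ N) (hd : 1 ≤ d)
    (hdk : d < k) {x : ℝ} (hx : x = (k : ℝ) / (k - d : ℕ))
    (h1 : 0 < x - l) (h2 : 0 < 1 - (Q + 1) * (x - l))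
    (h3 : j * (1 - (Q + 1) * (x - l)) < x - l)
    (h4 : x - l < (j + 1) * (1 - (Q + 1) * (x - l)))
    (h5 : N * (x - l - j * (1 - (Q + 1) * (x - l))) < x)
    (h6 : x < (N + 1) * (x - l - j * (1 - (Q + 1) * (x - l)))) :
    Decides l (l * (Q + 1)) j N k d := by
  set e := k - d with he
  have he1 : 1 ≤ e := by omega
  have heR : (0 : ℝ) < e := by exact_mod_cast he1
  have hxe : x * e = k := by rw [hx]; field_simp
  have hf0 : l * e < k := by
    have : (l : ℝ) * e < k := by nlinarith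
    exact_mod_cast this
  obtain ⟨f, hf⟩ : ∃ f, k = l * e + f := ⟨k - l * e, by omega⟩
  have hfR : (f : ℝ) = (x - l) * e := by
    have : (k : ℝ) = l * e + f := by exact_mod_cast hf
    rw [sub_mul, hxe, this]; ring
  have hs0 : (Q + 1) * f < e := by
    have : ((Q : ℝ) + 1) * f < e := by rw [hfR]; nlinarith
    exact_mod_cast this
  obtain ⟨s, hs⟩ : ∃ s, e = (Q + 1) * f + s := ⟨e - (Q + 1) * f, by omega⟩
  have hsR : (s : ℝ) = (1 - (Q + 1) * (x - l)) * e := by
    have : (e : ℝ) = (Q + 1) * f + s := by exact_mod_cast hs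
    have h7 : (s : ℝ) = e - (Q + 1) * f := by linarith
    rw [h7, hfR]; ring
  have hj1 : j * s < f := by
    have : (j : ℝ) * s < f := by rw [hsR, hfR]; nlinarith
    exact_mod_cast this
  have hj2 : f < (j + 1) * s := by
    have : (f : ℝ) < (j + 1) * s := by rw [hsR, hfR]; nlinarith
    exact_mod_cast this
  have hrR : ((f - j * s : ℕ) : ℝ) = (x - l - j * (1 - (Q + 1) * (x - l))) * e := by
    rw [Nat.cast_sub hj1.le]
    push_cast
    rw [hfR, hsR]; ring
  have hN1 : N * (f - j * s) < k := by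
    have : (N : ℝ) * ((f - j * s : ℕ) : ℝ) < k := by rw [hrR, ← hxe]; nlinarith
    exact_mod_cast this
  have hN2 : k < (N + 1) * (f - j * s) := by
    have : (k : ℝ) < (N + 1) * ((f - j * s : ℕ) : ℝ) := by rw [hrR, ← hxe]; nlinarith
    exact_mod_cast this
  exact decides_general hl hd (by omega) hs hf hj hj1 hj2.le hN hN1.le hN2

lemma irr_ne {x : ℝ} (hx : Irrational x) {a b : ℤ} (ha : a ≠ 0) : (a : ℝ) * x ≠ b :=
  fun h => (hx.intCast_mul ha).ne_int b h

/-- Parameters for irrational numbers. -/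
lemma exists_decides_irrational {x : ℝ} (hx : Irrational x) (hx1 : 1 < x) :
    ∃ l m j N : ℕ, 1 ≤ l ∧ 3 ≤ N ∧ ∃ a b : ℝ, a < x ∧ x < b ∧ ∀ k d : ℕ, 1 ≤ d → d < k →
      a < (k : ℝ) / (k - d : ℕ) → (k : ℝ) / (k - d : ℕ) < b → Decides l m j N k d := by
  have hx0 : 0 ≤ x := by linarith
  set l := ⌊x⌋₊ with hl
  have hl1 : (l : ℝ) ≤ x := Nat.floor_le hx0
  have hl2 : x < l + 1 := Nat.lt_floor_add_one x
  have hlpos : 1 ≤ l := by
    rw [hl]; exact Nat.le_floor (by exact_mod_cast hx1.le)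
  set φ := x - l with hφ
  have hφ0 : 0 < φ := by
    rcases lt_or_eq_of_le hl1 with h | h
    · rw [hφ]; linarith
    · exact absurd h.symm (by exact_mod_cast hx.ne_nat l)
  have hφ1 : φ < 1 := by rw [hφ]; linarith
  set Q := ⌊(1 - φ) / φ⌋₊ with hQ
  have hQ1 : (Q : ℝ) * φ ≤ 1 - φ := by
    rw [← le_div_iff₀ hφ0]
    exact Nat.floor_le (div_nonneg (by linarith) hφ0.le)
  have hQ2 : 1 - φ < (Q + 1) * φ := by
    rw [← div_lt_iff₀ hφ0]
    exact Nat.lt_floor_add_one _
  set S := 1 - (Q + 1) * φ with hS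
  have hS0 : 0 < S := by
    have h : 0 ≤ S := by rw [hS]; linarith
    rcases lt_or_eq_of_le h with h | h
    · exact h
    · exfalso
      refine irr_ne hx (a := (Q : ℤ) + 1) (b := 1 + (Q + 1) * l) (by omega) ?_
      push_cast
      rw [hS, hφ] at h
      linarith
  have hSφ : S < φ := by rw [hS]; linarith
  set j := ⌊φ / S⌋₊ with hj
  have hj1 : (j : ℝ) * S ≤ φ := by
    rw [← le_div_iff₀ hS0]
    exact Nat.floor_le (div_nonneg hφ0.le hS0.le)
  have hj2 : φ < (j + 1) * S := by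
    rw [← div_lt_iff₀ hS0]
    exact Nat.lt_floor_add_one _
  have hjpos : 1 ≤ j := by
    rw [hj]
    refine Nat.le_floor ?_
    rw [Nat.cast_one, le_div_iff₀ hS0]
    linarith
  have hj1' : (j : ℝ) * S < φ := by
    rcases lt_or_eq_of_le hj1 with h | h
    · exact h
    · exfalso
      refine irr_ne hx (a := 1 + (j : ℤ) * (Q + 1)) (b := j + l * (1 + j * (Q + 1))) ?_ ?_
      · have : 0 ≤ (j : ℤ) * (Q + 1) := by positivity
        omega
      · push_cast
        rw [hS, hφ] at h
        linarith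
  set r := φ - j * S with hr
  have hr0 : 0 < r := by rw [hr]; linarith
  have hrS : r < S := by rw [hr]; linarith
  set N := ⌊x / r⌋₊ with hN
  have hN1 : (N : ℝ) * r ≤ x := by
    rw [← le_div_iff₀ hr0]
    exact Nat.floor_le (div_nonneg hx0 hr0.le)
  have hN2 : x < (N + 1) * r := by
    rw [← div_lt_iff₀ hr0]
    exact Nat.lt_floor_add_one _
  have hN4 : 4 ≤ N := by
    rw [hN]
    refine Nat.le_floor ?_
    rw [le_div_iff₀ hr0]
    have h7 : S ≤ j * S := by
      have : (1 : ℝ) ≤ j := by exact_mod_cast hjpos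
      nlinarith
    have h8 : 2 * r ≤ φ := by rw [hr]; linarith
    have h9 : φ + S ≤ 1 := by
      rw [hS]
      have : 0 ≤ (Q : ℝ) * φ := by positivity
      linarith
    have h10 : (1 : ℝ) ≤ l := by exact_mod_cast hlpos
    have h11 : x = l + φ := by rw [hφ]; ring
    push_cast
    linarith
  have hN1' : (N : ℝ) * r < x := by
    rcases lt_or_eq_of_le hN1 with h | h
    · exact h
    · exfalso
      refine irr_ne hx (a := N * (1 + (j : ℤ) * (Q + 1)) - 1)
        (b := N * (j + l * (1 + j * (Q + 1)))) ?_ ?_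
      · have h7 : 0 ≤ (j : ℤ) * (Q + 1) := by positivity
        have h8 : (4 : ℤ) ≤ N := by exact_mod_cast hN4
        nlinarith
      · push_cast
        rw [hr, hS, hφ] at h
        linarith
  -- the conditions are open
  have hopen : ∀ F G : ℝ → ℝ, Continuous F → Continuous G → F x < G x →
      ∀ᶠ y in nhds x, F y < G y := fun F G hF hG h => (isOpen_lt hF hG).mem_nhds h
  have hev : ∀ᶠ y : ℝ in nhds x, (0 < y - l ∧ 0 < 1 - (Q + 1) * (y - l) ∧
      j * (1 - (Q + 1) * (y - l)) < y - l) ∧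
      (y - l < (j + 1) * (1 - (Q + 1) * (y - l)) ∧
      N * (y - l - j * (1 - (Q + 1) * (y - l))) < y ∧
      y < (N + 1) * (y - l - j * (1 - (Q + 1) * (y - l)))) := by
    refine Filter.Eventually.and (Filter.Eventually.and ?_ (Filter.Eventually.and ?_ ?_))
      (Filter.Eventually.and ?_ (Filter.Eventually.and ?_ ?_))
    · exact hopen (fun _ => 0) (fun y => y - l) (by fun_prop) (by fun_prop) hφ0
    · exact hopen (fun _ => 0) (fun y => 1 - (Q + 1) * (y - l)) (by fun_prop) (by fun_prop) hS0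
    · exact hopen (fun y => j * (1 - (Q + 1) * (y - l))) (fun y => y - l) (by fun_prop)
        (by fun_prop) hj1'
    · exact hopen (fun y => y - l) (fun y => (j + 1) * (1 - (Q + 1) * (y - l))) (by fun_prop)
        (by fun_prop) hj2
    · exact hopen (fun y => N * (y - l - j * (1 - (Q + 1) * (y - l)))) (fun y => y) (by fun_prop)
        (by fun_prop) hN1'
    · exact hopen (fun y => y) (fun y => (N + 1) * (y - l - j * (1 - (Q + 1) * (y - l))))
        (by fun_prop) (by fun_prop) hN2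
  obtain ⟨a, b, ⟨ha, hb⟩, hab⟩ := mem_nhds_iff_exists_Ioo_subset.1 hev
  refine ⟨l, l * (Q + 1), j, N, hlpos, by omega, a, b, ha, hb, fun k d hd hdk h7 h8 => ?_⟩
  obtain ⟨⟨g1, g2, g3⟩, g4, g5, g6⟩ := hab ⟨h7, h8⟩
  exact decides_of_real hlpos hjpos hN4 hd hdk rfl g1 g2 g3 g4 g5 g6

lemma exists_nat_div {r : ℚ} (hr : 1 < r) : ∃ k e : ℕ, 1 ≤ e ∧ e < k ∧ (r : ℝ) = (k : ℝ) / e := by
  refine ⟨r.num.toNat, r.den, r.den_pos, ?_, ?_⟩
  · have h1 : (r.den : ℤ) < r.num := by
      rw [← Rat.num_div_den r, lt_div_iff₀ (by exact_mod_cast r.den_pos), one_mul] at hr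
      exact_mod_cast hr
    omega
  · have h1 : 0 ≤ r.num := Rat.num_nonneg.2 (by linarith)
    have h2 : ((r.num.toNat : ℕ) : ℝ) = (r.num : ℝ) := by
      have : ((r.num.toNat : ℕ) : ℤ) = r.num := Int.toNat_of_nonneg h1
      exact_mod_cast this
    rw [h2]
    exact_mod_cast (Rat.num_div_den r).symm

/-- **Parameters for every non-integer real number.** -/
theorem exists_decides {p : ℝ} (hp : 1 < p) (hn : ∀ n : ℕ, p ≠ n) :
    ∃ l m j N : ℕ, 1 ≤ l ∧ 3 ≤ N ∧ ∃ k₁ d₁ k₂ d₂ : ℕ, Decides l m j N k₁ d₁ ∧ Decides l m j N k₂ d₂ ∧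
      (k₁ : ℝ) ≤ p * d₁ ∧ p * d₂ ≤ k₂ := by
  by_cases hq : ∃ q : ℚ, (q : ℝ) = p
  · obtain ⟨q, rfl⟩ := hq
    obtain ⟨k, d, hd, hdk, hkd⟩ := exists_nat_div (r := q) (by exact_mod_cast hp)
    have hd0 : (0 : ℝ) < d := by exact_mod_cast hd
    obtain ⟨l, m, j, N, hl, hN, hD⟩ := exists_decides_nat hd hdk (fun n h => by
      refine hn n ?_
      rw [hkd, h]
      push_cast
      field_simp)
    have he : (q : ℝ) * d = k := by rw [hkd]; field_simp
    exact ⟨l, m, j, N, hl, hN, k, d, k, d, hD, hD, he.symm.le, he.le⟩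
  · have hirr : Irrational p := fun h => hq (by
      obtain ⟨q, hq⟩ := h
      exact ⟨q, hq⟩)
    have hp1 : 0 < p - 1 := by linarith
    set x := p / (p - 1) with hx
    have hxp : x * (p - 1) = p := by rw [hx]; field_simp
    have hx1 : 1 < x := by rw [hx, lt_div_iff₀ hp1]; linarith
    have hxirr : Irrational x := by
      rintro ⟨q, hqx⟩
      refine hq ⟨q / (q - 1), ?_⟩
      have h1 : (q : ℝ) - 1 ≠ 0 := by rw [hqx]; linarith
      push_cast
      rw [div_eq_iff h1, hqx]
      linarith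
    obtain ⟨l, m, j, N, hl, hN, a, b, ha, hb, hD⟩ := exists_decides_irrational hxirr hx1
    obtain ⟨r₁, h11, h12⟩ := exists_rat_btwn hb
    obtain ⟨r₂, h21, h22⟩ := exists_rat_btwn (max_lt ha hx1)
    have hr1 : (1 : ℚ) < r₁ := by
      have : (1 : ℝ) < r₁ := hx1.trans h11
      exact_mod_cast this
    have hr2 : (1 : ℚ) < r₂ := by
      have : (1 : ℝ) < r₂ := lt_of_le_of_lt (le_max_right _ _) h21
      exact_mod_cast this
    obtain ⟨k₁, e₁, he1, hek1, hke1⟩ := exists_nat_div hr1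
    obtain ⟨k₂, e₂, he2, hek2, hke2⟩ := exists_nat_div hr2
    have e1 : k₁ - (k₁ - e₁) = e₁ := by omega
    have e2 : k₂ - (k₂ - e₂) = e₂ := by omega
    refine ⟨l, m, j, N, hl, hN, k₁, k₁ - e₁, k₂, k₂ - e₂, ?_, ?_, ?_, ?_⟩
    · refine hD k₁ (k₁ - e₁) (by omega) (by omega) ?_ ?_
      · rw [e1, ← hke1]; linarith
      · rw [e1, ← hke1]; exact h12
    · refine hD k₂ (k₂ - e₂) (by omega) (by omega) ?_ ?_
      · rw [e2, ← hke2]; exact lt_of_le_of_lt (le_max_left _ _) h21
      · rw [e2, ← hke2]; exact h22.trans hb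
    · have h0 : (0 : ℝ) < e₁ := by exact_mod_cast he1
      rw [hke1, lt_div_iff₀ h0] at h11
      rw [Nat.cast_sub hek1.le]
      have h3 : x * e₁ * (p - 1) < k₁ * (p - 1) := mul_lt_mul_of_pos_right h11 hp1
      have h4 : x * e₁ * (p - 1) = p * e₁ := by
        rw [mul_right_comm, hxp]
      rw [h4] at h3
      linarith
    · have h0 : (0 : ℝ) < e₂ := by exact_mod_cast he2
      rw [hke2, div_lt_iff₀ h0] at h22
      rw [Nat.cast_sub hek2.le]
      have h3 : (k₂ : ℝ) * (p - 1) < x * e₂ * (p - 1) := mul_lt_mul_of_pos_right h22 hp1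
      have h4 : x * e₂ * (p - 1) = p * e₂ := by
        rw [mul_right_comm, hxp]
      rw [h4] at h3
      linarith

end Pool.Agent.H79.Star
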