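import Pool.Agent.H79.StarRel

/-!
# Path gadgets
-/

namespace Pool.Agent.H79.Star

section

variable {k e f : ℤ} {l : ℕ}

/-- Colour of the point number `s` of the path. -/
def pt (m j : ℕ) (y : ℤ) (g : ℕ → ℤ) (s : ℕ) : ℤ := if s < j then g (Nat.pair s m) else y

/-- The colours `x`, `y` of the ends and `g` of the private vertices respect the path gadget. -/
def PathRel (k e f : ℤ) (l m j : ℕ) (x y : ℤ) (g : ℕ → ℤ) : Prop :=
  RA k e f l x (pt m j y g 0) ∧ ∀ s < j,
    CliqueRel k e f l m (pt m j y g s) (pt m j y g (s + 1)) (fun t => g (Nat.pair s t))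

lemma pathRel_zero {m : ℕ} {x y : ℤ} : (∃ g, PathRel k e f l m 0 x y g) ↔ RA k e f l x y := by
  constructor
  · rintro ⟨g, h, -⟩
    exact h
  · intro h
    exact ⟨fun _ => 0, h, fun s hs => absurd hs (by omega)⟩

/-- The relation that the path gadget imposes. -/
def RC (k r : ℤ) (x y : ℤ) : Prop := ∃ n : ℤ, r ≤ y - x + n * k ∧ y - x + n * k ≤ k - r

lemma RC_of_pathRel (hl : 1 ≤ l) (hf : 0 < f) {Q : ℕ} {s : ℤ} (hs0 : 0 ≤ s) (hsf : s < f)
    (he : e = (Q + 1) * f + s) (hk : k = l * e + f) {j : ℕ} {x y : ℤ} {g : ℕ → ℤ}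
    (h : PathRel k e f l (l * (Q + 1)) j x y g) : RC k (f - j * s) x y := by
  obtain ⟨⟨i, n, h1, h2, h3, h4⟩, h5⟩ := h
  have hQf : 0 ≤ (Q : ℤ) * f := mul_nonneg (by omega) hf.le
  have hQe : (Q : ℤ) * f + f + s = e := by rw [he]; ring
  have he0 : 0 < e := by omega
  have key : ∀ t ≤ j, ∃ n : ℤ,
      -(t * s) ≤ pt (l * (Q + 1)) j y g t - pt (l * (Q + 1)) j y g 0 + n * k ∧
      pt (l * (Q + 1)) j y g t - pt (l * (Q + 1)) j y g 0 + n * k ≤ t * s := by
    intro t
    induction t with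
    | zero => intro _; exact ⟨0, by simp, by simp⟩
    | succ t ih =>
      intro ht
      obtain ⟨n1, a1, a2⟩ := ih (by omega)
      obtain ⟨n2, a3, a4⟩ := dist_of_cliqueRel hl hf hs0 hsf he hk (h5 t (by omega))
      refine ⟨n1 + n2, ?_, ?_⟩
      · push_cast; linarith
      · push_cast; linarith
  obtain ⟨n1, a1, a2⟩ := key j le_rfl
  have hy : pt (l * (Q + 1)) j y g j = y := by simp [pt]
  rw [hy] at a1 a2
  have h6 : 0 ≤ (i - 1) * e := mul_nonneg (by omega) (by omega)
  have h7 : i * e ≤ l * e := mul_le_mul_of_nonneg_right h2 (by omega)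
  refine ⟨n + n1, ?_, ?_⟩
  · linarith
  · linarith

lemma exists_pathRel (hl : 1 ≤ l) (hf : 0 < f) {Q : ℕ} {s : ℤ} (hs0 : 0 ≤ s)
    (he : e = (Q + 1) * f + s) (hk : k = l * e + f) {j : ℕ} (hj : 1 ≤ j)
    (hj2 : f ≤ (j + 1) * s) {x y : ℤ} (h : RC k (f - j * s) x y) :
    ∃ g, PathRel k e f l (l * (Q + 1)) j x y g := by
  obtain ⟨n, h1, h2⟩ := h
  have hQf : 0 ≤ (Q : ℤ) * f := mul_nonneg (by omega) hf.le
  have hQe : (Q : ℤ) * f + f + s = e := by rw [he]; ring
  have he0 : 0 < e := by omega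
  have hjs : s ≤ j * s := by
    have : 1 * s ≤ j * s := mul_le_mul_of_nonneg_right (by omega) hs0
    linarith
  set D := y - x + n * k with hD
  obtain ⟨i, hi0, hil, hi1, hi2⟩ : ∃ i : ℤ, 0 ≤ i ∧ i + 1 ≤ l ∧ i * e + (f - j * s) ≤ D ∧
      D ≤ (i + 1) * e + j * s := by
    rcases lt_or_ge ((D - (f - j * s)) / e) l with hlt | hge
    · have a1 := Int.ediv_mul_le (D - (f - j * s)) he0.ne'
      have a2 := Int.lt_ediv_add_one_mul_self (D - (f - j * s)) he0
      refine ⟨(D - (f - j * s)) / e, Int.ediv_nonneg (by omega) he0.le, by omega, ?_, ?_⟩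
      · linarith
      · linarith
    · rw [Int.le_ediv_iff_mul_le he0] at hge
      refine ⟨l - 1, by omega, by omega, ?_, ?_⟩
      · linarith
      · linarith
  obtain ⟨a, ha1, ha2, ha3, ha4⟩ : ∃ a : ℤ, i * e + f ≤ a ∧ a ≤ (i + 1) * e ∧
      -(j * s) ≤ D - a ∧ D - a ≤ j * s := by
    have hw : i * e + f ≤ (i + 1) * e := by linarith
    rcases lt_or_ge D (i * e + f) with c1 | c1
    · exact ⟨i * e + f, le_rfl, hw, by linarith, by linarith⟩
    rcases lt_or_ge ((i + 1) * e) D with c2 | c2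
    · exact ⟨(i + 1) * e, hw, le_rfl, by linarith, by linarith⟩
    · exact ⟨D, c1, c2, by linarith, by linarith⟩
  -- the points of the path
  set p : ℕ → ℤ := fun t => if t < j then x + a + max (-(t * s)) (min (D - a) (t * s)) else y
    with hp
  have hp0 : p 0 = x + a := by
    simp only [hp]
    rw [if_pos (by omega)]
    simp
  have hstep : ∀ t < j, ∃ n' : ℤ, -s ≤ p (t + 1) - p t + n' * k ∧ p (t + 1) - p t + n' * k ≤ s := by
    intro t ht
    simp only [hp]
    rw [if_pos ht]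
    by_cases ht1 : t + 1 < j
    · rw [if_pos ht1]
      refine ⟨0, ?_, ?_⟩
      · push_cast
        have e1 : ((t : ℤ) + 1) * s = t * s + s := by ring
        have e2 : 0 ≤ (t : ℤ) * s := mul_nonneg (by omega) hs0
        rw [e1]
        generalize (t : ℤ) * s = ts at *
        omega
      · push_cast
        have e1 : ((t : ℤ) + 1) * s = t * s + s := by ring
        have e2 : 0 ≤ (t : ℤ) * s := mul_nonneg (by omega) hs0
        rw [e1]
        generalize (t : ℤ) * s = ts at *
        omega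
    · rw [if_neg ht1]
      obtain rfl : j = t + 1 := by omega
      push_cast at ha3 ha4
      have e1 : ((t : ℤ) + 1) * s = t * s + s := by ring
      have e2 : 0 ≤ (t : ℤ) * s := mul_nonneg (by omega) hs0
      rw [e1] at ha3 ha4
      refine ⟨n, ?_, ?_⟩
      · have e3 : y - (x + a + max (-(t * s)) (min (D - a) (t * s))) + n * k =
            (D - a) - max (-(t * s)) (min (D - a) (t * s)) := by rw [hD]; ring
        rw [e3]
        generalize (t : ℤ) * s = ts at *
        generalize D - a = δ at *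
        omega
      · have e3 : y - (x + a + max (-(t * s)) (min (D - a) (t * s))) + n * k =
            (D - a) - max (-(t * s)) (min (D - a) (t * s)) := by rw [hD]; ring
        rw [e3]
        generalize (t : ℤ) * s = ts at *
        generalize D - a = δ at *
        omega
  have hcl : ∀ t : ℕ, ∃ g : ℕ → ℤ, t < j →
      CliqueRel k e f l (l * (Q + 1)) (p t) (p (t + 1)) g := by
    intro t
    by_cases ht : t < j
    · obtain ⟨n', b1, b2⟩ := hstep t ht
      obtain ⟨g, hg⟩ := exists_cliqueRel hf hs0 he hk b1 b2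
      exact ⟨g, fun _ => hg⟩
    · exact ⟨fun _ => 0, fun h => absurd h ht⟩
  choose G hG using hcl
  set g : ℕ → ℤ := fun n => if n.unpair.2 = l * (Q + 1) then p n.unpair.1
    else G n.unpair.1 n.unpair.2 with hg
  have hpt : ∀ t ≤ j, pt (l * (Q + 1)) j y g t = p t := by
    intro t ht
    unfold pt
    split_ifs with h
    · simp [hg]
    · obtain rfl : t = j := by omega
      simp [hp]
  have hgG : ∀ t s, s < l * (Q + 1) → g (Nat.pair t s) = G t s := by
    intro t s hs
    simp only [hg, Nat.unpair_pair]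
    rw [if_neg (by omega)]
  refine ⟨g, ?_, fun t ht => ?_⟩
  · rw [hpt 0 (by omega), hp0]
    exact ⟨i + 1, 0, by omega, by omega, by linarith, by linarith⟩
  · rw [hpt t (by omega), hpt (t + 1) (by omega)]
    obtain ⟨c1, c2⟩ := hG t ht
    refine ⟨fun s hs => ?_, fun s hs s' hs' => ?_⟩
    · simp only
      rw [hgG t s hs]
      exact c1 s hs
    · simp only
      rw [hgG t s hs, hgG t s' (by omega)]
      exact c2 s hs s' hs'

end

/-! ### The list of edges -/

/-- Private clique vertex. -/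
def cv (q : ℕ × ℕ) (s t : ℕ) : ℕ := 2 * Nat.pair (Nat.pair q.1 q.2) (Nat.pair s t) + 1

/-- Path vertex. -/
def pv (m j : ℕ) (q : ℕ × ℕ) (s : ℕ) : ℕ := if s < j then cv q s m else 2 * q.2

/-- Edges of one clique gadget. -/
def cedges (m j : ℕ) (q : ℕ × ℕ) (s : ℕ) : List (ℕ × ℕ) :=
  (List.range m).flatMap fun t => (pv m j q s, cv q s t) :: (pv m j q (s + 1), cv q s t) ::
    (List.range t).map fun t' => (cv q s t', cv q s t)

/-- Edges of one path gadget. -/
def pedges1 (m j : ℕ) (q : ℕ × ℕ) : List (ℕ × ℕ) :=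
  (2 * q.1, pv m j q 0) :: (List.range j).flatMap (cedges m j q)

/-- Edges of the graph in which every edge is replaced by a path gadget. -/
def pedges (m j : ℕ) (B : List (ℕ × ℕ)) : List (ℕ × ℕ) := B.flatMap (pedges1 m j)

/-- Order the ends of an edge. -/
def srt (q : ℕ × ℕ) : ℕ × ℕ := (min q.1 q.2, max q.1 q.2)

/-- The sorted list of edges. -/
def gamma (m j : ℕ) (B : List (ℕ × ℕ)) : List (ℕ × ℕ) := (pedges m j B).map srt

lemma cv_inj {q : ℕ × ℕ} {s t s' t' : ℕ} (h : cv q s t = cv q s' t') : s = s' ∧ t = t' := by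
  unfold cv at h
  have h1 : Nat.pair (Nat.pair q.1 q.2) (Nat.pair s t) =
    Nat.pair (Nat.pair q.1 q.2) (Nat.pair s' t') := by omega
  have h2 := (Nat.pair_eq_pair.1 h1).2
  exact Nat.pair_eq_pair.1 h2

lemma mem_cedges {m j : ℕ} {q : ℕ × ℕ} {s : ℕ} {a : ℕ × ℕ} : a ∈ cedges m j q s ↔
    ∃ t < m, a = (pv m j q s, cv q s t) ∨ a = (pv m j q (s + 1), cv q s t) ∨
      ∃ t' < t, a = (cv q s t', cv q s t) := by
  simp only [cedges, List.mem_flatMap, List.mem_range, List.mem_cons, List.mem_map]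
  refine exists_congr fun t => and_congr_right fun _ => or_congr Iff.rfl (or_congr Iff.rfl ?_)
  exact exists_congr fun t' => and_congr_right fun _ => eq_comm

lemma pedges_loopless {m j : ℕ} {B : List (ℕ × ℕ)} (hB : ∀ q ∈ B, q.1 ≠ q.2) :
    ∀ q ∈ pedges m j B, q.1 ≠ q.2 := by
  intro a ha
  obtain ⟨q, hq, ha⟩ := List.mem_flatMap.1 ha
  have hq' := hB q hq
  simp only [pedges1, List.mem_cons, List.mem_flatMap, List.mem_range] at ha
  rcases ha with rfl | ⟨s, hs, ha⟩
  · simp only [pv, cv]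
    split_ifs <;> omega
  · rw [mem_cedges] at ha
    obtain ⟨t, ht, rfl | rfl | ⟨t', ht', rfl⟩⟩ := ha
    · simp only [pv]
      rw [if_pos hs]
      intro h
      have := (cv_inj h).2
      omega
    · simp only [pv]
      split_ifs with h1
      · intro h
        have := (cv_inj h).1
        omega
      · unfold cv; omega
    · simp only
      intro h
      have := (cv_inj h).2
      omega

lemma gamma_lt {m j : ℕ} {B : List (ℕ × ℕ)} (hB : ∀ q ∈ B, q.1 ≠ q.2) :
    ∀ q ∈ gamma m j B, q.1 < q.2 := by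
  intro a ha
  obtain ⟨q, hq, rfl⟩ := List.mem_map.1 ha
  have := pedges_loopless hB q hq
  simp only [srt]
  omega

lemma gamma_RA_iff {k e f : ℤ} {l m j : ℕ} (hk : k = l * e + f) {B : List (ℕ × ℕ)} (c : ℕ → ℤ) :
    (∀ q ∈ gamma m j B, RA k e f l (c q.1) (c q.2)) ↔
      ∀ q ∈ B, PathRel k e f l m j (c (2 * q.1)) (c (2 * q.2))
        (fun t => c (2 * Nat.pair (Nat.pair q.1 q.2) t + 1)) := by
  have h1 : (∀ q ∈ gamma m j B, RA k e f l (c q.1) (c q.2)) ↔
      ∀ q ∈ pedges m j B, RA k e f l (c q.1) (c q.2) := by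
    simp only [gamma, List.forall_mem_map, srt]
    refine forall_congr' fun q => imp_congr_right fun _ => ?_
    rcases le_total q.1 q.2 with h | h
    · rw [min_eq_left h, max_eq_right h]
    · rw [min_eq_right h, max_eq_left h]
      exact ⟨fun h => h.symm hk, fun h => h.symm hk⟩
  rw [h1]
  have h2 : ∀ q : ℕ × ℕ, (∀ a ∈ pedges1 m j q, RA k e f l (c a.1) (c a.2)) ↔
      PathRel k e f l m j (c (2 * q.1)) (c (2 * q.2))
        (fun t => c (2 * Nat.pair (Nat.pair q.1 q.2) t + 1)) := by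
    intro q
    have hpv : ∀ s, c (pv m j q s) = pt m j (c (2 * q.2))
        (fun t => c (2 * Nat.pair (Nat.pair q.1 q.2) t + 1)) s := by
      intro s
      unfold pv pt cv
      split_ifs <;> rfl
    simp only [pedges1, List.forall_mem_cons, hpv, PathRel]
    refine and_congr_right fun _ => ?_
    constructor
    · intro h s hs
      have hs' : ∀ a ∈ cedges m j q s, RA k e f l (c a.1) (c a.2) := fun a ha =>
        h a (List.mem_flatMap.2 ⟨s, List.mem_range.2 hs, ha⟩)
      refine ⟨fun t ht => ⟨?_, ?_⟩, fun t ht t' ht' => ?_⟩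
      · have := hs' (pv m j q s, cv q s t) (mem_cedges.2 ⟨t, ht, Or.inl rfl⟩)
        rw [← hpv]
        exact this
      · have := hs' (pv m j q (s + 1), cv q s t) (mem_cedges.2 ⟨t, ht, Or.inr (Or.inl rfl)⟩)
        rw [← hpv]
        exact this
      · exact hs' (cv q s t', cv q s t) (mem_cedges.2 ⟨t, ht, Or.inr (Or.inr ⟨t', ht', rfl⟩)⟩)
    · intro h a ha
      obtain ⟨s, hs, ha⟩ := List.mem_flatMap.1 ha
      obtain ⟨h3, h4⟩ := h s (List.mem_range.1 hs)
      obtain ⟨t, ht, rfl | rfl | ⟨t', ht', rfl⟩⟩ := mem_cedges.1 ha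
      · have := (h3 t ht).1
        rw [← hpv] at this
        exact this
      · have := (h3 t ht).2
        rw [← hpv] at this
        exact this
      · exact h4 t ht t' ht'
  constructor
  · intro h q hq
    rw [← h2]
    exact fun a ha => h a (List.mem_flatMap.2 ⟨q, hq, ha⟩)
  · intro h a ha
    obtain ⟨q, hq, ha⟩ := List.mem_flatMap.1 ha
    exact (h2 q).2 (h q hq) a ha

/-- The digraph of the reduction. -/
def bigArcs (l m j : ℕ) (B : List (ℕ × ℕ)) : List (ℕ × ℕ) := arcs l (gamma m j B)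

theorem bigArcs_colourable_iff {l m j : ℕ} (hl : 1 ≤ l) {B : List (ℕ × ℕ)}
    (hB : ∀ q ∈ B, q.1 ≠ q.2) {k d f : ℕ} (hd : 1 ≤ d) (hf : 1 ≤ f) (hfe : f ≤ k - d)
    (hk : k = l * (k - d) + f) :
    (∃ c : ℕ → ZMod k, IsAcyclicColouring (DN (bigArcs l m j B)) k d c) ↔
      ∃ c : ℕ → ℤ, ∀ q ∈ B, ∃ g, PathRel k (k - d : ℕ) f l m j (c q.1) (c q.2) g := by
  unfold bigArcs
  rw [arcs_colourable_iff_RA hl (gamma_lt hB) hd hf hfe hk,
    ← subst_iff (fun x y g => PathRel k (k - d : ℕ) f l m j x y g)]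
  refine exists_congr fun c => ?_
  rw [gamma_RA_iff (by exact_mod_cast hk)]

end Pool.Agent.H79.Star
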