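import Pool.Agent.H79.StarGad

/-!
# Relations on colours: clique gadgets and path gadgets
-/

namespace Pool.Agent.H79.Star

section

variable {k e f : ℤ} {l : ℕ}

lemma RA.symm (hk : k = l * e + f) {x y : ℤ} (h : RA k e f l x y) : RA k e f l y x := by
  obtain ⟨i, n, h1, h2, h3, h4⟩ := h
  refine ⟨l + 1 - i, 1 - n, by omega, by omega, ?_, ?_⟩
  · have : ((l : ℤ) + 1 - i - 1) * e + f = k - i * e := by rw [hk]; ring
    rw [this]
    have : x - y + (1 - n) * k = k - (y - x + n * k) := by ring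
    rw [this]
    omega
  · have : ((l : ℤ) + 1 - i) * e = k - ((i - 1) * e + f) := by rw [hk]; ring
    rw [this]
    have : x - y + (1 - n) * k = k - (y - x + n * k) := by ring
    rw [this]
    omega

/-- The lift in `[0, k)` witnesses the relation. -/
lemma RA.lift (hf : 0 < f) (hfe : f ≤ e) (hk : k = l * e + f) {x y b n : ℤ}
    (h : RA k e f l x y) (hb : b = y - x + n * k) (hb0 : 0 ≤ b) (hbk : b < k) :
    ∃ i : ℤ, 1 ≤ i ∧ i ≤ l ∧ (i - 1) * e + f ≤ b ∧ b ≤ i * e := by
  obtain ⟨i, n', h1, h2, h3, h4⟩ := h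
  have h5 : 0 ≤ (i - 1) * e := mul_nonneg (by omega) (by omega)
  have h6 : i * e ≤ l * e := mul_le_mul_of_nonneg_right h2 (by omega)
  have h7 : n = n' := lift_unique (k := k) (x := y - x) (i := 0) (by omega) (by omega)
    (by omega) (by omega)
  subst h7
  exact ⟨i, h1, h2, by omega, by omega⟩

/-- `x` and `x'` have a common `m`-clique in their neighbourhoods. -/
def CliqueRel (k e f : ℤ) (l m : ℕ) (x x' : ℤ) (g : ℕ → ℤ) : Prop :=
  (∀ t < m, RA k e f l x (g t) ∧ RA k e f l x' (g t)) ∧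
    ∀ t < m, ∀ t' < t, RA k e f l (g t') (g t)

lemma exists_cliqueRel_aux (hf : 0 < f) {Q : ℕ} {s : ℤ} (hs0 : 0 ≤ s)
    (he : e = (Q + 1) * f + s) (hk : k = l * e + f) {x x' n : ℤ}
    (h1 : 0 ≤ x' - x + n * k) (h2 : x' - x + n * k ≤ s) :
    ∃ g : ℕ → ℤ, CliqueRel k e f l (l * (Q + 1)) x x' g := by
  have hQf : 0 ≤ (Q : ℤ) * f := mul_nonneg (by omega) hf.le
  have he0 : 0 < e := by rw [he]; nlinarith
  have hQe : (Q : ℤ) * f + f + s = e := by rw [he]; ring
  have hbound : ∀ t < l * (Q + 1), t / (Q + 1) < l ∧ t % (Q + 1) ≤ Q := fun t ht =>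
    ⟨Nat.div_lt_of_lt_mul (by rwa [mul_comm] at ht), Nat.lt_succ_iff.1 (Nat.mod_lt _ (by omega))⟩
  refine ⟨fun t => x + ((t / (Q + 1) : ℕ) + 1) * e - ((t % (Q + 1) : ℕ) : ℤ) * f, ?_, ?_⟩
  · intro t ht
    obtain ⟨b1, b2⟩ := hbound t ht
    simp only
    generalize t / (Q + 1) = i at *
    generalize t % (Q + 1) = q at *
    have hq : (q : ℤ) * f ≤ Q * f := mul_le_mul_of_nonneg_right (by omega) hf.le
    have hq0 : 0 ≤ (q : ℤ) * f := mul_nonneg (by omega) hf.le
    refine ⟨⟨i + 1, 0, by omega, by omega, ?_, ?_⟩, ⟨i + 1, -n, by omega, by omega, ?_, ?_⟩⟩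
    · linarith
    · linarith
    · linarith
    · linarith
  · intro t ht t' htt
    obtain ⟨b1, b2⟩ := hbound t ht
    obtain ⟨b3, b4⟩ := hbound t' (by omega)
    have hle : t' / (Q + 1) ≤ t / (Q + 1) := Nat.div_le_div_right htt.le
    have hd1 := Nat.div_add_mod t (Q + 1)
    have hd2 := Nat.div_add_mod t' (Q + 1)
    have hne : t' / (Q + 1) = t / (Q + 1) → t' % (Q + 1) < t % (Q + 1) := by
      intro h
      rw [h] at hd2
      omega
    simp only
    generalize t / (Q + 1) = i at *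
    generalize t % (Q + 1) = q at *
    generalize t' / (Q + 1) = i' at *
    generalize t' % (Q + 1) = q' at *
    have hq : (q : ℤ) * f ≤ Q * f := mul_le_mul_of_nonneg_right (by omega) hf.le
    have hq0 : 0 ≤ (q : ℤ) * f := mul_nonneg (by omega) hf.le
    have hq' : (q' : ℤ) * f ≤ Q * f := mul_le_mul_of_nonneg_right (by omega) hf.le
    have hq0' : 0 ≤ (q' : ℤ) * f := mul_nonneg (by omega) hf.le
    rcases Nat.lt_or_ge i' i with hlt | hge
    · rcases le_or_gt q' q with hqq | hqq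
      · -- the index is `i - i'`
        have h5 : (q' : ℤ) * f ≤ q * f := mul_le_mul_of_nonneg_right (by omega) hf.le
        refine ⟨i - i', 0, by omega, by omega, ?_, ?_⟩
        · linarith
        · linarith
      · have h5 : ((q : ℤ) + 1) * f ≤ q' * f := mul_le_mul_of_nonneg_right (by omega) hf.le
        refine ⟨i - i' + 1, 0, by omega, by omega, ?_, ?_⟩
        · linarith
        · linarith
    · obtain rfl : i' = i := by omega
      have hqq := hne rfl
      have h5 : ((q' : ℤ) + 1) * f ≤ q * f := mul_le_mul_of_nonneg_right (by omega) hf.le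
      refine RA.symm hk ⟨1, 0, le_rfl, by omega, ?_, ?_⟩
      · linarith
      · linarith

lemma CliqueRel.symm {m : ℕ} {x x' : ℤ} {g : ℕ → ℤ} (h : CliqueRel k e f l m x x' g) :
    CliqueRel k e f l m x' x g := ⟨fun t ht => ⟨(h.1 t ht).2, (h.1 t ht).1⟩, h.2⟩

/-- Points at distance at most `s` have a common clique. -/
lemma exists_cliqueRel (hf : 0 < f) {Q : ℕ} {s : ℤ} (hs0 : 0 ≤ s)
    (he : e = (Q + 1) * f + s) (hk : k = l * e + f) {x x' n : ℤ}
    (h1 : -s ≤ x' - x + n * k) (h2 : x' - x + n * k ≤ s) :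
    ∃ g : ℕ → ℤ, CliqueRel k e f l (l * (Q + 1)) x x' g := by
  rcases le_or_gt 0 (x' - x + n * k) with h | h
  · exact exists_cliqueRel_aux hf hs0 he hk h h2
  · obtain ⟨g, hg⟩ := exists_cliqueRel_aux (x := x') (x' := x) (n := -n) hf hs0 he hk
      (by linarith) (by linarith)
    exact ⟨g, hg.symm⟩

/-- Points with a common clique are at distance at most `s`. -/
lemma dist_of_cliqueRel (hl : 1 ≤ l) (hf : 0 < f) {Q : ℕ} {s : ℤ} (hs0 : 0 ≤ s) (hsf : s < f)
    (he : e = (Q + 1) * f + s) (hk : k = l * e + f) {x x' : ℤ} {g : ℕ → ℤ}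
    (h : CliqueRel k e f l (l * (Q + 1)) x x' g) :
    ∃ n : ℤ, -s ≤ x' - x + n * k ∧ x' - x + n * k ≤ s := by
  have hQf : 0 ≤ (Q : ℤ) * f := mul_nonneg (by omega) hf.le
  have hQe : (Q : ℤ) * f + f + s = e := by rw [he]; ring
  have he0 : 0 < e := by omega
  have hfe : f ≤ e := by omega
  have hle : 0 ≤ (l : ℤ) * e := mul_nonneg (by omega) he0.le
  have hk0 : 0 < k := by omega
  obtain ⟨h1, h2⟩ := h
  -- lifts
  have hlift : ∀ t : ℕ, ∃ n : ℤ, 0 ≤ g t - x + n * k ∧ g t - x + n * k < 0 + k := fun t =>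
    exists_lift hk0 (g t - x) 0
  choose N hN1 hN2 using hlift
  set b : ℕ → ℤ := fun t => g t - x + N t * k with hb
  have hb0 : ∀ t, 0 ≤ b t := hN1
  have hbk : ∀ t, b t < k := fun t => by have := hN2 t; simp only [hb]; omega
  have hbA : ∀ t < l * (Q + 1), ∃ i : ℤ, 1 ≤ i ∧ i ≤ l ∧ (i - 1) * e + f ≤ b t ∧ b t ≤ i * e :=
    fun t ht => (h1 t ht).1.lift hf hfe hk rfl (hb0 t) (hbk t)
  have hpair : ∀ t < l * (Q + 1), ∀ t' < l * (Q + 1), b t < b t' →
      ∃ i : ℤ, 1 ≤ i ∧ i ≤ l ∧ (i - 1) * e + f ≤ b t' - b t ∧ b t' - b t ≤ i * e := by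
    intro t ht t' ht' hlt
    have hR : RA k e f l (g t) (g t') := by
      rcases lt_trichotomy t t' with h | h | h
      · exact h2 t' ht' t h
      · subst h; exact absurd hlt (lt_irrefl _)
      · exact (h2 t ht t' h).symm hk
    refine hR.lift (n := N t' - N t) hf hfe hk ?_ (by omega) (by have := hb0 t; have := hbk t'; omega)
    simp only [hb]; ring
  have hpair' : ∀ t < l * (Q + 1), ∀ t' < l * (Q + 1), b t < b t' → f ≤ b t' - b t := by
    intro t ht t' ht' hlt
    obtain ⟨i, i1, i2, i3, i4⟩ := hpair t ht t' ht' hlt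
    have : 0 ≤ (i - 1) * e := mul_nonneg (by omega) he0.le
    omega
  have hneq : ∀ t < l * (Q + 1), ∀ t' < l * (Q + 1), t ≠ t' → b t ≠ b t' := by
    intro t ht t' ht' hne heq
    have hR : RA k e f l (g t) (g t') := by
      rcases lt_or_gt_of_ne hne with h | h
      · exact h2 t' ht' t h
      · exact (h2 t ht t' h).symm hk
    obtain ⟨i, i1, i2, i3, i4⟩ := hR.lift (b := 0) (n := N t' - N t) hf hfe hk
      (by simp only [hb] at heq; linarith) le_rfl hk0
    have : 0 ≤ (i - 1) * e := mul_nonneg (by omega) he0.le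
    omega
  -- classes
  have hcls : ∀ t : ℕ, ∃ c : ℕ × ℕ, t < l * (Q + 1) → c.1 < l ∧ c.2 < Q + 1 ∧
      (c.1 : ℤ) * e + f ≤ b t ∧ ((c.1 : ℤ) + 1) * e - (c.2 + 1) * f < b t ∧
      b t ≤ ((c.1 : ℤ) + 1) * e - c.2 * f := by
    intro t
    by_cases ht : t < l * (Q + 1)
    · obtain ⟨i, i1, i2, i3, i4⟩ := hbA t ht
      have h5 : 0 ≤ (i * e - b t) / f := Int.ediv_nonneg (by omega) hf.le
      have h6 := Int.ediv_mul_le (i * e - b t) hf.ne'
      have h7 := Int.lt_ediv_add_one_mul_self (i * e - b t) hf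
      have h8 : (i * e - b t) / f < Q + 1 := by
        rw [Int.ediv_lt_iff_lt_mul hf]
        nlinarith
      refine ⟨((i - 1).toNat, ((i * e - b t) / f).toNat), fun _ => ⟨by simp only; omega,
        by simp only; omega, ?_, ?_, ?_⟩⟩
      · simp only
        rw [Int.toNat_of_nonneg (by omega)]
        exact i3
      · simp only
        rw [Int.toNat_of_nonneg (by omega), Int.toNat_of_nonneg h5]
        linarith
      · simp only
        rw [Int.toNat_of_nonneg (by omega), Int.toNat_of_nonneg h5]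
        linarith
    · exact ⟨(0, 0), fun h => absurd h ht⟩
  choose cls hcls using hcls
  have hinj : Set.InjOn cls (Finset.range (l * (Q + 1)) : Finset ℕ) := by
    intro t ht t' ht' heq
    have ht1 : t < l * (Q + 1) := by simpa using ht
    have ht1' : t' < l * (Q + 1) := by simpa using ht'
    by_contra hne
    obtain ⟨-, -, a3, a4, a5⟩ := hcls t ht1
    obtain ⟨-, -, b3, b4, b5⟩ := hcls t' ht1'
    rw [← heq] at b3 b4 b5
    rcases lt_or_gt_of_ne (hneq t ht1 t' ht1' hne) with h | h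
    · have := hpair' t ht1 t' ht1' h
      linarith
    · have := hpair' t' ht1' t ht1 h
      linarith
  have hsurj : ∀ i q : ℕ, i < l → q ≤ Q → ∃ t < l * (Q + 1), cls t = (i, q) := by
    intro i q hi hq
    have h5 : (Finset.range (l * (Q + 1))).image cls = Finset.range l ×ˢ Finset.range (Q + 1) := by
      apply Finset.eq_of_subset_of_card_le
      · intro c hc
        obtain ⟨t, ht, rfl⟩ := Finset.mem_image.1 hc
        obtain ⟨a1, a2, -⟩ := hcls t (by simpa using ht)
        simp [a1, a2]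
      · rw [Finset.card_image_of_injOn hinj]
        simp
    have h6 : (i, q) ∈ Finset.range l ×ˢ Finset.range (Q + 1) := by simp; omega
    rw [← h5] at h6
    obtain ⟨t, ht, h7⟩ := Finset.mem_image.1 h6
    exact ⟨t, by simpa using ht, h7⟩
  have hB : ∀ i q : ℕ, ∃ t : ℕ, i < l → q ≤ Q → t < l * (Q + 1) ∧ (i : ℤ) * e + f ≤ b t ∧
      ((i : ℤ) + 1) * e - (q + 1) * f < b t ∧ b t ≤ ((i : ℤ) + 1) * e - q * f := by
    intro i q
    by_cases hi : i < l
    · by_cases hq : q ≤ Q
      · obtain ⟨t, ht, hc⟩ := hsurj i q hi hq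
        obtain ⟨-, -, a3, a4, a5⟩ := hcls t ht
        rw [hc] at a3 a4 a5
        exact ⟨t, fun _ _ => ⟨ht, a3, a4, a5⟩⟩
      · exact ⟨0, fun _ h => absurd h hq⟩
    · exact ⟨0, fun h => absurd h hi⟩
  choose τ hτ using hB
  -- consecutive ones in a row
  have hrow : ∀ i < l, ∀ q, q + 1 ≤ Q → b (τ i (q + 1)) + f ≤ b (τ i q) := by
    intro i hi q hq
    obtain ⟨a1, a2, a3, a4⟩ := hτ i q hi (by omega)
    obtain ⟨b1, b2, b3, b4⟩ := hτ i (q + 1) hi hq
    push_cast at b4
    have := hpair' _ b1 _ a1 (by linarith)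
    linarith
  have hrow' : ∀ i < l, ∀ q ≤ Q, b (τ i Q) + (Q - q) * f ≤ b (τ i q) := by
    intro i hi q hq
    obtain ⟨j, rfl⟩ : ∃ j, Q = q + j := ⟨Q - q, by omega⟩
    clear hQf hQe hcls hsurj hinj hbA hpair hpair' hneq h1 h2 he
    have : ∀ j', j' ≤ j → b (τ i (q + j')) + j' * f ≤ b (τ i q) := by
      intro j'
      induction j' with
      | zero => intro _; simp
      | succ j' ih =>
        intro hj
        have h5 := ih (by omega)
        have h6 := hrow i hi (q + j') (by omega)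
        push_cast
        rw [show q + (j' + 1) = q + j' + 1 by ring]
        linarith
    have h5 := this j le_rfl
    push_cast
    linarith
  -- the point `x'`
  obtain ⟨n, hn1, hn2⟩ := exists_lift hk0 (x' - x) 0
  set y := x' - x + n * k with hy
  have hyk : y < k := by omega
  have hsep : ∀ t < l * (Q + 1), (b t < y → f ≤ y - b t) ∧ (y ≤ b t → f ≤ b t - y) := by
    intro t ht
    have hR := (h1 t ht).2
    constructor
    · intro hlt
      obtain ⟨i, i1, i2, i3, i4⟩ := (hR.symm hk).lift (b := y - b t) (n := n - N t) hf hfe hk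
        (by simp only [hb, hy]; ring) (by omega) (by have := hb0 t; omega)
      have : 0 ≤ (i - 1) * e := mul_nonneg (by omega) he0.le
      omega
    · intro hlt
      obtain ⟨i, i1, i2, i3, i4⟩ := hR.lift (b := b t - y) (n := N t - n) hf hfe hk
        (by simp only [hb, hy]; ring) (by omega) (by have := hbk t; omega)
      have : 0 ≤ (i - 1) * e := mul_nonneg (by omega) he0.le
      omega
  rcases lt_or_ge y f with hyf | hyf
  · -- close to `x` on the right
    refine ⟨n, by omega, ?_⟩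
    obtain ⟨a1, a2, a3, a4⟩ := hτ 0 Q (by omega) le_rfl
    have h5 := (hsep _ a1).2 (by push_cast at a2; linarith)
    push_cast at a4
    linarith
  rcases lt_or_ge (l * e) y with hyl | hyl
  · -- close to `x` on the left
    refine ⟨n - 1, ?_, ?_⟩
    · have e1 : x' - x + (n - 1) * k = y - k := by rw [hy]; ring
      rw [e1]
      obtain ⟨a1, a2, a3, a4⟩ := hτ (l - 1) 0 (by omega) (by omega)
      obtain ⟨b1, b2, b3, b4⟩ := hτ (l - 1) Q (by omega) le_rfl
      have hl1 : ((l - 1 : ℕ) : ℤ) = l - 1 := by omega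
      rw [hl1] at a2 a3 a4 b2 b3 b4
      have h5 := (hsep _ a1).1 (by push_cast at a4; linarith)
      have h6 := hrow' (l - 1) (by omega) 0 (by omega)
      push_cast at h6
      linarith
    · have e1 : x' - x + (n - 1) * k = y - k := by rw [hy]; ring
      rw [e1]
      omega
  -- the middle: impossible
  exfalso
  obtain ⟨i, hi1, hi2⟩ : ∃ i : ℤ, (i - 1) * e < y ∧ y ≤ i * e := by
    refine ⟨(y - 1) / e + 1, ?_, ?_⟩
    · have := Int.ediv_mul_le (y - 1) he0.ne'
      have e1 : ((y - 1) / e + 1 - 1) * e = (y - 1) / e * e := by ring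
      omega
    · have := Int.lt_ediv_add_one_mul_self (y - 1) he0
      omega
  have hi0 : 1 ≤ i := by
    by_contra hcon
    have : i * e ≤ 0 * e := mul_le_mul_of_nonneg_right (by omega) he0.le
    omega
  have hil : i ≤ l := by
    by_contra hcon
    have : (l : ℤ) * e ≤ (i - 1) * e := mul_le_mul_of_nonneg_right (by omega) he0.le
    omega
  obtain ⟨j, rfl⟩ : ∃ j : ℕ, i = j + 1 := ⟨(i - 1).toNat, by omega⟩
  have ej : ((j : ℤ) + 1 - 1) * e = j * e := by ring
  rw [ej] at hi1
  rcases le_or_gt (j * e + f) y with hyA | hyA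
  · -- `y` would be adjacent to `x`
    have h5 : 0 ≤ ((j + 1) * e - y) / f := Int.ediv_nonneg (by omega) hf.le
    have h6 := Int.ediv_mul_le ((j + 1) * e - y) hf.ne'
    have h7 := Int.lt_ediv_add_one_mul_self ((j + 1) * e - y) hf
    have h8 : ((j + 1) * e - y) / f < Q + 1 := by
      rw [Int.ediv_lt_iff_lt_mul hf]
      nlinarith
    obtain ⟨a1, a2, a3, a4⟩ := hτ j (((j + 1) * e - y) / f).toNat (by omega) (by omega)
    rw [Int.toNat_of_nonneg h5] at a3 a4
    rcases lt_or_ge (b (τ j (((j + 1) * e - y) / f).toNat)) y with h9 | h9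
    · have := (hsep _ a1).1 h9
      linarith
    · have := (hsep _ a1).2 h9
      linarith
  · -- `y` is in a gap
    obtain ⟨j', rfl⟩ : ∃ j' : ℕ, j = j' + 1 := by
      refine ⟨j - 1, ?_⟩
      have : j ≠ 0 := by
        rintro rfl
        simp at hyA
        omega
      omega
    push_cast at hi1 hi2 hyA hil
    obtain ⟨a1, a2, a3, a4⟩ := hτ j' 0 (by omega) (by omega)
    obtain ⟨b1, b2, b3, b4⟩ := hτ j' Q (by omega) le_rfl
    obtain ⟨c1, c2, c3, c4⟩ := hτ (j' + 1) Q (by omega) le_rfl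
    push_cast at a2 a3 a4 b2 b3 b4 c2 c3 c4
    have h5 := (hsep _ a1).1 (by linarith)
    have h6 := (hsep _ c1).2 (by linarith)
    have h7 := hrow' j' (by omega) 0 (by omega)
    push_cast at h7
    obtain ⟨i, i1, i2, i3, i4⟩ := hpair _ b1 _ c1 (by linarith)
    have h8 : i < 2 := by
      by_contra hcon
      have : 1 * e ≤ (i - 1) * e := mul_le_mul_of_nonneg_right (by omega) he0.le
      nlinarith
    obtain rfl : i = 1 := by omega
    linarith

end

end Pool.Agent.H79.Star
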